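import Pool.Agent.Work.MP_d94bda_cb.InterfaceA

/-!
Block BPU of THEOREM Z for MP_d94bda_al, typed by helper40.
-/

open scoped BigOperators

namespace Pool.ZgCB

universe u

/-- evaluation of an element of the bidual -/
noncomputable def BPU_ev (R : Type u) [Ring R] (M : Type u) [AddCommGroup M] [Module R M]
    (f : M →+ Circ) : Bid R M →+ Circ :=
  (AddMonoidHom.eval f : ((M →+ Circ) →+ Circ) →+ Circ)

/-- an element of the bidual as a homomorphism -/
def BPU_co (R : Type u) [Ring R] (M : Type u) [AddCommGroup M] [Module R M]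
    (F : Bid R M) : (M →+ Circ) →+ Circ := F

theorem BPU_ev_co (R : Type u) [Ring R] (M : Type u) [AddCommGroup M] [Module R M]
    (f : M →+ Circ) (F : Bid R M) : BPU_ev R M f F = BPU_co R M F f := rfl

theorem BPU_ev_emb (R : Type u) [Ring R] (M : Type u) [AddCommGroup M] [Module R M]
    (f : M →+ Circ) (x : M) : BPU_ev R M f (bidEmb R M x) = f x := rfl

theorem BPU_ev_smul (R : Type u) [Ring R] (M : Type u) [AddCommGroup M] [Module R M]
    (f : M →+ Circ) (r : R) (F : Bid R M) :
    BPU_ev R M f (r • F) = BPU_ev R M (f.comp (DistribSMul.toAddMonoidHom M r)) F := rfl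

theorem BPU_ev_sum (R : Type u) [Ring R] (M : Type u) [AddCommGroup M] [Module R M]
    {T : Type*} (s : Finset T) (f : T → (M →+ Circ)) (F : Bid R M) :
    ∑ t ∈ s, BPU_ev R M (f t) F = BPU_ev R M (∑ t ∈ s, f t) F := by
  simp only [BPU_ev_co]
  exact (map_sum (BPU_co R M F) f s).symm

theorem BPU_ev_zero (R : Type u) [Ring R] (M : Type u) [AddCommGroup M] [Module R M]
    (F : Bid R M) : BPU_ev R M 0 F = 0 := by
  rw [BPU_ev_co]
  exact map_zero (BPU_co R M F)

theorem p_BPU (hC : Stmt_CIR.{u}) : Stmt_BPU.{u} := by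
  classical
  intro R _ M _ _ n θ x hev
  obtain ⟨Y, hY⟩ := hev
  by_contra hno
  let L : (Fin θ.k → M) →+ (Fin θ.m → M) :=
    { toFun := fun y i => ∑ l, θ.B i l • y l
      map_zero' := by funext i; simp
      map_add' := fun y y' => by
        funext i
        simp [smul_add, Finset.sum_add_distrib] }
  have hL : ∀ y i, L y i = ∑ l, θ.B i l • y l := fun _ _ => rfl
  let g : Fin θ.m → M := fun i => ∑ j, θ.A i j • x j
  have hg : g ∉ L.range := by
    rintro ⟨y, hy⟩
    refine hno ⟨fun l => - y l, fun i => ?_⟩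
    have h1 : ∑ l, θ.B i l • y l = ∑ j, θ.A i j • x j := by
      rw [← hL y i, hy]
    simp only [smul_neg, Finset.sum_neg_distrib, h1]
    exact add_neg_cancel _
  obtain ⟨f, hf0, hf1⟩ := hC (Fin θ.m → M) L.range g hg
  let fi : Fin θ.m → (M →+ Circ) := fun i => f.comp (AddMonoidHom.single (fun _ => M) i)
  have hfi : ∀ i z, fi i z = f (Pi.single i z) := fun _ _ => rfl
  have hfs : ∀ v : Fin θ.m → M, f v = ∑ i, fi i (v i) := by
    intro v
    conv_lhs => rw [← Finset.univ_sum_single v]
    rw [map_sum]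
    rfl
  have hz : ∀ l, ∑ i, (fi i).comp (DistribSMul.toAddMonoidHom M (θ.B i l)) = 0 := by
    intro l
    refine AddMonoidHom.ext fun z => ?_
    rw [AddMonoidHom.finsetSum_apply, AddMonoidHom.zero_apply]
    have h1 := hf0 (L (Pi.single l z)) ⟨_, rfl⟩
    rw [hfs] at h1
    rw [← h1]
    refine Finset.sum_congr rfl fun i _ => ?_
    have h2 : L (Pi.single l z) i = θ.B i l • z := by
      rw [hL, Finset.sum_eq_single l]
      · rw [Pi.single_eq_same]
      · intro l' _ hne
        rw [Pi.single_eq_of_ne hne, smul_zero]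
      · intro h; exact absurd (Finset.mem_univ l) h
    rw [h2]
    rfl
  apply hf1
  have e1 : ∀ i, BPU_ev R M (fi i) (∑ j, θ.A i j • bidEmb R M (x j) + ∑ l, θ.B i l • Y l) = 0 := by
    intro i
    rw [hY i, map_zero]
  have e2 : ∀ i, fi i (g i) +
      ∑ l, BPU_ev R M ((fi i).comp (DistribSMul.toAddMonoidHom M (θ.B i l))) (Y l) = 0 := by
    intro i
    have h := e1 i
    rw [map_add, map_sum, map_sum] at h
    simp only [BPU_ev_smul, BPU_ev_emb] at h
    rw [← h]
    congr 1
    exact map_sum (fi i) _ _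
  have e3 : ∑ i, (fi i (g i) +
      ∑ l, BPU_ev R M ((fi i).comp (DistribSMul.toAddMonoidHom M (θ.B i l))) (Y l)) = 0 :=
    Finset.sum_eq_zero fun i _ => e2 i
  rw [Finset.sum_add_distrib, ← hfs g, Finset.sum_comm] at e3
  simp only [BPU_ev_sum, hz, BPU_ev_zero, Finset.sum_const_zero, add_zero] at e3
  exact e3

end Pool.ZgCB
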