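import Pool.Agent.Work.MP_d94bda_cb.InterfaceA

/-!
# Block CIR: the circle separates points from subgroups
-/

open scoped BigOperators

set_option autoImplicit false

namespace Pool.ZgCB

universe u

/-- the map `ℚ/ℤ → ℝ/ℤ` -/
noncomputable def CIR_map : AddCircle (1 : ℚ) →+ Circ :=
  QuotientAddGroup.map (AddSubgroup.zmultiples (1 : ℚ)) (AddSubgroup.zmultiples (1 : ℝ))
    (Rat.castHom ℝ).toAddMonoidHom (by
      intro x hx
      obtain ⟨n, hn⟩ := AddSubgroup.mem_zmultiples_iff.1 hx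
      rw [AddSubgroup.mem_comap, AddSubgroup.mem_zmultiples_iff]
      refine ⟨n, ?_⟩
      rw [← hn]
      simp)

theorem CIR_inj (x : AddCircle (1 : ℚ)) (h : CIR_map x = 0) : x = 0 := by
  induction x using QuotientAddGroup.induction_on with
  | H q =>
    have h1 : CIR_map (q : AddCircle (1 : ℚ)) = ((q : ℝ) : Circ) := rfl
    rw [h1] at h
    have h2 := (QuotientAddGroup.eq_zero_iff (N := AddSubgroup.zmultiples (1 : ℝ)) (q : ℝ)).1 h
    obtain ⟨n, hn⟩ := AddSubgroup.mem_zmultiples_iff.1 h2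
    refine (QuotientAddGroup.eq_zero_iff (N := AddSubgroup.zmultiples (1 : ℚ)) q).2 ?_
    rw [AddSubgroup.mem_zmultiples_iff]
    refine ⟨n, ?_⟩
    have h3 : ((n • (1 : ℚ) : ℚ) : ℝ) = (q : ℝ) := by
      rw [← hn]
      simp
    exact_mod_cast h3

theorem p_CIR : Stmt_CIR.{u} := by
  intro G _ H g hg
  have h1 : (QuotientAddGroup.mk' H g) ≠ 0 := by
    intro h
    exact hg ((QuotientAddGroup.eq_zero_iff g).1 h)
  obtain ⟨c, hc⟩ := CharacterModule.exists_character_apply_ne_zero_of_ne_zero h1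
  let c' : (G ⧸ H) →+ AddCircle (1 : ℚ) := c
  have hc' : c' (QuotientAddGroup.mk' H g) ≠ 0 := hc
  refine ⟨(CIR_map.comp c').comp (QuotientAddGroup.mk' H), ?_, ?_⟩
  · intro h hh
    have h2 : QuotientAddGroup.mk' H h = 0 := (QuotientAddGroup.eq_zero_iff h).2 hh
    rw [AddMonoidHom.comp_apply, h2, map_zero]
  · intro h
    exact hc' (CIR_inj _ h)

end Pool.ZgCB
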