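import Pool.Agent.Work.MP_d94bda_cb.InterfaceA

/-! Block DER. -/

open scoped BigOperators

namespace Pool.ZgCB

universe u

theorem p_DER (h1 : Stmt_DTR.{u}) (h2 : Stmt_DMT.{u}) (h3 : Stmt_DJN.{u}) (h4 : Stmt_DEX.{u})
    (h5 : Stmt_DIN.{u}) : Stmt_DER.{u} := by
  intro R _ r hr
  exact
    { le := fun φ ψ h => h5 R r hr φ ψ (hr.le φ ψ h)
      trans := fun φ ψ χ h h' => h1 R r hr φ ψ χ h h'
      meet := fun α θ₁ θ₂ h h' => h2 R r hr α θ₁ θ₂ h h'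
      join := fun β₁ β₂ ψ h h' => h3 R r hr β₁ β₂ ψ h h'
      exr := fun μ ν θ ρ h h' => h4 R r hr μ ν θ ρ h h' }

end Pool.ZgCB
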