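import Pool.Agent.Work.MP_d94bda_cb.InterfaceA

/-!
Block DEX of THEOREM Z for MP_d94bda_al, typed by helper40.
-/

open scoped BigOperators

namespace Pool.ZgCB

universe u

theorem DEX_swap {R : Type u} [Ring R] (ρ : P2 R) : ∃ ρ' : P2 R,
    ∀ (M : Type u) [AddCommGroup M] [Module R M] (x y : M), at2 ρ' x y ↔ at2 ρ y x := by
  obtain ⟨ρ', -, h⟩ := Dfn.reidx (Dfn.of (PP.over_top ρ)) (Sum.swap : Unit ⊕ Unit → Unit ⊕ Unit)
  refine ⟨ρ', fun M _ _ x y => ?_⟩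
  refine (h M _).trans ?_
  have : (fun c : Unit ⊕ Unit => (Sum.elim (fun _ => x) (fun _ => y) : Unit ⊕ Unit → M)
      (Sum.swap c)) = Sum.elim (fun _ => y) (fun _ => x) := by
    funext c; rcases c with c | c <;> rfl
  change PP.ev ρ M (fun c : Unit ⊕ Unit => (Sum.elim (fun _ => x) (fun _ => y) :
    Unit ⊕ Unit → M) (Sum.swap c)) ↔ _
  rw [this]
  rfl

theorem DEX_rd {R : Type u} [Ring R] (ρ : P2 R) (d : P1 R) : ∃ ρd : P2 R,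
    ∀ (M : Type u) [AddCommGroup M] [Module R M] (y x : M),
      at2 ρd y x ↔ at2 ρ y x ∧ at1 d y := by
  obtain ⟨ρ', -, h⟩ := Dfn.and (Dfn.of (PP.over_top ρ))
    (Dfn.reidx (Dfn.of (PP.over_top d)) (fun _ : Unit => (Sum.inl () : Unit ⊕ Unit)))
  refine ⟨ρ', fun M _ _ y x => ?_⟩
  unfold at2 at1
  rw [h]
  rfl

theorem DEX_F {R : Type u} [Ring R] (μ ν ζ : P1 R) (ρ' : P2 R) (M : Type u) [AddCommGroup M]
    [Module R M] (x : M) : at1 (joinF ν (μ.meet (exr ρ' ζ))) x ↔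
      ∃ x₁ x₂ : M, at1 ν x₁ ∧ (at1 μ x₂ ∧ ∃ y : M, at2 ρ' x₂ y ∧ at1 ζ y) ∧ x = x₁ + x₂ := by
  rw [at1_join]
  simp only [at1_meet, at1_exr]

theorem DEX_mono {R : Type u} [Ring R] (μ ν ζ ζ' : P1 R) (ρ' : P2 R) (h : Le ζ ζ') :
    Le (joinF ν (μ.meet (exr ρ' ζ))) (joinF ν (μ.meet (exr ρ' ζ'))) := by
  intro M _ _ a ha
  rw [DEX_F] at ha ⊢
  obtain ⟨x₁, x₂, h1, ⟨h2, y, h3, h4⟩, h5⟩ := ha
  exact ⟨x₁, x₂, h1, ⟨h2, y, h3, h M y h4⟩, h5⟩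

theorem DEX_claim {R : Type u} [Ring R] (r : P1 R → P1 R → Prop) (hr : Serre r)
    (μ ν θ : P1 R) (ρ ρ' : P2 R)
    (hρ' : ∀ (M : Type u) [AddCommGroup M] [Module R M] (x y : M), at2 ρ' x y ↔ at2 ρ y x)
    (hθ : ∀ (M : Type u) [AddCommGroup M] [Module R M] (y x : M),
      at2 ρ y x → at1 ν x → at1 θ y)
    (c d : P1 R) (h1 : Le ((exr ρ μ).meet θ) c) (h2 : Le c d) (h3 : Le d (exr ρ μ))
    (h4 : r (joinF ν (μ.meet (exr ρ' d))) (joinF ν (μ.meet (exr ρ' c)))) : r d c := by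
  obtain ⟨ρd, hρd⟩ := DEX_rd ρ d
  have hii := hr.exr _ _ c ρd h4 (by
    intro M _ _ y x hy hx
    rw [hρd] at hy
    rw [DEX_F] at hx
    obtain ⟨x₁, x₂, e1, ⟨e2, y', e3, e4⟩, rfl⟩ := hx
    rw [hρ'] at e3
    have e5 : at2 ρ (y - y') (x₁ + x₂ - x₂) := at2_sub ρ hy.1 e3
    rw [add_sub_cancel_right] at e5
    have e6 : at1 θ (y - y') := hθ M _ _ e5 e1
    have e7 : at1 d (y - y') := at1_sub d hy.2 (h2 M _ e4)
    have e8 : at1 c (y - y') := h1 M _ ((at1_meet _ _ _).2 ⟨h3 M _ e7, e6⟩)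
    have e9 := at1_add c e8 e4
    rwa [sub_add_cancel] at e9)
  refine hr.trans _ _ _ (hr.le _ _ ?_) hii
  intro M _ _ y hy
  rw [at1_exr]
  obtain ⟨x, hx1, hx2⟩ := (at1_exr ρ μ y).1 (h3 M y hy)
  refine ⟨x, (hρd M y x).2 ⟨hx1, hy⟩, ?_⟩
  rw [DEX_F]
  exact ⟨0, x, at1_zero ν, ⟨hx2, y, (hρ' M x y).2 hx1, hy⟩, (zero_add x).symm⟩

theorem p_DEX (h1 : Stmt_LMO.{u}) (h2 : Stmt_LIS.{u}) : Stmt_DEX.{u} := by
  intro R _ r hr μ ν θ ρ hd hθ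
  obtain ⟨L1, L2, -⟩ := h1 R r
  obtain ⟨ρ', hρ'⟩ := DEX_swap ρ
  obtain ⟨n, hn⟩ := hd
  refine ⟨n, fun hL => hn ?_⟩
  have key : ∀ (n : ℕ) (b t : P1 R), Le ((exr ρ μ).meet θ) b → Le t (exr ρ μ) → Long r n b t →
      Long r n (joinF ν (μ.meet (exr ρ' b))) (joinF ν (μ.meet (exr ρ' t))) := by
    intro n
    induction n with
    | zero => intro b t _ _ h; exact DEX_mono μ ν b t ρ' h
    | succ n ih =>
      intro b t hb ht h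
      obtain ⟨c, d, k1, k2, k3, k4⟩ := h
      refine ⟨_, _, ih b c hb (k2.trans (k3.trans ht)) k1, DEX_mono μ ν c d ρ' k2,
        DEX_mono μ ν d t ρ' k3, fun k5 => k4 ?_⟩
      exact DEX_claim r hr μ ν θ ρ ρ' hρ' hθ c d (hb.trans (L2 n b c k1)) k2 (k3.trans ht) k5
  have k := key n _ _ (Le.refl _) (Le.refl _) hL
  rw [h2 R r hr n μ ν]
  refine L1 n _ _ _ _ (le_join_left _ _) (join_le (le_join_right μ ν) ?_) k
  exact (meet_le_left _ _).trans (le_join_left μ ν)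

end Pool.ZgCB
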