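import Pool.Agent.Work.MP_d94bda_cb.InterfaceA

/-!
# Block DIN of MP_d94bda_al: a Serre relation is contained in its derivative (typed by helper6)
-/

namespace Pool.ZgCB

universe u

theorem p_DIN : Stmt_DIN.{u} := by
  intro R _ r hr φ ψ h
  refine ⟨1, ?_⟩
  rintro ⟨c, d, hbc, hcd, hdt, hn⟩
  have hbc' : Le (φ.meet ψ) c := hbc
  have h1 : r φ (φ.meet ψ) := hr.meet _ _ _ (hr.le _ _ (Le.refl φ)) h
  exact hn (hr.trans _ _ _ (hr.le _ _ hdt) (hr.trans _ _ _ h1 (hr.le _ _ hbc')))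

end Pool.ZgCB
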