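import Pool.Agent.Work.MP_d94bda_cb.InterfaceA

/-! # Block DJN: joins in the derivative of a relation -/

open scoped BigOperators

namespace Pool.ZgCB

universe u

theorem DJN_top (R : Type u) [Ring R] (β₁ β₂ ψ : P1 R) :
    Le (joinF (joinF (joinF β₁ β₂) ψ) β₁) (joinF β₂ (joinF ψ β₁)) := by
  have hβ₁ : Le β₁ (joinF β₂ (joinF ψ β₁)) :=
    (le_join_right ψ β₁).trans (le_join_right β₂ (joinF ψ β₁))
  have hψ : Le ψ (joinF β₂ (joinF ψ β₁)) :=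
    (le_join_left ψ β₁).trans (le_join_right β₂ (joinF ψ β₁))
  exact join_le (join_le (join_le hβ₁ (le_join_left β₂ (joinF ψ β₁))) hψ) hβ₁

theorem p_DJN (hLMO : Stmt_LMO.{u}) (hLSP : Stmt_LSP.{u}) (hLIS : Stmt_LIS.{u}) :
    Stmt_DJN.{u} := by
  rintro R _ r hr β₁ β₂ ψ ⟨N₁, h₁⟩ ⟨N₂, h₂⟩
  obtain ⟨m1, -, -, m4, -, -⟩ := hLMO R r
  refine ⟨N₁ + N₂, fun hL => ?_⟩
  have hL' := (hLIS R r hr (N₁ + N₂) (joinF β₁ β₂) ψ).1 hL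
  obtain ⟨n₁, n₂, hn, c1, c2⟩ := hLSP R r hr β₁ (N₁ + N₂) ψ (joinF (joinF β₁ β₂) ψ) hL'
  have d1 : Long r n₁ (β₁.meet ψ) β₁ := by
    refine m1 n₁ _ _ _ _ ?_ ?_ c1
    · intro M _ _ a ha
      rw [at1_meet] at ha ⊢
      exact ⟨ha.2, ha.1⟩
    · intro M _ _ a ha
      rw [at1_meet] at ha
      exact ha.2
  have d2 : Long r n₂ (β₂.meet ψ) β₂ := by
    have e1 : Long r n₂ (joinF ψ β₁) (joinF β₂ (joinF ψ β₁)) :=
      m1 n₂ _ _ _ _ (Le.refl _) (DJN_top R β₁ β₂ ψ) c2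
    have e2 := (hLIS R r hr n₂ β₂ (joinF ψ β₁)).2 e1
    refine m1 n₂ _ _ _ _ ?_ (Le.refl _) e2
    intro M _ _ a ha
    rw [at1_meet] at ha ⊢
    exact ⟨ha.1, le_join_left ψ β₁ M a ha.2⟩
  have e1 : n₁ < N₁ := by
    by_contra hcon
    exact h₁ (m4 n₁ N₁ _ _ (not_lt.1 hcon) d1)
  have e2 : n₂ < N₂ := by
    by_contra hcon
    exact h₂ (m4 n₂ N₂ _ _ (not_lt.1 hcon) d2)
  omega

end Pool.ZgCB
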