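import Pool.Agent.Work.MP_d94bda_cb.InterfaceA

/-! # Block DMT: meets (typed by helper49) -/

namespace Pool.ZgCB

universe u

theorem DMT_le {R : Type u} [Ring R] (α θ₁ θ₂ : P1 R) :
    Le ((α.meet θ₁).meet θ₂) ((α.meet (θ₁.meet θ₂)).meet θ₁) := by
  have h1 : Le ((α.meet θ₁).meet θ₂) α := (meet_le_left _ _).trans (meet_le_left _ _)
  have h2 : Le ((α.meet θ₁).meet θ₂) θ₁ := (meet_le_left _ _).trans (meet_le_right _ _)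
  have h3 : Le ((α.meet θ₁).meet θ₂) θ₂ := meet_le_right _ _
  exact le_meet (le_meet h1 (le_meet h2 h3)) h2

theorem p_DMT (hLMO : Stmt_LMO.{u}) (hLSP : Stmt_LSP.{u}) (hLIS : Stmt_LIS.{u}) :
    Stmt_DMT.{u} := by
  intro R _ r hr α θ₁ θ₂ h1 h2
  obtain ⟨n₀, h1⟩ := h1
  obtain ⟨m₀, h2⟩ := h2
  obtain ⟨mono, -, -, anti, -, -⟩ := hLMO R r
  refine ⟨n₀ + m₀, fun hL => ?_⟩
  obtain ⟨n₁, n₂, hn, ha, hb⟩ := hLSP R r hr θ₁ (n₀ + m₀) _ _ hL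
  have hb1 : Long r n₂ θ₁ (joinF α θ₁) :=
    mono n₂ _ _ _ _ (le_join_right _ _) (Le.refl _) hb
  have hb2 : Long r n₂ (α.meet θ₁) α := (hLIS R r hr n₂ α θ₁).2 hb1
  have hn2 : n₂ < n₀ := by
    by_contra h
    exact h1 (anti n₂ n₀ _ _ (by omega) hb2)
  have ha1 : Long r n₁ ((α.meet θ₁).meet θ₂) (α.meet θ₁) :=
    mono n₁ _ _ _ _ (DMT_le α θ₁ θ₂) (Le.refl _) ha
  have ha2 := (hLIS R r hr n₁ (α.meet θ₁) θ₂).1 ha1
  have ha3 : Long r n₁ θ₂ (joinF α θ₂) :=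
    mono n₁ _ _ _ _ (Le.refl _)
      (join_le ((meet_le_left _ _).trans (le_join_left _ _)) (le_join_right _ _)) ha2
  have ha4 : Long r n₁ (α.meet θ₂) α := (hLIS R r hr n₁ α θ₂).2 ha3
  have hn1 : n₁ < m₀ := by
    by_contra h
    exact h2 (anti n₁ m₀ _ _ (by omega) ha4)
  omega

end Pool.ZgCB
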