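import Pool.Agent.Work.MP_d94bda_cb.InterfaceA

/-! # Block DTR: transitivity of the derivative -/

namespace Pool.ZgCB

universe u

theorem DTR_le {R : Type u} [Ring R] (φ ψ χ : P1 R) :
    Le ((φ.meet ψ).meet (ψ.meet χ)) ((φ.meet χ).meet ψ) := by
  refine le_meet (le_meet ?_ ?_) ?_
  · exact (meet_le_left _ _).trans (meet_le_left _ _)
  · exact (meet_le_right _ _).trans (meet_le_right _ _)
  · exact (meet_le_left _ _).trans (meet_le_right _ _)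

theorem p_DTR (hLMO : Stmt_LMO.{u}) (hLSP : Stmt_LSP.{u}) (hLIS : Stmt_LIS.{u}) :
    Stmt_DTR.{u} := by
  intro R _ r hr φ ψ χ h1 h2
  obtain ⟨n₀, h1⟩ := h1
  obtain ⟨m₀, h2⟩ := h2
  obtain ⟨mono, -, -, anti, -, -⟩ := hLMO R r
  refine ⟨n₀ + m₀, fun hL => ?_⟩
  obtain ⟨n₁, n₂, hn, ha, hb⟩ := hLSP R r hr ψ (n₀ + m₀) _ _ hL
  have hb1 : Long r n₂ ψ (joinF φ ψ) :=
    mono n₂ _ _ _ _ (le_join_right _ _) (Le.refl _) hb
  have hb2 : Long r n₂ (φ.meet ψ) φ := (hLIS R r hr n₂ φ ψ).2 hb1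
  have hn2 : n₂ < n₀ := by
    by_contra h
    exact h1 (anti n₂ n₀ _ _ (by omega) hb2)
  have ha1 : Long r n₁ ((φ.meet ψ).meet (ψ.meet χ)) (φ.meet ψ) :=
    mono n₁ _ _ _ _ (DTR_le φ ψ χ) (Le.refl _) ha
  have ha2 := (hLIS R r hr n₁ (φ.meet ψ) (ψ.meet χ)).1 ha1
  have ha3 : Long r n₁ (ψ.meet χ) ψ :=
    mono n₁ _ _ _ _ (Le.refl _) (join_le (meet_le_right _ _) (meet_le_left _ _)) ha2
  have hn1 : n₁ < m₀ := by
    by_contra h
    exact h2 (anti n₁ m₀ _ _ (by omega) ha3)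
  omega

end Pool.ZgCB
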