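import Pool.Agent.Work.MP_d94bda_cb.InterfaceA

/-! # MP_d94bda_al, THEOREM Z: block EXT (extension lemma) -/

set_option autoImplicit false

open scoped BigOperators

namespace Pool.ZgCB

universe u

/-- linear relations between elements of `A` and elements of the family indexed by `X` -/
abbrev EXT_Rel (R A X : Type u) := Σ n : ℕ, (Fin n → R) × (Fin n → A ⊕ X)

/-- the condition which belongs to a relation -/
def EXT_cond {R : Type u} [Ring R] {A N X : Type u} (b : X → N) (e : EXT_Rel R A X) :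
    Cond R A N :=
  ⟨e.1, ⟨1, 0, fun _ => e.2.1, fun _ => Fin.elim0⟩, fun l => Sum.map id b (e.2.2 l)⟩

theorem EXT_holds {R : Type u} [Ring R] {A N X : Type u} [AddCommGroup N] [Module R N]
    (b : X → N) (e : EXT_Rel R A X) (x : A → N) :
    (EXT_cond b e).holds x ↔ ∑ l, e.2.1 l • Sum.elim x b (e.2.2 l) = 0 := by
  have h : ∀ l, Sum.elim x id (Sum.map id b (e.2.2 l)) = Sum.elim x b (e.2.2 l) := by
    intro l
    rcases e.2.2 l with t | z <;> rfl
  unfold Cond.holds EXT_cond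
  rw [PP.ev_mk]
  constructor
  · rintro ⟨y, hy⟩
    have := hy 0
    simpa [h] using this
  · intro hx
    exact ⟨Fin.elim0, fun i => by simpa [h] using hx⟩

theorem p_EXT : Stmt_EXT := by
  classical
  intro R _ A N _ _ _ _ hAC X a b hab
  let tr : EXT_Rel R A X → Prop := fun e => ∑ l, e.2.1 l • Sum.elim id a (e.2.2 l) = 0
  let Φ : Set (Cond R A N) := {κ | ∃ e : EXT_Rel R A X, tr e ∧ EXT_cond b e = κ}
  have hfin : ∀ F ⊆ Φ, F.Finite → ∃ x : A → N, ∀ c ∈ F, c.holds x := by
    intro F hF hFf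
    have : Finite F := hFf
    have hch : ∀ κ : F, ∃ e : EXT_Rel R A X, tr e ∧ EXT_cond b e = κ.1 := fun κ => hF κ.2
    choose e he1 he2 using hch
    have hS : (⋃ κ : F, Set.range (e κ).2.2).Finite :=
      Set.finite_iUnion fun κ => Set.finite_range _
    obtain ⟨k, eT, hinj, hrT⟩ :=
      (hS.preimage (Sum.inl_injective.injOn : Set.InjOn (Sum.inl : A → A ⊕ X) _)).fin_param
    obtain ⟨n, eX, -, hrX⟩ :=
      (hS.preimage (Sum.inr_injective.injOn : Set.InjOn (Sum.inr : X → A ⊕ X) _)).fin_param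
    have hρ : ∀ (κ : F) (l : Fin (e κ).1), ∃ i : Fin n ⊕ Fin k,
        (e κ).2.2 l = Sum.elim (fun i => Sum.inr (eX i)) (fun j => Sum.inl (eT j)) i := by
      intro κ l
      have hl : (e κ).2.2 l ∈ ⋃ κ : F, Set.range (e κ).2.2 :=
        Set.mem_iUnion.2 ⟨κ, Set.mem_range_self l⟩
      rcases hw : (e κ).2.2 l with t | z
      · rw [hw] at hl
        have : t ∈ Set.range eT := by rw [hrT]; exact hl
        obtain ⟨j, rfl⟩ := this
        exact ⟨Sum.inr j, rfl⟩
      · rw [hw] at hl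
        have : z ∈ Set.range eX := by rw [hrX]; exact hl
        obtain ⟨j, rfl⟩ := this
        exact ⟨Sum.inl j, rfl⟩
    choose ρ hρ using hρ
    have hD : Dfn (⊤ : Subring R) (fun M _ _ (x : Fin n → M) => ∃ z : Fin k → M,
        ∀ κ : F, ∑ l, (e κ).2.1 l • (Sum.elim x z (ρ κ l)) = 0) :=
      Dfn.ex (Dfn.all fun κ => (Dfn.lin (e κ).2.1 (fun _ => Subring.mem_top _)).reidx (ρ κ))
    obtain ⟨θ, -, hθ⟩ := hD
    have hA : θ.ev A (fun i => a (eX i)) := by
      rw [hθ]
      refine ⟨eT, fun κ => ?_⟩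
      have h1 := he1 κ
      rw [← h1]
      refine Finset.sum_congr rfl fun l _ => ?_
      rw [hρ κ l]
      rcases ρ κ l with i | j <;> rfl
    have hN := hab n θ eX hA
    rw [hθ] at hN
    obtain ⟨z, hz⟩ := hN
    refine ⟨Function.extend eT z 0, fun c hc => ?_⟩
    have h2 := he2 ⟨c, hc⟩
    rw [← show EXT_cond b (e ⟨c, hc⟩) = c from h2, EXT_holds]
    have h3 := hz ⟨c, hc⟩
    rw [← h3]
    refine Finset.sum_congr rfl fun l _ => ?_
    rw [hρ ⟨c, hc⟩ l]
    rcases ρ ⟨c, hc⟩ l with i | j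
    · rfl
    · simp only [Sum.elim_inr, Sum.elim_inl]
      rw [hinj.extend_apply]
  obtain ⟨x, hx⟩ := hAC A Φ hfin
  have key : ∀ e : EXT_Rel R A X, tr e → ∑ l, e.2.1 l • Sum.elim x b (e.2.2 l) = 0 := by
    intro e he
    exact (EXT_holds b e x).1 (hx _ ⟨e, he, rfl⟩)
  refine ⟨{ toFun := x, map_add' := fun s t => ?_, map_smul' := fun r s => ?_ }, fun z => ?_⟩
  · have := key ⟨3, ![1, 1, -1], ![Sum.inl s, Sum.inl t, Sum.inl (s + t)]⟩
      (by simp [tr, Fin.sum_univ_three]; abel)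
    simp only [Fin.sum_univ_three, Matrix.cons_val_zero, Matrix.cons_val_one, Matrix.cons_val,
      Sum.elim_inl, one_smul, neg_smul] at this
    rw [← sub_eq_add_neg, sub_eq_zero] at this
    exact this.symm
  · have := key ⟨2, ![r, -1], ![Sum.inl s, Sum.inl (r • s)]⟩ (by simp [tr, Fin.sum_univ_two])
    simp only [Fin.sum_univ_two, Matrix.cons_val_zero, Matrix.cons_val_one,
      Sum.elim_inl, neg_smul, one_smul] at this
    rw [← sub_eq_add_neg, sub_eq_zero] at this
    exact this.symm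
  · have := key ⟨2, ![1, -1], ![Sum.inl (a z), Sum.inr z]⟩ (by simp [tr, Fin.sum_univ_two])
    simp only [Fin.sum_univ_two, Matrix.cons_val_zero, Matrix.cons_val_one,
      Sum.elim_inl, Sum.elim_inr, neg_smul, one_smul] at this
    rw [← sub_eq_add_neg, sub_eq_zero] at this
    exact this

end Pool.ZgCB
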