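import Pool.Agent.Work.MP_d94bda_cb.InterfaceB

/-!
# Block `FGC`: a pure embedding of a finitely generated module without pure quotients is onto
-/

set_option autoImplicit false

open scoped BigOperators

namespace Pool.ZgCB

universe u

/-- The formula `∃ y, ⋀_i ∑ A i j x_j + ∑ B i l y_l - r_i z + r_i z' = 0`. -/
def FGC_th {R : Type u} [Ring R] {n : ℕ} (θ : PP R (Fin n)) (r : Fin θ.m → R) :
    PP R (Unit ⊕ Fin (n + 1)) where
  m := θ.m
  k := θ.k
  A := fun i => Sum.elim (fun _ => - r i) (Fin.snoc (α := fun _ => R) (θ.A i) (r i))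
  B := θ.B

theorem FGC_ev {R : Type u} [Ring R] {n : ℕ} (θ : PP R (Fin n)) (r : Fin θ.m → R)
    {M : Type u} [AddCommGroup M] [Module R M] (z z' : M) (x : Fin n → M) :
    atn (FGC_th θ r) z (Fin.snoc (α := fun _ => M) x z') ↔
      ∃ y : Fin θ.k → M, ∀ i, ∑ j, θ.A i j • x j + r i • z' - r i • z + ∑ l, θ.B i l • y l = 0 := by
  unfold atn FGC_th
  rw [PP.ev_mk]
  refine exists_congr fun y => forall_congr' fun i => ?_
  rw [Fintype.sum_sum_type, Fin.sum_univ_castSucc]
  simp only [Sum.elim_inl, Sum.elim_inr, Fin.snoc_castSucc, Fin.snoc_last, Finset.univ_unique,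
    Finset.sum_singleton, neg_smul]
  have e : - (r i • z) + (∑ j, θ.A i j • x j + r i • z') =
      ∑ j, θ.A i j • x j + r i • z' - r i • z := by abel
  rw [e]

theorem p_FGC (hMCO : Stmt_MCO.{u}) : Stmt_FGC.{u} := by
  intro R _ C _ _ _ _ X M _ _ _ _ f hfin hf hB m
  obtain ⟨z0, hz0⟩ := hMCO R C X M f hfin hf m
  have hpure : PureEmb ((Submodule.span R {m - f z0}).mkQ ∘ₗ f) := by
    rintro n θ x ⟨y, hy⟩
    have hl : ∀ l, ∃ y' : M, (Submodule.span R {m - f z0}).mkQ y' = y l :=
      fun l => Submodule.mkQ_surjective _ (y l)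
    choose y' hy' using hl
    have hr : ∀ i, ∃ r : R, r • (m - f z0) = ∑ j, θ.A i j • f (x j) + ∑ l, θ.B i l • y' l := by
      intro i
      rw [← Submodule.mem_span_singleton, ← Submodule.Quotient.mk_eq_zero, ← Submodule.mkQ_apply,
        map_add, map_sum, map_sum]
      simp only [map_smul, hy']
      exact hy i
    choose r hr using hr
    have h1 : atn (FGC_th θ r) m (fun i => f ((Fin.snoc (α := fun _ => X) x z0 : Fin (n + 1) → X) i)) := by
      have e : (fun i => f ((Fin.snoc (α := fun _ => X) x z0 : Fin (n + 1) → X) i)) =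
          Fin.snoc (α := fun _ => M) (fun j => f (x j)) (f z0) := by
        funext i
        refine Fin.lastCases ?_ (fun j => ?_) i
        · rw [Fin.snoc_last, Fin.snoc_last]
        · rw [Fin.snoc_castSucc, Fin.snoc_castSucc]
      rw [e, FGC_ev]
      refine ⟨y', fun i => ?_⟩
      have h2 := hr i
      rw [smul_sub] at h2
      have e2 : ∑ j, θ.A i j • f (x j) + r i • f z0 - r i • m + ∑ l, θ.B i l • y' l =
          (∑ j, θ.A i j • f (x j) + ∑ l, θ.B i l • y' l) - (r i • m - r i • f z0) := by abel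
      rw [e2, ← h2, sub_self]
    have h3 := hz0 (n + 1) (FGC_th θ r) (Fin.snoc (α := fun _ => X) x z0) h1
    rw [FGC_ev] at h3
    obtain ⟨w, hw⟩ := h3
    refine ⟨w, fun i => ?_⟩
    have h4 := hw i
    rwa [add_sub_cancel_right] at h4
  have h0 := hB _ hpure
  rw [Submodule.span_singleton_eq_bot, sub_eq_zero] at h0
  exact ⟨z0, h0.symm⟩

end Pool.ZgCB
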