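import Pool.Agent.Work.MP_d94bda_cb.InterfaceB

/-! # Block FGP: finitely generated modules are pure-injective -/

open scoped BigOperators

namespace Pool.ZgCB

universe u

theorem FGP_inj {R : Type u} [Ring R] {N M : Type u} [AddCommGroup N] [Module R N]
    [AddCommGroup M] [Module R M] (f : N →ₗ[R] M) (hf : PureEmb f) (x : N) (h : f x = 0) :
    x = 0 := by
  have h1 := hf 1 ⟨1, 0, fun _ _ => 1, fun _ _ => 0⟩ (fun _ => x) (by
    refine ⟨fun _ => 0, fun i => ?_⟩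
    simp [h])
  obtain ⟨y, hy⟩ := h1
  have h2 := hy 0
  simpa using h2

theorem p_FGP (h1 : Stmt_FGZ.{u}) (h2 : Stmt_FGC.{u}) : Stmt_FGP.{u} := by
  intro R _ C _ _ _ _ X _ _ hX M _ _ f hf
  obtain ⟨M', _, _, q, hq, hmin⟩ := h1 R X M f hf
  have hs : Function.Surjective (q ∘ₗ f) := h2 R C X M' (q ∘ₗ f) hX hq hmin
  have hi : Function.Injective (q ∘ₗ f) := by
    rw [injective_iff_map_eq_zero]
    exact fun x hx => FGP_inj _ hq x hx
  refine ⟨(LinearEquiv.ofBijective (q ∘ₗ f) ⟨hi, hs⟩).symm.toLinearMap ∘ₗ q, fun x => ?_⟩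
  show (LinearEquiv.ofBijective (q ∘ₗ f) ⟨hi, hs⟩).symm (q (f x)) = x
  rw [LinearEquiv.symm_apply_eq]
  rfl

end Pool.ZgCB
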