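import Pool.Agent.Work.MP_d94bda_cb.InterfaceB

/-! # MP_d94bda_al, THEOREM Z: block FGZ (Zorn for pure quotients) -/

set_option autoImplicit false

open scoped BigOperators

namespace Pool.ZgCB

universe u

theorem FGZ_iff {R : Type u} [Ring R] {M : Type u} [AddCommGroup M] [Module R M]
    (B : Submodule R M) {n : ℕ} (θ : PP R (Fin n)) (x : Fin n → M) :
    θ.ev (M ⧸ B) (fun i => B.mkQ (x i)) ↔
      ∃ y : Fin θ.k → M, ∀ i, ∑ j, θ.A i j • x j + ∑ l, θ.B i l • y l ∈ B := by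
  unfold PP.ev
  constructor
  · rintro ⟨y, hy⟩
    choose z hz using fun l => B.mkQ_surjective (y l)
    refine ⟨z, fun i => ?_⟩
    have h := hy i
    rw [← Submodule.ker_mkQ B, LinearMap.mem_ker, map_add, map_sum, map_sum]
    simp only [map_smul, hz]
    exact h
  · rintro ⟨z, hz⟩
    refine ⟨fun l => B.mkQ (z l), fun i => ?_⟩
    have h := hz i
    rw [← Submodule.ker_mkQ B, LinearMap.mem_ker, map_add, map_sum, map_sum] at h
    simp only [map_smul] at h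
    exact h

theorem FGZ_chain {R : Type u} [Ring R] {X M : Type u} [AddCommGroup X] [Module R X]
    [AddCommGroup M] [Module R M] (f : X →ₗ[R] M) (c : Set (Submodule R M))
    (hc : ∀ B ∈ c, PureEmb (B.mkQ ∘ₗ f)) (hch : IsChain (· ≤ ·) c) (hne : c.Nonempty) :
    PureEmb ((sSup c).mkQ ∘ₗ f) := by
  intro n θ x h
  have h1 : θ.ev (M ⧸ sSup c) (fun i => (sSup c).mkQ (f (x i))) := h
  rw [FGZ_iff (sSup c) θ (fun i => f (x i))] at h1
  obtain ⟨y, hy⟩ := h1
  have hdir : DirectedOn (· ≤ ·) c := hch.directedOn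
  have h2 : ∀ i, ∃ B ∈ c, ∑ j, θ.A i j • f (x j) + ∑ l, θ.B i l • y l ∈ B := fun i =>
    (Submodule.mem_sSup_of_directed hne hdir).1 (hy i)
  choose g hg hg2 using h2
  haveI : Nonempty c := hne.to_subtype
  obtain ⟨z, hz⟩ := (directedOn_iff_directed.1 hdir).finite_le (fun i : Fin θ.m => (⟨g i, hg i⟩ : c))
  have h3 : θ.ev (M ⧸ z.1) (fun i => z.1.mkQ (f (x i))) :=
    (FGZ_iff z.1 θ (fun i => f (x i))).2 ⟨y, fun i => hz i (hg2 i)⟩
  exact hc z.1 z.2 n θ x h3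

theorem p_FGZ : Stmt_FGZ.{u} := by
  intro R _ X M _ _ _ _ f hf
  obtain ⟨B, -, hB⟩ := zorn_le_nonempty₀ {B : Submodule R M | PureEmb (B.mkQ ∘ₗ f)}
    (fun c hc hch y hy => ⟨sSup c, FGZ_chain f c (fun B hB => hc hB) hch ⟨y, hy⟩,
      fun z hz => le_sSup hz⟩) ⊥ (by
        intro n θ x h
        have h1 : θ.ev (M ⧸ (⊥ : Submodule R M)) (fun i => (⊥ : Submodule R M).mkQ (f (x i))) := h
        rw [FGZ_iff ⊥ θ (fun i => f (x i))] at h1
        obtain ⟨y, hy⟩ := h1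
        exact hf n θ x ⟨y, fun i => (Submodule.mem_bot R).1 (hy i)⟩)
  have hB1 : PureEmb (B.mkQ ∘ₗ f) := hB.prop
  refine ⟨M ⧸ B, inferInstance, inferInstance, B.mkQ, hB1, fun B' hB' => ?_⟩
  have h2 : PureEmb ((B'.comap B.mkQ).mkQ ∘ₗ f) := by
    intro n θ x h
    have h1 : θ.ev (M ⧸ B'.comap B.mkQ) (fun i => (B'.comap B.mkQ).mkQ (f (x i))) := h
    rw [FGZ_iff (B'.comap B.mkQ) θ (fun i => f (x i))] at h1
    obtain ⟨y, hy⟩ := h1
    have h3 : θ.ev ((M ⧸ B) ⧸ B') (fun i => B'.mkQ (B.mkQ (f (x i)))) := by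
      rw [FGZ_iff B' θ (fun i => B.mkQ (f (x i)))]
      refine ⟨fun l => B.mkQ (y l), fun i => ?_⟩
      have h4 := hy i
      rw [Submodule.mem_comap, map_add, map_sum, map_sum] at h4
      simp only [map_smul] at h4
      exact h4
    exact hB' n θ x h3
  have h5 : B ≤ B'.comap B.mkQ := by
    intro b hb
    rw [Submodule.mem_comap]
    have : B.mkQ b = 0 := by rw [← LinearMap.mem_ker, Submodule.ker_mkQ]; exact hb
    rw [this]
    exact B'.zero_mem
  have h6 : B'.comap B.mkQ ≤ B := hB.le_of_ge h2 h5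
  rw [eq_bot_iff]
  intro z hz
  obtain ⟨w, rfl⟩ := B.mkQ_surjective z
  have h7 : w ∈ B := h6 hz
  rw [Submodule.mem_bot, ← LinearMap.mem_ker, Submodule.ker_mkQ]
  exact h7

end Pool.ZgCB
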