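import Pool.Agent.Work.MP_d94bda_cb.InterfaceB

/-! Block FMP. -/

open scoped BigOperators

namespace Pool.ZgCB

universe u

theorem p_FMP (h1 : Stmt_LMO.{u}) : Stmt_FMP.{u} := by
  intro R _ n
  obtain ⟨-, -, -, -, h5, -⟩ := h1 R Le
  induction n with
  | zero =>
    intro b t hbt hL
    exact absurd hbt hL
  | succ n ih =>
    intro b t hbt hL N _ _ hO
    by_cases hmin : IsMinPair b t
    · exact ⟨b, t, Le.refl b, Le.refl t, hmin, hO⟩
    · have htb : ¬ Le t b := by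
        intro h
        obtain ⟨a, ha, hna⟩ := hO
        exact hna (h N a ha)
      obtain ⟨θ, hθ1, hθ2, hθ3, hθ4⟩ : ∃ θ, Le b θ ∧ Le θ t ∧ ¬ Le θ b ∧ ¬ Le t θ := by
        by_contra hcon
        apply hmin
        refine ⟨hbt, htb, fun θ h2 h3 => ?_⟩
        by_contra h4
        push Not at h4
        exact hcon ⟨θ, h2, h3, h4.1, h4.2⟩
      have hL1 : ¬ Long Le n b θ := fun h => hL ⟨θ, t, h, hθ2, Le.refl t, hθ4⟩
      have hL2 : ¬ Long Le n θ t := fun h => hL (h5 n b θ t hθ1 hθ3 h)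
      obtain ⟨a, ha, hna⟩ := hO
      by_cases haθ : at1 θ a
      · obtain ⟨c, d, hc, hd, hm, ho⟩ := ih b θ hθ1 hL1 N ⟨a, haθ, hna⟩
        exact ⟨c, d, hc, hd.trans hθ2, hm, ho⟩
      · obtain ⟨c, d, hc, hd, hm, ho⟩ := ih θ t hθ2 hL2 N ⟨a, ha, haθ⟩
        exact ⟨c, d, hθ1.trans hc, hd, hm, ho⟩

end Pool.ZgCB
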