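import Pool.Agent.Work.MP_d94bda_cb.InterfaceA

/-!
# MP_d94bda_al, block FRE: free realization of a pp formula
-/

open scoped BigOperators

namespace Pool.ZgCB

universe u

theorem FRE_row {R : Type u} [Ring R] {ι κ : Type} [Fintype ι] [Fintype κ] [DecidableEq ι]
    [DecidableEq κ] (a : ι → R) (b : κ → R) :
    ∑ j, a j • (Pi.single (Sum.inl j) 1 : ι ⊕ κ → R) +
      ∑ l, b l • (Pi.single (Sum.inr l) 1 : ι ⊕ κ → R) = Sum.elim a b := by
  funext v
  rcases v with j | l
  · simp [Finset.sum_apply, Pi.single_apply]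
  · simp [Finset.sum_apply, Pi.single_apply]

theorem p_FRE : Stmt_FRE.{u} := by
  classical
  intro R _ ι _ θ
  let P : Submodule R (ι ⊕ Fin θ.k → R) :=
    Submodule.span R (Set.range fun i : Fin θ.m => (Sum.elim (θ.A i) (θ.B i) : ι ⊕ Fin θ.k → R))
  refine ⟨(ι ⊕ Fin θ.k → R) ⧸ P, inferInstance, inferInstance,
    fun j => P.mkQ (Pi.single (Sum.inl j) 1), inferInstance, ?_, ?_⟩
  · refine ⟨fun l => P.mkQ (Pi.single (Sum.inr l) 1), fun i => ?_⟩
    have h : P.mkQ (Sum.elim (θ.A i) (θ.B i)) = 0 := by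
      rw [Submodule.mkQ_apply, Submodule.Quotient.mk_eq_zero]
      exact Submodule.subset_span ⟨i, rfl⟩
    rw [← FRE_row, map_add, map_sum, map_sum] at h
    simpa only [map_smul] using h
  · rintro M _ _ x ⟨y, hy⟩
    let g : (ι ⊕ Fin θ.k → R) →ₗ[R] M := Fintype.linearCombination R (Sum.elim x y)
    have hg : P ≤ LinearMap.ker g := by
      refine Submodule.span_le.2 ?_
      rintro _ ⟨i, rfl⟩
      show g (Sum.elim (θ.A i) (θ.B i)) = 0
      rw [Fintype.linearCombination_apply, Fintype.sum_sum_type]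
      simpa only [Sum.elim_inl, Sum.elim_inr] using hy i
    refine ⟨P.liftQ g hg, fun j => ?_⟩
    show (P.liftQ g hg) (P.mkQ (Pi.single (Sum.inl j) 1)) = x j
    rw [Submodule.mkQ_apply, Submodule.liftQ_apply]
    show Fintype.linearCombination R (Sum.elim x y) (Pi.single (Sum.inl j) 1) = x j
    rw [Fintype.linearCombination_apply_single, one_smul, Sum.elim_inl]

end Pool.ZgCB
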