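import Pool.Agent.Work.MP_d94bda_cb.InterfaceA

open scoped BigOperators

namespace Pool.ZgCB

universe u

/-- A pure homomorphism is injective. -/
theorem HI_inj {R : Type u} [Ring R] {N M : Type u} [AddCommGroup N] [Module R N]
    [AddCommGroup M] [Module R M] (f : N →ₗ[R] M) (hf : PureEmb f) (x : N) (hx : f x = 0) :
    x = 0 := by
  have key := hf 1 (⟨1, 0, fun _ _ => 1, fun _ => Fin.elim0⟩ : PP R (Fin 1)) (fun _ => x)
  rw [PP.ev_mk, PP.ev_mk] at key
  have h1 := key ⟨Fin.elim0, fun i => by simp [hx]⟩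
  obtain ⟨y, hy⟩ := h1
  have := hy 0
  simpa using this

theorem p_HI : Stmt_HI.{u} := by
  intro R _ N _ _ p a hp hbot hirr hrig
  refine ⟨?_, ?_⟩
  · refine ⟨a, 0, fun h0 => hbot ?_⟩
    rw [← hp, at1_bot]
    exact h0
  · intro e he
    by_cases h1 : ∀ θ : P1 R, at1 θ (e a) → θ ∈ p
    · right
      intro x
      have hpe := hrig N e h1
      have h2 : e (e x - x) = 0 := by rw [map_sub, he, sub_self]
      have h3 := HI_inj e hpe _ h2
      exact sub_eq_zero.1 h3
    · by_cases h2 : ∀ θ : P1 R, at1 θ (a - e a) → θ ∈ p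
      · left
        intro x
        have hpe := hrig N (LinearMap.id - e) (fun θ hθ => h2 θ (by simpa using hθ))
        have h3 : (LinearMap.id - e : N →ₗ[R] N) (e x) = 0 := by
          simp [he]
        exact HI_inj _ hpe _ h3
      · exfalso
        push Not at h1 h2
        obtain ⟨ω₁, hω₁, hn₁⟩ := h1
        obtain ⟨ω₂, hω₂, hn₂⟩ := h2
        obtain ⟨α, hα, hj⟩ := hirr ω₁ ω₂ hn₁ hn₂
        apply hj
        rw [← hp, at1_join]
        have hαa : at1 α a := (hp α).2 hα
        have hα1 : at1 α (e a) := at1_map α e hαa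
        refine ⟨e a, a - e a, ?_, ?_, by abel⟩
        · exact (at1_meet _ _ _).2 ⟨hα1, hω₁⟩
        · exact (at1_meet _ _ _).2 ⟨at1_sub α hαa hα1, hω₂⟩

end Pool.ZgCB
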