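import Pool.Agent.Work.MP_d94bda_cb.InterfaceA

/-! Block HN: maximal rigid submodule. -/

open scoped BigOperators

namespace Pool.ZgCB

universe u

/-- the submodule `L` reflects the formulas under all endomorphisms which fix `a` -/
def HNgood {R : Type u} [Ring R] {E : Type u} [AddCommGroup E] [Module R E] (a : E)
    (e : E →ₗ[R] E) (L : Submodule R E) : Prop :=
  LinearMap.range e ≤ L ∧ ∀ g : E →ₗ[R] E, g a = a → ∀ (n : ℕ) (θ : PP R (Fin n))
    (x : Fin n → E), (∀ i, x i ∈ L) → θ.ev E (fun i => g (x i)) → θ.ev E x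

theorem HN_chain {R : Type u} [Ring R] {E : Type u} [AddCommGroup E] [Module R E] (a : E)
    (e : E →ₗ[R] E) (c : Set (Submodule R E)) (hc : ∀ L ∈ c, HNgood a e L)
    (hch : IsChain (· ≤ ·) c) (y : Submodule R E) (hy : y ∈ c) : HNgood a e (sSup c) := by
  have hne : c.Nonempty := ⟨y, hy⟩
  refine ⟨(hc y hy).1.trans (le_sSup hy), ?_⟩
  intro g hg n θ x hx hθ
  have hdir : DirectedOn (· ≤ ·) c := hch.directedOn
  have h1 : ∀ i, ∃ L : c, x i ∈ (L : Submodule R E) := by
    intro i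
    obtain ⟨L, hL, hxL⟩ := (Submodule.mem_sSup_of_directed hne hdir).1 (hx i)
    exact ⟨⟨L, hL⟩, hxL⟩
  choose f hf using h1
  have : Nonempty c := ⟨⟨y, hy⟩⟩
  obtain ⟨z, hz⟩ := (directedOn_iff_directed.1 hdir).finite_le f
  exact (hc z.1 z.2).2 g hg n θ x (fun i => hz i (hf i)) hθ

theorem p_HN (hHZ : Stmt_HZ.{u}) (hEXT : Stmt_EXT.{u}) (hRET : Stmt_RET.{u}) :
    Stmt_HN.{u} := by
  intro R _ E _ _ hAC a
  obtain ⟨e, hea, he⟩ := hHZ R E hAC a
  have hr : HNgood a e (LinearMap.range e) := by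
    refine ⟨le_rfl, ?_⟩
    intro g hg n θ x hx hθ
    choose z hz using hx
    have h1 : x = fun i => e (z i) := funext fun i => (hz i).symm
    subst h1
    exact he g hg n θ z hθ
  obtain ⟨L, -, hL⟩ := zorn_le_nonempty₀ {L : Submodule R E | HNgood a e L}
    (fun c hc hch y hy => ⟨sSup c, HN_chain a e c hc hch y hy, fun z hz => le_sSup hz⟩)
    (LinearMap.range e) hr
  have hLg : HNgood a e L := hL.prop
  have haL : a ∈ L := hLg.1 ⟨a, hea⟩
  obtain ⟨h, hh⟩ := hEXT R E E hAC L (fun x => e x) (fun x => (x : E))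
    (fun n θ v hv => hLg.2 e hea n θ (fun i => (v i : E)) (fun i => (v i).2) hv)
  have hha : h a = a := by
    have h1 := hh ⟨a, haL⟩
    change h (e a) = a at h1
    rwa [hea] at h1
  have hπL : ∀ x ∈ L, h (e x) = x := fun x hx => hh ⟨x, hx⟩
  have hLr : L ≤ LinearMap.range (h ∘ₗ e) := fun x hx => ⟨x, hπL x hx⟩
  have hgr : HNgood a e (LinearMap.range (h ∘ₗ e)) := by
    refine ⟨hLg.1.trans hLr, ?_⟩
    intro g hg n θ x hx hθ
    choose z hz using hx
    have h1 : x = fun i => h (e (z i)) := funext fun i => (hz i).symm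
    subst h1
    have h2 : θ.ev E (fun i => e (z i)) := by
      refine he (g ∘ₗ h) ?_ n θ z hθ
      rw [LinearMap.comp_apply, hha, hg]
    exact θ.ev_map h h2
  have hrL : LinearMap.range (h ∘ₗ e) ≤ L := hL.le_of_ge hgr hLr
  have hmem : ∀ x, (h ∘ₗ e) x ∈ L := fun x => hrL ⟨x, rfl⟩
  let ρ : E →ₗ[R] L := LinearMap.codRestrict L (h ∘ₗ e) hmem
  have hρ : ∀ x : L, ρ (L.subtype x) = x := by
    intro x
    apply Subtype.ext
    exact hπL x.1 x.2
  have hρa : ρ a = ⟨a, haL⟩ := hρ ⟨a, haL⟩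
  refine ⟨L, inferInstance, inferInstance, ⟨a, haL⟩, hRET R E L L.subtype ρ hρ hAC, ?_, ?_⟩
  · intro θ
    constructor
    · intro h1
      exact at1_map θ L.subtype h1
    · intro h1
      have h2 := at1_map θ ρ h1
      rwa [hρa] at h2
  · intro h' hh' n θ x hx
    apply θ.ev_of_retract L.subtype ρ hρ
    refine hLg.2 (L.subtype ∘ₗ h' ∘ₗ ρ) ?_ n θ _ (fun i => (x i).2) ?_
    · rw [LinearMap.comp_apply, LinearMap.comp_apply, hρa, hh']
      rfl
    · have h1 := θ.ev_map L.subtype hx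
      refine Eq.mp ?_ h1
      congr 1
      funext i
      rw [LinearMap.comp_apply, LinearMap.comp_apply, hρ]

end Pool.ZgCB
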