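import Pool.Agent.Work.MP_d94bda_cb.InterfaceA

open scoped BigOperators

namespace Pool.ZgCB

universe u

theorem p_HR (h1 : Stmt_EXT.{u}) : Stmt_HR.{u} := by
  intro R _ N _ _ p a hAC hty hrig M _ _ f hf
  obtain ⟨g, hg⟩ := h1 R M N hAC PUnit.{u+1} (fun _ => f a) (fun _ => a) (by
    intro n θ v hθ
    obtain ⟨θ', -, e⟩ := Dfn.reidx (ι := Unit) (Dfn.of (PP.over_top θ))
      (fun _ : Fin n => ())
    have h2 : at1 θ' (f a) := (e M (fun _ => f a)).2 hθ
    have h3 : at1 θ' a := (hty θ').2 (hf θ' h2)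
    exact (e N (fun _ => a)).1 h3)
  have hga : (g.comp f) a = a := hg PUnit.unit
  have hpure := hrig (g.comp f) hga
  intro n θ x hx
  exact hpure n θ x (θ.ev_map g hx)

end Pool.ZgCB
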