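import Pool.Agent.Work.MP_d94bda_cb.InterfaceA

open scoped BigOperators

namespace Pool.ZgCB

universe u

theorem HS_pure {R : Type u} [Ring R] {N M : Type u} [AddCommGroup N] [Module R N]
    [AddCommGroup M] [Module R M] (f : N →ₗ[R] M) (hf : PureEmb f) (ν : P1 R) (t : N)
    (h : at1 ν (f t)) : at1 ν t := by
  obtain ⟨θ, -, e⟩ := Dfn.reidx (Dfn.of (PP.over_top ν)) (fun _ => (0 : Fin 1))
  have h1 : θ.ev M (fun i => f ((fun _ => t) i)) := (e M _).2 h
  exact (e N _).1 (hf 1 θ (fun _ => t) h1)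

theorem p_HS (h1 : Stmt_FRE.{u}) : Stmt_HS.{u} := by
  intro R _ N _ _ p a htype hrig μ ν hrule t hμ
  by_contra hν
  obtain ⟨Z, _, _, c, -, hc, huniv⟩ := h1 R Unit ν
  set z := c () with hz
  let S : Submodule R (N × Z) := Submodule.span R {((t, -z) : N × Z)}
  let f : N →ₗ[R] (N × Z) ⧸ S := S.mkQ ∘ₗ LinearMap.inl R N Z
  let f2 : Z →ₗ[R] (N × Z) ⧸ S := S.mkQ ∘ₗ LinearMap.inr R N Z
  have hft : f t = f2 z := by
    change S.mkQ (t, 0) = S.mkQ (0, z)
    rw [← sub_eq_zero, ← map_sub, Submodule.mkQ_apply, Submodule.Quotient.mk_eq_zero]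
    have : ((t, 0) : N × Z) - (0, z) = (t, -z) := by
      ext <;> simp
    rw [this]
    exact Submodule.subset_span rfl
  have hνf : at1 ν (f t) := by
    rw [hft]
    refine at1_map ν f2 ?_
    have : c = fun _ => z := by funext j; rfl
    rw [this] at hc
    exact hc
  have hnp : ¬ PureEmb f := fun hf => hν (HS_pure f hf ν t hνf)
  have hex : ∃ θ : P1 R, at1 θ (f a) ∧ θ ∉ p := by
    by_contra hn
    exact hnp (hrig _ f fun θ hθ => by_contra fun hp => hn ⟨θ, hθ, hp⟩)
  obtain ⟨θ, hθ, hθp⟩ := hex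
  apply hθp
  obtain ⟨y, hy⟩ := hθ
  have hlift : ∀ l, ∃ w : N × Z, S.mkQ w = y l := fun l => S.mkQ_surjective (y l)
  choose w hw using hlift
  have hr : ∀ i, ∃ r : R, r • ((t, -z) : N × Z) = θ.A i () • ((a, 0) : N × Z) +
      ∑ l, θ.B i l • w l := by
    intro i
    have h2 := hy i
    have h3 : S.mkQ (θ.A i () • ((a, 0) : N × Z) + ∑ l, θ.B i l • w l) = 0 := by
      rw [map_add, map_smul, map_sum]
      simp only [map_smul, hw]
      have h4 : S.mkQ ((a, 0) : N × Z) = f a := rfl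
      rw [h4]
      simpa using h2
    rw [Submodule.mkQ_apply, Submodule.Quotient.mk_eq_zero] at h3
    exact Submodule.mem_span_singleton.1 h3
  choose r hr using hr
  have hr1 : ∀ i, r i • t = θ.A i () • a + ∑ l, θ.B i l • (w l).1 := by
    intro i
    have := congrArg Prod.fst (hr i)
    simpa [Prod.fst_sum] using this
  have hr2 : ∀ i, -(r i • z) = ∑ l, θ.B i l • (w l).2 := by
    intro i
    have := congrArg Prod.snd (hr i)
    simpa [Prod.snd_sum] using this
  let ρ : P2 R := ⟨θ.m, θ.k, fun i => Sum.elim (fun _ => θ.A i ()) (fun _ => -(r i)), θ.B⟩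
  have hρ : ∀ (M : Type u) [AddCommGroup M] [Module R M] (y x : M), at2 ρ y x ↔
      ∃ v : Fin θ.k → M, ∀ i, θ.A i () • y - r i • x + ∑ l, θ.B i l • v l = 0 := by
    intro M _ _ y x
    unfold at2
    rw [PP.ev_mk]
    refine exists_congr fun v => forall_congr' fun i => ?_
    rw [Fintype.sum_sum_type]
    simp [sub_eq_add_neg]
  refine hrule ρ θ ?_ ?_
  · intro M _ _ y x h2 h3
    obtain ⟨v, hv⟩ := (hρ M y x).1 h2
    obtain ⟨g, hg⟩ := huniv M (fun _ => x) h3
    have hgz : g z = x := hg ()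
    refine ⟨fun l => v l + g (w l).2, fun i => ?_⟩
    have h4 : ∑ l, θ.B i l • g (w l).2 = -(r i • x) := by
      rw [← hgz, ← map_smul, ← map_neg, hr2 i, map_sum]
      simp only [map_smul]
    have h5 := hv i
    simp only [smul_add, Finset.sum_add_distrib, h4, Finset.univ_unique, Finset.sum_singleton]
    rw [← h5]
    change θ.A i () • y + _ = _
    abel
  · rw [← htype, at1_exr]
    refine ⟨t, (hρ N a t).2 ⟨fun l => (w l).1, fun i => ?_⟩, hμ⟩
    rw [hr1 i]
    abel

end Pool.ZgCB
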