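import Pool.Agent.Work.MP_d94bda_cb.InterfaceA

open scoped BigOperators

namespace Pool.ZgCB

universe u

section
variable {R : Type u} [Ring R]

/-- `w_0 - w_1 = 0` -/
def HZ_d (R : Type u) [Ring R] : PP R (Fin 2) := ⟨1, 0, fun _ => ![1, -1], fun _ => Fin.elim0⟩

/-- `w_0 + w_1 - w_2 = 0` -/
def HZ_a (R : Type u) [Ring R] : PP R (Fin 3) := ⟨1, 0, fun _ => ![1, 1, -1], fun _ => Fin.elim0⟩

/-- `r w_0 - w_1 = 0` -/
def HZ_s (R : Type u) [Ring R] (r : R) : PP R (Fin 2) :=
  ⟨1, 0, fun _ => ![r, -1], fun _ => Fin.elim0⟩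

theorem HZ_d_ev (M : Type u) [AddCommGroup M] [Module R M] (x : Fin 2 → M) :
    (HZ_d R).ev M x ↔ x 0 = x 1 := by
  unfold HZ_d
  rw [PP.ev_mk]
  constructor
  · rintro ⟨y, hy⟩
    have := hy 0
    simp [Fin.sum_univ_succ] at this
    exact add_neg_eq_zero.1 this
  · intro h
    refine ⟨Fin.elim0, fun i => ?_⟩
    simp [Fin.sum_univ_succ, h]

theorem HZ_a_ev (M : Type u) [AddCommGroup M] [Module R M] (x : Fin 3 → M) :
    (HZ_a R).ev M x ↔ x 0 + x 1 = x 2 := by
  unfold HZ_a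
  rw [PP.ev_mk]
  constructor
  · rintro ⟨y, hy⟩
    have := hy 0
    simp [Fin.sum_univ_three] at this
    exact add_neg_eq_zero.1 this
  · intro h
    refine ⟨Fin.elim0, fun i => ?_⟩
    simp [Fin.sum_univ_three, h]

theorem HZ_s_ev (r : R) (M : Type u) [AddCommGroup M] [Module R M] (x : Fin 2 → M) :
    (HZ_s R r).ev M x ↔ r • x 0 = x 1 := by
  unfold HZ_s
  rw [PP.ev_mk]
  constructor
  · rintro ⟨y, hy⟩
    have := hy 0
    simp [Fin.sum_univ_succ] at this
    exact add_neg_eq_zero.1 this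
  · intro h
    refine ⟨Fin.elim0, fun i => ?_⟩
    simp [Fin.sum_univ_succ, h]

variable (R) in
/-- the preorder -/
def HZ_le {E : Type u} [AddCommGroup E] [Module R E] (e e' : E →ₗ[R] E) : Prop :=
  ∀ (n : ℕ) (θ : PP R (Fin n)) (x : Fin n → E), θ.ev E (fun i => e (x i)) →
    θ.ev E (fun i => e' (x i))

theorem HZ_chain {E : Type u} [AddCommGroup E] [Module R E] (hE : AC R E) (a : E)
    (c : Set {e : E →ₗ[R] E // e a = a})
    (hc : IsChain (fun e e' : {e : E →ₗ[R] E // e a = a} => HZ_le R e.1 e'.1) c)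
    (hne : c.Nonempty) :
    ∃ ub : {e : E →ₗ[R] E // e a = a}, ∀ e ∈ c, HZ_le R e.1 ub.1 := by
  obtain ⟨e0, he0⟩ := hne
  let Φ : Set (Cond R E E) := {d | (∃ (n : ℕ) (θ : PP R (Fin n)) (x : Fin n → E),
      (∃ e ∈ c, θ.ev E (fun i => e.1 (x i))) ∧ d = ⟨n, θ, fun i => Sum.inl (x i)⟩) ∨
      d = ⟨2, HZ_d R, ![Sum.inl a, Sum.inr a]⟩}
  have hfin : ∀ F ⊆ Φ, F.Finite → ∃ e ∈ c, ∀ e' ∈ c, HZ_le R e.1 e'.1 →
      ∀ d ∈ F, d.holds (fun s => e'.1 s) := by
    intro F hF hfin
    induction F, hfin using Set.Finite.induction_on with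
    | empty => exact ⟨e0, he0, fun _ _ _ d hd => absurd hd (Set.notMem_empty _)⟩
    | @insert d F' _ _ ih =>
      obtain ⟨e1, he1, h1⟩ := ih (fun x hx => hF (Set.mem_insert_of_mem _ hx))
      rcases hF (Set.mem_insert d F') with ⟨n, θ, x, ⟨e2, he2, h2⟩, hd⟩ | hd
      · rcases eq_or_ne e1 e2 with h12 | h12
        · subst h12
          refine ⟨e1, he1, fun e' he' hle d' hd' => ?_⟩
          rcases Set.mem_insert_iff.1 hd' with rfl | hd'
          · rw [hd]
            exact hle n θ x h2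
          · exact h1 e' he' hle d' hd'
        · rcases hc he1 he2 h12 with h | h
          · refine ⟨e2, he2, fun e' he' hle d' hd' => ?_⟩
            rcases Set.mem_insert_iff.1 hd' with rfl | hd'
            · rw [hd]
              exact hle n θ x h2
            · exact h1 e' he' (fun n θ x hx => hle n θ x (h n θ x hx)) d' hd'
          · refine ⟨e1, he1, fun e' he' hle d' hd' => ?_⟩
            rcases Set.mem_insert_iff.1 hd' with rfl | hd'
            · rw [hd]
              exact hle n θ x (h n θ x h2)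
            · exact h1 e' he' hle d' hd'
      · refine ⟨e1, he1, fun e' he' hle d' hd' => ?_⟩
        rcases Set.mem_insert_iff.1 hd' with rfl | hd'
        · rw [hd]
          unfold Cond.holds
          rw [HZ_d_ev]
          exact e'.2
        · exact h1 e' he' hle d' hd'
  obtain ⟨x, hx⟩ := hE E Φ (fun F hF hf => by
    obtain ⟨e, he, h⟩ := hfin F hF hf
    exact ⟨fun s => e.1 s, h e he (fun _ _ _ h => h)⟩)
  have key : ∀ (n : ℕ) (θ : PP R (Fin n)) (w : Fin n → E) (e : {e : E →ₗ[R] E // e a = a}),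
      e ∈ c → θ.ev E (fun i => e.1 (w i)) → θ.ev E (fun i => x (w i)) := by
    intro n θ w e he h
    exact hx ⟨n, θ, fun i => Sum.inl (w i)⟩ (Or.inl ⟨n, θ, w, ⟨e, he, h⟩, rfl⟩)
  have hxa : x a = a := by
    have h := hx ⟨2, HZ_d R, ![Sum.inl a, Sum.inr a]⟩ (Or.inr rfl)
    unfold Cond.holds at h
    rw [HZ_d_ev] at h
    exact h
  have hadd : ∀ s t, x (s + t) = x s + x t := by
    intro s t
    have h := key 3 (HZ_a R) ![s, t, s + t] e0 he0 (by
      rw [HZ_a_ev]
      exact (map_add e0.1 s t).symm)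
    rw [HZ_a_ev] at h
    exact h.symm
  have hsmul : ∀ (r : R) (s : E), x (r • s) = r • x s := by
    intro r s
    have h := key 2 (HZ_s R r) ![s, r • s] e0 he0 (by
      rw [HZ_s_ev]
      exact (map_smul e0.1 r s).symm)
    rw [HZ_s_ev] at h
    exact h.symm
  refine ⟨⟨{ toFun := x, map_add' := hadd, map_smul' := hsmul }, hxa⟩, fun e he n θ w h => ?_⟩
  exact key n θ w e he h

end

theorem p_HZ : Stmt_HZ.{u} := by
  intro R _ E _ _ hE a
  obtain ⟨m, hm⟩ := exists_maximal_of_chains_bounded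
    (r := fun e e' : {e : E →ₗ[R] E // e a = a} => HZ_le R e.1 e'.1)
    (fun c hc => by
      rcases c.eq_empty_or_nonempty with h | h
      · exact ⟨⟨LinearMap.id, rfl⟩, fun e he => by rw [h] at he; exact absurd he (Set.notMem_empty _)⟩
      · exact HZ_chain hE a c hc h)
    (fun {e e' e''} h h' n θ x hx => h' n θ x (h n θ x hx))
  refine ⟨m.1, m.2, fun g hg n θ x hx => ?_⟩
  have hga : (g ∘ₗ m.1) a = a := by
    rw [LinearMap.comp_apply, m.2, hg]
  exact hm ⟨g ∘ₗ m.1, hga⟩ (fun n θ x h => θ.ev_map g h) n θ x hx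

end Pool.ZgCB
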