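import Pool.Agent.Work.MP_d94bda_cb.InterfaceK

/-!
# MP_d94bda_al, block KCH: refinement of `[botF, topF]` into simple steps
-/

namespace Pool.ZgCB

universe u

theorem KCH_aux (hLMO : Stmt_LMO.{u}) (R : Type u) [Ring R] :
    ∀ (n : ℕ) (b t : P1 R), Le b t → ¬ Long R0 n b t →
      Relation.ReflTransGen (SStep (R := R)) b t := by
  intro n
  induction n with
  | zero => intro b t hle hn; exact absurd hle hn
  | succ n ih =>
    intro b t hle hn
    by_cases hS : SStep b t
    · exact Relation.ReflTransGen.single hS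
    · have hex : ∃ χ, Le b χ ∧ Le χ t ∧ ¬ R0 χ b ∧ ¬ R0 t χ := by
        by_contra hcon
        refine hS ⟨hle, fun χ h1 h2 => ?_⟩
        by_contra h3
        exact hcon ⟨χ, h1, h2, fun h4 => h3 (Or.inl h4), fun h4 => h3 (Or.inr h4)⟩
      obtain ⟨χ, h1, h2, h3, h4⟩ := hex
      have e1 : ¬ Long R0 n b χ := fun hl => hn ⟨χ, t, hl, h2, Le.refl t, h4⟩
      have e2 : ¬ Long R0 n χ t := fun hl =>
        hn ((hLMO R R0).2.2.2.2.1 n b χ t h1 h3 hl)
      exact (ih b χ h1 e1).trans (ih χ t h2 e2)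

theorem p_KCH (hLMO : Stmt_LMO.{u}) : Stmt_KCH.{u} := by
  intro R _ hR
  obtain ⟨n, hn⟩ := hR
  refine KCH_aux hLMO R n botF topF (bot_le topF) (fun hl => hn ?_)
  exact (hLMO R R0).1 n botF topF _ topF (meet_le_right topF botF) (Le.refl topF) hl

end Pool.ZgCB
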