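import Pool.Agent.Work.MP_d94bda_cb.InterfaceK

/-!
# Block `KE3`: a finite simple step makes the point finitely generated
-/

set_option autoImplicit false

open scoped BigOperators

namespace Pool.ZgCB

universe u

section
variable {R : Type u} [Ring R] {C : Type u} [CommRing C] [Algebra C R]
  {G : Type u} [AddCommGroup G] [Module R G]

/-- an endomorphism followed by the multiplication with an element of `C` -/
def KE3_mul (c : C) (f : G →ₗ[R] G) : G →ₗ[R] G where
  toFun x := algebraMap C R c • f x
  map_add' x y := by rw [map_add, smul_add]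
  map_smul' r x := by
    rw [map_smul, RingHom.id_apply, smul_smul, smul_smul, Algebra.commutes]

theorem KE3_mul_apply (c : C) (f : G →ₗ[R] G) (x : G) :
    KE3_mul c f x = algebraMap C R c • f x := rfl

theorem KE3_c (θ : P1 R) {a : G} (h : at1 θ a) (c : C) : at1 θ (algebraMap C R c • a) :=
  at1_central θ h _ (fun r => Algebra.commutes c r)

theorem KE3_inv (θ : P1 R) (f : G →ₗ[R] G) (hf : Function.Bijective f) {a : G}
    (h : at1 θ (f a)) : at1 θ a := by
  have h1 := at1_map θ (LinearEquiv.ofBijective f hf).symm.toLinearMap h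
  have h2 : (LinearEquiv.ofBijective f hf).symm.toLinearMap (f a) = a :=
    (LinearEquiv.ofBijective f hf).symm_apply_apply a
  rwa [h2] at h1

theorem KE3_ap {n : ℕ} (f : G →ₗ[R] G) (k : Fin n → C) (e : Fin n → (G →ₗ[R] G)) (x : G) :
    (f - ∑ i, KE3_mul (k i) (e i)) x = f x - ∑ i, algebraMap C R (k i) • e i x := by
  rw [LinearMap.sub_apply, LinearMap.sum_apply]
  rfl

end

theorem p_KE3 (hKE1 : Stmt_KE1.{u}) (hKE2 : Stmt_KE2.{u}) : Stmt_KE3.{u} := by
  intro R _ C _ _ _ _ G _ _ hAC hCl hLoc hchain c d hcd hopn hfin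
  obtain ⟨a, hda, hca⟩ := hopn
  obtain ⟨n, t, ht, hgen⟩ := hfin
  have h1 : ∀ i, ∃ e : G →ₗ[R] G, at1 c (e a - t i) :=
    fun i => hKE1 R G hAC hCl c d hcd a (t i) hda hca (ht i)
  choose e he using h1
  have key : ∀ f : G →ₗ[R] G, ∃ k : Fin n → C,
      ¬ Function.Bijective (f - ∑ i, KE3_mul (k i) (e i)) := by
    intro f
    obtain ⟨k, hk⟩ := hgen (f a) (at1_map d f hda)
    refine ⟨k, fun hb => hca (KE3_inv c _ hb ?_)⟩
    have e1 : (f - ∑ i, KE3_mul (k i) (e i)) a =
        (f a - ∑ i, algebraMap C R (k i) • t i) - ∑ i, algebraMap C R (k i) • (e i a - t i) := by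
      rw [KE3_ap]
      simp only [smul_sub, Finset.sum_sub_distrib]
      abel
    rw [e1]
    exact at1_sub c hk (at1_sum c _ _ fun i _ => KE3_c c (he i) (k i))
  have step : ∀ t' : P1 R, Relation.ReflTransGen (SStep (R := R)) botF t' →
      CFin C R (fun x : G => at1 t' x) (fun x : G => x = 0) := by
    intro t' ht'
    induction ht' with
    | refl =>
      refine ⟨0, Fin.elim0, fun i => i.elim0, fun x hx => ⟨Fin.elim0, ?_⟩⟩
      simpa using (at1_bot x).1 hx
    | @tail c' d' _ hs ih =>
      obtain ⟨m, s, hs1, hs2⟩ := ih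
      by_cases hcl : Cl G d' c'
      · exact ⟨m, s, fun i => hs.1 G _ (hs1 i), fun x hx => hs2 x (hcl x hx)⟩
      · obtain ⟨b, hb, hb'⟩ := not_cl.1 hcl
        refine ⟨n + m, Fin.append (fun i => e i b) s, ?_, ?_⟩
        · intro i
          refine Fin.addCases (fun i => ?_) (fun i => ?_) i
          · rw [Fin.append_left]
            exact at1_map d' (e i) hb
          · rw [Fin.append_right]
            exact hs.1 G _ (hs1 i)
        · intro x hx
          obtain ⟨f, hf⟩ := hKE1 R G hAC hCl c' d' hs b x hb hb' hx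
          obtain ⟨k, hk⟩ := key f
          have h2 := hKE2 R G hAC hCl hLoc c' d' hs _ hk b hb
          have h3 : at1 c' (x - ∑ i, algebraMap C R (k i) • e i b) := by
            have e1 : x - ∑ i, algebraMap C R (k i) • e i b =
                (f - ∑ i, KE3_mul (k i) (e i)) b - (f b - x) := by
              rw [KE3_ap]
              abel
            rw [e1]
            exact at1_sub c' h2 hf
          obtain ⟨l, hl⟩ := hs2 _ h3
          refine ⟨Fin.append k l, ?_⟩
          rw [Fin.sum_univ_add]
          simp only [Fin.append_left, Fin.append_right]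
          rw [← sub_sub]
          exact hl
  obtain ⟨m, s, _, hs2⟩ := step topF hchain
  refine Module.finite_def.2 (Submodule.fg_def.2 ⟨Set.range s, Set.finite_range s, ?_⟩)
  rw [eq_top_iff]
  intro x _
  obtain ⟨k, hk⟩ := hs2 x (at1_top x)
  rw [sub_eq_zero.1 hk]
  exact Submodule.sum_mem _ fun i _ => Submodule.smul_mem _ _ (Submodule.subset_span ⟨i, rfl⟩)

end Pool.ZgCB
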