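import Pool.Agent.Work.MP_d94bda_cb.InterfaceK

/-!
# Block KEX of MP_d94bda_al: extension of a map from a maximal submodule (typed by helper84)
-/

open scoped BigOperators

namespace Pool.ZgCB

universe u

theorem p_KEX : Stmt_KEX.{u} := by
  classical
  intro R _ G _ _ N hN x₀ hx₀ n r hr hspan X _ _ θ x hθ
  let π : (N × R) →ₗ[R] G := N.subtype.coprod (LinearMap.toSpanSingleton R G x₀)
  let κ : (N × R) →ₗ[R] X := θ.coprod (LinearMap.toSpanSingleton R X x)
  have hπa : ∀ (v : N) (s : R), π (v, s) = (v : G) + s • x₀ := by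
    intro v s
    simp [π, LinearMap.toSpanSingleton_apply]
  have hκa : ∀ (v : N) (s : R), κ (v, s) = θ v + s • x := by
    intro v s
    simp [κ, LinearMap.toSpanSingleton_apply]
  have hπ : Function.Surjective π := by
    have htop : N ⊔ Submodule.span R {x₀} = ⊤ := by
      apply hN.2
      refine lt_of_le_of_ne le_sup_left ?_
      intro h
      apply hx₀
      rw [h]
      exact Submodule.mem_sup_right (Submodule.mem_span_singleton_self x₀)
    intro g
    have hg : g ∈ N ⊔ Submodule.span R {x₀} := by rw [htop]; trivial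
    obtain ⟨v, hv, w, hw, hvw⟩ := Submodule.mem_sup.1 hg
    obtain ⟨s, rfl⟩ := Submodule.mem_span_singleton.1 hw
    exact ⟨(⟨v, hv⟩, s), by rw [hπa]; exact hvw⟩
  have hker : LinearMap.ker π ≤ LinearMap.ker κ := by
    rintro ⟨v, s⟩ hvs
    rw [LinearMap.mem_ker, hπa] at hvs
    rw [LinearMap.mem_ker, hκa]
    have hsx : s • x₀ = -(v : G) := by
      rw [eq_neg_iff_add_eq_zero, add_comm]
      exact hvs
    have hs : s ∈ Submodule.span R (Set.range r) := by
      apply hspan
      rw [hsx]
      exact N.neg_mem v.2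
    obtain ⟨t, ht⟩ := (Submodule.mem_span_range_iff_exists_fun R).1 hs
    have hv : v = -∑ j, t j • (⟨r j • x₀, hr j⟩ : N) := by
      apply Subtype.ext
      rw [Submodule.coe_neg, Submodule.coe_sum]
      have : (∑ j, ((t j • (⟨r j • x₀, hr j⟩ : N) : N) : G)) = s • x₀ := by
        rw [← ht, Finset.sum_smul]
        apply Finset.sum_congr rfl
        intro j _
        rw [Submodule.coe_smul, smul_eq_mul, mul_smul]
      rw [this, hsx, neg_neg]
    have h1 : θ v = -(s • x) := by
      rw [hv, map_neg, map_sum, ← ht, Finset.sum_smul]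
      congr 1
      apply Finset.sum_congr rfl
      intro j _
      rw [map_smul, hθ j, smul_eq_mul, mul_smul]
    rw [h1, neg_add_cancel]
  let e := LinearMap.quotKerEquivOfSurjective π hπ
  let t : G →ₗ[R] X := (Submodule.liftQ (LinearMap.ker π) κ hker).comp e.symm.toLinearMap
  have ht : ∀ p, t (π p) = κ p := by
    intro p
    have h1 : e.symm (π p) = Submodule.Quotient.mk p := by
      rw [LinearEquiv.symm_apply_eq]
      rfl
    show (Submodule.liftQ (LinearMap.ker π) κ hker) (e.symm (π p)) = κ p
    rw [h1]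
    exact Submodule.liftQ_apply _ _ _
  refine ⟨t, fun v => ?_, ?_⟩
  · have h := ht (v, 0)
    rw [hπa, hκa] at h
    simpa using h
  · have h := ht (0, 1)
    rw [hπa, hκa] at h
    simpa using h

end Pool.ZgCB
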