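import Pool.Agent.Work.MP_d94bda_cb.InterfaceK

/-!
# MP_d94bda_al, block KFC: finite generation over `C` of `φ(G)/φ(L)`
-/

open scoped BigOperators

namespace Pool.ZgCB

universe u

theorem KFC_gen (R : Type u) [Ring R] (C : Type u) [CommRing C] [IsArtinianRing C] [Algebra C R]
    [Module.Finite C R] (Q : Type u) [AddCommGroup Q] [Module R Q] (hfin : Module.Finite R Q)
    (ι : Type) [Finite ι] (S : Set (ι → Q)) (h0 : (0 : ι → Q) ∈ S)
    (hadd : ∀ a ∈ S, ∀ b ∈ S, a + b ∈ S)
    (hsm : ∀ c : C, ∀ a ∈ S, (fun i => algebraMap C R c • a i) ∈ S) :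
    ∃ (n : ℕ) (s : Fin n → ι → Q), (∀ i, s i ∈ S) ∧
      ∀ x ∈ S, ∃ c : Fin n → C, ∀ j, x j = ∑ i, algebraMap C R (c i) • s i j := by
  let _ : Module C Q := Module.compHom Q (algebraMap C R)
  have htower : IsScalarTower C R Q := ⟨fun c r q => by
    rw [Algebra.smul_def, mul_smul]; rfl⟩
  have hQ : Module.Finite C Q := Module.Finite.trans R Q
  have hN : IsNoetherian C Q := isNoetherian_of_isNoetherianRing_of_finite C Q
  let P : Submodule C (ι → Q) :=
    { carrier := S
      add_mem' := fun {a b} ha hb => hadd a ha b hb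
      zero_mem' := h0
      smul_mem' := fun c a ha => hsm c a ha }
  obtain ⟨n, s, hs⟩ := Submodule.fg_iff_exists_fin_generating_family.1
    (IsNoetherian.noetherian P)
  refine ⟨n, s, fun i => ?_, fun x hx => ?_⟩
  · have h1 : s i ∈ Submodule.span C (Set.range s) := Submodule.subset_span ⟨i, rfl⟩
    rw [hs] at h1
    exact h1
  · have h1 : x ∈ Submodule.span C (Set.range s) := by
      rw [hs]; exact hx
    obtain ⟨c, hc⟩ := (Submodule.mem_span_range_iff_exists_fun C).1 h1
    refine ⟨c, fun j => ?_⟩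
    rw [← hc, Finset.sum_apply]
    rfl

/-- the solutions of the system of `φ` -/
def KFC_U {R : Type u} [Ring R] {G : Type u} [AddCommGroup G] [Module R G] (φ : P1 R)
    (z : Option (Fin φ.k) → G) : Prop :=
  ∀ i, ∑ j : Unit, φ.A i j • z none + ∑ l, φ.B i l • z (some l) = 0

theorem p_KFC : Stmt_KFC.{u} := by
  intro R _ C _ _ _ _ G _ _ L hfin φ
  have hU0 : KFC_U φ (0 : Option (Fin φ.k) → G) := by
    intro i
    simp
  have hUadd : ∀ a b : Option (Fin φ.k) → G, KFC_U φ a → KFC_U φ b → KFC_U φ (a + b) := by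
    intro a b ha hb i
    have e := congrArg₂ (· + ·) (ha i) (hb i)
    simp only [Pi.add_apply, smul_add, Finset.sum_add_distrib, add_zero] at e ⊢
    rw [← e]; abel
  have hUneg : ∀ a : Option (Fin φ.k) → G, KFC_U φ a → KFC_U φ (-a) := by
    intro a ha i
    have e := congrArg (fun z => -z) (ha i)
    simp only [Pi.neg_apply, smul_neg, Finset.sum_neg_distrib, neg_zero, neg_add] at e ⊢
    exact e
  have hUsm : ∀ (c : C) (a : Option (Fin φ.k) → G), KFC_U φ a → KFC_U φ (fun j => algebraMap C R c • a j) := by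
    intro c a ha i
    have e := congrArg (fun z => algebraMap C R c • z) (ha i)
    have hc : ∀ r : R, algebraMap C R c * r = r * algebraMap C R c := fun r => Algebra.commutes c r
    simp only [smul_add, Finset.smul_sum, smul_zero, smul_smul, hc] at e ⊢
    exact e
  have hUsum : ∀ (n : ℕ) (c : Fin n → C) (s : Fin n → Option (Fin φ.k) → G), (∀ i, KFC_U φ (s i)) →
      KFC_U φ (fun j => ∑ i, algebraMap C R (c i) • s i j) := by
    intro n c s hs
    have key : ∀ T : Finset (Fin n), KFC_U φ (fun j => ∑ i ∈ T, algebraMap C R (c i) • s i j) := by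
      intro T
      classical
      induction T using Finset.induction_on with
      | empty =>
        simp only [Finset.sum_empty]
        exact hU0
      | insert a T ha ih =>
        have h1 := hUadd _ _ (hUsm (c a) (s a) (hs a)) ih
        have h2 : (fun j => ∑ i ∈ insert a T, algebraMap C R (c i) • s i j) =
            (fun j => algebraMap C R (c a) • s a j) +
              (fun j => ∑ i ∈ T, algebraMap C R (c i) • s i j) := by
          funext j
          rw [Pi.add_apply, Finset.sum_insert ha]
        rw [h2]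
        exact h1
    exact key Finset.univ
  obtain ⟨n, s, hs, hgen⟩ := KFC_gen R C (G ⧸ L) hfin (Option (Fin φ.k))
    {q | ∃ z, KFC_U φ z ∧ ∀ j, q j = L.mkQ (z j)} ⟨0, hU0, fun j => by simp⟩
    (by
      rintro a ⟨z, hz, ha⟩ b ⟨w, hw, hb⟩
      exact ⟨z + w, hUadd z w hz hw, fun j => by
        rw [Pi.add_apply, Pi.add_apply, ha, hb, map_add]⟩)
    (by
      rintro c a ⟨z, hz, ha⟩
      exact ⟨_, hUsm c z hz, fun j => by
        show algebraMap C R c • a j = _
        rw [ha, map_smul]⟩)
  choose z hz hzs using hs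
  refine ⟨n, fun i => z i none, fun i => ?_, fun x hx => ?_⟩
  · exact ⟨fun l => z i (some l), hz i⟩
  · obtain ⟨y, hy⟩ := hx
    let w : Option (Fin φ.k) → G := fun j => j.elim x y
    have hw : KFC_U φ w := hy
    obtain ⟨c, hc⟩ := hgen (fun j => L.mkQ (w j)) ⟨w, hw, fun j => rfl⟩
    have hw2 : KFC_U φ (fun j => w j - ∑ i, algebraMap C R (c i) • z i j) := by
      have h1 := hUadd _ _ hw (hUneg _ (hUsum n c z hz))
      have h2 : (fun j => w j - ∑ i, algebraMap C R (c i) • z i j) =
          w + -(fun j => ∑ i, algebraMap C R (c i) • z i j) := by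
        funext j
        rw [Pi.add_apply, Pi.neg_apply, sub_eq_add_neg]
      rw [h2]
      exact h1
    have hmem : ∀ j, w j - ∑ i, algebraMap C R (c i) • z i j ∈ L := by
      intro j
      have h1 : L.mkQ (w j) = ∑ i, algebraMap C R (c i) • s i j := hc j
      rw [← Submodule.Quotient.mk_eq_zero, ← Submodule.mkQ_apply, map_sub, h1, map_sum,
        sub_eq_zero]
      refine Finset.sum_congr rfl (fun i _ => ?_)
      rw [map_smul, hzs i j]
    refine ⟨c, ⟨w none - ∑ i, algebraMap C R (c i) • z i none, hmem none⟩, rfl, ?_⟩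
    refine ⟨fun l => ⟨w (some l) - ∑ i, algebraMap C R (c i) • z i (some l), hmem (some l)⟩, ?_⟩
    intro i
    apply Subtype.ext
    have h3 := hw2 i
    simpa using h3

end Pool.ZgCB
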