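import Pool.Agent.Work.MP_d94bda_cb.InterfaceA

/-!
# MP_d94bda_al, part K: elementary duality of pp formulas (helper66)

For an anti-isomorphism of rings `R → S` (in particular `S = Rᵐᵒᵖ`) the dual formula gives an
anti-isomorphism of the lattices of pp formulas of `R` and of `S`; the relations `R0`, `R1` are
transferred.
-/

open scoped BigOperators

namespace Pool.ZgCB

universe u

/-- an anti-isomorphism of rings -/
structure Anti (R S : Type u) [Ring R] [Ring S] where
  f : R → S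
  g : S → R
  gf : ∀ r, g (f r) = r
  fg : ∀ s, f (g s) = s
  add : ∀ a b, f (a + b) = f a + f b
  mul : ∀ a b, f (a * b) = f b * f a
  one : f 1 = 1

section
variable {R S : Type u} [Ring R] [Ring S]

theorem Anti.zero (e : Anti R S) : e.f 0 = 0 := by
  have h := e.add 0 0
  rw [add_zero] at h
  exact left_eq_add.1 h

theorem Anti.sum (e : Anti R S) {T : Type*} (s : Finset T) (x : T → R) :
    e.f (∑ t ∈ s, x t) = ∑ t ∈ s, e.f (x t) := by
  classical
  induction s using Finset.induction_on with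
  | empty => simpa using e.zero
  | insert a s ha ih => rw [Finset.sum_insert ha, Finset.sum_insert ha, e.add, ih]

/-- the inverse anti-isomorphism -/
def Anti.symm (e : Anti R S) : Anti S R where
  f := e.g
  g := e.f
  gf := e.fg
  fg := e.gf
  add a b := by
    have h := e.add (e.g a) (e.g b)
    rw [e.fg, e.fg] at h
    rw [← h, e.gf]
  mul a b := by
    have h := e.mul (e.g b) (e.g a)
    rw [e.fg, e.fg] at h
    rw [← h, e.gf]
  one := by
    have h := e.gf 1
    rwa [e.one] at h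

/-- the anti-isomorphism `R → Rᵐᵒᵖ` -/
def Anti.op (R : Type u) [Ring R] : Anti R Rᵐᵒᵖ where
  f := MulOpposite.op
  g := MulOpposite.unop
  gf _ := rfl
  fg _ := rfl
  add _ _ := rfl
  mul _ _ := rfl
  one := rfl

/-- the dual formula: `∃ z, x + ∑_j A_j z_j = 0 ∧ ⋀_l ∑_j B_{j,l} z_j = 0` -/
def dualF (e : Anti R S) (θ : P1 R) : P1 S where
  m := θ.k + 1
  k := θ.m
  A := fun i _ => Fin.cases (motive := fun _ => S) 1 (fun _ => 0) i
  B := fun i j => Fin.cases (motive := fun _ => S) (e.f (θ.A j ())) (fun l => e.f (θ.B j l)) i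

theorem at1_iff (θ : P1 R) {M : Type u} [AddCommGroup M] [Module R M] (x : M) :
    at1 θ x ↔ ∃ y : Fin θ.k → M, ∀ i, θ.A i () • x + ∑ l, θ.B i l • y l = 0 := by
  unfold at1 PP.ev
  simp only [Finset.univ_unique, Finset.sum_singleton]

theorem at1_dual (e : Anti R S) (θ : P1 R) {M : Type u} [AddCommGroup M] [Module S M] (x : M) :
    at1 (dualF e θ) x ↔ ∃ z : Fin θ.m → M, x = ∑ j, e.f (θ.A j ()) • z j ∧
      ∀ l, ∑ j, e.f (θ.B j l) • z j = 0 := by
  rw [at1_iff]
  constructor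
  · rintro ⟨z, hz⟩
    refine ⟨fun j => - z j, ?_, ?_⟩
    · have h0 := hz (0 : Fin (θ.k + 1))
      simp only [dualF, Fin.cases_zero, one_smul] at h0
      simp only [smul_neg, Finset.sum_neg_distrib]
      exact eq_neg_of_add_eq_zero_left h0
    · intro l
      have h0 := hz l.succ
      simp only [dualF, Fin.cases_succ, zero_smul, zero_add] at h0
      simp only [smul_neg, Finset.sum_neg_distrib, neg_eq_zero]
      exact h0
  · rintro ⟨z, hx, hz⟩
    refine ⟨fun j => - z j, fun i => ?_⟩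
    refine Fin.cases ?_ (fun l => ?_) i
    · simp only [dualF, Fin.cases_zero, one_smul, smul_neg, Finset.sum_neg_distrib]
      rw [← sub_eq_add_neg, sub_eq_zero]
      exact hx
    · simp only [dualF, Fin.cases_succ, zero_smul, zero_add, smul_neg, Finset.sum_neg_distrib,
        neg_eq_zero]
      exact hz l

/-- the double dual is the formula -/
theorem at1_dual_dual (e : Anti R S) (θ : P1 R) {M : Type u} [AddCommGroup M] [Module R M]
    (x : M) : at1 (dualF e.symm (dualF e θ)) x ↔ at1 θ x := by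
  rw [at1_dual, at1_iff]
  have hA : ∀ i : Fin (θ.k + 1), e.symm.f ((dualF e θ).A i ()) =
      Fin.cases (motive := fun _ => R) 1 (fun _ => 0) i := by
    intro i
    refine Fin.cases ?_ (fun l => ?_) i
    · exact e.symm.one
    · exact e.symm.zero
  have hB : ∀ (i : Fin (θ.k + 1)) (j : Fin θ.m), e.symm.f ((dualF e θ).B i j) =
      Fin.cases (motive := fun _ => R) (θ.A j ()) (fun l => θ.B j l) i := by
    intro i j
    refine Fin.cases ?_ (fun l => ?_) i
    · exact e.gf _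
    · exact e.gf _
  constructor
  · rintro ⟨z, hx, hz⟩
    change Fin (θ.k + 1) → M at z
    have hx' : x = z 0 := by
      rw [hx]
      refine Eq.trans (Fin.sum_univ_succ (n := θ.k) (fun j => e.symm.f ((dualF e θ).A j ()) • z j)) ?_
      rw [hA 0]
      simp only [hA, Fin.cases_zero, Fin.cases_succ, one_smul, zero_smul, Finset.sum_const_zero,
        add_zero]
    refine ⟨fun l => z l.succ, fun i => ?_⟩
    have h1 := hz i
    have h2 := Fin.sum_univ_succ (n := θ.k) (fun j => e.symm.f ((dualF e θ).B j i) • z j)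
    rw [hB 0 i] at h2
    simp only [hB, Fin.cases_zero, Fin.cases_succ] at h2
    rw [hx']
    refine Eq.trans h2.symm ?_
    refine Eq.trans ?_ h1
    exact Finset.sum_congr rfl fun j _ => by rw [hB]
  · rintro ⟨y, hy⟩
    refine ⟨(Fin.cons x y : Fin (θ.k + 1) → M), ?_, fun i => ?_⟩
    · refine Eq.trans ?_ (Fin.sum_univ_succ (n := θ.k) (fun j => e.symm.f ((dualF e θ).A j ()) •
        (Fin.cons x y : Fin (θ.k + 1) → M) j)).symm
      rw [hA 0]
      simp only [hA, Fin.cases_zero, Fin.cases_succ, one_smul, zero_smul, Finset.sum_const_zero,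
        add_zero, Fin.cons_zero]
    · refine Eq.trans (Fin.sum_univ_succ (n := θ.k) (fun j => e.symm.f ((dualF e θ).B j i) •
        (Fin.cons x y : Fin (θ.k + 1) → M) j)) ?_
      rw [hB 0 i]
      simp only [hB, Fin.cases_zero, Fin.cases_succ, Fin.cons_zero, Fin.cons_succ]
      exact hy i

theorem dd_le (e : Anti R S) (θ : P1 R) : Le (dualF e.symm (dualF e θ)) θ :=
  fun _ _ _ x h => (at1_dual_dual e θ x).1 h

theorem le_dd (e : Anti R S) (θ : P1 R) : Le θ (dualF e.symm (dualF e θ)) :=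
  fun _ _ _ x h => (at1_dual_dual e θ x).2 h

theorem dd_le' (e : Anti R S) (θ : P1 S) : Le (dualF e (dualF e.symm θ)) θ :=
  dd_le e.symm θ

theorem le_dd' (e : Anti R S) (θ : P1 S) : Le θ (dualF e (dualF e.symm θ)) :=
  le_dd e.symm θ

/-- duality reverses the order -/
theorem dual_anti (hFAR : Stmt_FAR.{u}) (e : Anti R S) {α β : P1 R} (h : Le α β) :
    Le (dualF e β) (dualF e α) := by
  obtain ⟨H, V, W, h1, h2⟩ := hFAR R Unit α β (fun M _ _ x hx => by
    have hx' : at1 α (x ()) := by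
      unfold at1
      exact hx
    have := h M (x ()) hx'
    unfold at1 at this
    exact this)
  intro M _ _ x hx
  rw [at1_dual] at hx ⊢
  obtain ⟨z, hx, hz⟩ := hx
  refine ⟨fun t => ∑ i, e.f (H i t) • z i, ?_, fun l' => ?_⟩
  · have h3 : ∀ i, ∑ t, e.f (α.A t ()) • (e.f (H i t) • z i) =
        e.f (β.A i ()) • z i + ∑ l, e.f (V l ()) • (e.f (β.B i l) • z i) := by
      intro i
      simp only [smul_smul, ← e.mul]
      rw [← Finset.sum_smul, ← Finset.sum_smul, ← e.sum, ← e.sum, ← add_smul, ← e.add, h1 i ()]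
    simp only [Finset.smul_sum]
    rw [Finset.sum_comm]
    simp only [h3]
    rw [Finset.sum_add_distrib, ← hx, Finset.sum_comm]
    simp only [← Finset.smul_sum, hz, smul_zero, Finset.sum_const_zero, add_zero]
  · have h3 : ∀ i, ∑ t, e.f (α.B t l') • (e.f (H i t) • z i) =
        ∑ l, e.f (W l l') • (e.f (β.B i l) • z i) := by
      intro i
      simp only [smul_smul, ← e.mul]
      rw [← Finset.sum_smul, ← Finset.sum_smul, ← e.sum, ← e.sum, h2 i l']
    simp only [Finset.smul_sum]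
    rw [Finset.sum_comm]
    simp only [h3]
    rw [Finset.sum_comm]
    simp only [← Finset.smul_sum, hz, smul_zero, Finset.sum_const_zero]

theorem dual_le_iff (hFAR : Stmt_FAR.{u}) (e : Anti R S) (α β : P1 R) :
    Le α β ↔ Le (dualF e β) (dualF e α) :=
  ⟨dual_anti hFAR e, fun h =>
    ((le_dd e α).trans (dual_anti hFAR e.symm h)).trans (dd_le e β)⟩

/-- the dual of a meet is contained in the join of the duals -/
theorem dual_meet (hFAR : Stmt_FAR.{u}) (e : Anti R S) (φ ψ : P1 R) :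
    Le (dualF e (φ.meet ψ)) (joinF (dualF e ψ) (dualF e φ)) := by
  have h1 : Le (dualF e.symm (joinF (dualF e ψ) (dualF e φ))) (φ.meet ψ) := by
    refine le_meet ?_ ?_
    · exact (dual_anti hFAR e.symm (le_join_right _ _)).trans (dd_le e φ)
    · exact (dual_anti hFAR e.symm (le_join_left _ _)).trans (dd_le e ψ)
  exact (dual_anti hFAR e h1).trans (dd_le' e _)

theorem dual_long (hFAR : Stmt_FAR.{u}) (hLMO : Stmt_LMO.{u}) (e : Anti R S)
    {r : P1 R → P1 R → Prop} {r' : P1 S → P1 S → Prop}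
    (hr : ∀ φ ψ, r' (dualF e ψ) (dualF e φ) → r φ ψ) (n : ℕ) (b : P1 R) :
    ∀ t, Long r n b t → Long r' n (dualF e t) (dualF e b) := by
  induction n with
  | zero => intro t h; exact dual_anti hFAR e h
  | succ n ih =>
    rintro t ⟨c, d, h1, h2, h3, h4⟩
    have h5 := ih c h1
    have h6 : Long r' (n + 1) (dualF e d) (dualF e b) :=
      (hLMO S r').2.2.2.2.1 n _ _ _ (dual_anti hFAR e h2) (fun h => h4 (hr d c h)) h5
    exact (hLMO S r').1 _ _ _ _ _ (dual_anti hFAR e h3) (Le.refl _) h6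

theorem dual_der_aux (hFAR : Stmt_FAR.{u}) (hLMO : Stmt_LMO.{u}) (hLIS : Stmt_LIS.{u})
    (e : Anti R S) {r : P1 R → P1 R → Prop} {r' : P1 S → P1 S → Prop} (hs' : Serre r')
    (hr : ∀ φ ψ, r' (dualF e ψ) (dualF e φ) → r φ ψ) (n : ℕ) (φ ψ : P1 R)
    (h : Long r n (φ.meet ψ) φ) :
    Long r' n ((dualF e ψ).meet (dualF e φ)) (dualF e ψ) := by
  have h1 := dual_long hFAR hLMO e hr n _ _ h
  rw [hLIS S r' hs' n]
  exact (hLMO S r').1 _ _ _ _ _ (Le.refl _) (dual_meet hFAR e φ ψ) h1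

/-- the derivative is compatible with duality -/
theorem dual_der (hFAR : Stmt_FAR.{u}) (hLMO : Stmt_LMO.{u}) (hLIS : Stmt_LIS.{u})
    (e : Anti R S) {r : P1 R → P1 R → Prop} {r' : P1 S → P1 S → Prop} (hs : Serre r)
    (hs' : Serre r') (hr : ∀ φ ψ, r φ ψ ↔ r' (dualF e ψ) (dualF e φ)) (φ ψ : P1 R) :
    der r φ ψ ↔ der r' (dualF e ψ) (dualF e φ) := by
  have hr' : ∀ φ ψ : P1 S, r (dualF e.symm ψ) (dualF e.symm φ) → r' φ ψ := by
    intro φ ψ h
    have h1 := (hr _ _).1 h
    exact hs'.trans _ _ _ (hs'.le _ _ (le_dd' e φ)) (hs'.trans _ _ _ h1 (hs'.le _ _ (dd_le' e ψ)))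
  constructor
  · rintro ⟨n, hn⟩
    refine ⟨n, fun h => hn ?_⟩
    have h1 := dual_der_aux hFAR hLMO hLIS e.symm hs hr' n _ _ h
    refine (hLMO R r).1 _ _ _ _ _ ?_ (dd_le e φ) h1
    exact le_meet ((meet_le_left _ _).trans (le_dd e φ)) ((meet_le_right _ _).trans (le_dd e ψ))
  · rintro ⟨n, hn⟩
    exact ⟨n, fun h => hn (dual_der_aux hFAR hLMO hLIS e hs' (fun φ ψ h => (hr φ ψ).2 h) n _ _ h)⟩

theorem dual_R0 (hFAR : Stmt_FAR.{u}) (hLMO : Stmt_LMO.{u}) (hLIS : Stmt_LIS.{u})
    (hSLE : Stmt_SLE.{u}) (e : Anti R S) (φ ψ : P1 R) :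
    R0 φ ψ ↔ R0 (dualF e ψ) (dualF e φ) :=
  dual_der hFAR hLMO hLIS e (hSLE R) (hSLE S) (fun φ ψ => dual_le_iff hFAR e φ ψ) φ ψ

theorem dual_R1 (hFAR : Stmt_FAR.{u}) (hLMO : Stmt_LMO.{u}) (hLIS : Stmt_LIS.{u})
    (hSLE : Stmt_SLE.{u}) (hDER : Stmt_DER.{u}) (e : Anti R S) (φ ψ : P1 R) :
    R1 φ ψ ↔ R1 (dualF e ψ) (dualF e φ) :=
  dual_der hFAR hLMO hLIS e (hDER R _ (hSLE R)) (hDER S _ (hSLE S))
    (fun φ ψ => dual_R0 hFAR hLMO hLIS hSLE e φ ψ) φ ψ

theorem dual_bot (hFAR : Stmt_FAR.{u}) (e : Anti R S) : Le (topF : P1 S) (dualF e botF) :=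
  (le_dd' e topF).trans (dual_anti hFAR e (bot_le _))

theorem dual_top (hFAR : Stmt_FAR.{u}) (e : Anti R S) : Le (dualF e (topF : P1 R)) botF :=
  (dual_anti hFAR e (le_top (dualF e.symm (botF : P1 S)))).trans (dd_le' e botF)

/-- the transfer of the hypothesis `R1 topF botF` -/
theorem dual_R1_top (hFAR : Stmt_FAR.{u}) (hLMO : Stmt_LMO.{u}) (hLIS : Stmt_LIS.{u})
    (hSLE : Stmt_SLE.{u}) (hDER : Stmt_DER.{u}) (e : Anti R S) (h : R1 (topF : P1 R) botF) :
    R1 (topF : P1 S) botF := by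
  have hs : Serre (R1 : P1 S → P1 S → Prop) := hDER S _ (hDER S _ (hSLE S))
  have h1 := (dual_R1 hFAR hLMO hLIS hSLE hDER e _ _).1 h
  exact hs.trans _ _ _ (hs.le _ _ (dual_bot hFAR e)) (hs.trans _ _ _ h1 (hs.le _ _ (dual_top hFAR e)))

end

end Pool.ZgCB
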