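import Pool.Agent.Work.MP_d94bda_cb.InterfaceK

/-!
# KFS: a pair of finite length which is open gives a finitely generated direct summand
-/

open scoped BigOperators

namespace Pool.ZgCB

universe u

/-- a formula on a constant tuple is a formula in one variable -/
theorem KFS_const {R : Type u} [Ring R] {n : ℕ} (θ : PP R (Fin n)) :
    ∃ η : P1 R, ∀ (M : Type u) [AddCommGroup M] [Module R M] (a : M),
      at1 η a ↔ θ.ev M (fun _ => a) := by
  obtain ⟨η, -, hη⟩ := Dfn.reidx (ι := Unit) (Dfn.of (PP.over_top θ)) (fun _ => ())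
  exact ⟨η, fun M _ _ a => hη M (fun _ => a)⟩

theorem KFS_noeth (C R : Type u) [CommRing C] [IsArtinianRing C] [Ring R] [Algebra C R]
    [Module.Finite C R] : IsNoetherianRing R :=
  isNoetherian_of_tower C (inferInstance : IsNoetherian C R)

theorem KFS_art (C R : Type u) [CommRing C] [IsArtinianRing C] [Ring R] [Algebra C R]
    [Module.Finite C R] : IsArtinianRing R :=
  isArtinian_of_tower C (inferInstance : IsArtinian C R)

theorem p_KFS (hFMP : Stmt_FMP.{u}) (hFRE : Stmt_FRE.{u}) (hKGE : Stmt_KGE.{u})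
    (hFGP : Stmt_FGP.{u}) (hPIA : Stmt_PIA.{u}) (hEXT : Stmt_EXT.{u}) : Stmt_KFS.{u} := by
  intro R _ C _ _ _ _ A _ _ φ ψ h0 hop
  have : IsNoetherianRing R := KFS_noeth C R
  have : IsArtinianRing R := KFS_art C R
  obtain ⟨n, hn⟩ := h0
  have hop' : Opn A φ (φ.meet ψ) := by
    obtain ⟨a, h1, h2⟩ := hop
    exact ⟨a, h1, fun h => h2 ((at1_meet φ ψ a).1 h).2⟩
  obtain ⟨c, d, -, -, hmin, a, hda, hca⟩ :=
    hFMP R n (φ.meet ψ) φ (meet_le_left φ ψ) hn A hop'
  obtain ⟨Z, _, _, z, hZ, hz, hZf⟩ := hFRE R Unit d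
  obtain ⟨f, hf⟩ := hZf A (fun _ => a) hda
  -- minimal submodule
  let S : Set (Submodule R Z) := {Y | ∃ y : Y, at1 d y ∧ ¬ at1 c (f (y : Z))}
  have htop : (⊤ : Submodule R Z) ∈ S := by
    have h1 : at1 d (z ()) := hz
    refine ⟨Submodule.topEquiv.symm (z ()), ?_, ?_⟩
    · exact at1_map d (Submodule.topEquiv.symm : Z ≃ₗ[R] (⊤ : Submodule R Z)).toLinearMap h1
    · have : f ((Submodule.topEquiv.symm (z ()) : (⊤ : Submodule R Z)) : Z) = a := hf ()
      rw [this]
      exact hca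
  obtain ⟨Y, ⟨y, hdy, hcy⟩, hYmin⟩ := IsArtinian.set_has_minimal S ⟨⊤, htop⟩
  let fY : Y →ₗ[R] A := f ∘ₗ Y.subtype
  have hfY : ∀ v : Y, fY v = f (v : Z) := fun _ => rfl
  have star : ∀ α : Y →ₗ[R] Y, ¬ at1 c (fY (α y)) → Function.Bijective α := by
    intro α hα
    have hmem : ∀ v : Y, (Y.subtype ∘ₗ α) v ∈ (LinearMap.range α).map Y.subtype :=
      fun v => ⟨α v, ⟨v, rfl⟩, rfl⟩
    have hS : (LinearMap.range α).map Y.subtype ∈ S := by
      refine ⟨LinearMap.codRestrict _ (Y.subtype ∘ₗ α) hmem y, ?_, ?_⟩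
      · exact at1_map d _ hdy
      · exact hα
    have hle : (LinearMap.range α).map Y.subtype ≤ Y := by
      rintro _ ⟨v, -, rfl⟩
      exact v.2
    have heq : (LinearMap.range α).map Y.subtype = Y := eq_of_le_of_not_lt hle (hYmin _ hS)
    have hsurj : Function.Surjective α := by
      intro w
      have hw : (w : Z) ∈ (LinearMap.range α).map Y.subtype := by
        rw [heq]
        exact w.2
      obtain ⟨v, ⟨v', hv'⟩, hv⟩ := hw
      refine ⟨v', ?_⟩
      rw [hv']
      exact Subtype.ext hv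
    exact ⟨IsNoetherian.injective_of_surjective_endomorphism α hsurj, hsurj⟩
  have hYf : Module.Finite R Y := inferInstance
  obtain ⟨γ, hγ⟩ := hKGE R Unit Y (fun _ => y) hYf
  have hγd : Le γ d := by
    intro M _ _ u hu
    obtain ⟨g, hg⟩ := (hγ M (fun _ => u)).1 hu
    have := at1_map d g hdy
    rwa [hg ()] at this
  have hγy : at1 γ (fY y) := (hγ A (fun _ => fY y)).2 ⟨fY, fun _ => rfl⟩
  have claim : ∀ η : P1 R, at1 η (fY y) → at1 η y := by
    intro η hη
    rcases hmin.2.2 (joinF (γ.meet η) c) (le_join_right _ _)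
      (join_le (Le.trans (meet_le_left γ η) hγd) hmin.1) with h | h
    · exact absurd (h A _ (le_join_left (γ.meet η) c A _ ((at1_meet γ η _).2 ⟨hγy, hη⟩))) hcy
    · obtain ⟨u, v, hu, hv, huv⟩ := (at1_join (γ.meet η) c y).1 (h Y y hdy)
      obtain ⟨hu1, hu2⟩ := (at1_meet γ η u).1 hu
      obtain ⟨α, hα⟩ := (hγ Y (fun _ => u)).1 hu1
      have hαy : α y = u := hα ()
      have hb : Function.Bijective α := by
        refine star α fun hc => hcy ?_
        have h2 : at1 c (fY (α y) + fY v) := at1_add c hc (at1_map c fY hv)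
        rwa [hαy, ← map_add, ← huv] at h2
      have h3 := at1_map η (LinearEquiv.ofBijective α hb).symm.toLinearMap hu2
      have h4 : (LinearEquiv.ofBijective α hb).symm.toLinearMap u = y := by
        show (LinearEquiv.ofBijective α hb).symm u = y
        rw [LinearEquiv.symm_apply_eq]
        exact hαy.symm
      rwa [h4] at h3
  have hAC : AC R Y := (hPIA R Y).1 (hFGP R C Y hYf)
  obtain ⟨g, hg⟩ := hEXT R A Y hAC PUnit (fun _ => fY y) (fun _ => y) (by
    intro n θ v h
    obtain ⟨η, hη⟩ := KFS_const θ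
    exact (hη Y y).1 (claim η ((hη A (fY y)).2 h)))
  have hgy : g (fY y) = y := hg PUnit.unit
  have hb : Function.Bijective (g ∘ₗ fY) := by
    refine star _ ?_
    have h5 : (g ∘ₗ fY) y = y := hgy
    rw [h5]
    exact hcy
  refine ⟨Y, inferInstance, inferInstance, fY,
    (LinearEquiv.ofBijective (g ∘ₗ fY) hb).symm.toLinearMap ∘ₗ g, hYf, ?_, ?_⟩
  · refine ⟨⟨y, 0, ?_⟩⟩
    rintro rfl
    exact hcy (at1_map c f (at1_zero c))
  · intro w
    show (LinearEquiv.ofBijective (g ∘ₗ fY) hb).symm (g (fY w)) = w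
    rw [LinearEquiv.symm_apply_eq]
    rfl

end Pool.ZgCB
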