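import Pool.Agent.Work.MP_d94bda_cb.InterfaceK

/-!
# Block KGE: the generator formula
-/

open scoped BigOperators

namespace Pool.ZgCB

universe u

theorem p_KGE : Stmt_KGE.{u} := by
  classical
  intro R _ _ ι _ Y _ _ y hY
  obtain ⟨k, π, hπ⟩ := Module.Finite.exists_fin' R Y
  obtain ⟨S, hS⟩ := (IsNoetherian.noetherian (LinearMap.ker π) : (LinearMap.ker π).FG)
  choose q hq using fun i => hπ (y i)
  have hD : Dfn (⊤ : Subring R) (fun M _ _ (x : ι → M) => ∃ z : Fin k → M,
      (∀ t : S, ∑ j, (Sum.elim (fun _ => (0 : R)) t.1 : ι ⊕ Fin k → R) j •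
        (Sum.elim x z : ι ⊕ Fin k → M) j = 0) ∧
      (∀ i : ι, ∑ j, (Sum.elim (fun i' => if i' = i then (1 : R) else 0) (fun l => - q i l) :
        ι ⊕ Fin k → R) j • (Sum.elim x z : ι ⊕ Fin k → M) j = 0)) :=
    Dfn.ex (P := fun M _ _ (x : ι ⊕ Fin k → M) =>
      (∀ t : S, ∑ j, (Sum.elim (fun _ => (0 : R)) t.1 : ι ⊕ Fin k → R) j • x j = 0) ∧
      (∀ i : ι, ∑ j, (Sum.elim (fun i' => if i' = i then (1 : R) else 0) (fun l => - q i l) :
        ι ⊕ Fin k → R) j • x j = 0))
      ((Dfn.all fun t => Dfn.lin _ (fun _ => Subring.mem_top _)).and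
        (Dfn.all fun i => Dfn.lin _ (fun _ => Subring.mem_top _)))
  obtain ⟨γ, _, hγ⟩ := hD
  refine ⟨γ, fun A _ _ x => (hγ A x).trans ?_⟩
  have e1 : ∀ (z : Fin k → A) (t : S), (∑ j, (Sum.elim (fun _ => (0 : R)) t.1 : ι ⊕ Fin k → R) j •
      (Sum.elim x z : ι ⊕ Fin k → A) j = 0) ↔ ∑ l, t.1 l • z l = 0 := by
    intro z t
    rw [Fintype.sum_sum_type]
    simp
  have e2 : ∀ (z : Fin k → A) (i : ι), (∑ j, (Sum.elim (fun i' => if i' = i then (1 : R) else 0)
      (fun l => - q i l) : ι ⊕ Fin k → R) j • (Sum.elim x z : ι ⊕ Fin k → A) j = 0) ↔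
      x i = ∑ l, q i l • z l := by
    intro z i
    rw [Fintype.sum_sum_type]
    simp only [Sum.elim_inl, Sum.elim_inr, ite_smul, one_smul, zero_smul, Finset.sum_ite_eq',
      Finset.mem_univ, if_true, neg_smul, Finset.sum_neg_distrib]
    rw [← sub_eq_add_neg, sub_eq_zero]
  simp only [e1, e2]
  constructor
  · rintro ⟨z, h1, h2⟩
    let F : (Fin k → R) →ₗ[R] A :=
      { toFun := fun v => ∑ l, v l • z l
        map_add' := by
          intro v w
          simp only [Pi.add_apply, add_smul, Finset.sum_add_distrib]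
        map_smul' := by
          intro c v
          simp only [Pi.smul_apply, smul_eq_mul, RingHom.id_apply, Finset.smul_sum, mul_smul] }
    have hle : LinearMap.ker π ≤ LinearMap.ker F := by
      rw [← hS, Submodule.span_le]
      intro t ht
      exact h1 ⟨t, ht⟩
    let E := π.quotKerEquivOfSurjective hπ
    have hE : ∀ v, E (Submodule.Quotient.mk v) = π v := fun v => rfl
    refine ⟨((LinearMap.ker π).liftQ F hle) ∘ₗ E.symm.toLinearMap, fun i => ?_⟩
    rw [← hq i, ← hE, LinearMap.comp_apply, LinearEquiv.coe_coe, LinearEquiv.symm_apply_apply,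
      Submodule.liftQ_apply, h2 i]
    rfl
  · rintro ⟨f, hf⟩
    have key : ∀ v : Fin k → R, ∑ l, v l • f (π (fun j => if l = j then 1 else 0)) = f (π v) := by
      intro v
      exact (LinearMap.pi_apply_eq_sum_univ (f ∘ₗ π) v).symm
    refine ⟨fun l => f (π (fun j => if l = j then 1 else 0)), fun t => ?_, fun i => ?_⟩
    · rw [key]
      have ht : t.1 ∈ LinearMap.ker π := by
        rw [← hS]
        exact Submodule.subset_span t.2
      rw [LinearMap.mem_ker.1 ht, map_zero]
    · rw [key, hq i, hf i]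

end Pool.ZgCB
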