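import Pool.Agent.Work.MP_d94bda_cb.InterfaceK

/-!
# Block KLO: the endomorphism ring of a hull is local
-/

open scoped BigOperators

namespace Pool.ZgCB

universe u

theorem KLO_core {R : Type u} [Ring R] {p : Set (P1 R)} {N : Type u} [AddCommGroup N] [Module R N]
    {a : N} (hH : Hull p N a) (e : N →ₗ[R] N) (h : ∀ θ : P1 R, at1 θ (e a) → θ ∈ p) :
    Function.Bijective e := by
  have hpe := hH.rigid N e h
  obtain ⟨g, hg⟩ := hH.point.1 N e hpe
  have hinj : Function.Injective e := fun x y hxy => by rw [← hg x, ← hg y, hxy]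
  refine ⟨hinj, ?_⟩
  rcases hH.point.2.2 (e ∘ₗ g) (fun x => by simp [hg]) with h0 | h1
  · exfalso
    obtain ⟨x, y, hxy⟩ := hH.point.2.1
    apply hxy
    have hz : ∀ z : N, z = 0 := by
      intro z
      have h2 := h0 (e z)
      rw [LinearMap.comp_apply, hg] at h2
      rw [← hg z, h2, map_zero]
    rw [hz x, hz y]
  · intro x
    exact ⟨g x, h1 x⟩

theorem p_KLO : Stmt_KLO.{u} := by
  intro R _ p N _ _ a hH hI e
  by_cases h1 : ∀ θ : P1 R, at1 θ (e a) → θ ∈ p
  · exact Or.inl (KLO_core hH e h1)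
  · by_cases h2 : ∀ θ : P1 R, at1 θ (a - e a) → θ ∈ p
    · exact Or.inr (KLO_core hH (LinearMap.id - e) (fun θ hθ => h2 θ (by simpa using hθ)))
    · exfalso
      push Not at h1 h2
      obtain ⟨ω₁, hω₁, hn₁⟩ := h1
      obtain ⟨ω₂, hω₂, hn₂⟩ := h2
      obtain ⟨α, hα, hj⟩ := hI ω₁ ω₂ hn₁ hn₂
      apply hj
      rw [← hH.type, at1_join]
      have hαa : at1 α a := (hH.type α).2 hα
      have hα1 : at1 α (e a) := at1_map α e hαa
      refine ⟨e a, a - e a, ?_, ?_, by abel⟩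
      · exact (at1_meet _ _ _).2 ⟨hα1, hω₁⟩
      · exact (at1_meet _ _ _).2 ⟨at1_sub α hαa hα1, hω₂⟩

end Pool.ZgCB
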