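import Pool.Agent.Work.MP_d94bda_cb.InterfaceK

open scoped BigOperators

namespace Pool.ZgCB

universe u

/-- renaming of the variables of a formula -/
theorem KRH_re {R : Type u} [Ring R] {ι κ : Type} [Fintype ι] [Fintype κ] (θ : PP R κ)
    (f : κ → ι) : ∃ θ' : PP R ι, ∀ (M : Type u) [AddCommGroup M] [Module R M] (x : ι → M),
      θ'.ev M x ↔ θ.ev M (fun k => x (f k)) := by
  obtain ⟨θ', -, h⟩ := (Dfn.of (PP.over_top θ)).reidx f
  exact ⟨θ', h⟩

/-- a bijective linear map reflects formulas -/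
theorem KRH_inj {R : Type u} [Ring R] {G : Type u} [AddCommGroup G] [Module R G] (θ : P1 R)
    (e : G →ₗ[R] G) (he : Function.Bijective e) {a : G} (h : at1 θ (e a)) : at1 θ a := by
  have h1 := at1_map θ (LinearEquiv.ofBijective e he).symm.toLinearMap h
  have h2 : (LinearEquiv.ofBijective e he).symm.toLinearMap (e a) = a := by
    have := (LinearEquiv.ofBijective e he).symm_apply_apply a
    exact this
  rwa [h2] at h1

theorem p_KRH (hEXT : Stmt_EXT.{u}) : Stmt_KRH.{u} := by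
  intro R _ G _ _ hAC hCl hLoc c d hs a b hda hca hdb hcb
  by_contra hcon
  push Not at hcon
  -- the claim
  have claim : ∀ ρ : P2 R, at2 ρ a b → ∃ x y : G, at1 c (x - b) ∧ at1 c y ∧ at2 ρ y x := by
    intro ρ hρ
    obtain ⟨w, s, hdw, hcs, hws, hcw⟩ := hcon ρ hρ
    have l1 : Le c (joinF c (d.meet (exr ρ c))) := le_join_left _ _
    have l2 : Le (joinF c (d.meet (exr ρ c))) d := join_le hs.1 (meet_le_left _ _)
    rcases hs.2 _ l1 l2 with h | h
    · exfalso
      have hw : at1 (joinF c (d.meet (exr ρ c))) w :=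
        (at1_join _ _ _).2 ⟨0, w, at1_zero c,
          (at1_meet _ _ _).2 ⟨hdw, (at1_exr ρ c w).2 ⟨s, hws, hcs⟩⟩, (zero_add w).symm⟩
      exact hcw (hCl _ _ h w hw)
    · have ha := hCl _ _ h a hda
      obtain ⟨s₁, v, hs₁, hv, e⟩ := (at1_join _ _ _).1 ha
      obtain ⟨-, hv2⟩ := (at1_meet _ _ _).1 hv
      obtain ⟨s₂, hρ2, hs₂⟩ := (at1_exr ρ c v).1 hv2
      refine ⟨b - s₂, a - v, ?_, ?_, at2_sub ρ hρ hρ2⟩
      · have : b - s₂ - b = -s₂ := by abel
        rw [this]
        exact at1_neg c hs₂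
      · have : a - v = s₁ := by rw [e]; abel
        rw [this]
        exact hs₁
  -- algebraic compactness
  let X : Type u := ULift.{u} Bool
  let tt : X := ULift.up true
  let ff : X := ULift.up false
  let Φ : Set (Cond R X G) := {Q | ∃ ρ : P2 R, at2 ρ a b ∧ ∀ x : X → G, at1 c (x tt - b) →
    at1 c (x ff) → at2 ρ (x ff) (x tt) → Q.holds x}
  have htop : ∃ ρ : P2 R, ∀ y x : G, at2 ρ y x :=
    ⟨⟨0, 0, Fin.elim0, Fin.elim0⟩, fun y x => ⟨Fin.elim0, fun i => i.elim0⟩⟩
  obtain ⟨ρ0, hρ0⟩ := htop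
  have hfin : ∀ F ⊆ Φ, F.Finite → ∃ x : X → G, ∀ Q ∈ F, Q.holds x := by
    intro F hF hFf
    have key : ∃ ρ : P2 R, at2 ρ a b ∧ ∀ Q ∈ F, ∀ x : X → G, at1 c (x tt - b) →
        at1 c (x ff) → at2 ρ (x ff) (x tt) → Q.holds x := by
      revert hF
      induction F, hFf using Set.Finite.induction_on with
      | empty =>
        intro _
        exact ⟨ρ0, hρ0 a b, fun Q hQ => absurd hQ (Set.notMem_empty Q)⟩
      | insert ha hs' ih =>
        intro hF
        obtain ⟨ρ, h1, h2⟩ := ih (fun Q hQ => hF (Set.mem_insert_of_mem _ hQ))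
        obtain ⟨ρ', h1', h2'⟩ := hF (Set.mem_insert _ _)
        refine ⟨ρ.meet ρ', (PP.ev_meet ρ ρ' G _).2 ⟨h1, h1'⟩, ?_⟩
        intro Q hQ x hx1 hx2 hx3
        obtain ⟨h3, h3'⟩ := (PP.ev_meet ρ ρ' G _).1 hx3
        rcases Set.mem_insert_iff.1 hQ with rfl | hQ
        · exact h2' x hx1 hx2 h3'
        · exact h2 Q hQ x hx1 hx2 h3
    obtain ⟨ρ, h1, h2⟩ := key
    obtain ⟨x, y, hx, hy, hxy⟩ := claim ρ h1
    exact ⟨fun z => if z.down then x else y, fun Q hQ => h2 Q hQ _ hx hy hxy⟩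
  obtain ⟨z, hz⟩ := hAC X Φ hfin
  -- the properties of the solution
  have z1 : at1 c (z tt - b) := by
    obtain ⟨c', hc'⟩ : ∃ c' : PP R (Fin 2), ∀ x : Fin 2 → G, c'.ev G x ↔ at1 c (x 0 - x 1) := by
      refine ⟨c.subst (fun _ => ![1, -1]), fun x => ?_⟩
      rw [PP.ev_subst]
      unfold at1
      simp [Fin.sum_univ_two, sub_eq_add_neg]
    have hQ : (⟨2, c', ![Sum.inl tt, Sum.inr b]⟩ : Cond R X G) ∈ Φ := by
      refine ⟨ρ0, hρ0 a b, fun x hx _ _ => ?_⟩
      exact (hc' _).2 hx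
    exact (hc' _).1 (hz _ hQ)
  have z2 : at1 c (z ff) := by
    obtain ⟨c', hc'⟩ := KRH_re (ι := Fin 1) c (fun _ => 0)
    have hQ : (⟨1, c', ![Sum.inl ff]⟩ : Cond R X G) ∈ Φ := by
      refine ⟨ρ0, hρ0 a b, fun x _ hx _ => ?_⟩
      exact (hc' G _).2 hx
    exact (hc' G _).1 (hz _ hQ)
  have z3 : ∀ ρ : P2 R, at2 ρ a b → at2 ρ (z ff) (z tt) := by
    intro ρ hρ
    obtain ⟨ρ', hρ'⟩ := KRH_re (ι := Fin 2) ρ (Sum.elim (fun _ => 0) (fun _ => 1))
    have conv : ∀ (x : Fin 2 → G), ρ'.ev G x ↔ at2 ρ (x 0) (x 1) := by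
      intro x
      rw [hρ']
      unfold at2
      have : (fun k => x (Sum.elim (fun _ => 0) (fun _ => 1) k)) =
          (Sum.elim (fun _ => x 0) (fun _ => x 1) : Unit ⊕ Unit → G) := by
        funext k; rcases k with k | k <;> rfl
      rw [this]
    have hQ : (⟨2, ρ', ![Sum.inl ff, Sum.inl tt]⟩ : Cond R X G) ∈ Φ := by
      refine ⟨ρ, hρ, fun x _ _ hx => ?_⟩
      exact (conv _).2 hx
    exact (conv _).1 (hz _ hQ)
  -- the extension lemma
  obtain ⟨e, he⟩ := hEXT R G G hAC X (fun t => if t.down then b else a)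
    (fun t => if t.down then z tt else z ff) (by
      intro n θ v h
      obtain ⟨ρ, hρ⟩ := KRH_re (ι := Unit ⊕ Unit) θ
        (fun i => if (v i).down then Sum.inr () else Sum.inl ())
      have h1 : at2 ρ a b := by
        unfold at2
        rw [hρ]
        convert h using 1
        funext i
        split_ifs <;> rfl
      have h2 := z3 ρ h1
      unfold at2 at h2
      rw [hρ] at h2
      convert h2 using 1
      funext i
      split_ifs <;> rfl)
  have ea : e a = z ff := he ff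
  have eb : e b = z tt := he tt
  rcases hLoc e with h | h
  · exact hca (KRH_inj c e h (by rw [ea]; exact z2))
  · refine hcb (KRH_inj c _ h ?_)
    have : (LinearMap.id - e : G →ₗ[R] G) b = -(z tt - b) := by
      rw [LinearMap.sub_apply, LinearMap.id_apply, eb]
      abel
    rw [this]
    exact at1_neg c z1

end Pool.ZgCB
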