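import Pool.Agent.Work.MP_d94bda_cb.InterfaceA

/-!
# MP_d94bda_al, THEOREM Z: block LIS (isomorphic intervals)
-/

open scoped BigOperators

namespace Pool.ZgCB

universe u

theorem p_LIS (hM : Stmt_LMO.{u}) (hS : Stmt_LSP.{u}) : Stmt_LIS.{u} := by
  intro R _ r hr n a b
  obtain ⟨hmono, -, -, -, -, hlast⟩ := hM R r
  constructor
  · intro h
    obtain ⟨n₁, n₂, hn, h1, h2⟩ := hS R r hr b n _ _ h
    rcases n₁ with _ | k
    · rw [Nat.zero_add] at hn
      rw [hn] at h2
      exact hmono n _ _ _ _ (le_join_right _ _) (Le.refl _) h2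
    · exact absurd (le_meet (Le.refl _) (meet_le_right a b)) (hlast hr k _ _ h1)
  · intro h
    obtain ⟨n₁, n₂, hn, h1, h2⟩ := hS R r hr a n _ _ h
    rcases n₂ with _ | k
    · rw [Nat.add_zero] at hn
      rw [hn] at h1
      exact hmono n _ _ _ _ (le_meet (meet_le_right a b) (meet_le_left a b))
        (meet_le_right _ _) h1
    · exact absurd (join_le (join_le (le_join_right b a) (le_join_left b a)) (le_join_right b a))
        (hlast hr k _ _ h2)

end Pool.ZgCB
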