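import Pool.Agent.Work.MP_d94bda_cb.InterfaceA

set_option autoImplicit false

namespace Pool.ZgCB

universe u

theorem LMO_mono {R : Type u} [Ring R] (r : P1 R → P1 R → Prop) :
    ∀ (n : ℕ) (b t b' t' : P1 R), Le b' b → Le t t' → Long r n b t → Long r n b' t'
  | 0, _, _, _, _, hb, ht, h => Le.trans (Le.trans hb h) ht
  | n + 1, b, _, b', _, hb, ht, ⟨c, d, h1, h2, h3, h4⟩ =>
    ⟨c, d, LMO_mono r n b c b' c hb (Le.refl c) h1, h2, Le.trans h3 ht, h4⟩

theorem LMO_le {R : Type u} [Ring R] (r : P1 R → P1 R → Prop) :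
    ∀ (n : ℕ) (b t : P1 R), Long r n b t → Le b t
  | 0, _, _, h => h
  | n + 1, b, _, ⟨c, _, h1, h2, h3, _⟩ => Le.trans (Le.trans (LMO_le r n b c h1) h2) h3

theorem LMO_succ {R : Type u} [Ring R] (r : P1 R → P1 R → Prop) (n : ℕ) (b t : P1 R)
    (h : Long r (n + 1) b t) : Long r n b t := by
  obtain ⟨c, d, h1, h2, h3, _⟩ := h
  exact LMO_mono r n b c b t (Le.refl b) (Le.trans h2 h3) h1

theorem LMO_front {R : Type u} [Ring R] (r : P1 R → P1 R → Prop) (b c : P1 R) (hbc : Le b c)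
    (hr : ¬ r c b) : ∀ (n : ℕ) (t : P1 R), Long r n c t → Long r (n + 1) b t
  | 0, _, h => ⟨b, c, Le.refl b, hbc, h, hr⟩
  | n + 1, _, ⟨c', d', h1, h2, h3, h4⟩ => ⟨c', d', LMO_front r b c hbc hr n c' h1, h2, h3, h4⟩

theorem p_LMO : Stmt_LMO.{u} := by
  intro R _ r
  refine ⟨LMO_mono r, LMO_le r, LMO_succ r, ?_, ?_, ?_⟩
  · intro n m b t hmn
    induction hmn with
    | refl => exact fun h => h
    | step _ ih => exact fun h => ih (LMO_succ r _ b t h)
  · intro n b c t h1 h2 h3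
    exact LMO_front r b c h1 h2 n t h3
  · rintro hs n b t ⟨c, d, h1, h2, h3, h4⟩ h5
    exact h4 (hs.le d c (Le.trans h3 (Le.trans h5 (LMO_le r n b c h1))))

end Pool.ZgCB
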