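import Pool.Agent.Work.MP_d94bda_cb.InterfaceA

/-!
# Block `LSP`: splitting a chain with a formula
-/

set_option autoImplicit false

open scoped BigOperators

namespace Pool.ZgCB

universe u

theorem LSP_meet {R : Type u} [Ring R] {φ ψ : P1 R} (β : P1 R) (h : Le φ ψ) :
    Le (φ.meet β) (ψ.meet β) :=
  le_meet ((meet_le_left φ β).trans h) (meet_le_right φ β)

theorem LSP_join {R : Type u} [Ring R] {φ ψ : P1 R} (β : P1 R) (h : Le φ ψ) :
    Le (joinF φ β) (joinF ψ β) :=
  join_le (h.trans (le_join_left ψ β)) (le_join_right ψ β)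

/-- The modular law. -/
theorem LSP_mod {R : Type u} [Ring R] {c d : P1 R} (β : P1 R) (h : Le c d) :
    Le ((joinF c β).meet d) (joinF c (d.meet β)) := by
  intro M _ _ a ha
  obtain ⟨h1, h2⟩ := (at1_meet (joinF c β) d a).1 ha
  obtain ⟨s, t, hs, ht, rfl⟩ := (at1_join c β a).1 h1
  refine (at1_join c (d.meet β) (s + t)).2 ⟨s, t, hs, (at1_meet d β t).2 ⟨?_, ht⟩, rfl⟩
  have h3 := at1_sub d h2 (h M s hs)
  rwa [add_sub_cancel_left] at h3

theorem p_LSP (hLMO : Stmt_LMO.{u}) : Stmt_LSP.{u} := by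
  intro R _ r hr β n
  obtain ⟨hmono, -⟩ := hLMO R r
  induction n with
  | zero =>
    intro b t h
    have h' : Le b t := h
    exact ⟨0, 0, rfl, LSP_meet β h', LSP_join β h'⟩
  | succ n ih =>
    rintro b t ⟨c, d, hc, hcd, hdt, hn⟩
    obtain ⟨n₁, n₂, hsum, h1, h2⟩ := ih b c hc
    by_cases hA : r (d.meet β) (c.meet β)
    · by_cases hB : r (joinF d β) (joinF c β)
      · refine absurd ?_ hn
        have e1 : r d (joinF c β) := hr.trans _ _ _ (hr.le _ _ (le_join_left d β)) hB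
        have e2 : r d ((joinF c β).meet d) := hr.meet _ _ _ e1 (hr.le _ _ (Le.refl d))
        have e3 : r d (joinF c (d.meet β)) := hr.trans _ _ _ e2 (hr.le _ _ (LSP_mod β hcd))
        have e4 : r (joinF c (d.meet β)) c :=
          hr.join _ _ _ (hr.le _ _ (Le.refl c)) (hr.trans _ _ _ hA (hr.le _ _ (meet_le_left c β)))
        exact hr.trans _ _ _ e3 e4
      · exact ⟨n₁, n₂ + 1, by omega,
          hmono n₁ _ _ _ _ (Le.refl _) (LSP_meet β (hcd.trans hdt)) h1,
          joinF c β, joinF d β, h2, LSP_join β hcd, LSP_join β hdt, hB⟩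
    · exact ⟨n₁ + 1, n₂, by omega,
        ⟨c.meet β, d.meet β, h1, LSP_meet β hcd, LSP_meet β hdt, hA⟩,
        hmono n₂ _ _ _ _ (Le.refl _) (LSP_join β (hcd.trans hdt)) h2⟩

end Pool.ZgCB
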