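import Pool.Agent.Work.MP_d94bda_cb.InterfaceB

/-! # MP_d94bda_al, THEOREM Z: block MCO (minimal coset) -/

set_option autoImplicit false

open scoped BigOperators

namespace Pool.ZgCB

universe u

/-- the formula `∃ z θ(z; x)` -/
theorem MCO_ex {R : Type u} [Ring R] {n : ℕ} (θ : PP R (Unit ⊕ Fin n)) :
    ∃ η : PP R (Fin n), ∀ (M : Type u) [AddCommGroup M] [Module R M] (x : Fin n → M),
      η.ev M x ↔ ∃ z : M, atn θ z x := by
  have h1 : Dfn (⊤ : Subring R) (fun M _ _ (x : Unit ⊕ Fin n → M) => θ.ev M x) :=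
    Dfn.of (PP.over_top θ)
  have h2 := (h1.reidx (Sum.swap : Unit ⊕ Fin n → Fin n ⊕ Unit)).exOne
  obtain ⟨η, -, hη⟩ := h2
  refine ⟨η, fun M _ _ x => ?_⟩
  rw [hη]
  refine exists_congr fun z => ?_
  unfold atn
  have : (fun c : Unit ⊕ Fin n => Sum.elim x (fun _ => z) (Sum.swap c)) =
      Sum.elim (fun _ => z) x := by
    funext c
    rcases c with c | c <;> rfl
  rw [this]

/-- the conjunction with disjoint variables -/
theorem MCO_and {R : Type u} [Ring R] {n n' : ℕ} (θ : PP R (Unit ⊕ Fin n))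
    (θ' : PP R (Unit ⊕ Fin n')) :
    ∃ η : PP R (Unit ⊕ Fin (n + n')), ∀ (M : Type u) [AddCommGroup M] [Module R M] (z : M)
      (x : Fin n → M) (x' : Fin n' → M), atn η z (Fin.append x x') ↔ atn θ z x ∧ atn θ' z x' := by
  have h1 : Dfn (⊤ : Subring R) (fun M _ _ (x : Unit ⊕ Fin n → M) => θ.ev M x) :=
    Dfn.of (PP.over_top θ)
  have h2 : Dfn (⊤ : Subring R) (fun M _ _ (x : Unit ⊕ Fin n' → M) => θ'.ev M x) :=
    Dfn.of (PP.over_top θ')
  have h3 := (h1.reidx (Sum.map id (Fin.castAdd n') : Unit ⊕ Fin n → Unit ⊕ Fin (n + n'))).and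
    (h2.reidx (Sum.map id (Fin.natAdd n) : Unit ⊕ Fin n' → Unit ⊕ Fin (n + n')))
  obtain ⟨η, -, hη⟩ := h3
  refine ⟨η, fun M _ _ z x x' => ?_⟩
  unfold atn
  rw [hη]
  beta_reduce
  have e1 : (fun c : Unit ⊕ Fin n => Sum.elim (fun _ => z) (Fin.append x x')
      (Sum.map id (Fin.castAdd n') c)) = Sum.elim (fun _ => z) x := by
    funext c
    rcases c with c | c
    · rfl
    · simp
  have e2 : (fun c : Unit ⊕ Fin n' => Sum.elim (fun _ => z) (Fin.append x x')
      (Sum.map id (Fin.natAdd n) c)) = Sum.elim (fun _ => z) x' := by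
    funext c
    rcases c with c | c
    · rfl
    · simp
  rw [e1, e2]

theorem MCO_zero {R : Type u} [Ring R] {n : ℕ} (θ : PP R (Unit ⊕ Fin n)) (M : Type u)
    [AddCommGroup M] [Module R M] : atn θ (0 : M) (fun _ => 0) := by
  have h := θ.ev_zero M
  unfold atn
  have : (Sum.elim (fun _ => 0) (fun _ => 0) : Unit ⊕ Fin n → M) = fun _ => 0 := by
    funext c
    rcases c with c | c <;> rfl
  rw [this]
  exact h

theorem MCO_smul {R : Type u} [Ring R] {n : ℕ} (θ : PP R (Unit ⊕ Fin n)) {M : Type u}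
    [AddCommGroup M] [Module R M] {z : M} (h : atn θ z (fun _ => 0)) (c : R)
    (hc : ∀ r : R, c * r = r * c) : atn θ (c • z) (fun _ => 0) := by
  have h1 := θ.ev_central h c hc
  unfold atn
  have : (Sum.elim (fun _ => c • z) (fun _ => 0) : Unit ⊕ Fin n → M) =
      fun i => c • (Sum.elim (fun _ => z) (fun _ => 0) : Unit ⊕ Fin n → M) i := by
    funext c
    rcases c with c | c
    · rfl
    · simp
  rw [this]
  exact h1

theorem p_MCO : Stmt_MCO.{u} := by
  intro R _ C _ _ _ _ X M _ _ _ _ f hX hf m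
  let iC : Module C X := Module.compHom X (algebraMap C R)
  have hsm : ∀ (c : C) (x : X), c • x = algebraMap C R c • x := fun c x => rfl
  haveI : IsScalarTower C R X := ⟨fun c r x => by rw [hsm, Algebra.smul_def, mul_smul]⟩
  haveI : Module.Finite C X := Module.Finite.trans R X
  haveI : IsArtinian C X := inferInstance
  let K0 : ∀ n : ℕ, PP R (Unit ⊕ Fin n) → Submodule C X := fun n θ =>
    { carrier := {z | atn θ z (fun _ => (0 : X))}
      add_mem' := fun {a b} ha hb => by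
        have h := atn_add θ ha hb
        simp only [add_zero] at h
        exact h
      zero_mem' := MCO_zero θ X
      smul_mem' := fun c z hz =>
        MCO_smul θ hz (algebraMap C R c) (fun r => Algebra.commutes c r) }
  have hK0 : ∀ (n : ℕ) (θ : PP R (Unit ⊕ Fin n)) (z : X), z ∈ K0 n θ ↔ atn θ z (fun _ => 0) :=
    fun _ _ _ => Iff.rfl
  obtain ⟨K, ⟨n, θ, x, hx, rfl⟩, hmin⟩ := IsArtinian.set_has_minimal
    {K : Submodule C X | ∃ (n : ℕ) (θ : PP R (Unit ⊕ Fin n)) (x : Fin n → X),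
      atn θ m (fun i => f (x i)) ∧ K = K0 n θ}
    ⟨K0 0 ⟨0, 0, Fin.elim0, Fin.elim0⟩, 0, ⟨0, 0, Fin.elim0, Fin.elim0⟩, Fin.elim0,
      ⟨⟨Fin.elim0, fun i => i.elim0⟩, rfl⟩⟩
  have hne : ∀ (n : ℕ) (θ : PP R (Unit ⊕ Fin n)) (x : Fin n → X),
      atn θ m (fun i => f (x i)) → ∃ z : X, atn θ z x := by
    intro n θ x h
    obtain ⟨η, hη⟩ := MCO_ex θ
    exact (hη X x).1 (hf n η x ((hη M _).2 ⟨m, h⟩))
  obtain ⟨z0, hz0⟩ := hne n θ x hx
  refine ⟨z0, fun n' θ' x' h' => ?_⟩
  obtain ⟨η, hη⟩ := MCO_and θ θ'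
  have hap : (fun i => f (Fin.append x x' i)) = Fin.append (fun i => f (x i)) (fun i => f (x' i)) := by
    funext i
    refine Fin.addCases (fun i => ?_) (fun i => ?_) i
    · simp only [Fin.append_left]
    · simp only [Fin.append_right]
  have hm : atn η m (fun i => f (Fin.append x x' i)) := by
    rw [hap, hη]
    exact ⟨hx, h'⟩
  have hz : (fun _ : Fin (n + n') => (0 : X)) = Fin.append (fun _ => 0) (fun _ => 0) := by
    funext i
    refine Fin.addCases (fun i => ?_) (fun i => ?_) i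
    · simp only [Fin.append_left]
    · simp only [Fin.append_right]
  have hle : K0 (n + n') η ≤ K0 n θ := by
    intro z hz1
    rw [hK0, hz, hη] at hz1
    exact hz1.1
  have heq : K0 (n + n') η = K0 n θ :=
    eq_of_le_of_not_lt hle (hmin _ ⟨n + n', η, Fin.append x x', hm, rfl⟩)
  obtain ⟨z, hz2⟩ := hne (n + n') η (Fin.append x x') hm
  rw [hη] at hz2
  have h3 : z0 - z ∈ K0 n θ := by
    rw [hK0]
    have := atn_sub θ hz0 hz2.1
    simpa only [sub_self] using this
  rw [← heq, hK0, hz, hη] at h3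
  have h4 := atn_add θ' h3.2 hz2.2
  simpa only [sub_add_cancel, zero_add] using h4

end Pool.ZgCB
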