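import Pool.Agent.Work.MP_d94bda_cb.InterfaceA

/-!
# Block MXF: maximal filters (helper86)
-/

namespace Pool.ZgCB

universe u

/-- the filters of the Zorn argument -/
def MXF_C {R : Type u} [Ring R] (r : P1 R → P1 R → Prop) (φ ψ : P1 R) : Set (Set (P1 R)) :=
  {p | IsFil p ∧ φ ∈ p ∧ ψ ∉ p ∧ ∀ α ∈ p, ∀ β, r α β → β ∈ p}

lemma MXF_zero {R : Type u} [Ring R] {r : P1 R → P1 R → Prop} (hr : Serre r) {φ ψ : P1 R}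
    (h : ¬ r φ ψ) : {θ | r φ θ} ∈ MXF_C r φ ψ := by
  refine ⟨⟨hr.le _ _ (le_top φ), ?_, ?_⟩, hr.le _ _ (Le.refl φ), h, ?_⟩
  · intro α hα β hβ
    exact hr.meet _ _ _ hα hβ
  · intro α hα β hβ
    exact hr.trans _ _ _ hα (hr.le _ _ hβ)
  · intro α hα β hβ
    exact hr.trans _ _ _ hα hβ

lemma MXF_union {R : Type u} [Ring R] {r : P1 R → P1 R → Prop} {φ ψ : P1 R}
    (c : Set (Set (P1 R))) (hc : c ⊆ MXF_C r φ ψ) (hch : IsChain (· ⊆ ·) c) (hne : c.Nonempty) :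
    ⋃₀ c ∈ MXF_C r φ ψ := by
  obtain ⟨s₀, hs₀⟩ := hne
  refine ⟨⟨⟨s₀, hs₀, (hc hs₀).1.top⟩, ?_, ?_⟩, ⟨s₀, hs₀, (hc hs₀).2.1⟩, ?_, ?_⟩
  · rintro α ⟨s, hs, hα⟩ β ⟨t, ht, hβ⟩
    rcases hch.total hs ht with h | h
    · exact ⟨t, ht, (hc ht).1.meet α (h hα) β hβ⟩
    · exact ⟨s, hs, (hc hs).1.meet α hα β (h hβ)⟩
  · rintro α ⟨s, hs, hα⟩ β hβ
    exact ⟨s, hs, (hc hs).1.up α hα β hβ⟩
  · rintro ⟨s, hs, hψ⟩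
    exact (hc hs).2.2.1 hψ
  · rintro α ⟨s, hs, hα⟩ β hβ
    exact ⟨s, hs, (hc hs).2.2.2 α hα β hβ⟩

theorem p_MXF : Stmt_MXF.{u} := by
  intro R _ r hr φ ψ hφψ
  obtain ⟨p, _, hpmax⟩ := zorn_subset_nonempty (MXF_C r φ ψ)
    (fun c hc hch hne => ⟨⋃₀ c, MXF_union c hc hch hne, fun s hs => Set.subset_sUnion_of_mem hs⟩)
    _ (MXF_zero hr hφψ)
  obtain ⟨hfil, hφ, hψ, hcl⟩ := hpmax.1
  refine ⟨p, hfil, hφ, hψ, hcl, ?_⟩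
  intro ω hω
  by_contra hcon
  have hno : ∀ α ∈ p, ¬ r (α.meet ω) ψ := fun α hα h => hcon ⟨α, hα, h⟩
  have hpq : p ⊆ {θ | ∃ α ∈ p, r (α.meet ω) θ} := fun θ hθ =>
    ⟨θ, hθ, hr.le _ _ (meet_le_left θ ω)⟩
  have hq : {θ | ∃ α ∈ p, r (α.meet ω) θ} ∈ MXF_C r φ ψ := by
    refine ⟨⟨hpq hfil.top, ?_, ?_⟩, hpq hφ, ?_, ?_⟩
    · rintro θ₁ ⟨α₁, hα₁, h₁⟩ θ₂ ⟨α₂, hα₂, h₂⟩
      refine ⟨α₁.meet α₂, hfil.meet α₁ hα₁ α₂ hα₂, hr.meet _ _ _ ?_ ?_⟩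
      · refine hr.trans _ _ _ (hr.le _ _ ?_) h₁
        exact le_meet ((meet_le_left _ _).trans (meet_le_left _ _)) (meet_le_right _ _)
      · refine hr.trans _ _ _ (hr.le _ _ ?_) h₂
        exact le_meet ((meet_le_left _ _).trans (meet_le_right _ _)) (meet_le_right _ _)
    · rintro θ ⟨α, hα, h⟩ β hβ
      exact ⟨α, hα, hr.trans _ _ _ h (hr.le _ _ hβ)⟩
    · rintro ⟨α, hα, h⟩
      exact hno α hα h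
    · rintro θ ⟨α, hα, h⟩ β hβ
      exact ⟨α, hα, hr.trans _ _ _ h hβ⟩
  have hωp : ω ∈ p := hpmax.2 hq hpq ⟨topF, hfil.top, hr.le _ _ (meet_le_right _ _)⟩
  exact hω hωp

end Pool.ZgCB
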