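import Pool.Agent.Work.MP_d94bda_cb.InterfaceA

/-!
# Block REA: every filter of formulas is the pp type of an element
-/

open scoped BigOperators

namespace Pool.ZgCB

universe u

/-- Finitely many members of a filter have a common lower bound in the filter. -/
theorem REA_fin {R : Type u} [Ring R] {p : Set (P1 R)} (hp : IsFil p) {n : ℕ} (α : Fin n → P1 R)
    (hα : ∀ i, α i ∈ p) : ∃ β ∈ p, ∀ i, Le β (α i) := by
  induction n with
  | zero => exact ⟨topF, hp.top, fun i => i.elim0⟩
  | succ n ih =>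
    obtain ⟨β, hβ, h⟩ := ih (fun i => α i.castSucc) (fun i => hα _)
    refine ⟨β.meet (α (Fin.last n)), hp.meet _ hβ _ (hα _), ?_⟩
    intro i
    refine Fin.lastCases ?_ ?_ i
    · exact meet_le_right _ _
    · intro j
      exact (meet_le_left _ _).trans (h j)

/-- The submodule of the reduced product. -/
def REA_K {R : Type u} [Ring R] {p : Set (P1 R)} (hp : IsFil p) (Z : p → Type u)
    [∀ β, AddCommGroup (Z β)] [∀ β, Module R (Z β)] : Submodule R (∀ β : p, Z β) where
  carrier := {z | ∃ α ∈ p, ∀ β : p, Le β.1 α → z β = 0}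
  add_mem' := by
    rintro z w ⟨α, hα, h⟩ ⟨α', hα', h'⟩
    refine ⟨α.meet α', hp.meet _ hα _ hα', ?_⟩
    intro β hβ
    rw [Pi.add_apply, h β (hβ.trans (meet_le_left _ _)), h' β (hβ.trans (meet_le_right _ _)),
      add_zero]
  zero_mem' := ⟨topF, hp.top, fun β _ => rfl⟩
  smul_mem' := by
    rintro r z ⟨α, hα, h⟩
    refine ⟨α, hα, ?_⟩
    intro β hβ
    rw [Pi.smul_apply, h β hβ, smul_zero]

theorem REA_mem {R : Type u} [Ring R] {p : Set (P1 R)} (hp : IsFil p) (Z : p → Type u)
    [∀ β, AddCommGroup (Z β)] [∀ β, Module R (Z β)] (z : ∀ β : p, Z β) :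
    z ∈ REA_K (R := R) hp Z ↔ ∃ α ∈ p, ∀ β : p, Le β.1 α → z β = 0 := Iff.rfl

theorem p_REA (hF : Stmt_FRE.{u}) : Stmt_REA.{u} := by
  classical
  intro R _ p hp
  choose Z hG hM c hfin hc hfree using fun β : p => hF R Unit β.1
  have key : ∀ (β : p) (θ : P1 R), at1 θ (c β ()) ↔ Le β.1 θ := by
    intro β θ
    constructor
    · intro h M _ _ a ha
      obtain ⟨f, hf⟩ := hfree β M (fun _ => a) ha
      have h1 := at1_map θ f h
      rwa [hf ()] at h1
    · intro h
      exact h (Z β) (c β ()) (hc β)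
  refine ⟨(∀ β : p, Z β) ⧸ REA_K (R := R) hp Z, inferInstance, inferInstance,
    (REA_K (R := R) hp Z).mkQ (fun β => c β ()), ?_⟩
  intro θ
  constructor
  · rintro ⟨y, hy⟩
    choose Y hY using fun l => (REA_K (R := R) hp Z).mkQ_surjective (y l)
    have h1 : ∀ i, ∑ j, θ.A i j • (fun β : p => c β ()) + ∑ l, θ.B i l • Y l ∈
        REA_K (R := R) hp Z := by
      intro i
      have h2 := hy i
      rw [← Submodule.Quotient.mk_eq_zero, ← Submodule.mkQ_apply]
      simp only [map_add, map_sum, map_smul, hY]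
      exact h2
    simp only [REA_mem] at h1
    choose α hα h3 using h1
    obtain ⟨β, hβ, hle⟩ := REA_fin hp α hα
    refine hp.up β hβ θ ?_
    rw [← key ⟨β, hβ⟩ θ]
    refine ⟨fun l => Y l ⟨β, hβ⟩, ?_⟩
    intro i
    have h4 := h3 i ⟨β, hβ⟩ (hle i)
    simpa only [Pi.add_apply, Finset.sum_apply, Pi.smul_apply] using h4
  · intro hθ
    have h1 : ∀ β : p, ∃ y : Fin θ.k → Z β, Le β.1 θ →
        ∀ i, ∑ j, θ.A i j • (c β ()) + ∑ l, θ.B i l • y l = 0 := by
      intro β
      by_cases h : Le β.1 θ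
      · obtain ⟨y, hy⟩ := (key β θ).2 h
        exact ⟨y, fun _ => hy⟩
      · exact ⟨fun _ => 0, fun h' => absurd h' h⟩
    choose Y hY using h1
    refine ⟨fun l => (REA_K (R := R) hp Z).mkQ (fun β => Y β l), ?_⟩
    intro i
    have h2 : ∑ j, θ.A i j • (fun β : p => c β ()) + ∑ l, θ.B i l • (fun β : p => Y β l) ∈
        REA_K (R := R) hp Z := by
      rw [REA_mem]
      refine ⟨θ, hθ, ?_⟩
      intro β hβ
      simp only [Pi.add_apply, Finset.sum_apply, Pi.smul_apply]
      exact hY β hβ i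
    rw [← Submodule.Quotient.mk_eq_zero, ← Submodule.mkQ_apply] at h2
    simp only [map_add, map_sum, map_smul] at h2
    exact h2

end Pool.ZgCB
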