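import Pool.Agent.Work.MP_d94bda_cb.InterfaceA

/-!
# Block RET (typed by helper63): retracts of algebraically compact modules
-/

open scoped BigOperators

namespace Pool.ZgCB

universe u

/-- transport of a condition along `i : N → E` -/
def RET_tr {R : Type u} [Ring R] {X N E : Type u} (i : N → E) (c : Cond R X N) : Cond R X E :=
  ⟨c.n, c.θ, fun k => Sum.map id i (c.v k)⟩

theorem p_RET : Stmt_RET.{u} := by
  classical
  intro R _ E N _ _ _ _ i g hgi hE X Φ hΦ
  have hfin : ∀ F ⊆ RET_tr i '' Φ, F.Finite → ∃ x : X → E, ∀ c ∈ F, c.holds x := by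
    intro F hF hfF
    have h1 : (↑hfF.toFinset : Set (Cond R X E)) ⊆ RET_tr i '' Φ := by
      rw [hfF.coe_toFinset]
      exact hF
    obtain ⟨s, hs, hsF⟩ := Finset.subset_set_image_iff.1 h1
    obtain ⟨x, hx⟩ := hΦ (↑s) hs s.finite_toSet
    refine ⟨fun z => i (x z), fun c hc => ?_⟩
    have hc' : c ∈ hfF.toFinset := (Set.Finite.mem_toFinset hfF).2 hc
    rw [← hsF, Finset.mem_image] at hc'
    obtain ⟨c', hc's, rfl⟩ := hc'
    have h2 := c'.θ.ev_map i (hx c' (Finset.mem_coe.2 hc's))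
    show c'.θ.ev E _
    convert h2 using 1
    funext k
    show Sum.elim (fun z => i (x z)) id (Sum.map id i (c'.v k)) = i (Sum.elim x id (c'.v k))
    rcases c'.v k with a | a <;> rfl
  obtain ⟨y, hy⟩ := hE X (RET_tr i '' Φ) hfin
  refine ⟨fun z => g (y z), fun c hc => ?_⟩
  have h2 := c.θ.ev_map g (hy _ ⟨c, hc, rfl⟩)
  show c.θ.ev N _
  convert h2 using 1
  funext k
  show Sum.elim (fun z => g (y z)) id (c.v k) = g (Sum.elim y id (Sum.map id i (c.v k)))
  rcases c.v k with a | a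
  · rfl
  · exact (hgi a).symm

end Pool.ZgCB
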