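import Pool.Agent.Work.MP_d94bda_cb.InterfaceA

/-! Block SLE. -/

open scoped BigOperators

namespace Pool.ZgCB

universe u

theorem p_SLE : Stmt_SLE.{u} := by
  intro R _
  exact
    { le := fun _ _ h => h
      trans := fun _ _ _ h h' => h.trans h'
      meet := fun _ _ _ h h' => le_meet h h'
      join := fun _ _ _ h h' => join_le h h'
      exr := by
        intro μ ν θ ρ h hr M _ _ y hy
        obtain ⟨x, hx, hμ⟩ := (at1_exr ρ μ y).1 hy
        exact hr M y x hx (h M x hμ) }

end Pool.ZgCB
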