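import Pool.Agent.Work.MP_d94bda_cb.InterfaceA

/-!
# Block THH of MP_d94bda_al: assembly of Theorem H (typed by helper84)
-/

namespace Pool.ZgCB

universe u

theorem THH_pure {R : Type u} [Ring R] {N M : Type u} [AddCommGroup N] [Module R N]
    [AddCommGroup M] [Module R M] (f : N →ₗ[R] M) (hf : PureEmb f) (θ : P1 R) (a : N) :
    at1 θ (f a) ↔ at1 θ a := by
  constructor
  · intro h
    obtain ⟨θ', _, e⟩ := Dfn.reidx (S := (⊤ : Subring R))
      (Dfn.of (PP.over_top θ)) (fun _ : Unit => (0 : Fin 1))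
    have h1 : θ'.ev M (fun i => f ((fun _ : Fin 1 => a) i)) := (e M _).2 h
    exact (e N _).1 (hf 1 θ' (fun _ => a) h1)
  · intro h
    exact at1_map θ f h

theorem p_THH (hREA : Stmt_REA.{u}) (hBPU : Stmt_BPU.{u}) (hBAC : Stmt_BAC.{u})
    (hPIA : Stmt_PIA.{u}) (hHN : Stmt_HN.{u}) (hHR : Stmt_HR.{u}) (hHI : Stmt_HI.{u})
    (hHS : Stmt_HS.{u}) : Stmt_THH.{u} := by
  intro R _ p hp hbot hirr
  obtain ⟨M, iM, jM, a, ha⟩ := hREA R p hp
  obtain ⟨N, iN, jN, a0, hAC, htype, hpure⟩ := hHN R (Bid R M) (hBAC R M) (bidEmb R M a)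
  have hty : ∀ θ : P1 R, at1 θ a0 ↔ θ ∈ p := by
    intro θ
    rw [htype θ, THH_pure (bidEmb R M) (hBPU R M) θ a, ha θ]
  have hrig : Rigid N p a0 := hHR R N p a0 hAC hty hpure
  refine ⟨N, iN, jN, a0, ?_⟩
  exact
    { point := ⟨(hPIA R N).2 hAC, hHI R N p a0 hty hbot hirr hrig⟩
      ac := hAC
      type := hty
      rigid := hrig
      closed := hHS R N p a0 hty hrig }

end Pool.ZgCB
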