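import Pool.Agent.Work.MP_d94bda_cb.BAC
import Pool.Agent.Work.MP_d94bda_cb.BPU
import Pool.Agent.Work.MP_d94bda_cb.CIR
import Pool.Agent.Work.MP_d94bda_cb.DER
import Pool.Agent.Work.MP_d94bda_cb.DEX
import Pool.Agent.Work.MP_d94bda_cb.DIN
import Pool.Agent.Work.MP_d94bda_cb.DJN
import Pool.Agent.Work.MP_d94bda_cb.DMT
import Pool.Agent.Work.MP_d94bda_cb.DTR
import Pool.Agent.Work.MP_d94bda_cb.EXT
import Pool.Agent.Work.MP_d94bda_cb.FAR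
import Pool.Agent.Work.MP_d94bda_cb.FGC
import Pool.Agent.Work.MP_d94bda_cb.FGP
import Pool.Agent.Work.MP_d94bda_cb.FGZ
import Pool.Agent.Work.MP_d94bda_cb.FMP
import Pool.Agent.Work.MP_d94bda_cb.FRE
import Pool.Agent.Work.MP_d94bda_cb.HI
import Pool.Agent.Work.MP_d94bda_cb.HN
import Pool.Agent.Work.MP_d94bda_cb.HR
import Pool.Agent.Work.MP_d94bda_cb.HS
import Pool.Agent.Work.MP_d94bda_cb.HZ
import Pool.Agent.Work.MP_d94bda_cb.KAC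
import Pool.Agent.Work.MP_d94bda_cb.KCH
import Pool.Agent.Work.MP_d94bda_cb.KE1
import Pool.Agent.Work.MP_d94bda_cb.KE2
import Pool.Agent.Work.MP_d94bda_cb.KE3
import Pool.Agent.Work.MP_d94bda_cb.KEX
import Pool.Agent.Work.MP_d94bda_cb.KFC
import Pool.Agent.Work.MP_d94bda_cb.KFG
import Pool.Agent.Work.MP_d94bda_cb.KFIN
import Pool.Agent.Work.MP_d94bda_cb.KFS
import Pool.Agent.Work.MP_d94bda_cb.KGE
import Pool.Agent.Work.MP_d94bda_cb.KIN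
import Pool.Agent.Work.MP_d94bda_cb.KLO
import Pool.Agent.Work.MP_d94bda_cb.KMX
import Pool.Agent.Work.MP_d94bda_cb.KPL
import Pool.Agent.Work.MP_d94bda_cb.KRH
import Pool.Agent.Work.MP_d94bda_cb.KST
import Pool.Agent.Work.MP_d94bda_cb.LIS
import Pool.Agent.Work.MP_d94bda_cb.LMO
import Pool.Agent.Work.MP_d94bda_cb.LSP
import Pool.Agent.Work.MP_d94bda_cb.MCO
import Pool.Agent.Work.MP_d94bda_cb.MXF
import Pool.Agent.Work.MP_d94bda_cb.PIA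
import Pool.Agent.Work.MP_d94bda_cb.REA
import Pool.Agent.Work.MP_d94bda_cb.RET
import Pool.Agent.Work.MP_d94bda_cb.SLE
import Pool.Agent.Work.MP_d94bda_cb.THH

/-!
# MP_d94bda_al: assembly of part K (generated)
-/

namespace Pool.ZgCB

universe u

theorem qk_KMX : Stmt_KMX.{u} := p_KMX

theorem qk_LMO : Stmt_LMO.{u} := p_LMO

theorem qk_KPL : Stmt_KPL.{u} := p_KPL qk_LMO.{u}

theorem qk_KCH : Stmt_KCH.{u} := p_KCH qk_LMO.{u}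

theorem qk_FMP : Stmt_FMP.{u} := p_FMP qk_LMO.{u}

theorem qk_FRE : Stmt_FRE.{u} := p_FRE

theorem qk_KGE : Stmt_KGE.{u} := p_KGE

theorem qk_FGZ : Stmt_FGZ.{u} := p_FGZ

theorem qk_MCO : Stmt_MCO.{u} := p_MCO

theorem qk_FGC : Stmt_FGC.{u} := p_FGC qk_MCO.{u}

theorem qk_FGP : Stmt_FGP.{u} := p_FGP qk_FGZ.{u} qk_FGC.{u}

theorem qk_CIR : Stmt_CIR.{u} := p_CIR

theorem qk_BPU : Stmt_BPU.{u} := p_BPU qk_CIR.{u}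

theorem qk_BAC : Stmt_BAC.{u} := p_BAC

theorem qk_RET : Stmt_RET.{u} := p_RET

theorem qk_EXT : Stmt_EXT.{u} := p_EXT

theorem qk_PIA : Stmt_PIA.{u} := p_PIA qk_BPU.{u} qk_BAC.{u} qk_RET.{u} qk_EXT.{u}

theorem qk_KFS : Stmt_KFS.{u} := p_KFS qk_FMP.{u} qk_FRE.{u} qk_KGE.{u} qk_FGP.{u} qk_PIA.{u} qk_EXT.{u}

theorem qk_KEX : Stmt_KEX.{u} := p_KEX

theorem qk_KAC : Stmt_KAC.{u} := p_KAC

theorem qk_KST : Stmt_KST.{u} := p_KST qk_KGE.{u} qk_FRE.{u} qk_KEX.{u} qk_KAC.{u}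

theorem qk_KFC : Stmt_KFC.{u} := p_KFC

theorem qk_KE1 : Stmt_KE1.{u} := p_KE1 qk_EXT.{u}

theorem qk_KE2 : Stmt_KE2.{u} := p_KE2 qk_KE1.{u}

theorem qk_KE3 : Stmt_KE3.{u} := p_KE3 qk_KE1.{u} qk_KE2.{u}

theorem qk_KRH : Stmt_KRH.{u} := p_KRH qk_EXT.{u}

theorem qk_KIN : Stmt_KIN.{u} := p_KIN qk_KFC.{u} qk_KE3.{u} qk_KRH.{u}

theorem qk_KFG : Stmt_KFG.{u} := p_KFG qk_KMX.{u} qk_KPL.{u} qk_KCH.{u} qk_KFS.{u} qk_KST.{u} qk_KIN.{u}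

theorem qk_FAR : Stmt_FAR.{u} := p_FAR

theorem qk_LSP : Stmt_LSP.{u} := p_LSP qk_LMO.{u}

theorem qk_LIS : Stmt_LIS.{u} := p_LIS qk_LMO.{u} qk_LSP.{u}

theorem qk_SLE : Stmt_SLE.{u} := p_SLE

theorem qk_DTR : Stmt_DTR.{u} := p_DTR qk_LMO.{u} qk_LSP.{u} qk_LIS.{u}

theorem qk_DMT : Stmt_DMT.{u} := p_DMT qk_LMO.{u} qk_LSP.{u} qk_LIS.{u}

theorem qk_DJN : Stmt_DJN.{u} := p_DJN qk_LMO.{u} qk_LSP.{u} qk_LIS.{u}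

theorem qk_DEX : Stmt_DEX.{u} := p_DEX qk_LMO.{u} qk_LIS.{u}

theorem qk_DIN : Stmt_DIN.{u} := p_DIN

theorem qk_DER : Stmt_DER.{u} := p_DER qk_DTR.{u} qk_DMT.{u} qk_DJN.{u} qk_DEX.{u} qk_DIN.{u}

theorem qk_MXF : Stmt_MXF.{u} := p_MXF

theorem qk_REA : Stmt_REA.{u} := p_REA qk_FRE.{u}

theorem qk_HZ : Stmt_HZ.{u} := p_HZ

theorem qk_HN : Stmt_HN.{u} := p_HN qk_HZ.{u} qk_EXT.{u} qk_RET.{u}

theorem qk_HR : Stmt_HR.{u} := p_HR qk_EXT.{u}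

theorem qk_HI : Stmt_HI.{u} := p_HI

theorem qk_HS : Stmt_HS.{u} := p_HS qk_FRE.{u}

theorem qk_THH : Stmt_THH.{u} := p_THH qk_REA.{u} qk_BPU.{u} qk_BAC.{u} qk_PIA.{u} qk_HN.{u} qk_HR.{u} qk_HI.{u} qk_HS.{u}

theorem qk_KLO : Stmt_KLO.{u} := p_KLO

theorem qk_KFIN : Stmt_KFIN.{u} := p_KFIN qk_FAR.{u} qk_LMO.{u} qk_LIS.{u} qk_SLE.{u} qk_DER.{u} qk_MXF.{u} qk_THH.{u} qk_KLO.{u} qk_KGE.{u} qk_KFG.{u}

end Pool.ZgCB
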