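import Pool.Agent.Work.MP_d94bda_cb.InterfaceA

/-!
# Block BAC: the bidual is algebraically compact (helper4)

Limits along an ultrafilter on the finite subsystems.
-/

open scoped BigOperators Topology

namespace Pool.ZgCB

universe u

section
variable {I : Type*} (U : Ultrafilter I)

/-- the limit of a family in the circle along an ultrafilter -/
noncomputable def BAC_ul (g : I → Circ) : Circ := (U.map g).lim

theorem BAC_tendsto (g : I → Circ) : Filter.Tendsto g U (𝓝 (BAC_ul U g)) :=
  (U.map g).le_nhds_lim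

theorem BAC_eq {g : I → Circ} {a : Circ} (h : Filter.Tendsto g U (𝓝 a)) : BAC_ul U g = a :=
  tendsto_nhds_unique (BAC_tendsto U g) h

theorem BAC_add (g h : I → Circ) : BAC_ul U (fun i => g i + h i) = BAC_ul U g + BAC_ul U h :=
  BAC_eq U ((BAC_tendsto U g).add (BAC_tendsto U h))

theorem BAC_const (a : Circ) : BAC_ul U (fun _ => a) = a := BAC_eq U tendsto_const_nhds

theorem BAC_congr {g h : I → Circ} (e : ∀ᶠ i in (U : Filter I), g i = h i) :
    BAC_ul U g = BAC_ul U h := by
  refine BAC_eq U (((BAC_tendsto U h).congr' ?_))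
  filter_upwards [e] with i hi
  exact hi.symm

/-- the limit of a family of homomorphisms -/
noncomputable def BAC_lim {A : Type*} [AddCommGroup A] (u : I → (A →+ Circ)) : A →+ Circ :=
  AddMonoidHom.mk' (fun f => BAC_ul U (fun i => u i f)) fun f g => by
    rw [← BAC_add]
    exact congrArg (BAC_ul U) (funext fun i => map_add (u i) f g)

theorem BAC_lim_apply {A : Type*} [AddCommGroup A] (u : I → (A →+ Circ)) (f : A) :
    BAC_lim U u f = BAC_ul U (fun i => u i f) := rfl

/-- the limit as a linear map -/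
noncomputable def BAC_L (R : Type u) [Ring R] (M : Type u) [AddCommGroup M] [Module R M] :
    (I → Bid R M) →ₗ[R] Bid R M where
  toFun v := (BAC_lim U (A := M →+ Circ) v : (M →+ Circ) →+ Circ)
  map_add' v w := AddMonoidHom.ext fun f =>
    BAC_add U _ _
  map_smul' r v := AddMonoidHom.ext fun f => rfl

theorem BAC_L_const (R : Type u) [Ring R] (M : Type u) [AddCommGroup M] [Module R M]
    (e : Bid R M) : BAC_L U R M (fun _ => e) = e :=
  AddMonoidHom.ext fun f => BAC_const U _

theorem BAC_L_zero (R : Type u) [Ring R] (M : Type u) [AddCommGroup M] [Module R M]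
    (v : I → Bid R M) (h : ∀ᶠ i in (U : Filter I), v i = 0) : BAC_L U R M v = 0 := by
  refine AddMonoidHom.ext fun f => ?_
  refine (BAC_congr U (h := fun _ => 0) ?_).trans (BAC_const U 0)
  filter_upwards [h] with i hi
  rw [hi]
  rfl

end

theorem p_BAC : Stmt_BAC.{u} := by
  classical
  intro R _ M _ _ X Φ hfin
  have h1 : ∀ F : Finset Φ, ∃ x : X → Bid R M, ∀ c ∈ F, (c : Cond R X (Bid R M)).holds x := by
    intro F
    obtain ⟨x, hx⟩ := hfin ((fun c : Φ => (c : Cond R X (Bid R M))) '' (F : Set Φ))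
      (by rintro _ ⟨c, -, rfl⟩; exact c.2) (F.finite_toSet.image _)
    exact ⟨x, fun c hc => hx c ⟨c, hc, rfl⟩⟩
  choose xs hxs using h1
  let U : Ultrafilter (Finset Φ) := Ultrafilter.of Filter.atTop
  have hU : (U : Filter (Finset Φ)) ≤ Filter.atTop := Ultrafilter.of_le _
  let L := BAC_L U R M
  refine ⟨fun z => L (fun F => xs F z), ?_⟩
  intro c hc
  have hev : ∀ᶠ F in (U : Filter (Finset Φ)), c.holds (xs F) := by
    refine hU ((Filter.eventually_ge_atTop ({⟨c, hc⟩} : Finset Φ)).mono fun F hF => ?_)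
    exact hxs F ⟨c, hc⟩ (hF (Finset.mem_singleton_self _))
  have h2 : ∀ F : Finset Φ, ∃ y : Fin c.θ.k → Bid R M, c.holds (xs F) → ∀ i,
      ∑ j, c.θ.A i j • Sum.elim (xs F) id (c.v j) + ∑ l, c.θ.B i l • y l = 0 := by
    intro F
    by_cases h : c.holds (xs F)
    · obtain ⟨y, hy⟩ := h
      exact ⟨y, fun _ => hy⟩
    · exact ⟨0, fun h' => absurd h' h⟩
  choose ys hys using h2
  have hel : ∀ j, Sum.elim (fun z => L (fun F => xs F z)) id (c.v j) =
      L (fun F => Sum.elim (xs F) id (c.v j)) := by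
    intro j
    rcases c.v j with z | e
    · rfl
    · exact (BAC_L_const U R M e).symm
  refine ⟨fun l => L (fun F => ys F l), fun i => ?_⟩
  have h3 : ∑ j, c.θ.A i j • Sum.elim (fun z => L (fun F => xs F z)) id (c.v j) +
      ∑ l, c.θ.B i l • L (fun F => ys F l) =
      L (∑ j, c.θ.A i j • (fun F => Sum.elim (xs F) id (c.v j)) +
        ∑ l, c.θ.B i l • (fun F => ys F l)) := by
    rw [map_add, map_sum, map_sum]
    refine congrArg₂ (· + ·) (Finset.sum_congr rfl fun j _ => ?_) (Finset.sum_congr rfl fun l _ => ?_)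
    · rw [map_smul, hel]
    · rw [map_smul]
  rw [h3]
  refine BAC_L_zero U R M _ ?_
  filter_upwards [hev] with F hF
  have h4 := hys F hF i
  simpa only [Pi.add_apply, Finset.sum_apply, Pi.smul_apply] using h4

end Pool.ZgCB
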