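import Pool.Agent.Work.MP_d94bda_cb.InterfaceC

open scoped BigOperators

namespace Pool.ZgCB

universe u

theorem p_BRA (hLXC : Stmt_LXC.{u}) : Stmt_BRA.{u} := by
  intro R _ C _ _ S hDP N _ _ φ ψ Φ Ψ η hT x
  have hstep : ∀ n : ℕ, Le (Φ (pre x (n + 1))) (Φ (pre x n)) ∧ Le (Ψ (pre x n)) (Ψ (pre x (n + 1))) := by
    intro n
    have e : pre x (n + 1) = x n :: pre x n := rfl
    rw [e]
    cases hx : x n with
    | false =>
      rw [(hT.child0 (pre x n)).1, (hT.child0 (pre x n)).2]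
      exact ⟨(hT.le (pre x n)).2, Le.refl _⟩
    | true =>
      rw [(hT.child1 (pre x n)).1, (hT.child1 (pre x n)).2]
      exact ⟨Le.refl _, (hT.le (pre x n)).1⟩
  have hΦ : ∀ n k : ℕ, n ≤ k → Le (Φ (pre x k)) (Φ (pre x n)) := by
    intro n k hnk
    induction k, hnk using Nat.le_induction with
    | base => exact Le.refl _
    | succ k _ ih => exact Le.trans (hstep k).1 ih
  have hΨ : ∀ n k : ℕ, n ≤ k → Le (Ψ (pre x n)) (Ψ (pre x k)) := by
    intro n k hnk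
    induction k, hnk using Nat.le_induction with
    | base => exact Le.refl _
    | succ k _ ih => exact Le.trans ih (hstep k).2
  obtain ⟨p, N₁, i1, i2, a, hL⟩ := hLXC R C S hDP N (fun n => Ψ (pre x n))
    {θ | ∃ n, θ = Φ (pre x n)} (fun n => (hstep n).2) ⟨Φ (pre x 0), 0, rfl⟩
    (by
      rintro α ⟨n, rfl⟩ β ⟨m, rfl⟩
      exact ⟨Φ (pre x (max n m)), ⟨max n m, rfl⟩, hΦ n _ (le_max_left n m), hΦ m _ (le_max_right n m)⟩)
    (by
      rintro α ⟨m, rfl⟩ ν _ hle n hcl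
      obtain ⟨b, hb1, hb2⟩ := hT.opn (pre x (max m n))
      have h1 : at1 ν b := hle N b (hΦ m _ (le_max_left m n) N b hb1)
      exact hb2 (hΨ n _ (le_max_right m n) N b (hcl b h1)))
  refine ⟨p, N₁, i1, i2, a, hL, a, ?_, ?_⟩
  · refine (hL.hull.type φ).2 (hL.loc.sub ⟨0, ?_⟩)
    exact hT.root.1.symm
  · intro hψ
    have h1 : ψ ∈ p := (hL.hull.type ψ).1 hψ
    have h2 : φ ∈ p := hL.loc.sub ⟨0, hT.root.1.symm⟩
    have h3 : PP.meet φ ψ ∈ p := hL.loc.fil.meet φ h2 ψ h1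
    rw [← hT.root.2] at h3
    exact hL.loc.avoid _ h3 (hT.ovr []).2.1 0 (fun b hb => hb)

end Pool.ZgCB
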