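import Mathlib

/-!
# MP_d94bda_al, Cantor-Bendixson rank one for Ziegler spectra of artin algebras: basics

pp formulas, their evaluation in modules, closure properties (all proved here).
Modules are LEFT modules over `R`, in the universe of `R`.
-/

open scoped BigOperators

namespace Pool.ZgCB

universe u

/-- A pp formula over `R` with free variables indexed by `ι`:
`∃ y, ⋀_i ∑_j A i j x_j + ∑_l B i l y_l = 0`. -/
structure PP (R : Type u) (ι : Type) where
  m : ℕ
  k : ℕ
  A : Fin m → ι → R
  B : Fin m → Fin k → R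

/-- Families of relations (one on every module), with variables indexed by `ι`. -/
abbrev Fam (R : Type u) [Ring R] (ι : Type) :=
  ∀ (M : Type u) [AddCommGroup M] [Module R M], (ι → M) → Prop

section
variable {R : Type u} [Ring R] {ι κ : Type} [Fintype ι] [Fintype κ]

/-- The tuple `x` satisfies the formula `θ` in the module `M`. -/
def PP.ev (θ : PP R ι) (M : Type u) [AddCommGroup M] [Module R M] (x : ι → M) : Prop :=
  ∃ y : Fin θ.k → M, ∀ i, ∑ j, θ.A i j • x j + ∑ l, θ.B i l • y l = 0

/-- All coefficients of the formula are in the subring `S`. -/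
def PP.Over (θ : PP R ι) (S : Subring R) : Prop :=
  (∀ i j, θ.A i j ∈ S) ∧ (∀ i l, θ.B i l ∈ S)

theorem PP.over_top (θ : PP R ι) : θ.Over ⊤ :=
  ⟨fun _ _ => Subring.mem_top _, fun _ _ => Subring.mem_top _⟩

theorem PP.ev_mk {m k : ℕ} (A : Fin m → ι → R) (B : Fin m → Fin k → R) (M : Type u)
    [AddCommGroup M] [Module R M] (x : ι → M) :
    (PP.mk m k A B).ev M x ↔ ∃ y : Fin k → M, ∀ i : Fin m,
      ∑ j, A i j • x j + ∑ l, B i l • y l = 0 := Iff.rfl

/-! ### pp formulas and homomorphisms -/

theorem PP.ev_map (θ : PP R ι) {M N : Type u} [AddCommGroup M] [Module R M]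
    [AddCommGroup N] [Module R N] (f : M →ₗ[R] N) {x : ι → M} (h : θ.ev M x) :
    θ.ev N (fun i => f (x i)) := by
  obtain ⟨y, hy⟩ := h
  refine ⟨fun l => f (y l), fun i => ?_⟩
  have := congrArg f (hy i)
  simpa only [map_add, map_sum, map_smul, map_zero] using this

theorem PP.ev_zero (θ : PP R ι) (M : Type u) [AddCommGroup M] [Module R M] :
    θ.ev M (fun _ => 0) :=
  ⟨fun _ => 0, fun i => by simp⟩

theorem PP.ev_add (θ : PP R ι) {M : Type u} [AddCommGroup M] [Module R M] {x x' : ι → M}
    (h : θ.ev M x) (h' : θ.ev M x') : θ.ev M (fun i => x i + x' i) := by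
  obtain ⟨y, hy⟩ := h
  obtain ⟨y', hy'⟩ := h'
  refine ⟨fun l => y l + y' l, fun i => ?_⟩
  have e := congrArg₂ (· + ·) (hy i) (hy' i)
  simp only [smul_add, Finset.sum_add_distrib, add_zero] at e ⊢
  rw [← e]; abel

theorem PP.ev_neg (θ : PP R ι) {M : Type u} [AddCommGroup M] [Module R M] {x : ι → M}
    (h : θ.ev M x) : θ.ev M (fun i => - x i) := by
  obtain ⟨y, hy⟩ := h
  refine ⟨fun l => - y l, fun i => ?_⟩
  have e := congrArg (fun z => -z) (hy i)
  simp only [smul_neg, Finset.sum_neg_distrib, neg_zero, neg_add] at e ⊢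
  exact e

theorem PP.ev_sub (θ : PP R ι) {M : Type u} [AddCommGroup M] [Module R M] {x x' : ι → M}
    (h : θ.ev M x) (h' : θ.ev M x') : θ.ev M (fun i => x i - x' i) := by
  have := θ.ev_add h (θ.ev_neg h')
  simpa only [sub_eq_add_neg] using this

/-- sums of solutions are solutions -/
theorem PP.ev_sum (θ : PP R ι) {M : Type u} [AddCommGroup M] [Module R M] {T : Type*}
    (s : Finset T) (x : T → ι → M) (h : ∀ t ∈ s, θ.ev M (x t)) :
    θ.ev M (fun i => ∑ t ∈ s, x t i) := by
  classical
  induction s using Finset.induction_on with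
  | empty => simpa using θ.ev_zero M
  | insert a s ha ih =>
    have h1 := θ.ev_add (h a (Finset.mem_insert_self a s))
      (ih fun t ht => h t (Finset.mem_insert_of_mem ht))
    simpa only [Finset.sum_insert ha] using h1

/-- pp formulas are preserved by multiplication with a central element -/
theorem PP.ev_central (θ : PP R ι) {M : Type u} [AddCommGroup M] [Module R M] {x : ι → M}
    (h : θ.ev M x) (c : R) (hc : ∀ r : R, c * r = r * c) : θ.ev M (fun i => c • x i) := by
  obtain ⟨y, hy⟩ := h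
  refine ⟨fun l => c • y l, fun i => ?_⟩
  have e := congrArg (fun z => c • z) (hy i)
  simp only [smul_add, Finset.smul_sum, smul_zero, smul_smul, hc] at e ⊢
  exact e

/-- restriction of a formula along a retraction `g ∘ i = id` -/
theorem PP.ev_of_retract (θ : PP R ι) {M N : Type u} [AddCommGroup M] [Module R M]
    [AddCommGroup N] [Module R N] (i : N →ₗ[R] M) (g : M →ₗ[R] N) (hg : ∀ x, g (i x) = x)
    {x : ι → N} (h : θ.ev M (fun j => i (x j))) : θ.ev N x := by
  have := θ.ev_map g h
  simpa only [hg] using this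

/-! ### operations on formulas -/

/-- conjunction -/
def PP.meet (θ η : PP R ι) : PP R ι where
  m := θ.m + η.m
  k := θ.k + η.k
  A := Fin.append θ.A η.A
  B := Fin.append (fun i => Fin.append (θ.B i) (fun _ => 0))
    (fun i => Fin.append (fun _ => 0) (η.B i))

theorem PP.ev_meet (θ η : PP R ι) (M : Type u) [AddCommGroup M] [Module R M] (x : ι → M) :
    (θ.meet η).ev M x ↔ θ.ev M x ∧ η.ev M x := by
  unfold PP.meet
  rw [PP.ev_mk]
  constructor
  · rintro ⟨y, hy⟩
    refine ⟨⟨fun l => y (Fin.castAdd _ l), fun i => ?_⟩, ⟨fun l => y (Fin.natAdd _ l), fun i => ?_⟩⟩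
    · have := hy (Fin.castAdd _ i)
      simpa [Fin.append_left, Fin.append_right, Fin.sum_univ_add] using this
    · have := hy (Fin.natAdd _ i)
      simpa [Fin.append_left, Fin.append_right, Fin.sum_univ_add] using this
  · rintro ⟨⟨y, hy⟩, ⟨z, hz⟩⟩
    refine ⟨Fin.append y z, fun i => ?_⟩
    refine Fin.addCases (fun i => ?_) (fun i => ?_) i
    · simpa [Fin.append_left, Fin.append_right, Fin.sum_univ_add] using hy i
    · simpa [Fin.append_left, Fin.append_right, Fin.sum_univ_add] using hz i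

theorem PP.over_meet {θ η : PP R ι} {S : Subring R} (h : θ.Over S) (h' : η.Over S) :
    (θ.meet η).Over S := by
  constructor
  · intro i j
    refine Fin.addCases (fun i => ?_) (fun i => ?_) i
    · simpa [PP.meet, Fin.append_left] using h.1 i j
    · simpa [PP.meet, Fin.append_right] using h'.1 i j
  · intro i l
    refine Fin.addCases (fun i => ?_) (fun i => ?_) i
    · refine Fin.addCases (fun l => ?_) (fun l => ?_) l
      · simpa [PP.meet, Fin.append_left] using h.2 i l
      · simpa [PP.meet, Fin.append_left, Fin.append_right] using S.zero_mem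
    · refine Fin.addCases (fun l => ?_) (fun l => ?_) l
      · simpa [PP.meet, Fin.append_left, Fin.append_right] using S.zero_mem
      · simpa [PP.meet, Fin.append_right] using h'.2 i l

/-- existential quantification of the variables in `κ` -/
noncomputable def PP.ex (θ : PP R (ι ⊕ κ)) : PP R ι where
  m := θ.m
  k := Fintype.card κ + θ.k
  A := fun i j => θ.A i (Sum.inl j)
  B := fun i => Fin.append (fun l => θ.A i (Sum.inr ((Fintype.equivFin κ).symm l))) (θ.B i)

theorem PP.ev_ex (θ : PP R (ι ⊕ κ)) (M : Type u) [AddCommGroup M] [Module R M] (x : ι → M) :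
    θ.ex.ev M x ↔ ∃ z : κ → M, θ.ev M (Sum.elim x z) := by
  unfold PP.ex
  rw [PP.ev_mk]
  constructor
  · rintro ⟨y, hy⟩
    refine ⟨fun c => y (Fin.castAdd _ (Fintype.equivFin κ c)), fun l => y (Fin.natAdd _ l),
      fun i => ?_⟩
    have h := hy i
    simp only [Fin.sum_univ_add, Fin.append_left, Fin.append_right] at h
    rw [← Equiv.sum_comp (Fintype.equivFin κ)] at h
    simp only [Equiv.symm_apply_apply] at h
    simpa only [Fintype.sum_sum_type, Sum.elim_inl, Sum.elim_inr, add_assoc] using h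
  · rintro ⟨z, y, hy⟩
    refine ⟨Fin.append (fun l => z ((Fintype.equivFin κ).symm l)) y, fun i => ?_⟩
    have h := hy i
    simp only [Fintype.sum_sum_type, Sum.elim_inl, Sum.elim_inr, add_assoc] at h
    simp only [Fin.sum_univ_add, Fin.append_left, Fin.append_right]
    rw [← Equiv.sum_comp (Fintype.equivFin κ)]
    simpa only [Equiv.symm_apply_apply] using h

theorem PP.over_ex {θ : PP R (ι ⊕ κ)} {S : Subring R} (h : θ.Over S) : θ.ex.Over S := by
  constructor
  · intro i j
    exact h.1 i _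
  · intro i l
    refine Fin.addCases (fun l => ?_) (fun l => ?_) l
    · simpa [PP.ex, Fin.append_left] using h.1 i _
    · simpa [PP.ex, Fin.append_right] using h.2 i l

/-- linear substitution: the formula `θ(L x)` -/
def PP.subst (θ : PP R κ) (L : κ → ι → R) : PP R ι where
  m := θ.m
  k := θ.k
  A := fun i j => ∑ c, θ.A i c * L c j
  B := θ.B

theorem PP.ev_subst (θ : PP R κ) (L : κ → ι → R) (M : Type u) [AddCommGroup M] [Module R M]
    (x : ι → M) : (θ.subst L).ev M x ↔ θ.ev M (fun c => ∑ j, L c j • x j) := by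
  unfold PP.ev PP.subst
  refine exists_congr fun y => forall_congr' fun i => ?_
  have : ∑ j, (∑ c, θ.A i c * L c j) • x j = ∑ c, θ.A i c • ∑ j, L c j • x j := by
    simp only [Finset.sum_smul, Finset.smul_sum, mul_smul]
    exact Finset.sum_comm
  simp only [this]

theorem PP.over_subst {θ : PP R κ} {L : κ → ι → R} {S : Subring R} (h : θ.Over S)
    (hL : ∀ c j, L c j ∈ S) : (θ.subst L).Over S :=
  ⟨fun i j => S.sum_mem fun c _ => S.mul_mem (h.1 i c) (hL c j), h.2⟩

/-! ### definable families -/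

/-- The family `P` is defined by a pp formula with coefficients in `S`. -/
def Dfn (S : Subring R) (P : Fam R ι) : Prop :=
  ∃ θ : PP R ι, θ.Over S ∧
    ∀ (M : Type u) [AddCommGroup M] [Module R M] (x : ι → M), θ.ev M x ↔ P M x

theorem Dfn.of {S : Subring R} {θ : PP R ι} (h : θ.Over S) :
    Dfn S (fun M _ _ x => θ.ev M x) :=
  ⟨θ, h, fun _ _ _ _ => Iff.rfl⟩

theorem Dfn.congr {S : Subring R} {P Q : Fam R ι} (h : Dfn S P)
    (hPQ : ∀ (M : Type u) [AddCommGroup M] [Module R M] (x : ι → M), P M x ↔ Q M x) :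
    Dfn S Q := by
  obtain ⟨θ, hθ, e⟩ := h
  exact ⟨θ, hθ, fun M _ _ x => (e M x).trans (hPQ M x)⟩

theorem Dfn.and {S : Subring R} {P Q : Fam R ι} (h : Dfn S P) (h' : Dfn S Q) :
    Dfn S (fun M _ _ x => P M x ∧ Q M x) := by
  obtain ⟨θ, hθ, e⟩ := h
  obtain ⟨η, hη, e'⟩ := h'
  exact ⟨θ.meet η, PP.over_meet hθ hη, fun M _ _ x => by
    rw [PP.ev_meet, e M x, e' M x]⟩

theorem Dfn.ex {S : Subring R} {P : Fam R (ι ⊕ κ)} (h : Dfn S P) :
    Dfn S (fun M _ _ (x : ι → M) => ∃ z : κ → M, P M (Sum.elim x z)) := by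
  obtain ⟨θ, hθ, e⟩ := h
  exact ⟨θ.ex, PP.over_ex hθ, fun M _ _ x => by
    rw [PP.ev_ex]; exact exists_congr fun z => e M _⟩

/-- existential quantification of one variable -/
theorem Dfn.exOne {S : Subring R} {P : Fam R (ι ⊕ Unit)} (h : Dfn S P) :
    Dfn S (fun M _ _ (x : ι → M) => ∃ z : M, P M (Sum.elim x (fun _ => z))) := by
  refine (Dfn.ex h).congr fun M _ _ x => ?_
  constructor
  · rintro ⟨z, hz⟩
    exact ⟨z (), by convert hz⟩
  · rintro ⟨z, hz⟩
    exact ⟨fun _ => z, hz⟩

theorem Dfn.subst {S : Subring R} {P : Fam R κ} (h : Dfn S P) (L : κ → ι → R)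
    (hL : ∀ c j, L c j ∈ S) :
    Dfn S (fun M _ _ (x : ι → M) => P M (fun c => ∑ j, L c j • x j)) := by
  obtain ⟨θ, hθ, e⟩ := h
  exact ⟨θ.subst L, PP.over_subst hθ hL, fun M _ _ x => by
    rw [PP.ev_subst]; exact e M _⟩

/-- renaming of variables -/
theorem Dfn.reidx {S : Subring R} {P : Fam R κ} (h : Dfn S P) (f : κ → ι) :
    Dfn S (fun M _ _ (x : ι → M) => P M (fun c => x (f c))) := by
  classical
  refine (Dfn.subst h (fun c j => if j = f c then (1 : R) else 0) (fun c j => ?_)).congr
    fun M _ _ x => ?_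
  · split_ifs
    exacts [S.one_mem, S.zero_mem]
  · have : (fun c => ∑ j, (if j = f c then (1 : R) else 0) • x j) = fun c => x (f c) := by
      funext c
      simp [ite_smul]
    rw [this]

theorem Dfn.lin {S : Subring R} (c : ι → R) (hc : ∀ i, c i ∈ S) :
    Dfn S (fun M _ _ (x : ι → M) => ∑ i, c i • x i = 0) := by
  refine ⟨⟨1, 0, fun _ => c, fun _ => Fin.elim0⟩, ⟨fun _ j => hc j, fun _ l => l.elim0⟩,
    fun M _ _ x => ?_⟩
  unfold PP.ev
  constructor
  · rintro ⟨y, hy⟩
    have := hy 0
    simpa using this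
  · intro h
    exact ⟨Fin.elim0, fun i => by simpa using h⟩

theorem Dfn.tru {S : Subring R} : Dfn S (fun M _ _ (_ : ι → M) => True) := by
  refine ⟨⟨0, 0, Fin.elim0, Fin.elim0⟩, ⟨fun i => i.elim0, fun i => i.elim0⟩,
    fun M _ _ x => ?_⟩
  exact ⟨fun _ => trivial, fun _ => ⟨Fin.elim0, fun i => i.elim0⟩⟩

/-- finite conjunctions -/
theorem Dfn.all {S : Subring R} {T : Type*} [Finite T] {P : T → Fam R ι}
    (h : ∀ t, Dfn S (P t)) : Dfn S (fun M _ _ (x : ι → M) => ∀ t, P t M x) := by
  classical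
  haveI := Fintype.ofFinite T
  have key : ∀ s : Finset T, Dfn S (fun M _ _ (x : ι → M) => ∀ t ∈ s, P t M x) := by
    intro s
    induction s using Finset.induction_on with
    | empty => exact Dfn.tru.congr fun M _ _ x => by simp
    | insert a s ha ih =>
      exact ((h a).and ih).congr fun M _ _ x => by simp
  exact (key Finset.univ).congr fun M _ _ x => by simp

end

end Pool.ZgCB
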