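import Pool.Agent.Work.MP_d94bda_cb.InterfaceB

/-! # Block CB5: a point isolated in the first derivative is isolated by a pair of finite length
modulo finite length -/

open scoped BigOperators

namespace Pool.ZgCB

universe u

theorem p_CB5 (hCBA : Stmt_CBA.{u}) (hSIG : Stmt_SIG.{u}) (hTHT : Stmt_THT.{u}) :
    Stmt_CB5.{u} := by
  intro R _ C _ _ _ _ N _ _ hD φ ψ hO hiso
  by_contra hR
  obtain ⟨T, hTc, hTN, hT⟩ := hSIG R C N hD φ ψ hiso hR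
  have hNM : NM N φ ψ := hCBA R C N hD φ ψ hiso hR
  obtain ⟨M₁, i1, i2, M₂, i3, i4, hP1, hP2, hO1, hO2, hT1, hT2, hne⟩ :=
    hTHT R C N φ ψ hO hNM T hTc hTN
  obtain ⟨e₁⟩ := hT M₁ hP1 hO1 hT1
  obtain ⟨e₂⟩ := hT M₂ hP2 hO2 hT2
  exact hne ⟨e₁.trans e₂.symm⟩

end Pool.ZgCB
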