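import Pool.Agent.Work.MP_d94bda_cb.InterfaceB

/-! Block CB6. -/

open scoped BigOperators

namespace Pool.ZgCB

universe u

theorem p_CB6 (hTHA : Stmt_THA.{u}) (hSLE : Stmt_SLE.{u}) (hDER : Stmt_DER.{u})
    (hDIN : Stmt_DIN.{u}) (hCL2 : Stmt_CL2.{u}) (hNIS : Stmt_NIS.{u}) (hCB5 : Stmt_CB5.{u}) :
    Stmt_CB6.{u} := by
  intro R _ C _ _ _ _ hCB
  obtain ⟨⟨N, i1, i2, hN⟩, h2⟩ := hCB
  constructor
  · intro h0
    have hcl := hCL2 R N hN topF botF h0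
    have : Nontrivial N := hN.1.2.1
    obtain ⟨a, ha⟩ := exists_ne (0 : N)
    exact ha ((at1_bot a).1 (hcl a (at1_top a)))
  · by_contra hR1
    have s0 : Serre (R0 : P1 R → P1 R → Prop) := hDER R Le (hSLE R)
    have s1 : Serre (R1 : P1 R → P1 R → Prop) := hDER R R0 s0
    obtain ⟨M, j1, j2, hP, hO, hcl⟩ := hTHA R R1 s1 topF botF hR1
    have hD : Der1 R M := hNIS R C M hP (fun μ ν h => hcl μ ν (hDIN R R0 s0 μ ν h))
    obtain ⟨φ, ψ, hO', hiso⟩ := h2 M hD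
    exact (not_opn.2 (hcl φ ψ (hCB5 R C M hD φ ψ hO' hiso))) hO'

end Pool.ZgCB
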