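import Pool.Agent.Work.MP_d94bda_cb.InterfaceB

/-!
# MP_d94bda_al, THEOREM Z: block CBA
-/

open scoped BigOperators

namespace Pool.ZgCB

universe u

theorem CBA_sub {R : Type u} [Ring R] {M : Type u} [AddCommGroup M] [Module R M]
    {φ ψ θ θ' : P1 R} (h1 : Le (φ.meet ψ) θ) (h2 : Le θ' φ) (h : Opn M θ' θ) : Opn M φ ψ := by
  obtain ⟨a, ha, hn⟩ := h
  exact ⟨a, h2 M a ha, fun hψ => hn (h1 M a ((at1_meet φ ψ a).2 ⟨h2 M a ha, hψ⟩))⟩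

theorem CBA_iso {R : Type u} [Ring R] {M N : Type u} [AddCommGroup M] [Module R M]
    [AddCommGroup N] [Module R N] {θ θ' : P1 R} (e : M ≃ₗ[R] N) (h : Opn M θ' θ) :
    Opn N θ' θ := by
  obtain ⟨a, ha, hn⟩ := h
  refine ⟨e a, at1_map θ' e.toLinearMap ha, fun hθ => hn ?_⟩
  have h1 := at1_map θ e.symm.toLinearMap hθ
  have h2 : e.symm.toLinearMap (e a) = a := e.symm_apply_apply a
  rwa [h2] at h1

theorem p_CBA (hTHA : Stmt_THA.{u}) (hSLE : Stmt_SLE.{u}) (hDER : Stmt_DER.{u})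
    (hDIN : Stmt_DIN.{u}) (hCL2 : Stmt_CL2.{u}) (hNIS : Stmt_NIS.{u}) (hTA0 : Stmt_TA0.{u}) :
    Stmt_CBA.{u} := by
  intro R _ C _ _ _ _ N _ _ hN φ ψ hU hR1
  have hS0 : Serre (R0 : P1 R → P1 R → Prop) := hDER R Le (hSLE R)
  have hS1 : Serre (R1 : P1 R → P1 R → Prop) := hDER R R0 hS0
  -- a pair which is not of finite length is open on `N`
  have hopen : ∀ θ θ' : P1 R, Le (φ.meet ψ) θ → Le θ' φ → ¬ R0 θ' θ → Opn N θ' θ := by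
    intro θ θ' h1 h2 h3
    obtain ⟨N₂, _, _, hd, ho⟩ := hTA0 R C θ' θ h3
    obtain ⟨e⟩ := hU N₂ hd (CBA_sub h1 h2 ho)
    exact CBA_iso e ho
  have claim : ∀ θ θ' : P1 R, Le (φ.meet ψ) θ → Le θ θ' → Le θ' φ → ¬ R0 θ' θ →
      ∃ η, Le θ η ∧ Le η θ' ∧ ¬ R0 η θ ∧ ¬ R0 θ' η := by
    intro θ θ' h1 h2 h3 h4
    by_contra hno
    have hdich : ∀ η, Le θ η → Le η θ' → R0 η θ ∨ R0 θ' η := by
      intro η ha hb
      by_contra hc
      rw [not_or] at hc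
      exact hno ⟨η, ha, hb, hc.1, hc.2⟩
    have hR : R1 θ' θ := by
      refine ⟨2, ?_⟩
      rintro ⟨c, d, ⟨c', d', hbc, hcd', hdc, hn'⟩, hcd, hdt, hn⟩
      have hbc' : Le (θ'.meet θ) c' := hbc
      have hθc : Le θ c' := (le_meet h2 (Le.refl θ)).trans hbc'
      have hθc2 : Le θ c := hθc.trans (hcd'.trans hdc)
      rcases hdich c hθc2 (hcd.trans hdt) with h | h
      · exact hn' (hS0.trans _ _ _ (hS0.le _ _ hdc) (hS0.trans _ _ _ h (hS0.le _ _ hθc)))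
      · exact hn (hS0.trans _ _ _ (hS0.le _ _ hdt) h)
    obtain ⟨N', _, _, hP, hO, hC⟩ := hTHA R R1 hS1 φ ψ hR1
    have hD : Der1 R N' := hNIS R C N' hP (fun μ ν h => hC μ ν (hDIN R R0 hS0 μ ν h))
    obtain ⟨e⟩ := hU N' hD hO
    have hop : Opn N' θ' θ := CBA_iso e.symm (hopen θ θ' h1 h3 h4)
    exact (not_opn.2 (hC θ' θ hR)) hop
  intro θ θ' h1 h2 h3 ho
  have hn : ¬ R0 θ' θ := fun h => (not_opn.2 (hCL2 R N hN θ' θ h)) ho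
  obtain ⟨η, e1, e2, e3, e4⟩ := claim θ θ' h1 h2 h3 hn
  exact ⟨η, e1, e2, hopen θ η h1 (e2.trans h3) e3, hopen η θ' (h1.trans e1) h3 e4⟩

end Pool.ZgCB
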