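import Pool.Agent.Work.MP_d94bda_cb.InterfaceB

/-!
# Block CL2 of MP_d94bda_al: pairs of finite length are closed on points which are not isolated
(typed by helper6)
-/

namespace Pool.ZgCB

universe u

theorem p_CL2 (h1 : Stmt_FMP.{u}) (h2 : Stmt_MIN.{u}) : Stmt_CL2.{u} := by
  intro R _ N _ _ hN φ ψ hr
  by_contra hcl
  obtain ⟨a, ha, hna⟩ := not_cl.1 hcl
  obtain ⟨n, hn⟩ := hr
  have hopn : Opn N φ (φ.meet ψ) := ⟨a, ha, fun h => hna ((at1_meet φ ψ a).1 h).2⟩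
  obtain ⟨c, d, -, -, hmin, hdc⟩ := h1 R n (φ.meet ψ) φ (meet_le_left φ ψ) hn N hopn
  exact hN.2 ⟨d, c, hdc, fun M _ _ hM hMo => h2 R c d hmin M N hM hN.1 hMo hdc⟩

end Pool.ZgCB
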