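import Pool.Agent.Work.MP_d94bda_cb.InterfaceB

open scoped BigOperators

set_option autoImplicit false

namespace Pool.ZgCB

universe u

theorem CL4_opn_iso {R : Type u} [Ring R] {M N : Type u} [AddCommGroup M] [Module R M]
    [AddCommGroup N] [Module R N] (e : M ≃ₗ[R] N) {μ ν : P1 R} (h : Opn M μ ν) : Opn N μ ν := by
  obtain ⟨a, ha, hb⟩ := h
  refine ⟨e a, at1_map μ e.toLinearMap ha, fun h => hb ?_⟩
  have := at1_map ν e.symm.toLinearMap h
  simpa using this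

theorem p_CL4 (h1 : Stmt_FRE.{u}) (h2 : Stmt_FGP.{u}) (h3 : Stmt_FGS.{u}) (h4 : Stmt_FGL.{u})
    (h5 : Stmt_THA.{u}) (h6 : Stmt_SLE.{u}) (h7 : Stmt_LCH.{u}) : Stmt_CL4.{u} := by
  intro R _ C _ _ _ _ N _ _ φ ψ hP hO hI
  have hfin : Module.Finite R N := by
    obtain ⟨Z, _, _, c, hZ, hc, hf⟩ := h1 R Unit φ
    have hOZ : Opn Z φ ψ := by
      refine ⟨c (), ?_, fun hψ => ?_⟩
      · unfold at1; convert hc using 1
      · obtain ⟨a, ha, hb⟩ := hO
        obtain ⟨f, hfa⟩ := hf N (fun _ => a) ha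
        apply hb
        have := at1_map ψ f hψ
        rwa [hfa ()] at this
    obtain ⟨X, _, _, hX, hXi, hXo⟩ := h3 R C Z φ ψ hZ hOZ
    obtain ⟨e⟩ := hI X ⟨h2 R C X hX, hXi⟩ hXo
    exact Module.Finite.equiv e
  refine ⟨hfin, ?_⟩
  obtain ⟨n, hn⟩ := h4 R C N hfin
  refine ⟨n, fun hL => ?_⟩
  obtain ⟨θ, hθ0, hθn, hθ⟩ := (h7 R Le (h6 R)).1 n _ _ hL
  have hmono : ∀ i j, i ≤ j → j ≤ n → Le (θ i) (θ j) := by
    intro i j hij
    induction j, hij using Nat.le_induction with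
    | base => intro _; exact Le.refl _
    | succ j hj ih =>
      intro hjn
      exact (ih (by omega)).trans (hθ j (by omega)).1
  apply hn θ
  intro i hi
  refine ⟨fun a ha => (hθ i hi).1 N a ha, ?_⟩
  obtain ⟨M, _, _, hM, hMo, -⟩ := h5 R Le (h6 R) _ _ (hθ i hi).2
  have hMφ : Opn M φ ψ := by
    obtain ⟨a, ha, hb⟩ := hMo
    have ha' : at1 φ a := (hmono (i+1) n (by omega) le_rfl).trans hθn M a ha
    refine ⟨a, ha', fun hψ => hb ?_⟩
    have := hθ0.trans (hmono 0 i (by omega) (by omega)) M a ((at1_meet φ ψ a).2 ⟨ha', hψ⟩)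
    exact this
  obtain ⟨e⟩ := hI M hM hMφ
  exact CL4_opn_iso e hMo

end Pool.ZgCB
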