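import Pool.Agent.Work.MP_d94bda_cb.InterfaceC

/-!
# Block CLO: closure of countable subrings under a countable operation
-/

namespace Pool.ZgCB

universe u

/-- one step of the closure -/
def CLO_step {R : Type u} [Ring R] (op : Set R → Set R) (A : Set R) : Set R :=
  A ∪ {0, 1} ∪ Set.image2 (fun x y => x + y) A A ∪ Set.image2 (fun x y => x * y) A A ∪
    (fun x => -x) '' A ∪ ⋃ F ∈ {F : Set R | F.Finite ∧ F ⊆ A}, op F

theorem CLO_sub {R : Type u} [Ring R] (op : Set R → Set R) (A : Set R) : A ⊆ CLO_step op A :=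
  fun _ h => Or.inl (Or.inl (Or.inl (Or.inl (Or.inl h))))

theorem CLO_zero {R : Type u} [Ring R] (op : Set R → Set R) (A : Set R) : (0 : R) ∈ CLO_step op A :=
  Or.inl (Or.inl (Or.inl (Or.inl (Or.inr (Or.inl rfl)))))

theorem CLO_one {R : Type u} [Ring R] (op : Set R → Set R) (A : Set R) : (1 : R) ∈ CLO_step op A :=
  Or.inl (Or.inl (Or.inl (Or.inl (Or.inr (Or.inr rfl)))))

theorem CLO_add {R : Type u} [Ring R] (op : Set R → Set R) (A : Set R) {x y : R} (hx : x ∈ A)
    (hy : y ∈ A) : x + y ∈ CLO_step op A :=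
  Or.inl (Or.inl (Or.inl (Or.inr ⟨x, hx, y, hy, rfl⟩)))

theorem CLO_mul {R : Type u} [Ring R] (op : Set R → Set R) (A : Set R) {x y : R} (hx : x ∈ A)
    (hy : y ∈ A) : x * y ∈ CLO_step op A :=
  Or.inl (Or.inl (Or.inr ⟨x, hx, y, hy, rfl⟩))

theorem CLO_neg {R : Type u} [Ring R] (op : Set R → Set R) (A : Set R) {x : R} (hx : x ∈ A) :
    -x ∈ CLO_step op A :=
  Or.inl (Or.inr ⟨x, hx, rfl⟩)

theorem CLO_op {R : Type u} [Ring R] (op : Set R → Set R) (A F : Set R) (hF : F.Finite)
    (hA : F ⊆ A) : op F ⊆ CLO_step op A :=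
  fun _ hx => Or.inr (Set.mem_iUnion₂.2 ⟨F, ⟨hF, hA⟩, hx⟩)

theorem CLO_count {R : Type u} [Ring R] (op : Set R → Set R)
    (hop : ∀ F : Set R, F.Finite → (op F).Countable) (A : Set R) (hA : A.Countable) :
    (CLO_step op A).Countable := by
  refine ((((hA.union ?_).union (hA.image2 hA _)).union (hA.image2 hA _)).union
    (hA.image _)).union ?_
  · exact (Set.toFinite _).countable
  · exact (Set.countable_ofPred_finite_subset hA).biUnion fun F hF => hop F hF.1

theorem p_CLO : Stmt_CLO.{u} := by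
  intro R _ op hop T hT
  let A : ℕ → Set R := fun n => Nat.rec T (fun _ B => CLO_step op B) n
  have hA0 : A 0 = T := rfl
  have hAs : ∀ n, A (n + 1) = CLO_step op (A n) := fun n => rfl
  have hmono : Monotone A := monotone_nat_of_le_succ fun n => by
    rw [hAs]
    exact CLO_sub op (A n)
  have hcount : ∀ n, (A n).Countable := by
    intro n
    induction n with
    | zero => exact hT
    | succ n ih =>
      rw [hAs]
      exact CLO_count op hop _ ih
  have hmem : ∀ {x : R}, x ∈ ⋃ n, A n ↔ ∃ n, x ∈ A n := fun {x} => Set.mem_iUnion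
  let S : Subring R :=
    { carrier := ⋃ n, A n
      mul_mem' := by
        intro x y hx hy
        obtain ⟨m, hm⟩ := hmem.1 hx
        obtain ⟨n, hn⟩ := hmem.1 hy
        refine hmem.2 ⟨max m n + 1, ?_⟩
        rw [hAs]
        exact CLO_mul op _ (hmono (le_max_left m n) hm) (hmono (le_max_right m n) hn)
      one_mem' := by
        refine hmem.2 ⟨0 + 1, ?_⟩
        rw [hAs]
        exact CLO_one op _
      add_mem' := by
        intro x y hx hy
        obtain ⟨m, hm⟩ := hmem.1 hx
        obtain ⟨n, hn⟩ := hmem.1 hy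
        refine hmem.2 ⟨max m n + 1, ?_⟩
        rw [hAs]
        exact CLO_add op _ (hmono (le_max_left m n) hm) (hmono (le_max_right m n) hn)
      zero_mem' := by
        refine hmem.2 ⟨0 + 1, ?_⟩
        rw [hAs]
        exact CLO_zero op _
      neg_mem' := by
        intro x hx
        obtain ⟨m, hm⟩ := hmem.1 hx
        refine hmem.2 ⟨m + 1, ?_⟩
        rw [hAs]
        exact CLO_neg op _ hm }
  have hS : (S : Set R) = ⋃ n, A n := rfl
  refine ⟨S, ?_, ?_, ?_⟩
  · rw [hS]
    exact Set.countable_iUnion hcount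
  · rw [hS]
    exact Set.subset_iUnion A 0
  · intro F hF hFS
    rw [hS] at hFS ⊢
    have : ∃ n, F ⊆ A n := by
      obtain ⟨n, hn⟩ := DirectedOn.exists_mem_subset_of_finset_subset_biUnion
        (α := R) (ι := ℕ) (f := A) (c := Set.univ) Set.univ_nonempty
        (by
          intro a _ b _
          exact ⟨max a b, trivial, hmono (le_max_left a b), hmono (le_max_right a b)⟩)
        (s := hF.toFinset) (by
          intro x hx
          have := hFS (hF.mem_toFinset.1 hx)
          simpa using this)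
      exact ⟨n, fun x hx => hn.2 (by simpa using hx)⟩
    obtain ⟨n, hn⟩ := this
    refine (CLO_op op (A n) F hF hn).trans ?_
    rw [← hAs]
    exact Set.subset_iUnion A (n + 1)

end Pool.ZgCB
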