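import Pool.Agent.Work.MP_d94bda_cb.InterfaceC

/-!
# MP_d94bda_al, THEOREM Z, block CNT: counting of branches (helper5)
-/

namespace Pool.ZgCB

universe u

theorem CNT_pre_eq {x x' : ℕ → Bool} : ∀ {n : ℕ}, (∀ j < n, x j = x' j) → pre x n = pre x' n
  | 0, _ => rfl
  | n + 1, h => by
    show x n :: pre x n = x' n :: pre x' n
    rw [h n (Nat.lt_succ_self n), CNT_pre_eq fun j hj => h j (Nat.lt_succ_of_lt hj)]

theorem CNT_eq_pre {x x' : ℕ → Bool} : ∀ {n : ℕ}, pre x n = pre x' n → ∀ j < n, x j = x' j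
  | 0, _, j, hj => absurd hj (Nat.not_lt_zero j)
  | n + 1, h, j, hj => by
    have h' : x n :: pre x n = x' n :: pre x' n := h
    rcases Nat.lt_succ_iff_lt_or_eq.1 hj with hj' | hj'
    · exact CNT_eq_pre (List.cons.inj h').2 j hj'
    · rw [hj']
      exact (List.cons.inj h').1

theorem CNT_mono {R : Type u} [Ring R] {S : Subring R} {N : Type u} [AddCommGroup N] [Module R N]
    {φ ψ : P1 R} {Φ Ψ η : List Bool → P1 R} (T : Tree S N φ ψ Φ Ψ η) (x : ℕ → Bool) (m : ℕ) :
    ∀ d : ℕ, Le (Ψ (pre x m)) (Ψ (pre x (m + d)))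
  | 0 => Le.refl _
  | d + 1 => by
    refine (CNT_mono T x m d).trans ?_
    show Le (Ψ (pre x (m + d))) (Ψ (x (m + d) :: pre x (m + d)))
    cases x (m + d)
    · rw [(T.child0 _).2]
      exact Le.refl _
    · rw [(T.child1 _).2]
      exact (T.le _).1

theorem p_CNT (hCTF : Stmt_CTF.{u}) : Stmt_CNT.{u} := by
  classical
  intro R _ S hS N _ _ φ ψ Φ Ψ η T P h1 h2 Q h3
  choose n m ρ hρ hQ using h3
  let V := Σ n : ℕ, {θ : PP R (Unit ⊕ Fin n) | θ.Over S} × ℕ × List Bool
  haveI hc : ∀ n : ℕ, Countable {θ : PP R (Unit ⊕ Fin n) | θ.Over S} := fun n =>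
    (hCTF R S hS (Unit ⊕ Fin n)).to_subtype
  haveI : Countable V := inferInstance
  let F : (ℕ → Bool) → V := fun x => ⟨n x, ⟨ρ x, hρ x⟩, m x, pre x (m x)⟩
  have hF : ∀ (x : ℕ → Bool) (κ : P1 R), κ.Over S → Le (Ψ (F x).2.2.2) κ →
      (κ ∈ P x ↔ Q (F x).1 (F x).2.1 κ) := fun x κ hκ hl => hQ x κ hκ hl
  have key : ∀ (x x' : ℕ → Bool) (k : ℕ), F x = F x' → pre x k = pre x' k → m x ≤ k →
      x k = false → x' k = true → False := by
    intro x x' k hxx hpre hmk hx hx'
    have a1 : η (pre x k) ∈ P x := by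
      have h := h1 x (k + 1)
      have e : pre x (k + 1) = false :: pre x k := by
        show x k :: pre x k = _
        rw [hx]
      rw [e, (T.child0 _).1] at h
      exact h
    have a2 : η (pre x k) ∉ P x' := by
      have h := h2 x' (k + 1)
      have e : pre x' (k + 1) = true :: pre x k := by
        show x' k :: pre x' k = _
        rw [hx', hpre]
      rw [e, (T.child1 _).2] at h
      exact h
    have a3 : Le (Ψ (F x).2.2.2) (η (pre x k)) := by
      obtain ⟨d, hd⟩ := Nat.exists_eq_add_of_le hmk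
      have h := CNT_mono T x (m x) d
      rw [← hd] at h
      exact h.trans (T.le _).1
    have a4 : (η (pre x k)).Over S := (T.ovr _).2.2
    have b1 := hF x _ a4 a3
    have a3' := a3
    rw [hxx] at a3' b1
    exact a2 ((hF x' _ a4 a3').2 (b1.1 a1))
  have hinj : Function.Injective F := by
    intro x x' hxx
    by_contra hne
    have hex : ∃ k, x k ≠ x' k := by
      by_contra hcon
      push_neg at hcon
      exact hne (funext hcon)
    obtain ⟨k, hk⟩ : ∃ k, k = Nat.find hex := ⟨_, rfl⟩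
    have hk1 : x k ≠ x' k := by rw [hk]; exact Nat.find_spec hex
    have hk2 : ∀ j < k, x j = x' j := by
      intro j hj
      by_contra hcon
      exact Nat.find_min hex (by rw [← hk]; exact hj) hcon
    have hpre : pre x k = pre x' k := CNT_pre_eq hk2
    have hm : m x = m x' := congrArg (fun v : V => v.2.2.1) hxx
    have hp : pre x (m x) = pre x' (m x') := congrArg (fun v : V => v.2.2.2) hxx
    have hmk : m x ≤ k := by
      by_contra hcon
      rw [← hm] at hp
      exact hk1 (CNT_eq_pre hp k (not_le.1 hcon))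
    cases hxk : x k
    · cases hxk' : x' k
      · exact hk1 (by rw [hxk, hxk'])
      · exact key x x' k hxx hpre hmk hxk hxk'
    · cases hxk' : x' k
      · exact key x' x k hxx.symm hpre.symm (hm ▸ hmk) hxk' hxk
      · exact hk1 (by rw [hxk, hxk'])
  haveI : Countable (ℕ → Bool) := hinj.countable
  obtain ⟨f, hf⟩ := exists_injective_nat (ℕ → Bool)
  refine Function.cantor_injective (fun s : Set ℕ => f fun n => decide (n ∈ s)) ?_
  intro s t hst
  have h := hf hst
  ext j
  have hj : decide (j ∈ s) = decide (j ∈ t) := congrFun h j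
  exact decide_eq_decide.1 hj

end Pool.ZgCB
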