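import Pool.Agent.Work.MP_d94bda_cb.InterfaceC

/-!
# MP_d94bda_al, THEOREM Z, block CTF: countably many formulas over a countable subring
-/

namespace Pool.ZgCB

universe u

theorem p_CTF : Stmt_CTF.{u} := by
  intro R _ S hS ι _
  haveI : Countable S := hS.to_subtype
  let f : (Σ m : ℕ, Σ k : ℕ, (Fin m → ι → S) × (Fin m → Fin k → S)) → PP R ι := fun z =>
    ⟨z.1, z.2.1, fun i j => (z.2.2.1 i j : R), fun i l => (z.2.2.2 i l : R)⟩
  refine (Set.countable_range f).mono ?_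
  intro θ hθ
  exact ⟨⟨θ.m, θ.k, fun i j => ⟨θ.A i j, hθ.1 i j⟩, fun i l => ⟨θ.B i l, hθ.2 i l⟩⟩, rfl⟩

end Pool.ZgCB
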