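import Pool.Agent.Work.MP_d94bda_cb.InterfaceC

/-! # MP_d94bda_al, THEOREM Z: block DD2 (descent of implications) -/

set_option autoImplicit false

open scoped BigOperators

namespace Pool.ZgCB

universe u

theorem DD2_mul {R M : Type u} [Ring R] [AddCommGroup M] [Module R M] {a b : Type}
    [Fintype a] [Fintype b] (B : a → R) (W : a → b → R) (u : b → M) :
    ∑ l, B l • ∑ l', W l l' • u l' = ∑ l', (∑ l, B l * W l l') • u l' := by
  simp only [Finset.smul_sum, Finset.sum_smul, mul_smul]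
  exact Finset.sum_comm

/-- the formula `b(x)` in the variables `(y; x)` -/
def DD2_right {R : Type u} [Ring R] (b : P1 R) : P2 R :=
  ⟨b.m, b.k, fun i => Sum.elim (fun _ => 0) (fun _ => b.A i ()), b.B⟩

/-- the formula `b(y)` in the variables `(y; x)` -/
def DD2_left {R : Type u} [Ring R] (b : P1 R) : P2 R :=
  ⟨b.m, b.k, fun i => Sum.elim (fun _ => b.A i ()) (fun _ => 0), b.B⟩

theorem DD2_right_ev {R : Type u} [Ring R] (b : P1 R) (M : Type u) [AddCommGroup M] [Module R M]
    (x : Unit ⊕ Unit → M) : (DD2_right b).ev M x ↔ at1 b (x (Sum.inr ())) := by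
  unfold DD2_right at1 PP.ev
  simp [Fintype.sum_sum_type]

theorem DD2_left_ev {R : Type u} [Ring R] (b : P1 R) (M : Type u) [AddCommGroup M] [Module R M]
    (x : Unit ⊕ Unit → M) : (DD2_left b).ev M x ↔ at1 b (x (Sum.inl ())) := by
  unfold DD2_left at1 PP.ev
  simp [Fintype.sum_sum_type]

theorem p_DD2 (hFAR : Stmt_FAR.{u}) : Stmt_DD2.{u} := by
  intro R _ C _ _ S hDP ρ b₁ b₂ hb₁ hb₂ himp
  have hF : ∃ (H : Fin b₂.m → Fin (ρ.m + b₁.m) → R) (V : Fin b₂.k → Unit ⊕ Unit → R)
      (W : Fin b₂.k → Fin (ρ.k + b₁.k) → R),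
      (∀ (i : Fin b₂.m) (j : Unit ⊕ Unit),
        (DD2_left b₂).A i j + ∑ l : Fin b₂.k, b₂.B i l * V l j =
          ∑ e : Fin (ρ.m + b₁.m), H i e * (Fin.append ρ.A (DD2_right b₁).A) e j) ∧
      (∀ (i : Fin b₂.m) (l' : Fin (ρ.k + b₁.k)), ∑ l : Fin b₂.k, b₂.B i l * W l l' =
        ∑ e : Fin (ρ.m + b₁.m), H i e * (Fin.append (fun i => Fin.append (ρ.B i) (fun _ => 0))
          (fun i => Fin.append (fun _ => 0) (b₁.B i)) :
            Fin (ρ.m + b₁.m) → Fin (ρ.k + b₁.k) → R) e l') := by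
    refine hFAR R (Unit ⊕ Unit) (PP.meet ρ (DD2_right b₁)) (DD2_left b₂) ?_
    intro M _ _ x hx
    rw [PP.ev_meet, DD2_right_ev] at hx
    rw [DD2_left_ev]
    refine himp M (x (Sum.inl ())) (x (Sum.inr ())) ?_ hx.2
    unfold at2
    convert hx.1 using 1
    funext j; rcases j with j | j <;> rfl
  obtain ⟨H, V, W, h1', h2'⟩ := hF
  -- the four identities
  have ey : ∀ i, b₂.A i () + ∑ l, b₂.B i l * V l (Sum.inl ()) =
      ∑ e, H i (Fin.castAdd _ e) * ρ.A e (Sum.inl ()) := by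
    intro i
    have := h1' i (Sum.inl ())
    rw [Fin.sum_univ_add] at this
    simpa [DD2_right, DD2_left, Fin.append_left, Fin.append_right] using this
  have ex : ∀ i, ∑ l, b₂.B i l * V l (Sum.inr ()) =
      ∑ e, H i (Fin.castAdd _ e) * ρ.A e (Sum.inr ()) +
        ∑ e, H i (Fin.natAdd _ e) * b₁.A e () := by
    intro i
    have := h1' i (Sum.inr ())
    rw [Fin.sum_univ_add] at this
    simpa [DD2_right, DD2_left, Fin.append_left, Fin.append_right] using this
  have eu : ∀ i l', ∑ l, b₂.B i l * W l (Fin.castAdd _ l') =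
      ∑ e, H i (Fin.castAdd _ e) * ρ.B e l' := by
    intro i l'
    have := h2' i (Fin.castAdd _ l')
    rw [Fin.sum_univ_add] at this
    simpa [Fin.append_left, Fin.append_right] using this
  have ew : ∀ i l', ∑ l, b₂.B i l * W l (Fin.natAdd _ l') =
      ∑ e, H i (Fin.natAdd _ e) * b₁.B e l' := by
    intro i l'
    have := h2' i (Fin.natAdd _ l')
    rw [Fin.sum_univ_add] at this
    simpa [Fin.append_left, Fin.append_right] using this
  obtain ⟨n, c, H', V', hH', hV', hGV, hH, hW⟩ := hDP b₁.m b₁.k b₂.m b₂.k b₁.B b₂.B hb₁.2 hb₂.2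
    (fun i e => H i (Fin.natAdd _ e)) (fun l l' => W l (Fin.natAdd _ l')) ew
  refine ⟨n, c, ⟨b₂.m, b₂.k, fun i => Sum.elim (fun _ => b₂.A i ())
    (fun t => - ∑ e, H' t i e * b₁.A e ()), b₂.B⟩, ⟨?_, hb₂.2⟩, ?_, ?_⟩
  · rintro i (j | t)
    · exact hb₂.1 i ()
    · exact S.neg_mem (S.sum_mem fun e _ => S.mul_mem (hH' t i e) (hb₁.1 e ()))
  · intro M _ _ y x hyx
    obtain ⟨u, hu⟩ := hyx
    simp only [Fintype.sum_sum_type, Finset.univ_unique, Finset.sum_singleton, Sum.elim_inl,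
      Sum.elim_inr] at hu
    refine ⟨fun l => V l (Sum.inl ()) • y + V l (Sum.inr ()) • x +
      ∑ l', W l (Fin.castAdd _ l') • u l', fun i => ?_⟩
    simp only [Fintype.sum_sum_type, Finset.univ_unique, Finset.sum_singleton, Sum.elim_inl,
      Sum.elim_inr]
    have e1 : ∑ l, b₂.B i l • (V l (Sum.inl ()) • y + V l (Sum.inr ()) • x +
        ∑ l', W l (Fin.castAdd _ l') • u l') =
        (∑ l, b₂.B i l * V l (Sum.inl ())) • y + (∑ l, b₂.B i l * V l (Sum.inr ())) • x +
          ∑ l', (∑ l, b₂.B i l * W l (Fin.castAdd _ l')) • u l' := by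
      rw [← DD2_mul]
      simp only [smul_add, Finset.sum_add_distrib, Finset.sum_smul, mul_smul]
    have e2 : ∑ e, H i (Fin.castAdd _ e) • (ρ.A e (Sum.inl ()) • y + ρ.A e (Sum.inr ()) • x +
        ∑ l', ρ.B e l' • u l') = 0 := by
      refine Finset.sum_eq_zero fun e _ => ?_
      have := hu e
      rw [show ρ.A e (Sum.inl ()) • y + ρ.A e (Sum.inr ()) • x + ∑ l', ρ.B e l' • u l' = 0
        from this, smul_zero]
    have e3 : ∑ e, H i (Fin.castAdd _ e) • (ρ.A e (Sum.inl ()) • y + ρ.A e (Sum.inr ()) • x +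
        ∑ l', ρ.B e l' • u l') =
        (∑ e, H i (Fin.castAdd _ e) * ρ.A e (Sum.inl ())) • y +
        (∑ e, H i (Fin.castAdd _ e) * ρ.A e (Sum.inr ())) • x +
          ∑ l', (∑ e, H i (Fin.castAdd _ e) * ρ.B e l') • u l' := by
      rw [← DD2_mul]
      simp only [smul_add, Finset.sum_add_distrib, Finset.sum_smul, mul_smul]
    have e4 : ∑ t, (-∑ e, H' t i e * b₁.A e ()) • algebraMap C R (c t) • x =
        -((∑ e, H i (Fin.natAdd _ e) * b₁.A e ()) • x) := by
      simp only [smul_smul, neg_mul, neg_smul, Finset.sum_neg_distrib]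
      rw [← Finset.sum_smul]
      congr 2
      have : ∀ e, H i (Fin.natAdd _ e) * b₁.A e () =
          ∑ t, (H' t i e * b₁.A e ()) * algebraMap C R (c t) := by
        intro e
        rw [show H i (Fin.natAdd _ e) = ∑ t, c t • H' t i e from hH i e, Finset.sum_mul]
        refine Finset.sum_congr rfl fun t _ => ?_
        rw [Algebra.smul_def, mul_assoc, Algebra.commutes]
      simp only [this, Finset.sum_mul]
      exact Finset.sum_comm
    have e6 : (∑ e, H i (Fin.castAdd _ e) * ρ.A e (Sum.inl ())) • y =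
        b₂.A i () • y + (∑ l, b₂.B i l * V l (Sum.inl ())) • y := by
      rw [← ey i, add_smul]
    rw [e3, e6] at e2
    rw [e1, e4, ex i, add_smul]
    simp only [eu i]
    rw [← e2]
    abel
  · intro M _ _ y x hyx hx
    obtain ⟨v, hv⟩ := hyx
    choose w hw using hx
    simp only [Fintype.sum_sum_type, Finset.univ_unique, Finset.sum_singleton, Sum.elim_inl,
      Sum.elim_inr] at hv hw
    refine ⟨fun e => v e + ∑ t, ∑ l, V' t e l • w t l, fun i => ?_⟩
    simp only [Finset.univ_unique, Finset.sum_singleton]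
    have e1 : ∑ e, b₂.B i e • ∑ t, ∑ l, V' t e l • w t l =
        ∑ t, ∑ e, H' t i e • ∑ l, b₁.B e l • w t l := by
      have : ∀ e, b₂.B i e • ∑ t, ∑ l, V' t e l • w t l =
          ∑ t, b₂.B i e • ∑ l, V' t e l • w t l := fun e => Finset.smul_sum
      simp only [this]
      rw [Finset.sum_comm]
      refine Finset.sum_congr rfl fun t _ => ?_
      rw [DD2_mul, DD2_mul]
      exact Finset.sum_congr rfl fun l _ => by rw [hGV t i l]
    have e2 : ∀ t, ∑ e, H' t i e • ∑ l, b₁.B e l • w t l =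
        (-∑ e, H' t i e * b₁.A e ()) • x t := by
      intro t
      rw [neg_smul, Finset.sum_smul, ← Finset.sum_neg_distrib]
      refine Finset.sum_congr rfl fun e _ => ?_
      have h3 : b₁.A e () • x t + ∑ l, b₁.B e l • w t l = 0 := hw t e
      rw [eq_neg_of_add_eq_zero_right h3, smul_neg, mul_smul]
    have e3 : b₂.A i () • y + ∑ t, (-∑ e, H' t i e * b₁.A e ()) • x t +
        ∑ e, b₂.B i e • v e = 0 := hv i
    have e4 : ∑ e, b₂.B i e • (v e + ∑ t, ∑ l, V' t e l • w t l) =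
        ∑ e, b₂.B i e • v e + ∑ t, (-∑ e, H' t i e * b₁.A e ()) • x t := by
      simp only [smul_add, Finset.sum_add_distrib]
      rw [e1]
      simp only [e2]
    show b₂.A i () • y + ∑ e, b₂.B i e • (v e + ∑ t, ∑ l, V' t e l • w t l) = 0
    rw [e4, ← e3]
    abel

end Pool.ZgCB
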