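import Pool.Agent.Work.MP_d94bda_cb.InterfaceC

/-! Block DPC: a countable subring with the descent property. -/

open scoped BigOperators

namespace Pool.ZgCB

universe u

/-- the coefficients of a formula -/
def DPC_coef {R : Type u} (θ : P1 R) : Set R :=
  {x | (∃ i j, θ.A i j = x) ∨ ∃ i l, θ.B i l = x}

theorem DPC_coef_finite {R : Type u} (θ : P1 R) : (DPC_coef θ).Finite := by
  have h1 : (Set.range (fun p : Fin θ.m × Unit => θ.A p.1 p.2)).Finite := Set.finite_range _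
  have h2 : (Set.range (fun p : Fin θ.m × Fin θ.k => θ.B p.1 p.2)).Finite := Set.finite_range _
  refine (h1.union h2).subset ?_
  rintro x (⟨i, j, h⟩ | ⟨i, l, h⟩)
  · exact Or.inl ⟨(i, j), h⟩
  · exact Or.inr ⟨(i, l), h⟩

theorem DPC_mat_finite {R : Type u} (F : Set R) (hF : F.Finite) (r k : ℕ) :
    {G : Fin r → Fin k → R | ∀ i j, G i j ∈ F}.Finite := by
  have h1 : {g : Fin k → R | ∀ j, g j ∈ F}.Finite := Set.Finite.pi' (fun _ => hF)
  exact Set.Finite.pi' (fun _ => h1)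

theorem DPC_form_countable {R : Type u} (F : Set R) (hF : F.Finite) :
    {θ : P1 R | DPC_coef θ ⊆ F}.Countable := by
  have key : ∀ m k : ℕ, ((fun p : (Fin m → Unit → R) × (Fin m → Fin k → R) =>
      (⟨m, k, p.1, p.2⟩ : P1 R)) ''
      ({A : Fin m → Unit → R | ∀ i j, A i j ∈ F} ×ˢ
        {B : Fin m → Fin k → R | ∀ i j, B i j ∈ F})).Countable := by
    intro m k
    refine Set.Countable.image ?_ _
    refine Set.Finite.countable (Set.Finite.prod ?_ (DPC_mat_finite F hF m k))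
    have h1 : {g : Unit → R | ∀ j, g j ∈ F}.Finite := Set.Finite.pi' (fun _ => hF)
    exact Set.Finite.pi' (fun _ => h1)
  refine Set.Countable.mono ?_ (Set.countable_iUnion fun m => Set.countable_iUnion fun k => key m k)
  rintro ⟨m, k, A, B⟩ hθ
  refine Set.mem_iUnion.2 ⟨m, Set.mem_iUnion.2 ⟨k, ⟨(A, B), ⟨?_, ?_⟩, rfl⟩⟩⟩
  · intro i j
    exact hθ (Or.inl ⟨i, j, rfl⟩)
  · intro i j
    exact hθ (Or.inr ⟨i, j, rfl⟩)

theorem DPC_over {R : Type u} [Ring R] (θ : P1 R) (S : Subring R) :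
    θ.Over S ↔ DPC_coef θ ⊆ (S : Set R) := by
  constructor
  · rintro h x (⟨i, j, rfl⟩ | ⟨i, l, rfl⟩)
    · exact h.1 i j
    · exact h.2 i l
  · intro h
    exact ⟨fun i j => h (Or.inl ⟨i, j, rfl⟩), fun i l => h (Or.inr ⟨i, l, rfl⟩)⟩

theorem p_DPC (hCLO : Stmt_CLO.{u}) (hSOL : Stmt_SOL.{u}) : Stmt_DPC.{u} := by
  intro R _ C _ _ _ _ T hT nm
  choose sol hsolc hsol using fun r k s l G G₂ => hSOL R C r k s l G G₂
  obtain ⟨S, hSc, hTS, hS⟩ := hCLO R
    (fun F => (⋃ (r : ℕ) (k : ℕ) (s : ℕ) (l : ℕ),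
        ⋃ G ∈ {G : Fin r → Fin k → R | ∀ i j, G i j ∈ F},
        ⋃ G₂ ∈ {G₂ : Fin s → Fin l → R | ∀ i j, G₂ i j ∈ F}, sol r k s l G G₂) ∪
      ⋃ θ ∈ {θ : P1 R | DPC_coef θ ⊆ F}, ⋃ θ' ∈ {θ : P1 R | DPC_coef θ ⊆ F},
        DPC_coef (nm θ θ'))
    (by
      intro F hF
      refine Set.Countable.union ?_ ?_
      · refine Set.countable_iUnion fun r => Set.countable_iUnion fun k =>
          Set.countable_iUnion fun s => Set.countable_iUnion fun l => ?_
        refine Set.Countable.biUnion (DPC_mat_finite F hF r k).countable fun G _ => ?_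
        exact Set.Countable.biUnion (DPC_mat_finite F hF s l).countable fun G₂ _ =>
          hsolc r k s l G G₂
      · refine Set.Countable.biUnion (DPC_form_countable F hF) fun θ _ => ?_
        exact Set.Countable.biUnion (DPC_form_countable F hF) fun θ' _ =>
          (DPC_coef_finite _).countable) T hT
  refine ⟨S, hSc, hTS, ?_, ?_⟩
  · intro r k s l G G₂ hG hG₂ H V hHV
    obtain ⟨n, c, H', V', h1, h2, h3, h4, h5⟩ := hsol r k s l G G₂ H V hHV
    let F₀ : Set R := Set.range (fun p : Fin r × Fin k => G p.1 p.2) ∪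
      Set.range (fun p : Fin s × Fin l => G₂ p.1 p.2)
    have hF₀ : F₀.Finite := (Set.finite_range _).union (Set.finite_range _)
    have hF₀S : F₀ ⊆ (S : Set R) := by
      rintro x (⟨p, rfl⟩ | ⟨p, rfl⟩)
      · exact hG _ _
      · exact hG₂ _ _
    have hsub : sol r k s l G G₂ ⊆ (S : Set R) := by
      refine Set.Subset.trans ?_ (hS F₀ hF₀ hF₀S)
      intro x hx
      refine Or.inl (Set.mem_iUnion.2 ⟨r, Set.mem_iUnion.2 ⟨k, Set.mem_iUnion.2 ⟨s,
        Set.mem_iUnion.2 ⟨l, Set.mem_biUnion (x := G) ?_ (Set.mem_biUnion (x := G₂) ?_ hx)⟩⟩⟩⟩)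
      · intro i j
        exact Or.inl ⟨(i, j), rfl⟩
      · intro i j
        exact Or.inr ⟨(i, j), rfl⟩
    exact ⟨n, c, H', V', fun t i j => hsub (h1 t i j), fun t i j => hsub (h2 t i j), h3, h4, h5⟩
  · intro θ θ' hθ hθ'
    rw [DPC_over] at hθ hθ' ⊢
    refine Set.Subset.trans ?_ (hS (DPC_coef θ ∪ DPC_coef θ')
      ((DPC_coef_finite θ).union (DPC_coef_finite θ')) (Set.union_subset hθ hθ'))
    intro x hx
    refine Or.inr (Set.mem_biUnion (x := θ) ?_ (Set.mem_biUnion (x := θ') ?_ hx))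
    · exact Set.subset_union_left
    · exact Set.subset_union_right

end Pool.ZgCB
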