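import Pool.Agent.Work.MP_d94bda_cb.Basic

/-!
# MP_d94bda_al: definitions

Purity, pure-injective modules, the Ziegler spectrum, Cantor-Bendixson rank one, m-dimension one.
Modules are LEFT modules over `R` (in the universe of `R`); a right `R`-module is a left
`Rᵐᵒᵖ`-module.
-/

open scoped BigOperators

namespace Pool.ZgCB

universe u

/-- pp formulas in one free variable -/
abbrev P1 (R : Type u) := PP R Unit

/-- pp formulas in two free variables `(y; x)` -/
abbrev P2 (R : Type u) := PP R (Unit ⊕ Unit)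

section Eval
variable {R : Type u} [Ring R]

/-- the element `a` satisfies `θ` -/
def at1 (θ : P1 R) {M : Type u} [AddCommGroup M] [Module R M] (a : M) : Prop :=
  θ.ev M (fun _ => a)

/-- `ρ(y; x)` for a tuple `x` -/
def atn {κ : Type} [Fintype κ] (ρ : PP R (Unit ⊕ κ)) {M : Type u} [AddCommGroup M] [Module R M]
    (y : M) (x : κ → M) : Prop :=
  ρ.ev M (Sum.elim (fun _ => y) x)

/-- `ρ(y; x)` for an element `x` -/
def at2 (ρ : P2 R) {M : Type u} [AddCommGroup M] [Module R M] (y x : M) : Prop :=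
  ρ.ev M (Sum.elim (fun _ => y) (fun _ => x))

variable {M N : Type u} [AddCommGroup M] [Module R M] [AddCommGroup N] [Module R N]

theorem at1_map (θ : P1 R) (f : M →ₗ[R] N) {a : M} (h : at1 θ a) : at1 θ (f a) :=
  θ.ev_map f h

theorem at1_zero (θ : P1 R) : at1 θ (0 : M) := θ.ev_zero M

theorem at1_add (θ : P1 R) {a b : M} (h : at1 θ a) (h' : at1 θ b) : at1 θ (a + b) :=
  θ.ev_add h h'

theorem at1_sub (θ : P1 R) {a b : M} (h : at1 θ a) (h' : at1 θ b) : at1 θ (a - b) :=
  θ.ev_sub h h'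

theorem at1_neg (θ : P1 R) {a : M} (h : at1 θ a) : at1 θ (-a) := θ.ev_neg h

theorem at1_central (θ : P1 R) {a : M} (h : at1 θ a) (c : R) (hc : ∀ r : R, c * r = r * c) :
    at1 θ (c • a) := θ.ev_central h c hc

theorem at1_sum (θ : P1 R) {T : Type*} (s : Finset T) (x : T → M) (h : ∀ t ∈ s, at1 θ (x t)) :
    at1 θ (∑ t ∈ s, x t) := θ.ev_sum s (fun t _ => x t) h

theorem at2_map (ρ : P2 R) (f : M →ₗ[R] N) {y x : M} (h : at2 ρ y x) : at2 ρ (f y) (f x) := by
  have := ρ.ev_map f h
  unfold at2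
  convert this using 1
  funext j; rcases j with j | j <;> rfl

theorem at2_add (ρ : P2 R) {y x y' x' : M} (h : at2 ρ y x) (h' : at2 ρ y' x') :
    at2 ρ (y + y') (x + x') := by
  have := ρ.ev_add h h'
  unfold at2
  convert this using 1
  funext j; rcases j with j | j <;> rfl

theorem at2_sub (ρ : P2 R) {y x y' x' : M} (h : at2 ρ y x) (h' : at2 ρ y' x') :
    at2 ρ (y - y') (x - x') := by
  have := ρ.ev_sub h h'
  unfold at2
  convert this using 1
  funext j; rcases j with j | j <;> rfl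

variable {κ : Type} [Fintype κ]

theorem atn_map (ρ : PP R (Unit ⊕ κ)) (f : M →ₗ[R] N) {y : M} {x : κ → M} (h : atn ρ y x) :
    atn ρ (f y) (fun i => f (x i)) := by
  have := ρ.ev_map f h
  unfold atn
  convert this using 1
  funext j; rcases j with j | j <;> rfl

theorem atn_add (ρ : PP R (Unit ⊕ κ)) {y y' : M} {x x' : κ → M} (h : atn ρ y x)
    (h' : atn ρ y' x') : atn ρ (y + y') (fun i => x i + x' i) := by
  have := ρ.ev_add h h'
  unfold atn
  convert this using 1
  funext j; rcases j with j | j <;> rfl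

theorem atn_sub (ρ : PP R (Unit ⊕ κ)) {y y' : M} {x x' : κ → M} (h : atn ρ y x)
    (h' : atn ρ y' x') : atn ρ (y - y') (fun i => x i - x' i) := by
  have := ρ.ev_sub h h'
  unfold atn
  convert this using 1
  funext j; rcases j with j | j <;> rfl

end Eval

section Ops
variable {R : Type u} [Ring R]

/-- implication of formulas in all modules -/
def Le (φ ψ : P1 R) : Prop :=
  ∀ (M : Type u) [AddCommGroup M] [Module R M] (a : M), at1 φ a → at1 ψ a

theorem Le.refl (φ : P1 R) : Le φ φ := fun _ _ _ _ h => h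

theorem Le.trans {φ ψ χ : P1 R} (h : Le φ ψ) (h' : Le ψ χ) : Le φ χ :=
  fun M _ _ a ha => h' M a (h M a ha)

/-- the formula `x = x` -/
def topF : P1 R := ⟨0, 0, Fin.elim0, Fin.elim0⟩

/-- the formula `x = 0` -/
def botF : P1 R := ⟨1, 0, fun _ _ => 1, fun _ => Fin.elim0⟩

/-- the sum `θ + η` of two formulas -/
noncomputable def joinF (θ η : P1 R) : P1 R :=
  PP.ex (κ := Unit)
    ((θ.subst (fun _ => Sum.elim (fun _ => 0) (fun _ => 1))).meet
      (η.subst (fun _ => Sum.elim (fun _ => 1) (fun _ => -1))))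

/-- the formula `∃ x (ρ(y; x) ∧ μ(x))` -/
noncomputable def exr (ρ : P2 R) (μ : P1 R) : P1 R :=
  PP.ex (κ := Unit) (ρ.meet (μ.subst (fun _ => Sum.elim (fun _ => 0) (fun _ => 1))))

variable {M : Type u} [AddCommGroup M] [Module R M]

theorem at1_top (a : M) : at1 (topF : P1 R) a :=
  ⟨Fin.elim0, fun i => i.elim0⟩

theorem at1_bot (a : M) : at1 (botF : P1 R) a ↔ a = 0 := by
  unfold at1 botF
  rw [PP.ev_mk]
  simp

theorem at1_meet (θ η : P1 R) (a : M) : at1 (θ.meet η) a ↔ at1 θ a ∧ at1 η a :=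
  PP.ev_meet θ η M _

theorem at1_join (θ η : P1 R) (a : M) :
    at1 (joinF θ η) a ↔ ∃ b c : M, at1 θ b ∧ at1 η c ∧ a = b + c := by
  unfold at1 joinF
  rw [PP.ev_ex]
  simp only [PP.ev_meet, PP.ev_subst, Fintype.sum_sum_type, Sum.elim_inl, Sum.elim_inr,
    Finset.univ_unique, Finset.sum_singleton, zero_smul, one_smul, neg_smul, zero_add]
  constructor
  · rintro ⟨z, h1, h2⟩
    exact ⟨z default, a + -z default, h1, h2, by abel⟩
  · rintro ⟨b, c, h1, h2, rfl⟩
    refine ⟨fun _ => b, h1, ?_⟩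
    convert h2 using 2
    abel

theorem at1_exr (ρ : P2 R) (μ : P1 R) (y : M) :
    at1 (exr ρ μ) y ↔ ∃ x : M, at2 ρ y x ∧ at1 μ x := by
  unfold at1 at2 exr
  rw [PP.ev_ex]
  simp only [PP.ev_meet, PP.ev_subst, Fintype.sum_sum_type, Sum.elim_inl, Sum.elim_inr,
    Finset.univ_unique, Finset.sum_singleton, zero_smul, one_smul, zero_add]
  constructor
  · rintro ⟨z, h1, h2⟩
    refine ⟨z default, ?_, h2⟩
    convert h1
  · rintro ⟨x, h1, h2⟩
    exact ⟨fun _ => x, h1, h2⟩

theorem over_top' (S : Subring R) : (topF : P1 R).Over S :=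
  ⟨fun i => i.elim0, fun i => i.elim0⟩

theorem over_bot (S : Subring R) : (botF : P1 R).Over S :=
  ⟨fun _ _ => S.one_mem, fun _ l => l.elim0⟩

theorem over_join {θ η : P1 R} {S : Subring R} (h : θ.Over S) (h' : η.Over S) :
    (joinF θ η).Over S := by
  refine PP.over_ex (PP.over_meet (PP.over_subst h ?_) (PP.over_subst h' ?_))
  · rintro _ (j | j)
    exacts [S.zero_mem, S.one_mem]
  · rintro _ (j | j)
    exacts [S.one_mem, S.neg_mem S.one_mem]

theorem over_exr {ρ : P2 R} {μ : P1 R} {S : Subring R} (h : ρ.Over S) (h' : μ.Over S) :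
    (exr ρ μ).Over S := by
  refine PP.over_ex (PP.over_meet h (PP.over_subst h' ?_))
  rintro _ (j | j)
  exacts [S.zero_mem, S.one_mem]

theorem le_meet {α θ η : P1 R} (h : Le α θ) (h' : Le α η) : Le α (θ.meet η) :=
  fun M _ _ a ha => (at1_meet θ η a).2 ⟨h M a ha, h' M a ha⟩

theorem meet_le_left (θ η : P1 R) : Le (θ.meet η) θ :=
  fun _ _ _ a ha => ((at1_meet θ η a).1 ha).1

theorem meet_le_right (θ η : P1 R) : Le (θ.meet η) η :=
  fun _ _ _ a ha => ((at1_meet θ η a).1 ha).2

theorem join_le {θ η β : P1 R} (h : Le θ β) (h' : Le η β) : Le (joinF θ η) β := by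
  intro M _ _ a ha
  obtain ⟨b, c, hb, hc, rfl⟩ := (at1_join θ η a).1 ha
  exact at1_add β (h M b hb) (h' M c hc)

theorem le_join_left (θ η : P1 R) : Le θ (joinF θ η) :=
  fun _ _ _ a ha => (at1_join θ η a).2 ⟨a, 0, ha, at1_zero η, (add_zero a).symm⟩

theorem le_join_right (θ η : P1 R) : Le η (joinF θ η) :=
  fun _ _ _ a ha => (at1_join θ η a).2 ⟨0, a, at1_zero θ, ha, (zero_add a).symm⟩

theorem bot_le (θ : P1 R) : Le botF θ := by
  intro M _ _ a ha
  rw [(at1_bot a).1 ha]
  exact at1_zero θ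

theorem le_top (θ : P1 R) : Le θ topF := fun _ _ _ a _ => at1_top a

end Ops

section Mod
variable (R : Type u) [Ring R]

/-- `f` is a pure embedding: it reflects all pp formulas. -/
def PureEmb {R : Type u} [Ring R] {N M : Type u} [AddCommGroup N] [Module R N] [AddCommGroup M]
    [Module R M] (f : N →ₗ[R] M) : Prop :=
  ∀ (n : ℕ) (θ : PP R (Fin n)) (x : Fin n → N), θ.ev M (fun i => f (x i)) → θ.ev N x

/-- `N` is pure-injective: every pure embedding of `N` in a module splits. -/
def PureInj (N : Type u) [AddCommGroup N] [Module R N] : Prop :=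
  ∀ (M : Type u) [AddCommGroup M] [Module R M] (f : N →ₗ[R] M), PureEmb f →
    ∃ g : M →ₗ[R] N, ∀ x, g (f x) = x

/-- `N` is indecomposable: nonzero and without idempotent endomorphisms besides `0`, `1`. -/
def Indec (N : Type u) [AddCommGroup N] [Module R N] : Prop :=
  Nontrivial N ∧ ∀ e : N →ₗ[R] N, (∀ x, e (e x) = e x) → (∀ x, e x = 0) ∨ (∀ x, e x = x)

/-- `N` is (a representative of) a point of the Ziegler spectrum: an indecomposable
pure-injective module. -/
def Point (N : Type u) [AddCommGroup N] [Module R N] : Prop :=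
  PureInj R N ∧ Indec R N

variable {R}

/-- the module `N` is in the basic open set `(φ/ψ)` -/
def Opn (N : Type u) [AddCommGroup N] [Module R N] (φ ψ : P1 R) : Prop :=
  ∃ a : N, at1 φ a ∧ ¬ at1 ψ a

/-- the pair `(φ, ψ)` is closed on `N`: `φ(N) ⊆ ψ(N)` -/
def Cl (N : Type u) [AddCommGroup N] [Module R N] (φ ψ : P1 R) : Prop :=
  ∀ a : N, at1 φ a → at1 ψ a

theorem not_opn {N : Type u} [AddCommGroup N] [Module R N] {φ ψ : P1 R} :
    ¬ Opn N φ ψ ↔ Cl N φ ψ := by
  unfold Opn Cl
  push_neg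
  rfl

theorem not_cl {N : Type u} [AddCommGroup N] [Module R N] {φ ψ : P1 R} :
    ¬ Cl N φ ψ ↔ Opn N φ ψ := by
  rw [← not_opn, not_not]

variable (R)

/-- The point `N` is isolated in the Ziegler spectrum: some basic open set contains `N` and no
other point. -/
def Isol (N : Type u) [AddCommGroup N] [Module R N] : Prop :=
  ∃ φ ψ : P1 R, Opn N φ ψ ∧ ∀ (M : Type u) [AddCommGroup M] [Module R M],
    Point R M → Opn M φ ψ → Nonempty (M ≃ₗ[R] N)

/-- `N` is a point of the first Cantor-Bendixson derivative. -/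
def Der1 (N : Type u) [AddCommGroup N] [Module R N] : Prop :=
  Point R N ∧ ¬ Isol R N

/-- `N` is isolated in the first derivative. -/
def Isol1 (N : Type u) [AddCommGroup N] [Module R N] : Prop :=
  ∃ φ ψ : P1 R, Opn N φ ψ ∧ ∀ (M : Type u) [AddCommGroup M] [Module R M],
    Der1 R M → Opn M φ ψ → Nonempty (M ≃ₗ[R] N)

/-- The Ziegler spectrum has Cantor-Bendixson rank exactly one: the first derivative is nonempty
and the second derivative is empty. -/
def CBRankOne : Prop :=
  (∃ (N : Type u) (_ : AddCommGroup N) (_ : Module R N), Der1 R N) ∧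
    ∀ (N : Type u) [AddCommGroup N] [Module R N], Der1 R N → Isol1 R N

variable {R}

/-- The interval `[a, b]` of the lattice of pp formulas has finite length: for some `n` it has no
strictly increasing chain of `n` steps. -/
def FinLength (a b : P1 R) : Prop :=
  ∃ n : ℕ, ∀ c : ℕ → P1 R, Le a (c 0) → Le (c n) b →
    ¬ ∀ i < n, Le (c i) (c (i + 1)) ∧ ¬ Le (c (i + 1)) (c i)

variable (R)

/-- The lattice of pp formulas in one variable has m-dimension exactly one: it has infinite
length, and after the intervals of finite length are collapsed it has finite length, i.e. for some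
`n` there is no chain `c_0 ≤ ... ≤ c_n` all whose intervals `[c_i, c_{i+1}]` have infinite
length. -/
def MDimOne : Prop :=
  ¬ FinLength (botF : P1 R) topF ∧
    ∃ n : ℕ, ∀ c : ℕ → P1 R, ¬ ∀ i < n, Le (c i) (c (i + 1)) ∧ ¬ FinLength (c i) (c (i + 1))

end Mod

section Aux
variable {R : Type u} [Ring R]

/-- A pp condition with unknowns in `X` and constants in `N`. -/
structure Cond (R : Type u) [Ring R] (X N : Type u) where
  n : ℕ
  θ : PP R (Fin n)
  v : Fin n → X ⊕ N

/-- the condition holds for the values `x` of the unknowns -/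
def Cond.holds {X N : Type u} [AddCommGroup N] [Module R N] (c : Cond R X N) (x : X → N) : Prop :=
  c.θ.ev N (fun i => Sum.elim x id (c.v i))

variable (R)

/-- `N` is algebraically compact -/
def AC (N : Type u) [AddCommGroup N] [Module R N] : Prop :=
  ∀ (X : Type u) (Φ : Set (Cond R X N)),
    (∀ F ⊆ Φ, F.Finite → ∃ x : X → N, ∀ c ∈ F, c.holds x) → ∃ x : X → N, ∀ c ∈ Φ, c.holds x

variable {R}

/-- filters of formulas -/
structure IsFil (p : Set (P1 R)) : Prop where
  top : topF ∈ p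
  meet : ∀ α ∈ p, ∀ β ∈ p, PP.meet α β ∈ p
  up : ∀ α ∈ p, ∀ β, Le α β → β ∈ p

/-- Ziegler's irreducibility criterion -/
def Irr (p : Set (P1 R)) : Prop :=
  ∀ ω₁ ω₂ : P1 R, ω₁ ∉ p → ω₂ ∉ p → ∃ α ∈ p, joinF (α.meet ω₁) (α.meet ω₂) ∉ p

/-- the rule for the pair `(μ, ν)` in the filter `p` -/
def Rule (p : Set (P1 R)) (μ ν : P1 R) : Prop :=
  ∀ (ρ : P2 R) (θ : P1 R),
    (∀ (M : Type u) [AddCommGroup M] [Module R M] (y x : M), at2 ρ y x → at1 ν x → at1 θ y) →
    exr ρ μ ∈ p → θ ∈ p

/-- every homomorphism from `N` that does not enlarge the pp type `p` of `a` is pure -/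
def Rigid (N : Type u) [AddCommGroup N] [Module R N] (p : Set (P1 R)) (a : N) : Prop :=
  ∀ (M : Type u) [AddCommGroup M] [Module R M] (f : N →ₗ[R] M),
    (∀ θ : P1 R, at1 θ (f a) → θ ∈ p) → PureEmb f

/-- the conclusion of Theorem H: `N` is a point with an element `a` of type `p`, rigid, and
closed for all pairs that have the rule -/
structure Hull (p : Set (P1 R)) (N : Type u) [AddCommGroup N] [Module R N] (a : N) : Prop where
  point : Point R N
  ac : AC R N
  type : ∀ θ : P1 R, at1 θ a ↔ θ ∈ p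
  rigid : Rigid N p a
  closed : ∀ μ ν : P1 R, Rule p μ ν → Cl N μ ν

/-- Serre relations -/
structure Serre (r : P1 R → P1 R → Prop) : Prop where
  le : ∀ φ ψ, Le φ ψ → r φ ψ
  trans : ∀ φ ψ χ, r φ ψ → r ψ χ → r φ χ
  meet : ∀ α θ₁ θ₂, r α θ₁ → r α θ₂ → r α (PP.meet θ₁ θ₂)
  join : ∀ β₁ β₂ ψ, r β₁ ψ → r β₂ ψ → r (joinF β₁ β₂) ψ
  exr : ∀ μ ν θ (ρ : P2 R), r μ ν →
    (∀ (M : Type u) [AddCommGroup M] [Module R M] (y x : M), at2 ρ y x → at1 ν x → at1 θ y) →
    r (exr ρ μ) θ

/-- there is a chain from `b` to `t` with `n` jumps of the relation `r` -/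
def Long (r : P1 R → P1 R → Prop) : ℕ → P1 R → P1 R → Prop
  | 0, b, t => Le b t
  | n + 1, b, t => ∃ c d, Long r n b c ∧ Le c d ∧ Le d t ∧ ¬ r d c

/-- the derivative of a relation -/
def der (r : P1 R → P1 R → Prop) (φ ψ : P1 R) : Prop :=
  ∃ n, ¬ Long r n (φ.meet ψ) φ

/-- `φ/ψ` has finite length -/
def R0 : P1 R → P1 R → Prop := der Le

/-- `φ/ψ` has finite length modulo the intervals of finite length -/
def R1 : P1 R → P1 R → Prop := der R0

/-- the pp length of `X` is less than `n`: `X` has no chain of `n` strict inclusions of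
pp-definable subgroups -/
def PLen (n : ℕ) (X : Type u) [AddCommGroup X] [Module R X] : Prop :=
  ∀ θ : ℕ → P1 R, ¬ ∀ i < n, Cl X (θ i) (θ (i + 1)) ∧ Opn X (θ (i + 1)) (θ i)

end Aux

end Pool.ZgCB
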