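import Pool.Agent.Work.MP_d94bda_cb.InterfaceA

/-!
# Block FAR (MP_d94bda_al): the Farkas lemma for pp formulas (helper94)
-/

open scoped BigOperators

namespace Pool.ZgCB

universe u

theorem p_FAR : Stmt_FAR.{u} := by
  classical
  intro R _ ι _ α β h
  set rows : Fin α.m → (ι ⊕ Fin α.k → R) := fun e => Sum.elim (α.A e) (α.B e) with hrows
  set P : Submodule R (ι ⊕ Fin α.k → R) := Submodule.span R (Set.range rows) with hP
  -- decomposition of a vector
  have dec : ∀ v : ι ⊕ Fin α.k → R,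
      ∑ j, v (Sum.inl j) • (Pi.single (Sum.inl j) (1 : R) : ι ⊕ Fin α.k → R) +
        ∑ l, v (Sum.inr l) • (Pi.single (Sum.inr l) (1 : R) : ι ⊕ Fin α.k → R) = v := by
    intro v
    funext t
    rcases t with t | t
    · simp [Finset.sum_apply, Pi.single_apply]
    · simp [Finset.sum_apply, Pi.single_apply]
  have h1 : α.ev ((ι ⊕ Fin α.k → R) ⧸ P)
      (fun j => P.mkQ (Pi.single (Sum.inl j) (1 : R) : ι ⊕ Fin α.k → R)) := by
    refine ⟨fun l => P.mkQ (Pi.single (Sum.inr l) (1 : R) : ι ⊕ Fin α.k → R), fun e => ?_⟩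
    have h2 := dec (rows e)
    have h3 : P.mkQ (rows e) = 0 := by
      rw [Submodule.mkQ_apply, Submodule.Quotient.mk_eq_zero]
      exact Submodule.subset_span ⟨e, rfl⟩
    rw [← h3]
    conv_rhs => rw [← h2]
    simp only [map_add, map_sum, map_smul, hrows, Sum.elim_inl, Sum.elim_inr]
  obtain ⟨y, hy⟩ := h _ _ h1
  choose u hu using fun l => Submodule.mkQ_surjective P (y l)
  have h4 : ∀ i, (∑ j, β.A i j • (Pi.single (Sum.inl j) (1 : R) : ι ⊕ Fin α.k → R) +
      ∑ l, β.B i l • u l) ∈ P := by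
    intro i
    rw [← Submodule.Quotient.mk_eq_zero, ← Submodule.mkQ_apply, ← hy i]
    simp only [map_add, map_sum, map_smul, hu]
  have h5 : ∀ i, ∃ c : Fin α.m → R, ∑ e, c e • rows e =
      ∑ j, β.A i j • (Pi.single (Sum.inl j) (1 : R) : ι ⊕ Fin α.k → R) +
      ∑ l, β.B i l • u l := by
    intro i
    exact (Submodule.mem_span_range_iff_exists_fun R).1 (h4 i)
  choose H hH using h5
  refine ⟨H, fun l j => u l (Sum.inl j), fun l l' => u l (Sum.inr l'), ?_, ?_⟩
  · intro i j
    have h6 := congrFun (hH i) (Sum.inl j)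
    simp only [Finset.sum_apply, Pi.add_apply, Pi.smul_apply, smul_eq_mul, hrows,
      Sum.elim_inl, Pi.single_apply, Sum.inl.injEq, mul_ite, mul_one, mul_zero,
      Finset.sum_ite_eq, Finset.mem_univ, if_true] at h6
    exact h6.symm
  · intro i l'
    have h6 := congrFun (hH i) (Sum.inr l')
    simp only [Finset.sum_apply, Pi.add_apply, Pi.smul_apply, smul_eq_mul, hrows,
      Sum.elim_inr, Pi.single_apply, mul_ite, mul_one, mul_zero, reduceCtorEq, if_false,
      Finset.sum_const_zero, zero_add] at h6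
    exact h6.symm

end Pool.ZgCB
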