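import Pool.Agent.Work.MP_d94bda_cb.InterfaceB

/-! Block FGL (helper58): finitely generated modules over artin algebras have finite pp length. -/

open scoped BigOperators

namespace Pool.ZgCB

universe u

theorem p_FGL : Stmt_FGL.{u} := by
  intro R _ C _ _ _ _ X _ _ hX
  letI : Module C X := Module.compHom X (algebraMap C R)
  haveI : IsScalarTower C R X := IsScalarTower.of_algebraMap_smul fun r x => rfl
  haveI : Module.Finite C X := Module.Finite.trans R X
  have hfl : IsFiniteLength C X :=
    isFiniteLength_iff_isNoetherian_isArtinian.2 ⟨inferInstance, inferInstance⟩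
  have hne := Module.length_ne_top_iff.2 hfl
  obtain ⟨n0, hn0⟩ := ENat.ne_top_iff_exists.1 hne
  refine ⟨n0 + 1, fun θ hθ => ?_⟩
  let L : ℕ → Submodule C X := fun i =>
    { carrier := {a | at1 (θ i) a}
      add_mem' := fun ha hb => at1_add _ ha hb
      zero_mem' := at1_zero _
      smul_mem' := fun c x hx =>
        at1_central _ hx (algebraMap C R c) (fun r => Algebra.commutes c r) }
  have hlt : ∀ i < n0 + 1, L i < L (i + 1) := fun i hi => by
    refine lt_of_le_not_ge (fun a ha => (hθ i hi).1 a ha) (fun h => ?_)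
    obtain ⟨a, h1, h2⟩ := (hθ i hi).2
    exact h2 (h h1)
  let p : LTSeries (Submodule C X) := ⟨n0 + 1, fun i => L i, fun i => hlt i i.2⟩
  have h1 : ((n0 + 1 : ℕ) : WithBot ℕ∞) ≤ Order.krullDim (Submodule C X) :=
    Order.LTSeries.length_le_krullDim p
  rw [← Module.coe_length, ← hn0] at h1
  have h2 : ((n0 + 1 : ℕ) : ℕ∞) ≤ (n0 : ℕ∞) := by exact_mod_cast h1
  have h3 : n0 + 1 ≤ n0 := by exact_mod_cast h2
  omega

end Pool.ZgCB
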