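import Pool.Agent.Work.MP_d94bda_cb.InterfaceB

/-! # Block FGS: an indecomposable open summand (typed by helper49) -/

namespace Pool.ZgCB

universe u

/-- minimality forces an idempotent that keeps the pair open to be the identity -/
theorem FGS_key {R : Type u} [Ring R] {Z : Type u} [AddCommGroup Z] [Module R Z] {φ ψ : P1 R}
    (e : Z →ₗ[R] Z) (he : ∀ x, e (e x) = e x)
    (hmin : ∀ e' : Z →ₗ[R] Z, (∀ x, e' (e' x) = e' x) → Opn (LinearMap.range e') φ ψ →
      ¬ LinearMap.range e' < LinearMap.range e)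
    (a : LinearMap.range e) (ha : at1 φ a)
    (δ : LinearMap.range e →ₗ[R] LinearMap.range e) (hδ : ∀ x, δ (δ x) = δ x)
    (hna : ¬ at1 ψ (δ a)) : ∀ x, δ x = x := by
  have her : ∀ y : LinearMap.range e, e.rangeRestrict (y : Z) = y := by
    rintro ⟨y, ⟨z, rfl⟩⟩
    exact Subtype.ext (he z)
  let e' : Z →ₗ[R] Z := (LinearMap.range e).subtype ∘ₗ (δ ∘ₗ e.rangeRestrict)
  have he'a : ∀ x, e' x = ((δ (e.rangeRestrict x) : LinearMap.range e) : Z) := fun x => rfl
  have he' : ∀ x, e' (e' x) = e' x := by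
    intro x
    rw [he'a x, he'a, her, hδ]
  have hle : LinearMap.range e' ≤ LinearMap.range e := by
    rintro _ ⟨x, rfl⟩
    exact (δ (e.rangeRestrict x)).2
  have hopn : Opn (LinearMap.range e') φ ψ := by
    refine ⟨e'.rangeRestrict (a : Z), ?_, fun h => hna ?_⟩
    · exact at1_map φ (e'.rangeRestrict ∘ₗ (LinearMap.range e).subtype) ha
    · have h1 := at1_map ψ (Submodule.inclusion hle) h
      have h2 : Submodule.inclusion hle (e'.rangeRestrict (a : Z)) = δ a := by
        refine Subtype.ext ?_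
        change e' (a : Z) = _
        rw [he'a, her]
      rwa [h2] at h1
  have heq : LinearMap.range e' = LinearMap.range e :=
    (eq_or_lt_of_le hle).resolve_right (hmin e' he' hopn)
  intro x
  have hx : (x : Z) ∈ LinearMap.range e' := by rw [heq]; exact x.2
  obtain ⟨z, hz⟩ := hx
  have h3 : x = δ (e.rangeRestrict z) := Subtype.ext (by rw [← hz, he'a])
  rw [h3, hδ]

theorem p_FGS : Stmt_FGS.{u} := by
  intro R _ C _ _ _ _ Z _ _ φ ψ hfin hopn
  have hR : IsArtinianRing R := IsArtinianRing.of_finite C R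
  have hZ : IsArtinian R Z := isArtinian_of_fg_of_artinian'
  let S : Set (Submodule R Z) := {L | ∃ e : Z →ₗ[R] Z, (∀ x, e (e x) = e x) ∧
    LinearMap.range e = L ∧ Opn L φ ψ}
  have hne : S.Nonempty := by
    refine ⟨⊤, LinearMap.id, fun x => rfl, LinearMap.range_id, ?_⟩
    obtain ⟨a, ha, hna⟩ := hopn
    refine ⟨⟨a, trivial⟩, ?_, fun h => hna ?_⟩
    · exact at1_map φ (Submodule.topEquiv (R := R) (M := Z)).symm.toLinearMap ha
    · exact at1_map ψ (⊤ : Submodule R Z).subtype h
  obtain ⟨L, ⟨e, he, hL, hLo⟩, hLmin⟩ := IsArtinian.set_has_minimal S hne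
  subst hL
  have hmin : ∀ e' : Z →ₗ[R] Z, (∀ x, e' (e' x) = e' x) → Opn (LinearMap.range e') φ ψ →
      ¬ LinearMap.range e' < LinearMap.range e :=
    fun e' he' h => hLmin _ ⟨e', he', rfl, h⟩
  refine ⟨LinearMap.range e, inferInstance, inferInstance, ?_, ?_, hLo⟩
  · exact Module.Finite.of_surjective e.rangeRestrict e.surjective_rangeRestrict
  · obtain ⟨a, ha, hna⟩ := hLo
    refine ⟨⟨a, 0, fun h => hna (by rw [h]; exact at1_zero ψ)⟩, fun ε hε => ?_⟩
    by_cases h : at1 ψ (ε a)
    · left
      have h1 : ¬ at1 ψ (((LinearMap.id - ε : LinearMap.range e →ₗ[R] LinearMap.range e)) a) := by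
        intro h2
        apply hna
        have h3 := at1_add ψ h h2
        simpa using h3
      have h2 := FGS_key e he hmin a ha (LinearMap.id - ε) (fun x => by
        simp only [LinearMap.sub_apply, LinearMap.id_apply, map_sub, hε]
        abel) h1
      intro x
      have h3 := h2 x
      simpa using h3
    · right
      exact FGS_key e he hmin a ha ε hε h

end Pool.ZgCB
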