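import Pool.Agent.Work.MP_d94bda_cb.InterfaceB

/-!
# Block `FIN`: a pair of finite length is open on finitely many members of a sequence
-/

set_option autoImplicit false

open scoped BigOperators

namespace Pool.ZgCB

universe u

theorem p_FIN (hMIN : Stmt_MIN.{u}) (hLMO : Stmt_LMO.{u}) : Stmt_FIN.{u} := by
  intro R _ φ ψ hφψ X _ _ hX hne
  obtain ⟨-, -, -, -, hstep, -⟩ := hLMO R (Le : P1 R → P1 R → Prop)
  have key : ∀ (n : ℕ) (b t : P1 R), Le b t → ¬ Long Le n b t →
      {j | Opn (X j) t b}.Finite := by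
    intro n
    induction n with
    | zero =>
      intro b t h h'
      exact absurd h h'
    | succ n ih =>
      intro b t hbt hL
      by_cases htb : Le t b
      · have h0 : {j | Opn (X j) t b} = ∅ := by
          rw [Set.eq_empty_iff_forall_notMem]
          rintro j ⟨a, ha, hna⟩
          exact hna (htb (X j) a ha)
        rw [h0]
        exact Set.finite_empty
      · by_cases hmin : ∀ θ, Le b θ → Le θ t → Le θ b ∨ Le t θ
        · refine Set.Subsingleton.finite ?_
          intro i hi j hj
          by_contra hij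
          exact hne i j hij (hMIN R b t ⟨hbt, htb, hmin⟩ (X i) (X j) (hX i) (hX j) hi hj)
        · push Not at hmin
          obtain ⟨θ, h1, h2, h3, h4⟩ := hmin
          have h5 : ¬ Long Le n b θ := fun h => hL ⟨θ, t, h, h2, Le.refl t, h4⟩
          have h6 : ¬ Long Le n θ t := fun h => hL (hstep n b θ t h1 h3 h)
          refine ((ih θ t h2 h6).union (ih b θ h1 h5)).subset ?_
          rintro j ⟨a, ha, hna⟩
          by_cases hθ : at1 θ a
          · exact Or.inr ⟨a, hθ, hna⟩
          · exact Or.inl ⟨a, ha, hθ⟩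
  obtain ⟨n, hn⟩ := hφψ
  refine (key n (φ.meet ψ) φ (meet_le_left φ ψ) hn).subset ?_
  rintro j ⟨a, ha, hna⟩
  exact ⟨a, ha, fun h => hna ((at1_meet φ ψ a).1 h).2⟩

end Pool.ZgCB
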