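import Pool.Agent.Work.MP_d94bda_cb.Defs

/-!
# MP_d94bda_al, THEOREM Z, interface part A: general model theory of modules, Serre relations

Every block `X` is the statement `Stmt_X`; prove `theorem p_X (hyp : Stmt_Y) ... : Stmt_X` in the
file `X.lean` (hypotheses = the blocks of the column `uses`, in that order).
All modules are left modules in the universe `u` of the ring.
-/

open scoped BigOperators

namespace Pool.ZgCB

universe u

/-! ### algebraic compactness -/

/-- the circle -/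
abbrev Circ := AddCircle (1 : ℝ)

/-- the bidual `Hom(Hom(M, ℝ/ℤ), ℝ/ℤ)`, a left `R`-module -/
def Bid (R : Type u) [Ring R] (M : Type u) [AddCommGroup M] [Module R M] : Type u :=
  (M →+ Circ) →+ Circ

noncomputable instance (R : Type u) [Ring R] (M : Type u) [AddCommGroup M] [Module R M] :
    AddCommGroup (Bid R M) := inferInstanceAs (AddCommGroup ((M →+ Circ) →+ Circ))

/-- the left action of `R` on the bidual, on the level of homomorphisms -/
noncomputable def bidSmul {R : Type u} [Ring R] {M : Type u} [AddCommGroup M] [Module R M]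
    (r : R) (F : (M →+ Circ) →+ Circ) : (M →+ Circ) →+ Circ :=
  F.comp (AddMonoidHom.compHom' (DistribSMul.toAddMonoidHom M r))

theorem bidSmul_apply {R : Type u} [Ring R] {M : Type u} [AddCommGroup M] [Module R M]
    (r : R) (F : (M →+ Circ) →+ Circ) (f : M →+ Circ) :
    bidSmul r F f = F (f.comp (DistribSMul.toAddMonoidHom M r)) := rfl

theorem bidSmul_one {R : Type u} [Ring R] {M : Type u} [AddCommGroup M] [Module R M]
    (F : (M →+ Circ) →+ Circ) : bidSmul (1 : R) F = F := by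
  refine AddMonoidHom.ext fun f => ?_
  rw [bidSmul_apply]
  congr 1
  ext x
  simp

theorem bidSmul_mul {R : Type u} [Ring R] {M : Type u} [AddCommGroup M] [Module R M]
    (r s : R) (F : (M →+ Circ) →+ Circ) : bidSmul (r * s) F = bidSmul r (bidSmul s F) := by
  refine AddMonoidHom.ext fun f => ?_
  rw [bidSmul_apply, bidSmul_apply, bidSmul_apply]
  congr 1
  ext x
  simp [mul_smul]

theorem bidSmul_add {R : Type u} [Ring R] {M : Type u} [AddCommGroup M] [Module R M]
    (r s : R) (F : (M →+ Circ) →+ Circ) : bidSmul (r + s) F = bidSmul r F + bidSmul s F := by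
  refine AddMonoidHom.ext fun f => ?_
  rw [AddMonoidHom.add_apply, bidSmul_apply, bidSmul_apply, bidSmul_apply, ← map_add]
  congr 1
  ext x
  simp [add_smul]

theorem bidSmul_zero {R : Type u} [Ring R] {M : Type u} [AddCommGroup M] [Module R M]
    (F : (M →+ Circ) →+ Circ) : bidSmul (0 : R) F = 0 := by
  refine AddMonoidHom.ext fun f => ?_
  rw [bidSmul_apply, AddMonoidHom.zero_apply]
  refine Eq.trans (congrArg F ?_) (map_zero F)
  ext x
  simp

noncomputable instance (R : Type u) [Ring R] (M : Type u) [AddCommGroup M] [Module R M] :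
    Module R (Bid R M) where
  smul r F := (bidSmul r F : (M →+ Circ) →+ Circ)
  one_smul F := bidSmul_one F
  mul_smul r s F := bidSmul_mul r s F
  smul_zero r := AddMonoidHom.ext fun _ => rfl
  smul_add r F G := AddMonoidHom.ext fun _ => rfl
  add_smul r s F := bidSmul_add r s F
  zero_smul F := bidSmul_zero F

theorem Bid.smul_def (R : Type u) [Ring R] (M : Type u) [AddCommGroup M] [Module R M] (r : R)
    (F : Bid R M) : (r • F : Bid R M) = (bidSmul r F : (M →+ Circ) →+ Circ) := rfl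

/-- the evaluation map `M → Bid M` -/
noncomputable def bidEmb (R : Type u) [Ring R] (M : Type u) [AddCommGroup M] [Module R M] :
    M →ₗ[R] Bid R M where
  toFun m := (AddMonoidHom.eval m : (M →+ Circ) →+ Circ)
  map_add' x y := AddMonoidHom.ext fun f => map_add f x y
  map_smul' r x := AddMonoidHom.ext fun f => rfl

theorem bidEmb_def (R : Type u) [Ring R] (M : Type u) [AddCommGroup M] [Module R M] (m : M) :
    bidEmb R M m = (AddMonoidHom.eval m : (M →+ Circ) →+ Circ) := rfl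

/-- CIR (60 lines). The circle `ℝ/ℤ` separates points from subgroups. PROOF: in `G ⧸ H` the class
of `g` is not `0`; Mathlib has `CharacterModule (G ⧸ H) = (G ⧸ H) →+ AddCircle (1 : ℚ)` and
`CharacterModule.exists_character_apply_ne_zero_of_ne_zero`; compose with the injective
homomorphism `AddCircle (1 : ℚ) →+ AddCircle (1 : ℝ)` induced by the cast `ℚ → ℝ`
(`QuotientAddGroup.map`; injective: if `(q : ℝ)` is an integer multiple of `1` then so is `q`). -/
def Stmt_CIR : Prop :=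
  ∀ (G : Type u) [AddCommGroup G] (H : AddSubgroup G) (g : G), g ∉ H →
    ∃ f : G →+ Circ, (∀ h ∈ H, f h = 0) ∧ f g ≠ 0

/-- BPU (100 lines, uses CIR). `M → Bid M` is a pure embedding. PROOF: let
`θ = (m, k, A, B)`, `x : Fin n → M`, and let `Y_l ∈ Bid M` with
`∑_j A i j • ev(x_j) + ∑_l B i l • Y_l = 0` for all `i`. Suppose `θ(x)` fails in `M`: the vector
`g = (∑_j A i j • x_j)_i ∈ G = (Fin m → M)` is not in the subgroup
`H = {(∑_l B i l • y_l)_i : y : Fin k → M}` (otherwise replace `y` by `-y`). By CIR there is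
`f : G →+ Circ`, zero on `H`, with `f g ≠ 0`; write `f = ∑_i f_i(component i)`,
`f_i = f.comp (AddMonoidHom.single ..) ∈ (M →+ Circ)`. Zero on `H` means that for all `l`
`∑_i f_i.comp (B i l •) = 0` in `M →+ Circ`. Apply the `i`-th equation to `f_i` (`Bid.smul_def`, `bidSmul_apply`)
and sum over `i`: `0 = ∑_i ∑_j f_i(A i j • x_j) + ∑_l Y_l(∑_i f_i.comp(B i l •)) = f g + 0`.
Contradiction. -/
def Stmt_BPU : Prop :=
  ∀ (R : Type u) [Ring R] (M : Type u) [AddCommGroup M] [Module R M], PureEmb (bidEmb R M)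

/-- BAC (180 lines). `Bid M` is algebraically compact. PROOF (Tychonoff): put on `E = Bid M` the
topology induced by `E → ((M →+ Circ) → Circ)` (coercion to functions, product topology). `E` is
compact and Hausdorff (the additive functions are closed in the compact Hausdorff product), addition
and negation are continuous, every `r • ·` is continuous (its value at `f` is a value of `F`). For
a condition `c` the set `{x : X → E | c.holds x}` is closed: it is the image under the projection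
`(X → E) × (Fin k → E) → (X → E)` of the closed (so compact) set defined by the finitely many
equations (finite sums of continuous functions; `Sum.elim x id (c.v i)` is a coordinate of `x` or a
constant). The family of these closed sets has the finite intersection property in the compact
space `X → E`, so the intersection is not empty (`IsCompact.inter_iInter_nonempty` or
`CompactSpace.iInter_nonempty`). -/
def Stmt_BAC : Prop :=
  ∀ (R : Type u) [Ring R] (M : Type u) [AddCommGroup M] [Module R M], AC R (Bid R M)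

/-- RET (50 lines). A retract of an algebraically compact module is algebraically compact. PROOF:
given `Φ` over `N`, replace every condition `(n, θ, v)` by `(n, θ, v')`, constants `c` replaced by
`i c`. A solution `x` in `N` gives the solution `i ∘ x` in `E` (`PP.ev_map`), so the new system is
finitely satisfiable in `E`; a solution `x` in `E` gives the solution `g ∘ x` in `N`. -/
def Stmt_RET : Prop :=
  ∀ (R : Type u) [Ring R] (E N : Type u) [AddCommGroup E] [Module R E] [AddCommGroup N]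
    [Module R N] (i : N →ₗ[R] E) (g : E →ₗ[R] N), (∀ x, g (i x) = x) → AC R E → AC R N

/-- EXT (150 lines). Extension lemma. PROOF: apply `AC` with unknowns `X' = A` and the following
conditions `Φ`: (add) for `s t : A` the condition `x_s + x_t - x_{s+t} = 0`; (smul) for `r : R`,
`s : A` the condition `r x_s - x_{r s} = 0`; (val) for `z : X` the condition `x_{a z} - b z = 0`
(constant `b z`). A solution is a linear map `f` with `f (a z) = b z`. Finite satisfiability: given a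
finite `F ⊆ Φ` choose a finite list of `z_1..z_n : X` (`v : Fin n → X`) that contains all `z` of the
conditions (val) in `F`, and a finite list of elements `t_1..t_k` of `A` that contains all elements
of `A` that occur in `F`. Consider the formula `θ(w_1..w_n)`: there are `(x_{t_j})_j` which satisfy
all equations in `F` with `b z_i` replaced by `w_i` (an existential formula over finitely many
linear equations: use `Dfn.ex`, `Dfn.all`, `Dfn.lin`, `Dfn.reidx`, or write the matrices). It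
holds in `A` at `(a z_i)` with `x_t = t`, hence in `N` at `(b z_i)` by hypothesis, which gives
values `x_{t_j}`; put `x = 0` at the other elements of `A`. (If an element occurs
several times in the list it is better to index the existential variables by the elements of a
`Finset A`, via `Fintype.equivFin`, i.e. `Fin k ≃ {t // t ∈ T}`.) -/
def Stmt_EXT : Prop :=
  ∀ (R : Type u) [Ring R] (A N : Type u) [AddCommGroup A] [Module R A] [AddCommGroup N]
    [Module R N], AC R N → ∀ (X : Type u) (a : X → A) (b : X → N),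
    (∀ (n : ℕ) (θ : PP R (Fin n)) (v : Fin n → X),
      θ.ev A (fun i => a (v i)) → θ.ev N (fun i => b (v i))) →
    ∃ f : A →ₗ[R] N, ∀ z, f (a z) = b z

/-- PIA (40 lines, uses BPU, BAC, RET, EXT). `PureInj ↔ AC`. PROOF: if `N` is pure-injective then
`bidEmb : N → Bid N` splits (BPU), so `N` is a retract of `Bid N`, which is `AC` (BAC): RET.
Conversely `AC N` and `f : N → M` pure: EXT with `A = M`, `X = N`, `a = f`, `b = id`. -/
def Stmt_PIA : Prop :=
  ∀ (R : Type u) [Ring R] (N : Type u) [AddCommGroup N] [Module R N], PureInj R N ↔ AC R N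

/-! ### formulas -/

/-- FRE (80 lines). Free realization. PROOF: `Z = (ι ⊕ Fin k → R) ⧸ span (rows)`, rows
`Sum.elim (A i) (B i)`, `c j` = class of `Pi.single (inl j) 1`, witnesses = classes of
`Pi.single (inr l) 1`. Given `x` and witnesses `y` in `M`, the map
`v ↦ ∑_j v (inl j) • x_j + ∑_l v (inr l) • y_l` kills the rows. -/
def Stmt_FRE : Prop :=
  ∀ (R : Type u) [Ring R] (ι : Type) [Fintype ι] (θ : PP R ι),
    ∃ (Z : Type u) (_ : AddCommGroup Z) (_ : Module R Z) (c : ι → Z), Module.Finite R Z ∧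
      θ.ev Z c ∧ ∀ (M : Type u) [AddCommGroup M] [Module R M] (x : ι → M), θ.ev M x →
        ∃ f : Z →ₗ[R] M, ∀ i, f (c i) = x i

/-- FAR (100 lines). Farkas lemma: the implication `α ≤ β` is a matrix identity. PROOF: take
`Z = (ι ⊕ Fin α.k → R) ⧸ P`, `P` = span of the rows `Sum.elim (α.A e) (α.B e)`, and
`c j` = class of `e_{inl j}`. `α` holds at `c`, so `β` holds: there are `y_l ∈ Z`, classes of vectors
`(V l, W l)`, and for every `i` the vector
`e ↦ [inl j ↦ β.A i j + ∑_l β.B i l * V l j, inr l' ↦ ∑_l β.B i l * W l l']` is in `P`, i.e. it is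
`∑_e H i e • row_e`. -/
def Stmt_FAR : Prop :=
  ∀ (R : Type u) [Ring R] (ι : Type) [Fintype ι] (α β : PP R ι),
    (∀ (M : Type u) [AddCommGroup M] [Module R M] (x : ι → M), α.ev M x → β.ev M x) →
    ∃ (H : Fin β.m → Fin α.m → R) (V : Fin β.k → ι → R) (W : Fin β.k → Fin α.k → R),
      (∀ i j, β.A i j + ∑ l, β.B i l * V l j = ∑ e, H i e * α.A e j) ∧
      (∀ i l', ∑ l, β.B i l * W l l' = ∑ e, H i e * α.B e l')

/-- REA (100 lines, uses FRE). Every filter `p` of formulas is the pp type of an element. PROOF: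
for `α ∈ p` let `Z_α`, `c_α` be the free realization (FRE with `ι = Unit`, `c_α = c ()`);
`θ(c_α)` holds iff `α ≤ θ`. Reduced product: `P = ∏_{α : p} Z_α`, submodule
`K = {z | ∃ α ∈ p, ∀ β ∈ p, β ≤ α → z_β = 0}` (closed under addition because `p` is closed under
`meet`), `M = P ⧸ K`, `a` = class of `(c_α)`. If `θ ∈ p`: for `β ≤ θ` choose witnesses in `Z_β` and
`0` for the other `β`: so `θ(a)`. If `θ(a)`: lift the witnesses to `P`; the finitely many equations
hold in `Z_β` for all `β ≤ α` (for one `α ∈ p`: take the meet of finitely many), so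
`θ(c_α)` holds in `Z_α`, `α ≤ θ`, `θ ∈ p`. -/
def Stmt_REA : Prop :=
  ∀ (R : Type u) [Ring R] (p : Set (P1 R)), IsFil p →
    ∃ (M : Type u) (_ : AddCommGroup M) (_ : Module R M) (a : M),
      ∀ θ : P1 R, at1 θ a ↔ θ ∈ p

/-! ### Theorem H: rigid hulls -/

/-- HZ (150 lines). PROOF: let `T = {e : E →ₗ E // e a = a}` with the preorder `e ≼ e'` iff for all
`n θ x`: `θ.ev E (e ∘ x) → θ.ev E (e' ∘ x)`. Chains have upper bounds: for the empty chain take `id`;
for a nonempty chain `c` apply `AC` with unknowns `X = E` and the conditions: all `(n, θ, inl ∘ x)`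
such that `θ.ev E (e ∘ x)` for some `e ∈ c`, and the condition `x_a = a` (formula `w_0 - w_1 = 0` with
`w_0` the unknown `a` and `w_1` the constant `a`). A finite subset is satisfied by one `e ∈ c` (the
largest of finitely many; `≼` is transitive). The solution `x : E → E` is linear because
`w_0 + w_1 - w_2 = 0` at `(s, t, s+t)` and `r w_0 - w_1 = 0` at `(s, r s)` hold for every `e`. By
Zorn (`exists_maximal_of_chains_bounded`) there is a maximal `e`. If `g a = a` then
`e ≼ g ∘ e` (`PP.ev_map`), so `g ∘ e ≼ e`: the claim. -/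
def Stmt_HZ : Prop :=
  ∀ (R : Type u) [Ring R] (E : Type u) [AddCommGroup E] [Module R E], AC R E → ∀ a : E,
    ∃ e : E →ₗ[R] E, e a = a ∧ ∀ g : E →ₗ[R] E, g a = a →
      ∀ (n : ℕ) (θ : PP R (Fin n)) (x : Fin n → E),
        θ.ev E (fun i => g (e (x i))) → θ.ev E (fun i => e (x i))

/-- HN (150 lines, uses HZ, EXT, RET). PROOF: `e` from HZ. Call a submodule `L` of `E` good if
`range e ≤ L` and for all `g` with `g a = a`, all `n θ` and `x : Fin n → L`:
`θ.ev E (g ∘ x) → θ.ev E x`. `range e` is good (HZ; write `x_i = e z_i`). Good submodules are closed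
under unions of nonempty chains (a finite tuple lies in one member). Let `L` be a maximal good
submodule (Zorn). `a = e a ∈ L`. EXT with `A = N := E`, `X = L` (subtype), families `e ∘ incl` and
`incl` (hypothesis: good, with `g = e`): `h : E → E` with `h (e x) = x` on `L`; in particular
`h a = h (e a) = a`. `π = h ∘ e`: `π x = x` on `L`, so `L ≤ range π`, and `range π` is good: if
`θ.ev E (g ∘ π ∘ z)`, then by HZ for `g ∘ h` (it fixes `a`) `θ.ev E (e ∘ z)`, so `θ.ev E (h ∘ e ∘ z)`.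
By maximality `range π = L`, so `π ∘ π = π`. Take `N = range π` (as a module),
`a0 = ⟨a, _⟩`, inclusion `i` and retraction `π`: `AC` by RET; types agree (`PP.ev_of_retract`). If
`h' : N → N` fixes `a0` then `g = i ∘ h' ∘ π` fixes `a`; if `θ.ev N (h' ∘ x)` then
`θ.ev E (i ∘ h' ∘ x) = θ.ev E (g ∘ i ∘ x)`, so `θ.ev E (i ∘ x)` (good), so `θ.ev N x`. -/
def Stmt_HN : Prop :=
  ∀ (R : Type u) [Ring R] (E : Type u) [AddCommGroup E] [Module R E], AC R E → ∀ a : E,
    ∃ (N : Type u) (_ : AddCommGroup N) (_ : Module R N) (a0 : N), AC R N ∧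
      (∀ θ : P1 R, at1 θ a0 ↔ at1 θ a) ∧ ∀ h : N →ₗ[R] N, h a0 = a0 → PureEmb h

/-- HR (40 lines, uses EXT). PROOF: let `f : N → M` with `at1 θ (f a) → θ ∈ p`. EXT for
`A = M`, `X = PUnit`, families `f a` and `a`: the hypothesis for `(n, θ, v)` is about the constant
tuple: reindex `θ` to the formula `θ'(z) = θ(z, ..., z)` in `Unit` (`Dfn.reidx` with
`f : Fin n → Unit`). So `g : M → N` with `g (f a) = a`. `h = g ∘ f` fixes `a`, so it is pure; if
`θ.ev M (f ∘ x)` then `θ.ev N (g ∘ f ∘ x)` then `θ.ev N x`. -/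
def Stmt_HR : Prop :=
  ∀ (R : Type u) [Ring R] (N : Type u) [AddCommGroup N] [Module R N] (p : Set (P1 R)) (a : N),
    AC R N → (∀ θ : P1 R, at1 θ a ↔ θ ∈ p) → (∀ h : N →ₗ[R] N, h a = a → PureEmb h) →
    Rigid N p a

/-- HI (90 lines). PROOF: `a ≠ 0` because `botF ∉ p`: nontrivial. Let `e` be idempotent,
`a1 = e a`, `a2 = a - e a`. If all formulas true at `a1` are in `p` then `e` is pure by `Rigid`, so
injective (apply purity to the formula `x = 0`), and `e (e x - x) = 0` gives `e x = x`. If all formulas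
true at `a2` are in `p` then `1 - e` is pure, injective, `(1 - e)(e x) = 0` gives `e x = 0`. Otherwise
take `ω₁, ω₂ ∉ p` true at `a1`, `a2`, and `α ∈ p` from `Irr`: `α` is true at `a`, so at `a1`
(`at1_map`) and at `a2`; so `joinF (α ∧ ω₁) (α ∧ ω₂)` is true at `a = a1 + a2`, so in `p`:
contradiction. -/
def Stmt_HI : Prop :=
  ∀ (R : Type u) [Ring R] (N : Type u) [AddCommGroup N] [Module R N] (p : Set (P1 R)) (a : N),
    (∀ θ : P1 R, at1 θ a ↔ θ ∈ p) → (botF : P1 R) ∉ p → Irr p → Rigid N p a → Indec R N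

/-- HS (130 lines, uses FRE). PROOF: let `t ∈ N` with `μ(t)` and not `ν(t)`. `Z`, `z` the free
realization of `ν` (FRE, `ι = Unit`, `z = c ()`). `N' = (N × Z) ⧸ span {(t, -z)}`,
`f : N → N'`, `n ↦ [(n, 0)]`. In `N'` `[(t,0)] = [(0,z)]`, so `ν` holds at `f t`; if `f` were pure
then `ν(t)`; so `f` is not pure and by `Rigid` there is `θ ∉ p` with `θ` true at `f a`. Write
`θ = (m, k, A, B)`, witnesses `[(n_l, z_l)]`: for every `i` there is `r_i` with
`A i • a + ∑_l B i l • n_l = r_i • t` and `∑_l B i l • z_l = - r_i • z`. Let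
`ρ(y; x)` be the formula `∃ w, ⋀_i A i y + ∑_l B i l w_l - r_i x = 0`. Then `ρ(a; t)`, and for all
`M`, `ρ(y; x)` and `ν(x)` imply `θ(y)`: take `g : Z → M`, `g z = x`; the witnesses `w_l + g(z_l)`
work. So `exr ρ μ` is true at `a`, in `p`, and `Rule p μ ν` gives `θ ∈ p`: contradiction. -/
def Stmt_HS : Prop :=
  ∀ (R : Type u) [Ring R] (N : Type u) [AddCommGroup N] [Module R N] (p : Set (P1 R)) (a : N),
    (∀ θ : P1 R, at1 θ a ↔ θ ∈ p) → Rigid N p a →
    ∀ μ ν : P1 R, Rule p μ ν → Cl N μ ν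

/-- THH (40 lines, uses REA, BPU, BAC, PIA, HN, HR, HI, HS). PROOF: REA gives `M`, `a`;
`E = Bid R M`, `bidEmb a` has the same type (`PP.ev_map`, purity; formulas in `Unit` are converted to
`Fin 1` with `Dfn.reidx`), `AC` by BAC; HN, HR, HI, HS, PIA. -/
def Stmt_THH : Prop :=
  ∀ (R : Type u) [Ring R] (p : Set (P1 R)), IsFil p → (botF : P1 R) ∉ p → Irr p →
    ∃ (N : Type u) (_ : AddCommGroup N) (_ : Module R N) (a : N), Hull p N a

/-- MXF (80 lines). Maximal filters. PROOF: Zorn for the sets `p` of formulas with `IsFil p`,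
`r`-closed, `φ ∈ p`, `ψ ∉ p`, ordered by inclusion; `{θ | r φ θ}` is one; unions of nonempty chains
are again such sets. Let `p` be maximal and `ω ∉ p`. The set
`q = {θ | ∃ α ∈ p, r (α ∧ ω) θ}` is a filter (closed under meets: `r ((α₁ ∧ α₂) ∧ ω) θ_i` by
`Serre.le`, `Serre.trans`, then `Serre.meet`), `r`-closed, contains `p` and `ω`. If `ψ ∉ q` then
`q = p` by maximality, contradiction with `ω ∈ q`. So `ψ ∈ q`. -/
def Stmt_MXF : Prop :=
  ∀ (R : Type u) [Ring R] (r : P1 R → P1 R → Prop), Serre r → ∀ φ ψ : P1 R, ¬ r φ ψ →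
    ∃ p : Set (P1 R), IsFil p ∧ φ ∈ p ∧ ψ ∉ p ∧ (∀ α ∈ p, ∀ β, r α β → β ∈ p) ∧
      ∀ ω, ω ∉ p → ∃ α ∈ p, r (α.meet ω) ψ

/-- THA (60 lines, uses MXF, THH). Theorem A. PROOF: `p` from MXF. `botF ∉ p`
(`botF ≤ ψ`). `Irr p`: `ω₁, ω₂ ∉ p`, `α_i ∈ p` with `r (α_i ∧ ω_i) ψ`, `α = α₁ ∧ α₂`:
`r (α ∧ ω_i) ψ`, so `r (joinF ..) ψ` by `Serre.join`; if the join were in `p` then `ψ ∈ p`.
`Rule p μ ν` for `r μ ν`: `r (exr ρ μ) θ` by `Serre.exr`, `p` is `r`-closed. THH gives `N`, `a`;
`φ(a)`, not `ψ(a)`. -/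
def Stmt_THA : Prop :=
  ∀ (R : Type u) [Ring R] (r : P1 R → P1 R → Prop), Serre r → ∀ φ ψ : P1 R, ¬ r φ ψ →
    ∃ (N : Type u) (_ : AddCommGroup N) (_ : Module R N), Point R N ∧ Opn N φ ψ ∧
      ∀ μ ν : P1 R, r μ ν → Cl N μ ν

/-! ### Serre relations -/

/-- SLE (30 lines). -/
def Stmt_SLE : Prop := ∀ (R : Type u) [Ring R], Serre (Le : P1 R → P1 R → Prop)

/-- SFM (50 lines). PROOF: each axiom holds for `fun φ ψ => Cl (X j) φ ψ` for a single module
`X j` (pointwise, `at1_meet`, `at1_join`, `at1_exr`), and for almost all `j` is preserved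
(`Filter.Eventually.and`, `.mono`). -/
def Stmt_SFM : Prop :=
  ∀ (R : Type u) [Ring R] (J : Type) (F : Filter J) (X : J → Type u)
    [∀ j, AddCommGroup (X j)] [∀ j, Module R (X j)],
    Serre (fun φ ψ : P1 R => ∀ᶠ j in F, Cl (X j) φ ψ)

/-- LMO (90 lines). Elementary facts about `Long`, all by induction on `n` (the last one uses
`Serre.le`: if `b ≤ c ≤ d ≤ t ≤ b` then `d ≤ c`). -/
def Stmt_LMO : Prop :=
  ∀ (R : Type u) [Ring R] (r : P1 R → P1 R → Prop),
    (∀ (n : ℕ) (b t b' t' : P1 R), Le b' b → Le t t' → Long r n b t → Long r n b' t') ∧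
    (∀ (n : ℕ) (b t : P1 R), Long r n b t → Le b t) ∧
    (∀ (n : ℕ) (b t : P1 R), Long r (n + 1) b t → Long r n b t) ∧
    (∀ (n m : ℕ) (b t : P1 R), m ≤ n → Long r n b t → Long r m b t) ∧
    (∀ (n : ℕ) (b c t : P1 R), Le b c → ¬ r c b → Long r n c t → Long r (n + 1) b t) ∧
    (Serre r → ∀ (n : ℕ) (b t : P1 R), Long r (n + 1) b t → ¬ Le t b)

/-- LSP (80 lines, uses LMO). Splitting a chain with a formula `β`. PROOF: induction on `n`. For
`n + 1`: `c ≤ d ≤ t`, `¬ r d c`, and by induction `n₁ + n₂ = n` for `(b, c)`. CLAIM: `¬ r (d ∧ β)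
(c ∧ β)` or `¬ r (d + β) (c + β)`: otherwise `r d ((c + β) ∧ d)` (`d ≤ d + β`, `Serre.meet`) and
`(c + β) ∧ d ≤ c + (d ∧ β)` (modular law, elementwise: `a = s + t`, `c(s)`, `β(t)`, `d(a)`, so
`d(t)` because `c ≤ d`), `r (c + (d ∧ β)) c` by `Serre.join` (`r (d ∧ β) (c ∧ β)`), so `r d c`:
contradiction. In the first case add the jump to the first chain (`n₁ + 1`) and enlarge the top of
the second chain (LMO); in the second case the other way. -/
def Stmt_LSP : Prop :=
  ∀ (R : Type u) [Ring R] (r : P1 R → P1 R → Prop), Serre r →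
    ∀ (β : P1 R) (n : ℕ) (b t : P1 R), Long r n b t →
      ∃ n₁ n₂ : ℕ, n₁ + n₂ = n ∧ Long r n₁ (b.meet β) (t.meet β) ∧
        Long r n₂ (joinF b β) (joinF t β)

/-- LIS (50 lines, uses LMO, LSP). Isomorphic intervals. PROOF: (→) LSP with `β = b`:
`Long n₁ ((a ∧ b) ∧ b) (a ∧ b)` forces `n₁ = 0` (LMO, last item, since `a ∧ b ≤ (a ∧ b) ∧ b`), so
`Long n ((a ∧ b) + b) (a + b)`, and `b ≤ (a ∧ b) + b`. (←) LSP with `β = a`:
`Long n₂ (b + a) ((a + b) + a)` forces `n₂ = 0`, so `Long n (b ∧ a) ((a + b) ∧ a)`, and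
`(a + b) ∧ a ≤ a`, `a ∧ b ≤ b ∧ a`. -/
def Stmt_LIS : Prop :=
  ∀ (R : Type u) [Ring R] (r : P1 R → P1 R → Prop), Serre r →
    ∀ (n : ℕ) (a b : P1 R), Long r n (a.meet b) a ↔ Long r n b (joinF a b)

/-- DTR (60 lines, uses LMO, LSP, LIS). Transitivity of the derivative. PROOF: let
`¬ Long n₀ (φ ∧ ψ) φ`, `¬ Long m₀ (ψ ∧ χ) ψ`; claim `¬ Long (n₀ + m₀) (φ ∧ χ) φ`. Otherwise LSP with
`β = ψ`: `n₁ + n₂ = n₀ + m₀`, `Long n₁ ((φ ∧ χ) ∧ ψ) (φ ∧ ψ)`, `Long n₂ ((φ ∧ χ) + ψ) (φ + ψ)`. The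
second gives `Long n₂ ψ (φ + ψ)` (LMO), `Long n₂ (φ ∧ ψ) φ` (LIS), so `n₂ < n₀`. The first gives
`Long n₁ ((φ ∧ ψ) ∧ (ψ ∧ χ)) (φ ∧ ψ)`, by LIS `Long n₁ (ψ ∧ χ) ((φ ∧ ψ) + (ψ ∧ χ))`, and the top is
`≤ ψ`, so `Long n₁ (ψ ∧ χ) ψ`, `n₁ < m₀`. Contradiction. -/
def Stmt_DTR : Prop :=
  ∀ (R : Type u) [Ring R] (r : P1 R → P1 R → Prop), Serre r →
    ∀ φ ψ χ : P1 R, der r φ ψ → der r ψ χ → der r φ χ

/-- DMT (50 lines, uses LMO, LSP, LIS). PROOF: chain in `[α ∧ (θ₁ ∧ θ₂), α]`, LSP with `β = θ₁`: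
`Long n₂ ((α ∧ (θ₁ ∧ θ₂)) + θ₁) (α + θ₁)` gives `Long n₂ θ₁ (α + θ₁)`, LIS `Long n₂ (α ∧ θ₁) α`:
bounded. `Long n₁ ((α ∧ (θ₁ ∧ θ₂)) ∧ θ₁) (α ∧ θ₁)` gives `Long n₁ ((α ∧ θ₁) ∧ θ₂) (α ∧ θ₁)`, LIS
`Long n₁ θ₂ ((α ∧ θ₁) + θ₂)`, top `≤ α + θ₂`: `Long n₁ θ₂ (α + θ₂)`, LIS `Long n₁ (α ∧ θ₂) α`:
bounded. -/
def Stmt_DMT : Prop :=
  ∀ (R : Type u) [Ring R] (r : P1 R → P1 R → Prop), Serre r →
    ∀ α θ₁ θ₂ : P1 R, der r α θ₁ → der r α θ₂ → der r α (θ₁.meet θ₂)

/-- DJN (50 lines, uses LMO, LSP, LIS). PROOF: chain in `[(β₁ + β₂) ∧ ψ, β₁ + β₂]`, by LIS a chain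
from `ψ` to `(β₁ + β₂) + ψ`. LSP with `β = β₁`: `Long n₁ (ψ ∧ β₁) (((β₁ + β₂) + ψ) ∧ β₁)` gives
`Long n₁ (β₁ ∧ ψ) β₁`: bounded. `Long n₂ (ψ + β₁) (((β₁ + β₂) + ψ) + β₁)`: the top is
`≤ β₂ + (ψ + β₁)`, so by LIS `Long n₂ (β₂ ∧ (ψ + β₁)) β₂`, and `β₂ ∧ ψ ≤` the bottom:
`Long n₂ (β₂ ∧ ψ) β₂`: bounded. -/
def Stmt_DJN : Prop :=
  ∀ (R : Type u) [Ring R] (r : P1 R → P1 R → Prop), Serre r →
    ∀ β₁ β₂ ψ : P1 R, der r β₁ ψ → der r β₂ ψ → der r (joinF β₁ β₂) ψ

/-- DEX (120 lines, uses LMO, LIS). PROOF: `ω = exr ρ μ`. For a formula `ζ` let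
`F ζ = joinF ν (μ ∧ ∃ y (ζ(y) ∧ ρ(y; x)))` (a formula in `x`; obtain a formula for
`∃ y (ζ(y) ∧ ρ(y;x))` e.g. as `exr ρ' ζ` with `ρ'` = `ρ` with the two variables exchanged,
`Dfn.reidx Sum.swap`). `F` is monotone. CLAIM: if `ω ∧ θ ≤ c ≤ d ≤ ω` and `r (F d) (F c)` then
`r d c`. Let `ρ_d(y; x) = ρ(y; x) ∧ d(y)`. (i) `ρ_d(y; x)` and `F c (x)` imply `c(y)`: `x = x₁ + x₂`,
`ν(x₁)`, `μ(x₂)`, `c(y')`, `ρ(y'; x₂)`; so `ρ(y - y'; x₁)` (`at2_sub`), `θ(y - y')`; `d(y)` and
`d(y')` give `ω(y - y')`; so `(ω ∧ θ)(y - y')`, `c(y - y')`, `c(y)`. (ii) By `Serre.exr`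
`r (exr ρ_d (F d)) c`. (iii) `d ≤ exr ρ_d (F d)`: `d(y)` implies `ω(y)`: `x` with `ρ(y;x)`, `μ(x)`, and
then `F d (x)`. So `r d c`. Now by induction on `n`: `ω ∧ θ ≤ b`, `t ≤ ω`, `Long r n b t` imply
`Long r n (F b) (F t)`. A chain `Long r n (ω ∧ θ) ω` gives `Long r n (F ..) (F ω)`, so
`Long r n ν (ν + μ)`, so `Long r n ν (joinF μ ν)`, so by LIS `Long r n (μ ∧ ν) μ`: bounded. -/
def Stmt_DEX : Prop :=
  ∀ (R : Type u) [Ring R] (r : P1 R → P1 R → Prop), Serre r →
    ∀ (μ ν θ : P1 R) (ρ : P2 R), der r μ ν →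
      (∀ (M : Type u) [AddCommGroup M] [Module R M] (y x : M), at2 ρ y x → at1 ν x → at1 θ y) →
      der r (exr ρ μ) θ

/-- DIN (30 lines). `r ≤ der r`, `Le ≤ der r`. PROOF: `n = 1`: if `φ ∧ ψ ≤ c ≤ d ≤ φ` and `r φ ψ`
then `r φ (φ ∧ ψ)` (`Serre.meet`), so `r d c`. -/
def Stmt_DIN : Prop :=
  ∀ (R : Type u) [Ring R] (r : P1 R → P1 R → Prop), Serre r →
    ∀ φ ψ : P1 R, r φ ψ → der r φ ψ

/-- DER (20 lines, uses DTR, DMT, DJN, DEX, DIN). The derivative of a Serre relation is a Serre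
relation (`Le φ ψ → r φ ψ → der r φ ψ`). -/
def Stmt_DER : Prop :=
  ∀ (R : Type u) [Ring R] (r : P1 R → P1 R → Prop), Serre r → Serre (der r)

/-- LCH (60 lines). Chains as functions on `ℕ`. PROOF: (1) induction on `n`: for `n = 0` the
constant chain `b`; for `n + 1` with `c, d`: take the chain `θ` for `(n, b, c)` and change its value at
`n + 1` (and after) to `d`: `θ n ≤ c ≤ d`, and `r d (θ n)` would give `r d c`. (2) induction. -/
def Stmt_LCH : Prop :=
  ∀ (R : Type u) [Ring R] (r : P1 R → P1 R → Prop), Serre r →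
    (∀ (n : ℕ) (b t : P1 R), Long r n b t → ∃ θ : ℕ → P1 R, Le b (θ 0) ∧ Le (θ n) t ∧
      ∀ i < n, Le (θ i) (θ (i + 1)) ∧ ¬ r (θ (i + 1)) (θ i)) ∧
    (∀ (n : ℕ) (θ : ℕ → P1 R), (∀ i < n, Le (θ i) (θ (i + 1)) ∧ ¬ r (θ (i + 1)) (θ i)) →
      Long r n (θ 0) (θ n))

end Pool.ZgCB
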