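import Pool.Agent.Work.MP_d94bda_cb.InterfaceA

/-!
# MP_d94bda_al, THEOREM Z, interface part B: artin algebras, minimal pairs, the final argument

Same conventions as in part A. artin context: `C` a commutative artinian ring, `R` a `C`-algebra
that is a finite `C`-module. `C` acts on every `R`-module through `algebraMap C R` (whose values are
central: `Algebra.commutes`).
-/

open scoped BigOperators

namespace Pool.ZgCB

universe u

/-- `c < d` is a minimal pair -/
def IsMinPair {R : Type u} [Ring R] (c d : P1 R) : Prop :=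
  Le c d ∧ ¬ Le d c ∧ ∀ θ, Le c θ → Le θ d → Le θ c ∨ Le d θ

/-- the hypothesis (NM) of Theorem T: no subinterval of `[φ ∧ ψ, φ]` open on `N` is minimal on
`N` -/
def NM {R : Type u} [Ring R] (N : Type u) [AddCommGroup N] [Module R N] (φ ψ : P1 R) : Prop :=
  ∀ θ θ' : P1 R, Le (φ.meet ψ) θ → Le θ θ' → Le θ' φ → Opn N θ' θ →
    ∃ η, Le θ η ∧ Le η θ' ∧ Opn N η θ ∧ Opn N θ' η

/-! ### finitely generated modules -/

/-- FGZ (100 lines). PROOF: consider the submodules `B` of `M` such that `B.mkQ ∘ f` is pure; `⊥` is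
one. Nonempty chains: let `B` be the union; if `θ.ev (M ⧸ B) (mk (f x))`, lift the witnesses to
`M`; the finitely many elements `∑ A i j • f (x j) + ∑ B i l • y l` are in `B`, so in one member
`B'` of the chain, so `θ.ev (M ⧸ B') ..`, so `θ.ev X x`. Zorn: a maximal `B`. `M' = M ⧸ B`,
`q = B.mkQ`. If `B'` is a submodule of `M ⧸ B` with `B'.mkQ ∘ q ∘ f` pure, let
`B'' = B'.comap q ≥ B`: `B''.mkQ ∘ f` is pure (a solution modulo `B''` maps to a solution in
`(M ⧸ B) ⧸ B'`), so `B'' = B` and `B' = ⊥`. -/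
def Stmt_FGZ : Prop :=
  ∀ (R : Type u) [Ring R] (X M : Type u) [AddCommGroup X] [Module R X] [AddCommGroup M]
    [Module R M] (f : X →ₗ[R] M), PureEmb f →
    ∃ (M' : Type u) (_ : AddCommGroup M') (_ : Module R M') (q : M →ₗ[R] M'),
      PureEmb (q ∘ₗ f) ∧ ∀ B : Submodule R M', PureEmb (B.mkQ ∘ₗ (q ∘ₗ f)) → B = ⊥

/-- MCO (150 lines). Minimal coset. PROOF: consider the triples `(n, θ, x)` with
`atn θ m (f ∘ x)`; for such a triple `K(θ, x) = {z : X | atn θ z x}` is not empty (the formula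
`∃ z θ(z; x)`, `Dfn.ex` and `Dfn.reidx`, is true in `M` at `f ∘ x`; `f` is pure), and it is a coset
of `K₀(θ) = {z | atn θ z 0}`, which is a `C`-submodule of `X` (`PP.ev_add`, `PP.ev_central`). `X`
is a finite `C`-module, so an artinian `C`-module (`Module.compHom X (algebraMap C R)`; finite over
`C` by transitivity): take a triple with `K₀(θ)` minimal, and `z0 ∈ K(θ, x)`. For another triple
`(n', θ', x')` the conjunction `(n + n', θ ∧ θ', (x, x'))` is a triple with
`K = K(θ,x) ∩ K(θ',x')`, `K₀ = K₀(θ) ∩ K₀(θ')`, so `K₀ = K₀(θ)` by minimality; take `z` in `K`: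
`z0 - z ∈ K₀(θ) = K₀`, so `z0 ∈ K`, so `z0 ∈ K(θ', x')`. -/
def Stmt_MCO : Prop :=
  ∀ (R : Type u) [Ring R] (C : Type u) [CommRing C] [IsArtinianRing C] [Algebra C R]
    [Module.Finite C R] (X M : Type u) [AddCommGroup X] [Module R X] [AddCommGroup M]
    [Module R M] (f : X →ₗ[R] M), Module.Finite R X → PureEmb f → ∀ m : M,
    ∃ z0 : X, ∀ (n : ℕ) (θ : PP R (Unit ⊕ Fin n)) (x : Fin n → X),
      atn θ m (fun i => f (x i)) → atn θ z0 x

/-- FGC (100 lines, uses MCO). PROOF: `m : M`, `z0` from MCO, `B = span {m - f z0}`. CLAIM: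
`B.mkQ ∘ f` is pure. Let `θ = (k', k, A, B₁)` hold at `mk (f x)` in `M ⧸ B`, witnesses
`mk (y l)`: there are `r_i` with `∑ A i j • f (x j) + ∑ B₁ i l • y l = r_i • (m - f z0)`. Let
`θ'(z; x, z')` (variables `Unit ⊕ Fin (n+1)`, `z'` the last one, `Fin.snoc`) be
`∃ y, ⋀_i ∑ A i j x j + ∑ B₁ i l y l - r_i z + r_i z' = 0`. It holds in `M` at
`(m; f x, f z0)`, so by MCO in `X` at `(z0; x, z0)`: this is `θ(x)` in `X`. So `B = ⊥`,
`m = f z0`. -/
def Stmt_FGC : Prop :=
  ∀ (R : Type u) [Ring R] (C : Type u) [CommRing C] [IsArtinianRing C] [Algebra C R]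
    [Module.Finite C R] (X M : Type u) [AddCommGroup X] [Module R X] [AddCommGroup M]
    [Module R M] (f : X →ₗ[R] M), Module.Finite R X → PureEmb f →
    (∀ B : Submodule R M, PureEmb (B.mkQ ∘ₗ f) → B = ⊥) → Function.Surjective f

/-- FGP (40 lines, uses FGZ, FGC). Finitely generated modules are pure-injective. PROOF: `q ∘ f`
is surjective (FGC) and injective (pure; formula `x = 0`), `g` its inverse; `g ∘ q`. -/
def Stmt_FGP : Prop :=
  ∀ (R : Type u) [Ring R] (C : Type u) [CommRing C] [IsArtinianRing C] [Algebra C R]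
    [Module.Finite C R] (X : Type u) [AddCommGroup X] [Module R X], Module.Finite R X →
    PureInj R X

/-- FGS (120 lines). PROOF: `R` is an artinian ring, `Z` an artinian module. Let `𝒮` be the set of
submodules `L` of `Z` that are the range of an idempotent endomorphism `e` of `Z` and are open:
`Opn L φ ψ`. `Z ∈ 𝒮`. Take `L = range e` minimal; it is finitely generated, nontrivial. Let
`ε : L → L` be idempotent, `a ∈ L`, `φ(a)`, not `ψ(a)`. Then `φ` holds at `ε a` and `a - ε a` and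
`ψ` fails at one of them, say at `ε a`. Then `incl ∘ ε ∘ e` is an idempotent endomorphism of `Z`
(because `e ∘ incl = id` on `L`) with range `L₁ ≤ L`, open (`φ` holds in `L₁` at `ε a` by
`at1_map` along `L → L₁`, `ψ` fails in `L₁` because it fails in `L`), so `L₁ = L`,
`ε` is surjective, `ε = id`. In the other case `1 - ε` is surjective, so `1 - ε = id`, `ε = 0`. -/
def Stmt_FGS : Prop :=
  ∀ (R : Type u) [Ring R] (C : Type u) [CommRing C] [IsArtinianRing C] [Algebra C R]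
    [Module.Finite C R] (Z : Type u) [AddCommGroup Z] [Module R Z] (φ ψ : P1 R),
    Module.Finite R Z → Opn Z φ ψ →
    ∃ (X : Type u) (_ : AddCommGroup X) (_ : Module R X), Module.Finite R X ∧ Indec R X ∧
      Opn X φ ψ

/-- FGL (80 lines). PROOF: `{a | at1 θ a}` is a `C`-submodule of `X` (`at1_add`, `at1_central`),
where `C` acts through `algebraMap C R`; `X` is a finite module over the artinian ring `C`, so of
finite length: chains of `C`-submodules `L_0 < ... < L_n` have `n ≤ length` (`Module.length`,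
`Order`-theoretic definition, or induction). Take `n = length + 1`. -/
def Stmt_FGL : Prop :=
  ∀ (R : Type u) [Ring R] (C : Type u) [CommRing C] [IsArtinianRing C] [Algebra C R]
    [Module.Finite C R] (X : Type u) [AddCommGroup X] [Module R X], Module.Finite R X →
    ∃ n, PLen (R := R) n X

/-! ### minimal pairs -/

/-- MN0 (150 lines, uses PIA, EXT). PROOF: let `b : N'` with `d(b)`, not `c(b)`. CLAIM: for
`α ∈ p` there is `z` with `c(z)` and `α(b - z)`: `joinF (α ∧ d) c` is between `c` and `d`; it is not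
`≤ c` (otherwise `α ∧ d ≤ c`, `c ∈ p`), so `d ≤ joinF (α ∧ d) c`, and
`b = b₁ + z`, `α(b₁)`, `c(z)`. `N'` is `AC` (PIA); apply it with the unknown `X = PUnit` and the
conditions `c(x)`, `α(b - x)` for `α ∈ p` (formula in `Fin 2`, `w_0` = the constant `b`, `w_1` = the
unknown; finitely many `α` are handled by their meet): there is `z` with `c(z)` and
`α(b - z)` for all `α ∈ p`. By EXT (`X = PUnit`, families `a`, `b - z`; a formula on a constant tuple
is a formula in one variable by `Dfn.reidx`, and `at1 θ a ↔ θ ∈ p`) there is `f : N0 → N'`,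
`f a = b - z`. If `ω` holds at `b - z` and `ω ∉ p`, take `α ∈ p` with `α ∧ ω ≤ c`: `c(b - z)`, so
`c(b)`: contradiction. So by `Rigid` `f` is pure, `g : N' → N0` with `g ∘ f = id` (`N0` is
pure-injective). `e = f ∘ g` is idempotent on the indecomposable `N'`: `e = 0` is impossible
(`N0` is nontrivial), so `e = id`. -/
def Stmt_MN0 : Prop :=
  ∀ (R : Type u) [Ring R] (c d : P1 R), IsMinPair c d →
    ∀ (p : Set (P1 R)) (N0 : Type u) [AddCommGroup N0] [Module R N0] (a : N0), IsFil p →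
    d ∈ p → c ∉ p → (∀ ω, ω ∉ p → ∃ α ∈ p, Le (α.meet ω) c) → Hull p N0 a →
    ∀ (N' : Type u) [AddCommGroup N'] [Module R N'], Point R N' → Opn N' d c →
      Nonempty (N0 ≃ₗ[R] N')

/-- MIN (50 lines, uses MN0, MXF, THH, SLE). All points open on a minimal pair are isomorphic.
PROOF: MXF for `r = Le`, `φ = d`, `ψ = c` gives `p`; `botF ∉ p`; `Irr p` (for `ω₁, ω₂ ∉ p` take
`α = α₁ ∧ α₂`, `joinF (α ∧ ω₁) (α ∧ ω₂) ≤ c ∉ p`); THH gives the hull; MN0 twice. -/
def Stmt_MIN : Prop :=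
  ∀ (R : Type u) [Ring R] (c d : P1 R), IsMinPair c d →
    ∀ (N N' : Type u) [AddCommGroup N] [Module R N] [AddCommGroup N'] [Module R N'],
      Point R N → Point R N' → Opn N d c → Opn N' d c → Nonempty (N ≃ₗ[R] N')

/-- FMP (60 lines, uses LMO). PROOF: induction on `n` for all `b, t`. `n = 0` is impossible
(`Long Le 0 b t` is `Le b t`). `n + 1`: if `(b, t)` is minimal take it. Otherwise, since
`¬ Le t b` (open on `N`), there is `θ`, `b ≤ θ ≤ t`, not `θ ≤ b`, not `t ≤ θ`. `¬ Long Le n b θ`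
(otherwise `Long Le (n+1) b t` with `c = θ`, `d = t`) and `¬ Long Le n θ t` (LMO, fifth item).
`Opn N t b` implies `Opn N t θ` or `Opn N θ b`. -/
def Stmt_FMP : Prop :=
  ∀ (R : Type u) [Ring R] (n : ℕ) (b t : P1 R), Le b t → ¬ Long Le n b t →
    ∀ (N : Type u) [AddCommGroup N] [Module R N], Opn N t b →
      ∃ c d, Le b c ∧ Le d t ∧ IsMinPair c d ∧ Opn N d c

/-- CL2 (30 lines, uses FMP, MIN). PROOF: if `Opn N φ ψ` then `Opn N φ (φ ∧ ψ)`; FMP gives a
minimal pair `(c, d)` open on `N`; by MIN `(d/c)` isolates `N`: contradiction. -/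
def Stmt_CL2 : Prop :=
  ∀ (R : Type u) [Ring R] (N : Type u) [AddCommGroup N] [Module R N], Der1 R N →
    ∀ φ ψ : P1 R, R0 φ ψ → Cl N φ ψ

/-- CL4 (80 lines, uses FRE, FGP, FGS, FGL, THA, SLE, LCH). PROOF: `Opn N φ ψ` gives `¬ Le φ ψ`, so
`φ` holds and `ψ` fails at `c` in the free realization `Z` of `φ` (FRE: if `ψ(c)` then `φ ≤ ψ`);
`Z` is finitely generated, FGS gives `X` finitely generated, indecomposable, open, pure-injective
by FGP, so `X ≃ N` and `N` is finitely generated. FGL: `PLen n N`. CLAIM `¬ Long Le n (φ ∧ ψ) φ`: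
otherwise LCH (for `Le`, SLE) gives `θ_0 ≤ ... ≤ θ_n` in `[φ ∧ ψ, φ]` with
`¬ Le (θ (i+1)) (θ i)`; by THA (for `Le`) there is a point `N_i` with `Opn N_i (θ (i+1)) (θ i)`, so
`Opn N_i φ ψ`, so `N_i ≃ N` and `Opn N (θ (i+1)) (θ i)`; this contradicts `PLen n N`. -/
def Stmt_CL4 : Prop :=
  ∀ (R : Type u) [Ring R] (C : Type u) [CommRing C] [IsArtinianRing C] [Algebra C R]
    [Module.Finite C R] (N : Type u) [AddCommGroup N] [Module R N] (φ ψ : P1 R), Point R N →
    Opn N φ ψ →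
    (∀ (M : Type u) [AddCommGroup M] [Module R M], Point R M → Opn M φ ψ →
      Nonempty (M ≃ₗ[R] N)) →
    Module.Finite R N ∧ R0 φ ψ

/-- NIS (15 lines, uses CL4). A point on which all pairs of finite length are closed is not
isolated. -/
def Stmt_NIS : Prop :=
  ∀ (R : Type u) [Ring R] (C : Type u) [CommRing C] [IsArtinianRing C] [Algebra C R]
    [Module.Finite C R] (N : Type u) [AddCommGroup N] [Module R N], Point R N →
    (∀ μ ν : P1 R, R0 μ ν → Cl N μ ν) → Der1 R N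

/-- TA0 (15 lines, uses THA, SLE, DER, NIS). PROOF: `R0 = der Le` is Serre; THA, NIS. -/
def Stmt_TA0 : Prop :=
  ∀ (R : Type u) [Ring R] (C : Type u) [CommRing C] [IsArtinianRing C] [Algebra C R]
    [Module.Finite C R] (φ ψ : P1 R), ¬ R0 φ ψ →
    ∃ (N : Type u) (_ : AddCommGroup N) (_ : Module R N), Der1 R N ∧ Opn N φ ψ

/-- FIN (70 lines, uses MIN, LMO). A pair of finite length is open on finitely many members of a
sequence of pairwise non-isomorphic points. PROOF: induction on `n` for all `b ≤ t` with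
`¬ Long Le n b t`: the set `{j | Opn (X j) t b}` is finite. If `Le t b` it is empty; if `(b, t)` is
minimal it has at most one element (MIN); otherwise split at `θ` as in FMP:
`{j | Opn (X j) t b} ⊆ {j | Opn (X j) t θ} ∪ {j | Opn (X j) θ b}`. Apply to `b = φ ∧ ψ`,
`t = φ`. -/
def Stmt_FIN : Prop :=
  ∀ (R : Type u) [Ring R] (φ ψ : P1 R), R0 φ ψ → ∀ (X : ℕ → Type u)
    [∀ j, AddCommGroup (X j)] [∀ j, Module R (X j)], (∀ j, Point R (X j)) →
    (∀ i j, i ≠ j → ¬ Nonempty (X i ≃ₗ[R] X j)) → {j | Opn (X j) φ ψ}.Finite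

/-! ### the final argument -/

/-- SEQ (100 lines). PROOF: for a finite set `Σ` of pairs closed on `N` choose `X(Σ)` by the
hypothesis and a pair `q(Σ)` which isolates `X(Σ)`. `q(Σ)` is closed on `N` (otherwise the point
`N` is isomorphic to `X(Σ)` and then `q(Σ)` isolates `N`, but `¬ Isol R N`). Define `Σ_0 = ∅`,
`Σ_{j+1} = Σ_j ∪ {q(Σ_j)}` (recursion in the subtype of finite sets closed on `N`), `X_j = X(Σ_j)`.
For `i < j`: `q(Σ_i) ∈ Σ_j` is closed on `X_j` and open on `X_i`, so they are not isomorphic. (Use a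
structure that bundles a module with its instances.) -/
def Stmt_SEQ : Prop :=
  ∀ (R : Type u) [Ring R] (N : Type u) [AddCommGroup N] [Module R N], Der1 R N →
    ∀ (φ ψ : P1 R) (m : ℕ),
    (∀ T : Set (P1 R × P1 R), T.Finite → (∀ q ∈ T, Cl N q.1 q.2) →
      ∃ (X : Type u) (_ : AddCommGroup X) (_ : Module R X), Point R X ∧ Isol R X ∧ Opn X φ ψ ∧
        PLen (R := R) m X ∧ ∀ q ∈ T, Cl X q.1 q.2) →
    ∃ (X : ℕ → Type u) (_ : ∀ j, AddCommGroup (X j)) (_ : ∀ j, Module R (X j)),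
      (∀ j, Point R (X j) ∧ Opn (X j) φ ψ ∧ PLen (R := R) m (X j)) ∧
      ∀ i j, i ≠ j → ¬ Nonempty (X i ≃ₗ[R] X j)

/-- PIG (120 lines, uses THA, SFM, LCH, SLE, DER, FIN, NIS, TA0). PROOF: `¬ R1 φ ψ` means
`Long R0 m (φ ∧ ψ) φ` for all `m`; LCH (for `R0`): `θ_0 ≤ ... ≤ θ_m` in `[φ ∧ ψ, φ]`,
`¬ R0 (θ (i+1)) (θ i)`. By `PLen m (X j)` for every `j` there is `i < m` with
`Cl (X j) (θ (i+1)) (θ i)`. Pigeonhole: one `i` and an infinite set `J` of `j`. Let
`F = Filter.cofinite ⊓ Filter.principal J` (`NeBot`), `r φ ψ := ∀ᶠ j in F, Cl (X j) φ ψ`, Serre by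
SFM. `¬ r φ ψ`. THA: a point `N₁`, `Opn N₁ φ ψ`, closed for `r`. `R0 μ ν → r μ ν` by FIN. So `N₁` is
`Der1` by NIS, `N₁ ≃ N`, and `r (θ (i+1)) (θ i)` gives `Cl N (θ (i+1)) (θ i)`. But by TA0 there is
`N₂`, `Der1`, with `Opn N₂ (θ (i+1)) (θ i)`, so `Opn N₂ φ ψ`, `N₂ ≃ N`, contradiction. -/
def Stmt_PIG : Prop :=
  ∀ (R : Type u) [Ring R] (C : Type u) [CommRing C] [IsArtinianRing C] [Algebra C R]
    [Module.Finite C R] (N : Type u) [AddCommGroup N] [Module R N] (φ ψ : P1 R),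
    (∀ (M : Type u) [AddCommGroup M] [Module R M], Der1 R M → Opn M φ ψ →
      Nonempty (M ≃ₗ[R] N)) → ¬ R1 φ ψ →
    ∀ (m : ℕ) (X : ℕ → Type u) [∀ j, AddCommGroup (X j)] [∀ j, Module R (X j)],
      (∀ j, Point R (X j) ∧ Opn (X j) φ ψ ∧ PLen (R := R) m (X j)) →
      (∀ i j, i ≠ j → ¬ Nonempty (X i ≃ₗ[R] X j)) → False

/-- SIG (50 lines, uses SEQ, PIG, FGL, CL4). PROOF: for every `m` there is a finite set `T_m` of
pairs closed on `N` such that no isolated point `X` with `Opn X φ ψ`, `PLen m X` is `T_m`-closed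
(otherwise SEQ and PIG give `False`). `T = ⋃ T_m`. Let `M` be a `T`-closed point, `Opn M φ ψ`. If
`M` is isolated then `M` is finitely generated (CL4), `PLen n M` for some `n` (FGL): contradiction
with `T_n`. So `Der1 R M` and `M ≃ N` by hypothesis. -/
def Stmt_SIG : Prop :=
  ∀ (R : Type u) [Ring R] (C : Type u) [CommRing C] [IsArtinianRing C] [Algebra C R]
    [Module.Finite C R] (N : Type u) [AddCommGroup N] [Module R N], Der1 R N → ∀ φ ψ : P1 R,
    (∀ (M : Type u) [AddCommGroup M] [Module R M], Der1 R M → Opn M φ ψ →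
      Nonempty (M ≃ₗ[R] N)) → ¬ R1 φ ψ →
    ∃ T : Set (P1 R × P1 R), T.Countable ∧ (∀ q ∈ T, Cl N q.1 q.2) ∧
      ∀ (M : Type u) [AddCommGroup M] [Module R M], Point R M → Opn M φ ψ →
        (∀ q ∈ T, Cl M q.1 q.2) → Nonempty (M ≃ₗ[R] N)

/-- CBA (100 lines, uses THA, SLE, DER, DIN, CL2, NIS, TA0). PROOF: (1) Let `θ ≤ θ'` in
`[φ ∧ ψ, φ]`, `¬ R0 θ' θ`. CLAIM: there is `η`, `θ ≤ η ≤ θ'`, `¬ R0 η θ`, `¬ R0 θ' η`. Otherwise
`R1 θ' θ`: there is no `Long R0 2 (θ' ∧ θ) θ'`: jumps `c₀ ≤ d₀ ≤ c₁ ≤ d₁`, all between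
`θ' ∧ θ ≥ θ` and `θ'`; if `R0 c₁ θ` then `R0 d₀ c₀` (`d₀ ≤ c₁`, `θ ≤ c₀`), if `R0 θ' c₁` then
`R0 d₁ c₁`. THA for `R1` (Serre by DER twice) and `¬ R1 φ ψ`: a point `N'`, `Opn N' φ ψ`, closed for
`R1`, so for `R0` (DIN), so `Der1` (NIS), so `N' ≃ N`, and `Cl N θ' θ`. But TA0 for `¬ R0 θ' θ` gives
`N₂ ≃ N` with `Opn N₂ θ' θ`: contradiction. (2) Let `θ ≤ θ'` in `[φ ∧ ψ, φ]`, `Opn N θ' θ`. Then
`¬ R0 θ' θ` (CL2). Take `η` from (1); TA0 for `¬ R0 η θ` gives a `Der1` module open on `(η/θ)`, so on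
`(φ/ψ)`, so isomorphic to `N`: `Opn N η θ`. Similarly `Opn N θ' η`. -/
def Stmt_CBA : Prop :=
  ∀ (R : Type u) [Ring R] (C : Type u) [CommRing C] [IsArtinianRing C] [Algebra C R]
    [Module.Finite C R] (N : Type u) [AddCommGroup N] [Module R N], Der1 R N → ∀ φ ψ : P1 R,
    (∀ (M : Type u) [AddCommGroup M] [Module R M], Der1 R M → Opn M φ ψ →
      Nonempty (M ≃ₗ[R] N)) → ¬ R1 φ ψ → NM N φ ψ

/-- THT, Theorem T (assembled in part C). -/
def Stmt_THT : Prop :=
  ∀ (R : Type u) [Ring R] (C : Type u) [CommRing C] [IsArtinianRing C] [Algebra C R]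
    [Module.Finite C R] (N : Type u) [AddCommGroup N] [Module R N] (φ ψ : P1 R),
    Opn N φ ψ → NM N φ ψ → ∀ T : Set (P1 R × P1 R), T.Countable → (∀ q ∈ T, Cl N q.1 q.2) →
    ∃ (M₁ : Type u) (_ : AddCommGroup M₁) (_ : Module R M₁) (M₂ : Type u)
      (_ : AddCommGroup M₂) (_ : Module R M₂), Point R M₁ ∧ Point R M₂ ∧ Opn M₁ φ ψ ∧
      Opn M₂ φ ψ ∧ (∀ q ∈ T, Cl M₁ q.1 q.2) ∧ (∀ q ∈ T, Cl M₂ q.1 q.2) ∧
      ¬ Nonempty (M₁ ≃ₗ[R] M₂)

/-- CB5 (25 lines, uses CBA, SIG, THT). PROOF: suppose `¬ R1 φ ψ`; `T` from SIG, `NM` from CBA,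
THT gives `M₁, M₂`, both isomorphic to `N` by SIG: contradiction. -/
def Stmt_CB5 : Prop :=
  ∀ (R : Type u) [Ring R] (C : Type u) [CommRing C] [IsArtinianRing C] [Algebra C R]
    [Module.Finite C R] (N : Type u) [AddCommGroup N] [Module R N], Der1 R N → ∀ φ ψ : P1 R,
    Opn N φ ψ → (∀ (M : Type u) [AddCommGroup M] [Module R M], Der1 R M → Opn M φ ψ →
      Nonempty (M ≃ₗ[R] N)) → R1 φ ψ

/-- CB6 (40 lines, uses THA, SLE, DER, DIN, CL2, NIS, CB5). PROOF: (1) if `R0 topF botF` then a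
`Der1` module `N` has `Cl N topF botF` (CL2), so it is zero: contradiction (`Indec` is nontrivial).
(2) if `¬ R1 topF botF`: THA for `R1` gives a point `N` closed for `R1`, so for `R0` (DIN), so
`Der1 R N` (NIS), so there are `φ, ψ` which isolate `N` in the first derivative (`Isol1`); by CB5
`R1 φ ψ`, so `Cl N φ ψ`: contradiction with `Opn N φ ψ`. -/
def Stmt_CB6 : Prop :=
  ∀ (R : Type u) [Ring R] (C : Type u) [CommRing C] [IsArtinianRing C] [Algebra C R]
    [Module.Finite C R], CBRankOne R →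
    ¬ R0 (topF : P1 R) botF ∧ R1 (topF : P1 R) botF

/-- MDM (60 lines, uses LCH, SLE, DER). PROOF: (1) `FinLength botF topF → R0 topF botF`: with the
same `n`: a `Long Le n (topF ∧ botF) topF` gives by LCH a chain `θ` which contradicts
`FinLength`. (2) `¬ Long R0 n (topF ∧ botF) topF`; given `c` with `Le (c i) (c (i+1))`,
`¬ FinLength (c i) (c (i+1))` for `i < n`: then `¬ R0 (c (i+1)) (c i)` (if
`¬ Long Le m (c (i+1) ∧ c i) (c (i+1))` then a chain `θ` of `m` steps from `c i ≤ θ 0` to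
`θ m ≤ c (i+1)` gives by LCH (2) `Long Le m (θ 0) (θ m)`, so by monotonicity of `Long` (easy
induction) a contradiction: `FinLength (c i) (c (i+1))`); so `Long R0 n (c 0) (c n)` by LCH (2), and
by monotonicity `Long R0 n (topF ∧ botF) topF`: contradiction. -/
def Stmt_MDM : Prop :=
  ∀ (R : Type u) [Ring R], ¬ R0 (topF : P1 R) botF → R1 (topF : P1 R) botF → MDimOne R

end Pool.ZgCB
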