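import Pool.Agent.Work.MP_d94bda_cb.InterfaceB

/-!
# MP_d94bda_al, THEOREM Z, interface part C: Theorem T

Same conventions as in part A. Notation in the docstrings: `N` is the given module, `S` a countable
subring of `R`; `κ` over `S` means `κ.Over S`.
-/

open scoped BigOperators

namespace Pool.ZgCB

universe u

/-! ### countable subrings -/

/-- CLO (100 lines). PROOF: `S_0 = T`, `S_{n+1} = S_n ∪ {0, 1} ∪ (S_n + S_n) ∪ (S_n * S_n) ∪ (-S_n) ∪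
⋃_{F ⊆ S_n finite} op F`; all countable (`Set.countable_setOf_finite_subset`,
`Set.Countable.biUnion`, `Set.Countable.image2`); `S = ⋃ S_n` is a subring, and a finite `F ⊆ S` is
contained in one `S_n`. -/
def Stmt_CLO : Prop :=
  ∀ (R : Type u) [Ring R] (op : Set R → Set R), (∀ F : Set R, F.Finite → (op F).Countable) →
    ∀ T : Set R, T.Countable → ∃ S : Subring R, (S : Set R).Countable ∧ T ⊆ (S : Set R) ∧
      ∀ F : Set R, F.Finite → F ⊆ (S : Set R) → op F ⊆ (S : Set R)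

/-- SOL (80 lines). PROOF: the pairs `(H, V)` with `G₂ V = H G` form a `C`-submodule of
`(Fin s → Fin r → R) × (Fin l → Fin k → R)`, a finite module over the noetherian ring `C`, so it is
spanned by finitely many elements; `F` = the set of their entries. A linear combination of elements
of a finite spanning set: `Submodule.mem_span_finset` or `Finsupp`. -/
def Stmt_SOL : Prop :=
  ∀ (R : Type u) [Ring R] (C : Type u) [CommRing C] [IsArtinianRing C] [Algebra C R]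
    [Module.Finite C R] (r k s l : ℕ) (G : Fin r → Fin k → R) (G₂ : Fin s → Fin l → R),
    ∃ F : Set R, F.Countable ∧ ∀ (H : Fin s → Fin r → R) (V : Fin l → Fin k → R),
      (∀ i j, ∑ e, G₂ i e * V e j = ∑ e, H i e * G e j) →
      ∃ (n : ℕ) (c : Fin n → C) (H' : Fin n → Fin s → Fin r → R)
        (V' : Fin n → Fin l → Fin k → R),
        (∀ t i j, H' t i j ∈ F) ∧ (∀ t i j, V' t i j ∈ F) ∧
        (∀ t i j, ∑ e, G₂ i e * V' t e j = ∑ e, H' t i e * G e j) ∧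
        (∀ i j, H i j = ∑ t, c t • H' t i j) ∧ (∀ i j, V i j = ∑ t, c t • V' t i j)

/-- the descent property of the subring `S` -/
def DP {R : Type u} [Ring R] (C : Type u) [CommRing C] [Algebra C R] (S : Subring R) : Prop :=
  ∀ (r k s l : ℕ) (G : Fin r → Fin k → R) (G₂ : Fin s → Fin l → R),
    (∀ i j, G i j ∈ S) → (∀ i j, G₂ i j ∈ S) →
    ∀ (H : Fin s → Fin r → R) (V : Fin l → Fin k → R),
      (∀ i j, ∑ e, G₂ i e * V e j = ∑ e, H i e * G e j) →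
      ∃ (n : ℕ) (c : Fin n → C) (H' : Fin n → Fin s → Fin r → R)
        (V' : Fin n → Fin l → Fin k → R),
        (∀ t i j, H' t i j ∈ S) ∧ (∀ t i j, V' t i j ∈ S) ∧
        (∀ t i j, ∑ e, G₂ i e * V' t e j = ∑ e, H' t i e * G e j) ∧
        (∀ i j, H i j = ∑ t, c t • H' t i j) ∧ (∀ i j, V i j = ∑ t, c t • V' t i j)

/-- DPC (100 lines, uses CLO, SOL). PROOF: CLO with `op F` = the union of the sets of SOL for all
`r k s l`, `G`, `G₂` with entries in `F` (countably many: matrices with entries in a finite set),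
and of the sets of coefficients of `nm θ θ'` for all `θ, θ'` with coefficients in `F` (countably
many). If `G, G₂` are over `S`, take `F` = the finite set of their entries. -/
def Stmt_DPC : Prop :=
  ∀ (R : Type u) [Ring R] (C : Type u) [CommRing C] [IsArtinianRing C] [Algebra C R]
    [Module.Finite C R] (T : Set R), T.Countable → ∀ nm : P1 R → P1 R → P1 R,
    ∃ S : Subring R, (S : Set R).Countable ∧ T ⊆ (S : Set R) ∧ DP C S ∧
      ∀ θ θ' : P1 R, θ.Over S → θ'.Over S → (nm θ θ').Over S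

/-- CTF (50 lines). Countably many formulas over a countable subring. PROOF: it is the image of
`Σ m k : ℕ, (Fin m → ι → S) × (Fin m → Fin k → S)`, a countable type. -/
def Stmt_CTF : Prop :=
  ∀ (R : Type u) [Ring R] (S : Subring R), (S : Set R).Countable → ∀ (ι : Type) [Finite ι],
    {θ : PP R ι | θ.Over S}.Countable

/-- DD2 (150 lines, uses FAR). Descent of implications. PROOF: FAR for `α(y, x)` = the conjunction
of `ρ(y; x)` and `b₁(x)`: `m = ρ.m + b₁.m`, `k = ρ.k + b₁.k`, rows `(ρ.A, ρ.B, 0)` and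
`(0, b₁.A; 0, b₁.B)` (`Fin.append` as in `PP.meet`), and `β(y, x) = b₂(y)` (`m = b₂.m`,
`k = b₂.k`, `A i (inl _) = b₂.A i ()`, `A i (inr _) = 0`). It gives `H = (H₁, H₂)`, `V`,
`W = (W_u, W_w)` with
(y) `b₂.A i + ∑_l b₂.B i l * V l y = ∑_e H₁ i e * ρ.A e y`,
(x) `∑_l b₂.B i l * V l x = ∑_e H₁ i e * ρ.A e x + ∑_e H₂ i e * b₁.A e`,
(u) `∑_l b₂.B i l * W_u l l' = ∑_e H₁ i e * ρ.B e l'`,
(w) `∑_l b₂.B i l * W_w l l' = ∑_e H₂ i e * b₁.B e l'`.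
DP for `G = b₁.B`, `G₂ = b₂.B`, `(H₂, W_w)`: `n, c, H', V'`. Let `ρ'(y; x_1..x_n)` be
`∃ v, ⋀_i b₂.A i y + ∑_l b₂.B i l v_l - ∑_t ∑_e (H' t i e * b₁.A e) x_t = 0`, over `S`.
First claim: `u` witnesses for `ρ(y; x)`; `v_l = V l y • y + V l x • x + ∑ W_u l l' • u_l'`:
`b₂.A i y + ∑ b₂.B i l v_l = ∑_e H₁ i e (ρ.A e y y + ρ.A e x x + ∑ ρ.B e l' u_l') +
∑_e H₂ i e b₁.A e x = ∑_e H₂ i e b₁.A e x = ∑_t ∑_e H' t i e b₁.A e (c_t x)`. Second claim: `v`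
witnesses for `ρ'`, `w_t` witnesses for `b₁(x_t)`: `v_e + ∑_t ∑_l V' t e l • w_t l` are witnesses for
`b₂(y)`, because `-∑_t ∑_e H' t i e b₁.A e x_t = ∑_t ∑_e H' t i e ∑_l b₁.B e l w_t l =
∑_t ∑_l ∑_e b₂.B i e V' t e l w_t l`. -/
def Stmt_DD2 : Prop :=
  ∀ (R : Type u) [Ring R] (C : Type u) [CommRing C] [Algebra C R] (S : Subring R), DP C S →
    ∀ (ρ : P2 R) (b₁ b₂ : P1 R), b₁.Over S → b₂.Over S →
    (∀ (M : Type u) [AddCommGroup M] [Module R M] (y x : M),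
      at2 ρ y x → at1 b₁ x → at1 b₂ y) →
    ∃ (n : ℕ) (c : Fin n → C) (ρ' : PP R (Unit ⊕ Fin n)), ρ'.Over S ∧
      (∀ (M : Type u) [AddCommGroup M] [Module R M] (y x : M),
        at2 ρ y x → atn ρ' y (fun i => algebraMap C R (c i) • x)) ∧
      (∀ (M : Type u) [AddCommGroup M] [Module R M] (y : M) (x : Fin n → M),
        atn ρ' y x → (∀ i, at1 b₁ (x i)) → at1 b₂ y)

/-! ### Lemma X -/

/-- `p` is a maximal filter of formulas containing `p'` among those that contain no `ν` over `S`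
with `ν(N) ⊆ Ψ_n(N)` -/
structure Loc {R : Type u} [Ring R] (S : Subring R) (N : Type u) [AddCommGroup N] [Module R N]
    (Ψ : ℕ → P1 R) (p' p : Set (P1 R)) : Prop where
  fil : IsFil p
  sub : p' ⊆ p
  avoid : ∀ ν ∈ p, ν.Over S → ∀ n, ¬ Cl N ν (Ψ n)
  max : ∀ ω, ω ∉ p → ∃ α ∈ p, ∃ n : ℕ, ∃ ν : P1 R,
    ν.Over S ∧ Le (α.meet ω) ν ∧ Cl N ν (Ψ n)

/-- `N₁` is the hull of such a `p`, closed for all pairs over `S` that are closed on `N` -/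
structure LHull {R : Type u} [Ring R] (S : Subring R) (N : Type u) [AddCommGroup N] [Module R N]
    (Ψ : ℕ → P1 R) (p' p : Set (P1 R)) (N₁ : Type u) [AddCommGroup N₁] [Module R N₁]
    (a : N₁) : Prop where
  loc : Loc S N Ψ p' p
  hull : Hull p N₁ a
  closed : ∀ μ ν : P1 R, μ.Over S → ν.Over S → Cl N μ ν → Cl N₁ μ ν

/-- LXA (80 lines). PROOF: Zorn for the filters `p ⊇ p'` with the property `avoid`, ordered by
inclusion; `{θ | ∃ α ∈ p', Le α θ}` is one. If `p` is maximal and `ω ∉ p`, the filter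
`{θ | ∃ α ∈ p, Le (α ∧ ω) θ}` contains `p` and `ω`, so it does not have `avoid`. -/
def Stmt_LXA : Prop :=
  ∀ (R : Type u) [Ring R] (S : Subring R) (N : Type u) [AddCommGroup N] [Module R N]
    (Ψ : ℕ → P1 R) (p' : Set (P1 R)), p'.Nonempty →
    (∀ α ∈ p', ∀ β ∈ p', ∃ γ ∈ p', Le γ α ∧ Le γ β) →
    (∀ α ∈ p', ∀ ν : P1 R, ν.Over S → Le α ν → ∀ n, ¬ Cl N ν (Ψ n)) →
    ∃ p, Loc S N Ψ p' p

/-- LXB (130 lines, uses DD2). PROOF: `botF` is over `S` and `Cl N botF (Ψ 0)`: not in `p`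
(avoid). `Irr p`: for `ω₁, ω₂ ∉ p` take `α_i, n_i, ν_i` (max), `α = α₁ ∧ α₂`, `n = max n₁ n₂`,
`Cl N (ν₁ + ν₂) (Ψ n)`, `joinF (α ∧ ω₁) (α ∧ ω₂) ≤ joinF ν₁ ν₂` over `S`; if the first is in `p` so is
the second: contradiction with avoid. Rule: let `ρ(y;x) ∧ ν(x) ≤ θ(y)`, `exr ρ μ ∈ p`, `θ ∉ p`; take
`α, n, ν₀` (max) for `θ`: `α ∧ θ ≤ ν₀`. `ρ_α(y;x) = ρ(y;x) ∧ α(y)` (a formula in `P2 R`);
`ρ_α(y;x) ∧ ν(x) ≤ ν₀(y)`. DD2 (`b₁ = ν`, `b₂ = ν₀`): `c, ρ'`. Let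
`ω'(y) = ∃ x̄ (ρ'(y; x̄) ∧ ⋀_j μ(x_j))`, over `S` (`Dfn`). `Cl N ω' ν₀` (`Cl N μ ν`), so
`Cl N ω' (Ψ n)`. And `(exr ρ μ) ∧ α ≤ ω'` (`μ(x)` implies `μ(c_j x)`, `at1_central`,
`Algebra.commutes`), so `ω' ∈ p`: contradiction with avoid. -/
def Stmt_LXB : Prop :=
  ∀ (R : Type u) [Ring R] (C : Type u) [CommRing C] [Algebra C R] (S : Subring R), DP C S →
    ∀ (N : Type u) [AddCommGroup N] [Module R N] (Ψ : ℕ → P1 R) (p' p : Set (P1 R)),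
    (∀ n, Le (Ψ n) (Ψ (n + 1))) → Loc S N Ψ p' p →
    (botF : P1 R) ∉ p ∧ Irr p ∧
      ∀ μ ν : P1 R, μ.Over S → ν.Over S → Cl N μ ν → Rule p μ ν

/-- LXC (30 lines, uses LXA, LXB, THH). -/
def Stmt_LXC : Prop :=
  ∀ (R : Type u) [Ring R] (C : Type u) [CommRing C] [Algebra C R] (S : Subring R), DP C S →
    ∀ (N : Type u) [AddCommGroup N] [Module R N] (Ψ : ℕ → P1 R) (p' : Set (P1 R)),
    (∀ n, Le (Ψ n) (Ψ (n + 1))) → p'.Nonempty →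
    (∀ α ∈ p', ∀ β ∈ p', ∃ γ ∈ p', Le γ α ∧ Le γ β) →
    (∀ α ∈ p', ∀ ν : P1 R, ν.Over S → Le α ν → ∀ n, ¬ Cl N ν (Ψ n)) →
    ∃ (p : Set (P1 R)) (N₁ : Type u) (_ : AddCommGroup N₁) (_ : Module R N₁) (a : N₁),
      LHull S N Ψ p' p N₁ a

/-! ### the element `a` -/

/-- maximal filters of formulas over `S` -/
structure SMax {R : Type u} [Ring R] (S : Subring R) (N : Type u) [AddCommGroup N] [Module R N]
    (φ ψ : P1 R) (p' : Set (P1 R)) : Prop where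
  ovr : ∀ α ∈ p', α.Over S
  mem : φ ∈ p'
  meet : ∀ α ∈ p', ∀ β ∈ p', PP.meet α β ∈ p'
  up : ∀ α ∈ p', ∀ ν : P1 R, ν.Over S → Le α ν → ν ∈ p'
  avoid : ∀ ν ∈ p', ¬ Cl N ν ψ
  max : ∀ ω : P1 R, ω.Over S → ω ∉ p' → ∃ κ ∈ p', Cl N (PP.meet κ ω) ψ

/-- SFI (80 lines). PROOF: Zorn for the sets with the first five properties, ordered by inclusion;
`{θ | θ.Over S ∧ Le φ θ}` is one. If `p'` is maximal and `ω ∉ p'` is over `S`, the set
`{ν | ν.Over S ∧ ∃ κ ∈ p', Le (κ ∧ ω) ν}` contains `p'` and `ω` and has the first four properties, so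
it contains `ν` with `Cl N ν ψ`, and `Cl N (κ ∧ ω) ψ`. -/
def Stmt_SFI : Prop :=
  ∀ (R : Type u) [Ring R] (S : Subring R) (N : Type u) [AddCommGroup N] [Module R N]
    (φ ψ : P1 R), φ.Over S → Opn N φ ψ → ∃ p', SMax S N φ ψ p'

/-- ROO (50 lines, uses LXC). PROOF: LXC with `Ψ n = ψ` and `p'` (a filter over `S`:
if `α ∈ p'`, `Le α ν`, `ν` over `S` then `ν ∈ p'`, so `¬ Cl N ν ψ`). `φ ∈ p' ⊆ p₁`; `ψ ∉ p₁` by avoid
(`Cl N ψ ψ`), so `Opn N₁ φ ψ` at `a`. If `ω` over `S` is in `p₁` and not in `p'`, take `κ ∈ p'` with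
`Cl N (κ ∧ ω) ψ` (SMax.max): `κ ∧ ω ∈ p₁` is over `S`: contradiction with avoid. -/
def Stmt_ROO : Prop :=
  ∀ (R : Type u) [Ring R] (C : Type u) [CommRing C] [Algebra C R] (S : Subring R), DP C S →
    ∀ (N : Type u) [AddCommGroup N] [Module R N] (φ ψ : P1 R) (p' : Set (P1 R)), ψ.Over S →
    SMax S N φ ψ p' →
    ∃ (p : Set (P1 R)) (N₁ : Type u) (_ : AddCommGroup N₁) (_ : Module R N₁) (a : N₁),
      LHull S N (fun _ => ψ) p' p N₁ a ∧ Opn N₁ φ ψ ∧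
      ∀ ω : P1 R, ω.Over S → (ω ∈ p ↔ ω ∈ p')

/-! ### the tree and the branches -/

/-- the binary tree of intervals -/
structure Tree {R : Type u} [Ring R] (S : Subring R) (N : Type u) [AddCommGroup N] [Module R N]
    (φ ψ : P1 R) (Φ Ψ η : List Bool → P1 R) : Prop where
  ovr : ∀ s, (Φ s).Over S ∧ (Ψ s).Over S ∧ (η s).Over S
  root : Φ [] = φ ∧ Ψ [] = PP.meet φ ψ
  opn : ∀ s, Opn N (Φ s) (Ψ s)
  le : ∀ s, Le (Ψ s) (η s) ∧ Le (η s) (Φ s)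
  child0 : ∀ s, Φ (false :: s) = η s ∧ Ψ (false :: s) = Ψ s
  child1 : ∀ s, Φ (true :: s) = Φ s ∧ Ψ (true :: s) = η s

/-- the first `n` values of `x`, in reverse order -/
def pre (x : ℕ → Bool) : ℕ → List Bool
  | 0 => []
  | n + 1 => x n :: pre x n

/-- TRE (80 lines). PROOF: choose for every pair `(θ, θ')` as in the hypothesis such an `η`;
define `(Φ s, Ψ s)` by recursion on the list `s`, as an element of the subtype of the pairs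
`(θ', θ)` over `S` with `φ ∧ ψ ≤ θ ≤ θ' ≤ φ`, `Opn N θ' θ`. -/
def Stmt_TRE : Prop :=
  ∀ (R : Type u) [Ring R] (S : Subring R) (N : Type u) [AddCommGroup N] [Module R N]
    (φ ψ : P1 R), φ.Over S → ψ.Over S → Opn N φ ψ →
    (∀ θ θ' : P1 R, θ.Over S → θ'.Over S → Le (φ.meet ψ) θ → Le θ θ' → Le θ' φ → Opn N θ' θ →
      ∃ η : P1 R, η.Over S ∧ Le θ η ∧ Le η θ' ∧ Opn N η θ ∧ Opn N θ' η) →
    ∃ Φ Ψ η : List Bool → P1 R, Tree S N φ ψ Φ Ψ η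

/-- BRA (80 lines, uses LXC). The point of a branch. PROOF: along a branch `Φ (pre x n)` decreases
and `Ψ (pre x n)` increases. LXC with `Ψ n := Ψ (pre x n)`, `p' = {θ | ∃ n, θ = Φ (pre x n)}`: if
`Φ (pre x n) ≤ ν` and `Cl N ν (Ψ (pre x m))` then with `k = max n m`
`Cl N (Φ (pre x k)) (Ψ (pre x k))`: contradiction with `opn`. `φ = Φ (pre x 0) ∈ p`; if `ψ ∈ p` then
`φ ∧ ψ ∈ p` is over `S` and `Cl N (φ ∧ ψ) (Ψ (pre x 0))`: contradiction with avoid. -/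
def Stmt_BRA : Prop :=
  ∀ (R : Type u) [Ring R] (C : Type u) [CommRing C] [Algebra C R] (S : Subring R), DP C S →
    ∀ (N : Type u) [AddCommGroup N] [Module R N] (φ ψ : P1 R) (Φ Ψ η : List Bool → P1 R),
    Tree S N φ ψ Φ Ψ η → ∀ x : ℕ → Bool,
    ∃ (p : Set (P1 R)) (N₁ : Type u) (_ : AddCommGroup N₁) (_ : Module R N₁) (b : N₁),
      LHull S N (fun n => Ψ (pre x n)) {θ | ∃ n, θ = Φ (pre x n)} p N₁ b ∧ Opn N₁ φ ψ

/-! ### the linking argument -/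

/-- NPU (80 lines). PROOF: `B = span {b}`, `f = B.mkQ : N → N ⧸ B` is not injective, so not pure
(formula `x = 0`), so by `Hull.rigid` there is `θ ∉ p` true at `f a`. `θ = (m, k, A, B')`,
witnesses `mk (y_l)`: there are `r_i` with `A i • a + ∑ B' i l • y_l = r_i • b`. `ρ₀(z; x)` is
`∃ y, ⋀_i A i z - r_i x + ∑ B' i l y_l = 0`, `χ = θ`. -/
def Stmt_NPU : Prop :=
  ∀ (R : Type u) [Ring R] (p : Set (P1 R)) (N : Type u) [AddCommGroup N] [Module R N] (a : N),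
    Hull p N a → ∀ b : N, b ≠ 0 →
    ∃ (ρ₀ : P2 R) (χ : P1 R), at2 ρ₀ a b ∧
      (∀ (M : Type u) [AddCommGroup M] [Module R M] (z : M), at1 χ z ↔ at2 ρ₀ z 0) ∧ χ ∉ p

/-- SML (25 lines). PROOF: if the second alternative fails, there is `ω` over `S` with `ω(z)`,
`ω ∉ p'`; `κ ∈ p'` with `Cl N (κ ∧ ω) ψ`, so `Cl N₁ (κ ∧ ω) ψ`, and `ψ(z)`. -/
def Stmt_SML : Prop :=
  ∀ (R : Type u) [Ring R] (S : Subring R) (N : Type u) [AddCommGroup N] [Module R N]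
    (φ ψ : P1 R) (p' : Set (P1 R)), ψ.Over S → SMax S N φ ψ p' →
    ∀ (N₁ : Type u) [AddCommGroup N₁] [Module R N₁],
    (∀ μ ν : P1 R, μ.Over S → ν.Over S → Cl N μ ν → Cl N₁ μ ν) →
    ∀ z : N₁, (∀ θ ∈ p', at1 θ z) →
      at1 ψ z ∨ ∀ ω : P1 R, ω.Over S → (at1 ω z ↔ ω ∈ p')

/-- the common hypotheses of the linking argument: `a ∈ N₁` is the element of ROO, `b ∈ N₁` has a
type `pb` as in BRA (transported to `N₁`) -/
structure Ctx {R : Type u} [Ring R] (C : Type u) [CommRing C] [Algebra C R] (S : Subring R)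
    (N : Type u) [AddCommGroup N] [Module R N] (φ ψ : P1 R) (p' p₁ : Set (P1 R))
    (N₁ : Type u) [AddCommGroup N₁] [Module R N₁] (a : N₁) (Ψ : ℕ → P1 R)
    (pb' pb : Set (P1 R)) (b : N₁) : Prop where
  dp : DP C S
  phi : φ.Over S
  psi : ψ.Over S
  smax : SMax S N φ ψ p'
  lhull : LHull S N (fun _ => ψ) p' p₁ N₁ a
  ovr : ∀ n, (Ψ n).Over S
  locb : Loc S N Ψ pb' pb
  typeb : ∀ θ : P1 R, at1 θ b ↔ θ ∈ pb

/-- RD1 (130 lines, uses NPU, DD2). PROOF: `b ≠ 0` (`botF ∉ pb` by avoid). NPU: `ρ₀`, `χ ∉ p₁`.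
By max (for `p₁`): `α ∈ p₁`, `ν₁'` over `S`, `α ∧ χ ≤ ν₁'`, `Cl N ν₁' ψ`. `ν₁ = joinF ν₁' ψ`: over `S`,
`α ∧ χ ≤ ν₁`, `ψ ≤ ν₁`, `Cl N ν₁ ψ`. Let `ω(y) = ∃ x (ν₁(x) ∧ ρ₀(x; y) ∧ α(x))` (a formula in `P1 R`).
CLAIM `ω ∉ pb`: otherwise `ω(b)`: `t ∈ N₁` with `ν₁(t)`, `ρ₀(t; b)`, `α(t)`; so
`ρ₀(a - t; 0)`, `χ(a - t)`, `α(a - t)`, `ν₁(a - t)`, `ν₁(a)`, `ν₁ ∈ p₁`: contradiction with avoid. By
max (for `pb`): `β ∈ pb`, `m`, `ν` over `S`, `β ∧ ω ≤ ν`, `Cl N ν (Ψ m)`. Let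
`ρ₂(y; x) = ρ₀(x; y) ∧ α(x) ∧ β(y)` (in `P2 R`): `ρ₂(b; a)`, and `ρ₂(y; x) ∧ ν₁(x) ≤ ν(y)`. DD2
(`b₁ = ν₁`, `b₂ = ν`) gives `n, c, ρ'`. If all `ψ(s_i)` then `ν₁(s_i)`, so `ν(y)`, so `Ψ m (y)`
(`LHull.closed` for `ν`, `Ψ m`). -/
def Stmt_RD1 : Prop :=
  ∀ (R : Type u) [Ring R] (C : Type u) [CommRing C] [Algebra C R] (S : Subring R)
    (N : Type u) [AddCommGroup N] [Module R N] (φ ψ : P1 R) (p' p₁ : Set (P1 R))
    (N₁ : Type u) [AddCommGroup N₁] [Module R N₁] (a : N₁) (Ψ : ℕ → P1 R)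
    (pb' pb : Set (P1 R)) (b : N₁), Ctx C S N φ ψ p' p₁ N₁ a Ψ pb' pb b →
    ∃ (n m : ℕ) (c : Fin n → C) (ρ' : PP R (Unit ⊕ Fin n)), ρ'.Over S ∧
      atn ρ' b (fun i => algebraMap C R (c i) • a) ∧
      ∀ (y : N₁) (s : Fin n → N₁), (∀ i, at1 ψ (s i)) → atn ρ' y s → at1 (Ψ m) y

/-- a good linking formula with variables indexed by `I` -/
structure Good {R : Type u} [Ring R] (S : Subring R) (ψ : P1 R) (p' : Set (P1 R)) (N₁ : Type u)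
    [AddCommGroup N₁] [Module R N₁] (Ψ : ℕ → P1 R) (b : N₁) (I : Type) [Fintype I] (m : ℕ)
    (ρ' : PP R (Unit ⊕ I)) (a' : I → N₁) : Prop where
  ovr : ρ'.Over S
  type : ∀ i, ∀ ω : P1 R, ω.Over S → (at1 ω (a' i) ↔ ω ∈ p')
  link : atn ρ' b a'
  small : ∀ (y : N₁) (s : I → N₁), (∀ i, at1 ψ (s i)) → atn ρ' y s → at1 (Ψ m) y

/-- TRP (50 lines). PROOF: rename the variables along `Fintype.equivFin I` (write the formula
`⟨m, k, A', B⟩` with `A' i j` = `A i` at the image of `j`, and use `Fintype.sum_sum_type`,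
`Equiv.sum_comp`; or `Dfn.reidx`). -/
def Stmt_TRP : Prop :=
  ∀ (R : Type u) [Ring R] (S : Subring R) (ψ : P1 R) (p' : Set (P1 R)) (N₁ : Type u)
    [AddCommGroup N₁] [Module R N₁] (Ψ : ℕ → P1 R) (b : N₁) (I : Type) [Fintype I] (m : ℕ)
    (ρ' : PP R (Unit ⊕ I)) (a' : I → N₁), Good S ψ p' N₁ Ψ b I m ρ' a' →
    ∃ (ρ'' : PP R (Unit ⊕ Fin (Fintype.card I))) (a'' : Fin (Fintype.card I) → N₁),
      Good S ψ p' N₁ Ψ b (Fin (Fintype.card I)) m ρ'' a''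

/-- RD2 (100 lines, uses RD1, SML, TRP). PROOF: `n, m, c, ρ'` from RD1. For each `i` all
`θ ∈ p'` are true at `c_i a` (`p' ⊆ p₁`, `at1_central`). `I = {i : Fin n // ¬ at1 ψ (c_i a)}`: by SML
(`LHull.closed`) for `i ∈ I` the second alternative holds. Let
`ρ''(y; (x_i)_{i ∈ I}) = ∃ (x_i)_{i ∉ I} (ρ'(y; x̄) ∧ ⋀_{i ∉ I} ψ(x_i))`, over `S` (`Dfn.ex`,
`Dfn.all`, `Dfn.reidx`). `Good` for `I`; TRP. -/
def Stmt_RD2 : Prop :=
  ∀ (R : Type u) [Ring R] (C : Type u) [CommRing C] [Algebra C R] (S : Subring R)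
    (N : Type u) [AddCommGroup N] [Module R N] (φ ψ : P1 R) (p' p₁ : Set (P1 R))
    (N₁ : Type u) [AddCommGroup N₁] [Module R N₁] (a : N₁) (Ψ : ℕ → P1 R)
    (pb' pb : Set (P1 R)) (b : N₁), Ctx C S N φ ψ p' p₁ N₁ a Ψ pb' pb b →
    ∃ (n m : ℕ) (ρ' : PP R (Unit ⊕ Fin n)) (a' : Fin n → N₁),
      Good S ψ p' N₁ Ψ b (Fin n) m ρ' a'

/-- all localizations of `θ` are in `p'` -/
def LocIn {R : Type u} [Ring R] (S : Subring R) (ψ : P1 R) (p' : Set (P1 R)) {n : ℕ}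
    (θ : PP R (Fin n)) : Prop :=
  ∀ (i : Fin n) (χ : P1 R), χ.Over S →
    (∀ (M : Type u) [AddCommGroup M] [Module R M] (z : M),
      at1 χ z ↔ ∃ s : Fin n → M, (∀ j, j ≠ i → at1 ψ (s j)) ∧ s i = z ∧ θ.ev M s) →
    χ ∈ p'

/-- MNM (100 lines, uses TRP). PROOF: let `θ` hold at `a'`, and suppose for some `i` and `χ` as in
`LocIn` `χ ∉ p'`. SMax.max: `κ ∈ p'`, `Cl N (κ ∧ χ) ψ`, so `Cl N₁ (κ ∧ χ) ψ`. `I = {j // j ≠ i}`,
`ρ''(y; (x_j)_{j ≠ i}) = ∃ x_i (ρ'(y; x̄) ∧ θ(x̄) ∧ κ(x_i))`, over `S`. `Good` for `I`, the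
restriction of `a'` and the same `m`: link with `x_i = a' i` (`κ(a' i)`); small: if `ψ(x_j)` for
`j ≠ i` then `χ(x_i)`, `κ(x_i)`, so `ψ(x_i)`, and `small` for `ρ'` applies. TRP gives a good formula
for `card I = n - 1 < n`: contradiction with minimality. -/
def Stmt_MNM : Prop :=
  ∀ (R : Type u) [Ring R] (S : Subring R) (N : Type u) [AddCommGroup N] [Module R N]
    (φ ψ : P1 R) (p' : Set (P1 R)) (N₁ : Type u) [AddCommGroup N₁] [Module R N₁],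
    ψ.Over S → SMax S N φ ψ p' →
    (∀ μ ν : P1 R, μ.Over S → ν.Over S → Cl N μ ν → Cl N₁ μ ν) →
    ∀ (Ψ : ℕ → P1 R) (b : N₁) (n m : ℕ) (ρ' : PP R (Unit ⊕ Fin n)) (a' : Fin n → N₁),
    Good S ψ p' N₁ Ψ b (Fin n) m ρ' a' →
    (∀ n' < n, ∀ (m' : ℕ) (ρ'' : PP R (Unit ⊕ Fin n')) (a'' : Fin n' → N₁),
      ¬ Good S ψ p' N₁ Ψ b (Fin n') m' ρ'' a'') →
    ∀ θ : PP R (Fin n), θ.Over S → θ.ev N₁ a' → LocIn S ψ p' θ

/-- MNC (80 lines). PROOF: for every `i` there is `χ_i` over `S` as in `LocIn` (`Dfn.ex`,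
`Dfn.all`, `Dfn.reidx`, `Dfn.lin`; `ψ`, `θ` are over `S`), so `χ_i ∈ p'`, `χ_i(a' i)`: a tuple
`s^i` with `s^i_i = a' i`, `ψ(s^i_j)` for `j ≠ i`, `θ(s^i)`. The sum over `i` (`PP.ev_sum`) has the
`j`-th coordinate `a' j + ∑_{i ≠ j} s^i_j`. -/
def Stmt_MNC : Prop :=
  ∀ (R : Type u) [Ring R] (S : Subring R) (ψ : P1 R) (p' : Set (P1 R)) (N₁ : Type u)
    [AddCommGroup N₁] [Module R N₁] (n : ℕ) (a' : Fin n → N₁), ψ.Over S →
    (∀ i, ∀ ω : P1 R, ω.Over S → (at1 ω (a' i) ↔ ω ∈ p')) →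
    ∀ θ : PP R (Fin n), θ.Over S → LocIn S ψ p' θ →
    ∃ s : Fin n → N₁, (∀ j, at1 ψ (s j)) ∧ θ.ev N₁ (fun j => a' j + s j)

/-- the condition that decides `κ(b)` -/
def QQ {R : Type u} [Ring R] (S : Subring R) (ψ : P1 R) (p' : Set (P1 R)) (n : ℕ)
    (ρ' : PP R (Unit ⊕ Fin n)) (κ : P1 R) : Prop :=
  ∀ τ : PP R (Fin n), τ.Over S →
    (∀ (M : Type u) [AddCommGroup M] [Module R M] (s : Fin n → M),
      τ.ev M s ↔ ∃ y, atn ρ' y s ∧ at1 κ y) →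
    LocIn S ψ p' τ

/-- KAP (60 lines, uses MNM, MNC). PROOF: (→) `κ(b)`: `τ` holds at `a'` (with `y = b`), so
`LocIn` by MNM. (←) take `τ` over `S` with the equivalence (`Dfn`); `LocIn τ`, MNC: `s` with `ψ(s_j)`
and `τ(a' + s)`: `y'` with `ρ'(y'; a' + s)`, `κ(y')`. Subtract from `ρ'(b; a')`: `ρ'(b - y'; -s)`, so
`Ψ m (b - y')`, `κ(b - y')`, `κ(b)`. -/
def Stmt_KAP : Prop :=
  ∀ (R : Type u) [Ring R] (S : Subring R) (N : Type u) [AddCommGroup N] [Module R N]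
    (φ ψ : P1 R) (p' : Set (P1 R)) (N₁ : Type u) [AddCommGroup N₁] [Module R N₁],
    ψ.Over S → SMax S N φ ψ p' →
    (∀ μ ν : P1 R, μ.Over S → ν.Over S → Cl N μ ν → Cl N₁ μ ν) →
    ∀ (Ψ : ℕ → P1 R) (b : N₁) (n m : ℕ) (ρ' : PP R (Unit ⊕ Fin n)) (a' : Fin n → N₁),
    Good S ψ p' N₁ Ψ b (Fin n) m ρ' a' →
    (∀ n' < n, ∀ (m' : ℕ) (ρ'' : PP R (Unit ⊕ Fin n')) (a'' : Fin n' → N₁),
      ¬ Good S ψ p' N₁ Ψ b (Fin n') m' ρ'' a'') →
    ∀ κ : P1 R, κ.Over S → Le (Ψ m) κ → (at1 κ b ↔ QQ S ψ p' n ρ' κ)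

/-- KEY (30 lines, uses RD2, KAP). PROOF: take the least `n` for which there are `m, ρ', a'` with
`Good` (RD2, `Nat.find`). -/
def Stmt_KEY : Prop :=
  ∀ (R : Type u) [Ring R] (C : Type u) [CommRing C] [Algebra C R] (S : Subring R)
    (N : Type u) [AddCommGroup N] [Module R N] (φ ψ : P1 R) (p' p₁ : Set (P1 R))
    (N₁ : Type u) [AddCommGroup N₁] [Module R N₁] (a : N₁) (Ψ : ℕ → P1 R)
    (pb' pb : Set (P1 R)) (b : N₁), Ctx C S N φ ψ p' p₁ N₁ a Ψ pb' pb b →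
    ∃ (n m : ℕ) (ρ' : PP R (Unit ⊕ Fin n)), ρ'.Over S ∧
      ∀ κ : P1 R, κ.Over S → Le (Ψ m) κ → (κ ∈ pb ↔ QQ S ψ p' n ρ' κ)

/-- CNT (90 lines, uses CTF). PROOF: choose `n(x), m(x), ρ(x)`. The map
`x ↦ (n, ρ, m, pre x m)` goes to the countable set `Σ n, {ρ over S} × ℕ × List Bool`. It is
injective: if `x ≠ x'` have the same value, let `k` be the least index with `x k ≠ x' k`;
`pre x m = pre x' m` gives `m ≤ k`; `s = pre x k = pre x' k`; say `x k = false`, `x' k = true`. Then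
`η s = Φ (pre x (k+1)) ∈ P x`, `η s = Ψ (pre x' (k+1)) ∉ P x'`, and
`Ψ (pre x m) ≤ Ψ (pre x k) ≤ η s` (`Ψ` increases along branches), so both are equivalent to
`Q n ρ (η s)`: contradiction. But `ℕ → Bool` is not countable. -/
def Stmt_CNT : Prop :=
  ∀ (R : Type u) [Ring R] (S : Subring R), (S : Set R).Countable →
    ∀ (N : Type u) [AddCommGroup N] [Module R N] (φ ψ : P1 R) (Φ Ψ η : List Bool → P1 R),
    Tree S N φ ψ Φ Ψ η →
    ∀ P : (ℕ → Bool) → Set (P1 R), (∀ x n, Φ (pre x n) ∈ P x) → (∀ x n, Ψ (pre x n) ∉ P x) →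
    ∀ Q : (n : ℕ) → PP R (Unit ⊕ Fin n) → P1 R → Prop,
    (∀ x, ∃ (n m : ℕ) (ρ : PP R (Unit ⊕ Fin n)), ρ.Over S ∧
      ∀ κ : P1 R, κ.Over S → Le (Ψ (pre x m)) κ → (κ ∈ P x ↔ Q n ρ κ)) → False

/-- THT = `Stmt_THT` of part B (120 lines, uses DPC, TRE, SFI, BRA, ROO, KEY, CNT). PROOF: `nm θ θ'`
= an `η` as in `NM` if there is one, otherwise `θ`. DPC with `T₀` = the countable set of the
coefficients of `φ`, `ψ` and of all `q.1, q.2` for `q ∈ T` gives `S`. TRE (its hypothesis by `NM` and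
`nm`): `Φ, Ψ, η`. SFI: `p'`. ROO: `p₁, N₁, a`. BRA: for all `x` `p_x, N_x, b_x`. `N₁` and the
`N_x` are points, open on `(φ/ψ)`, `T`-closed (`LHull.closed`). Suppose the theorem fails: then
`N_x ≃ N₁` for all `x`; let `b ∈ N₁` be the image of `b_x`: the same type. `Ctx` holds, KEY gives the
data for `x`. CNT with `P x = p_x`, `Q = QQ S ψ p'`: `Φ (pre x n) ∈ p_x` (`Loc.sub`),
`Ψ (pre x n) ∉ p_x` (avoid, `Cl N (Ψ ..) (Ψ ..)`). -/
theorem tht_doc : True := trivial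

end Pool.ZgCB
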