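import Pool.Agent.Work.MP_d94bda_cb.InterfaceC

open scoped BigOperators

namespace Pool.ZgCB

universe u

theorem p_KAP (h1 : Stmt_MNM.{u}) (h2 : Stmt_MNC.{u}) : Stmt_KAP.{u} := by
  intro R _ S N _ _ φ ψ p' N₁ _ _ hψ hmax hcl Ψ b n m ρ' a' hgood hmin κ hκ hle
  constructor
  · intro hb τ hτ hequiv
    exact h1 R S N φ ψ p' N₁ hψ hmax hcl Ψ b n m ρ' a' hgood hmin τ hτ
      ((hequiv N₁ a').2 ⟨b, hgood.link, hb⟩)
  · intro hQ
    obtain ⟨τ, hτ, e⟩ := Dfn.exOne (ι := Fin n) (Dfn.and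
      (Dfn.reidx (ι := Fin n ⊕ Unit) (Dfn.of hgood.ovr)
        (Sum.elim (fun _ => Sum.inr ()) Sum.inl : Unit ⊕ Fin n → Fin n ⊕ Unit))
      (Dfn.reidx (ι := Fin n ⊕ Unit) (Dfn.of hκ) (fun _ : Unit => Sum.inr ())))
    have e' : ∀ (M : Type u) [AddCommGroup M] [Module R M] (s : Fin n → M),
        τ.ev M s ↔ ∃ y, atn ρ' y s ∧ at1 κ y := by
      intro M _ _ s
      rw [e M s]
      refine exists_congr fun y => and_congr ?_ Iff.rfl
      unfold atn
      have hf : (fun c : Unit ⊕ Fin n => (Sum.elim s (fun _ : Unit => y) : Fin n ⊕ Unit → M)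
          ((Sum.elim (fun _ => Sum.inr ()) Sum.inl : Unit ⊕ Fin n → Fin n ⊕ Unit) c)) =
          Sum.elim (fun _ => y) s := by
        funext c
        rcases c with c | c <;> rfl
      rw [hf]
    obtain ⟨s, hs, hev⟩ := h2 R S ψ p' N₁ n a' hψ hgood.type τ hτ (hQ τ hτ e')
    obtain ⟨y', hy1, hy2⟩ := (e' N₁ _).1 hev
    have h3 := atn_sub ρ' hgood.link hy1
    have h4 : at1 (Ψ m) (b - y') := by
      refine hgood.small (b - y') (fun i => a' i - (a' i + s i)) (fun i => ?_) h3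
      have : a' i - (a' i + s i) = - s i := by abel
      rw [this]
      exact at1_neg ψ (hs i)
    have h5 := at1_add κ (hle N₁ _ h4) hy2
    rwa [sub_add_cancel] at h5

end Pool.ZgCB
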