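import Pool.Agent.Work.MP_d94bda_cb.InterfaceC

/-! # Block KEY: the type of the element of a branch is determined by countably many data -/

open scoped BigOperators

namespace Pool.ZgCB

universe u

theorem p_KEY (hRD2 : Stmt_RD2.{u}) (hKAP : Stmt_KAP.{u}) : Stmt_KEY.{u} := by
  classical
  intro R _ C _ _ S N _ _ φ ψ p' p₁ N₁ _ _ a Ψ pb' pb b hctx
  have hex : ∃ n : ℕ, ∃ (m : ℕ) (ρ' : PP R (Unit ⊕ Fin n)) (a' : Fin n → N₁),
      Good S ψ p' N₁ Ψ b (Fin n) m ρ' a' :=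
    hRD2 R C S N φ ψ p' p₁ N₁ a Ψ pb' pb b hctx
  obtain ⟨m, ρ', a', hg⟩ := Nat.find_spec hex
  refine ⟨Nat.find hex, m, ρ', hg.ovr, fun κ hκ hle => ?_⟩
  rw [← hctx.typeb κ]
  refine hKAP R S N φ ψ p' N₁ hctx.psi hctx.smax hctx.lhull.closed Ψ b (Nat.find hex) m ρ' a'
    hg ?_ κ hκ hle
  intro n' hn' m' ρ'' a'' hg'
  exact Nat.find_min hex hn' ⟨m', ρ'', a'', hg'⟩

end Pool.ZgCB
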