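import Pool.Agent.Work.MP_d94bda_cb.InterfaceK

/-! # MP_d94bda_al, part K: block KIN (the inductive step) -/

set_option autoImplicit false

open scoped BigOperators

namespace Pool.ZgCB

universe u

/-- the formula with the two variables exchanged -/
def KIN_swap {R : Type u} [Ring R] (ρ : P2 R) : P2 R :=
  ⟨ρ.m, ρ.k, fun i j => ρ.A i j.swap, ρ.B⟩

theorem KIN_at2_swap {R : Type u} [Ring R] (ρ : P2 R) {M : Type u} [AddCommGroup M] [Module R M]
    (x y : M) : at2 (KIN_swap ρ) x y ↔ at2 ρ y x := by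
  unfold at2 KIN_swap PP.ev
  refine exists_congr fun z => forall_congr' fun i => ?_
  simp only [Fintype.sum_sum_type, Finset.univ_unique, Finset.sum_singleton, Sum.elim_inl,
    Sum.elim_inr, Sum.swap_inl, Sum.swap_inr]
  rw [add_comm (ρ.A i (Sum.inr default) • x)]

theorem p_KIN (hKFC : Stmt_KFC.{u}) (hKE3 : Stmt_KE3.{u}) (hKRH : Stmt_KRH.{u}) :
    Stmt_KIN.{u} := by
  intro R _ C _ _ _ _ G _ _ hAC hCl hLoc hNf hch L hfin hClL c d hS hc a ha
  by_cases hca : at1 c a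
  · obtain ⟨y, hy, hcy⟩ := hc a hca
    exact ⟨y, hy, hS.1 L y hcy⟩
  obtain ⟨b, hdb, hcb⟩ : ∃ b : L, at1 d b ∧ ¬ at1 c (b : G) := by
    by_contra hcon
    push Not at hcon
    apply hNf
    obtain ⟨n, t, ht, h⟩ := hKFC R C G L hfin d
    refine hKE3 R C G hAC hCl hLoc hch c d hS ⟨a, ha, hca⟩ ⟨n, t, ht, fun x hx => ?_⟩
    obtain ⟨c', y, hy, hdy⟩ := h x hx
    refine ⟨c', ?_⟩
    rw [← hy]
    exact hcon y hdy
  have hdbG : at1 d (b : G) := at1_map d L.subtype hdb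
  obtain ⟨ρ, hρ, hρ'⟩ := hKRH R G hAC hCl hLoc c d hS a (b : G) ha hca hdbG hcb
  have hπG : at1 (d.meet (exr (KIN_swap ρ) d)) (b : G) := by
    rw [at1_meet, at1_exr]
    exact ⟨hdbG, a, (KIN_at2_swap ρ _ _).2 hρ, ha⟩
  have hχG : at1 (joinF c (d.meet (exr (KIN_swap ρ) d))) (b : G) := by
    rw [at1_join]
    exact ⟨0, b, at1_zero c, hπG, (zero_add _).symm⟩
  have hR : R0 d (joinF c (d.meet (exr (KIN_swap ρ) d))) := by
    rcases hS.2 _ (le_join_left c _) (join_le hS.1 (meet_le_left d _)) with h | h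
    · exact absurd (hCl _ _ h _ hχG) hcb
    · exact h
  have hχL := hClL _ _ hR b hdb
  rw [at1_join] at hχL
  obtain ⟨s, u, hcs, hu, hbsu⟩ := hχL
  rw [at1_meet, at1_exr] at hu
  obtain ⟨hdu, v, hvu, hdv⟩ := hu
  rw [KIN_at2_swap] at hvu
  have h1 : at2 ρ (a - (v : G)) ((b : G) - (u : G)) := at2_sub ρ hρ (at2_map ρ L.subtype hvu)
  have h2 : (b : G) - (u : G) = (s : G) := by
    rw [hbsu, Submodule.coe_add, add_sub_cancel_right]
  rw [h2] at h1
  have h3 : at1 c (a - (v : G)) :=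
    hρ' _ _ (at1_sub d ha (at1_map d L.subtype hdv)) (at1_map c L.subtype hcs) h1
  obtain ⟨y, hy, hcy⟩ := hc _ h3
  refine ⟨v + y, ?_, at1_add d hdv (hS.1 L y hcy)⟩
  rw [Submodule.coe_add, hy, add_sub_cancel]

end Pool.ZgCB
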