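import Pool.Agent.Work.MP_d94bda_cb.InterfaceA

/-!
# Block LCH of MP_d94bda_al: chains as functions (typed by helper84)
-/

namespace Pool.ZgCB

universe u

theorem LCH_one {R : Type u} [Ring R] (r : P1 R → P1 R → Prop) (hr : Serre r) (n : ℕ) :
    ∀ (b t : P1 R), Long r n b t → ∃ θ : ℕ → P1 R, Le b (θ 0) ∧ Le (θ n) t ∧
      ∀ i < n, Le (θ i) (θ (i + 1)) ∧ ¬ r (θ (i + 1)) (θ i) := by
  induction n with
  | zero =>
    intro b t h
    exact ⟨fun _ => b, Le.refl b, h, fun i hi => absurd hi (Nat.not_lt_zero i)⟩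
  | succ n ih =>
    rintro b t ⟨c, d, hbc, hcd, hdt, hn⟩
    obtain ⟨θ, h0, h1, h2⟩ := ih b c hbc
    refine ⟨fun i => if i ≤ n then θ i else d, ?_, ?_, ?_⟩
    · simpa using h0
    · simpa using hdt
    · intro i hi
      by_cases hin : i = n
      · subst hin
        have e1 : (if i ≤ i then θ i else d) = θ i := if_pos le_rfl
        have e2 : (if i + 1 ≤ i then θ (i + 1) else d) = d := if_neg (by omega)
        simp only [e1, e2]
        exact ⟨Le.trans h1 hcd, fun h => hn (hr.trans _ _ _ h (hr.le _ _ h1))⟩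
      · have hlt : i < n := by omega
        have e1 : (if i ≤ n then θ i else d) = θ i := if_pos hlt.le
        have e2 : (if i + 1 ≤ n then θ (i + 1) else d) = θ (i + 1) := if_pos hlt
        simp only [e1, e2]
        exact h2 i hlt

theorem LCH_two {R : Type u} [Ring R] (r : P1 R → P1 R → Prop) (n : ℕ) :
    ∀ θ : ℕ → P1 R, (∀ i < n, Le (θ i) (θ (i + 1)) ∧ ¬ r (θ (i + 1)) (θ i)) →
      Long r n (θ 0) (θ n) := by
  induction n with
  | zero =>
    intro θ _
    exact Le.refl _
  | succ n ih =>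
    intro θ h
    exact ⟨θ n, θ (n + 1), ih θ (fun i hi => h i (by omega)), (h n (by omega)).1, Le.refl _,
      (h n (by omega)).2⟩

theorem p_LCH : Stmt_LCH.{u} := by
  intro R _ r hr
  exact ⟨LCH_one r hr, LCH_two r⟩

end Pool.ZgCB
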