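import Pool.Agent.Work.MP_d94bda_cb.InterfaceC

/-! Block LXA: maximal filters (Zorn). -/

open scoped BigOperators

namespace Pool.ZgCB

universe u

/-- the sets of formulas used in Zorn's lemma -/
def LXAq {R : Type u} [Ring R] (S : Subring R) (N : Type u) [AddCommGroup N] [Module R N]
    (Ψ : ℕ → P1 R) (p' : Set (P1 R)) : Set (Set (P1 R)) :=
  {p | IsFil p ∧ p' ⊆ p ∧ ∀ ν ∈ p, ν.Over S → ∀ n, ¬ Cl N ν (Ψ n)}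

theorem p_LXA : Stmt_LXA.{u} := by
  intro R _ S N _ _ Ψ p' hne hdir hav
  have h0 : {θ : P1 R | ∃ α ∈ p', Le α θ} ∈ LXAq S N Ψ p' := by
    refine ⟨⟨?_, ?_, ?_⟩, ?_, ?_⟩
    · obtain ⟨α, hα⟩ := hne
      exact ⟨α, hα, le_top α⟩
    · rintro θ₁ ⟨α, hα, h1⟩ θ₂ ⟨β, hβ, h2⟩
      obtain ⟨γ, hγ, h3, h4⟩ := hdir α hα β hβ
      exact ⟨γ, hγ, le_meet (h3.trans h1) (h4.trans h2)⟩
    · rintro θ ⟨α, hα, h1⟩ β h2
      exact ⟨α, hα, h1.trans h2⟩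
    · intro α hα
      exact ⟨α, hα, Le.refl α⟩
    · rintro ν ⟨α, hα, h1⟩ hν n
      exact hav α hα ν hν h1 n
  have hch : ∀ c ⊆ LXAq S N Ψ p', IsChain (· ⊆ ·) c → c.Nonempty →
      ∃ ub ∈ LXAq S N Ψ p', ∀ s ∈ c, s ⊆ ub := by
    intro c hc hch hcne
    refine ⟨⋃₀ c, ⟨⟨?_, ?_, ?_⟩, ?_, ?_⟩, fun s hs => Set.subset_sUnion_of_mem hs⟩
    · obtain ⟨y, hy⟩ := hcne
      exact ⟨y, hy, (hc hy).1.top⟩
    · rintro α ⟨s, hs, hα⟩ β ⟨t, ht, hβ⟩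
      rcases hch.total hs ht with h | h
      · exact ⟨t, ht, (hc ht).1.meet α (h hα) β hβ⟩
      · exact ⟨s, hs, (hc hs).1.meet α hα β (h hβ)⟩
    · rintro α ⟨s, hs, hα⟩ β hβ
      exact ⟨s, hs, (hc hs).1.up α hα β hβ⟩
    · obtain ⟨y, hy⟩ := hcne
      exact (hc hy).2.1.trans (Set.subset_sUnion_of_mem hy)
    · rintro ν ⟨s, hs, hν⟩
      exact (hc hs).2.2 ν hν
  obtain ⟨p, -, hp⟩ := zorn_subset_nonempty (LXAq S N Ψ p') hch _ h0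
  have hpq : p ∈ LXAq S N Ψ p' := hp.prop
  refine ⟨p, ⟨hpq.1, hpq.2.1, hpq.2.2, ?_⟩⟩
  intro ω hω
  by_contra hcon
  have hq : {θ : P1 R | ∃ α ∈ p, Le (α.meet ω) θ} ∈ LXAq S N Ψ p' := by
    refine ⟨⟨?_, ?_, ?_⟩, ?_, ?_⟩
    · exact ⟨topF, hpq.1.top, le_top _⟩
    · rintro θ₁ ⟨α, hα, h1⟩ θ₂ ⟨β, hβ, h2⟩
      refine ⟨α.meet β, hpq.1.meet α hα β hβ, le_meet ?_ ?_⟩
      · exact (le_meet ((meet_le_left _ _).trans (meet_le_left _ _)) (meet_le_right _ _)).trans h1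
      · exact (le_meet ((meet_le_left _ _).trans (meet_le_right _ _)) (meet_le_right _ _)).trans h2
    · rintro θ ⟨α, hα, h1⟩ β h2
      exact ⟨α, hα, h1.trans h2⟩
    · intro θ hθ
      exact ⟨θ, hpq.2.1 hθ, meet_le_left _ _⟩
    · rintro ν ⟨α, hα, h1⟩ hν n hcl
      exact hcon ⟨α, hα, n, ν, hν, h1, hcl⟩
  have hsub : p ⊆ {θ : P1 R | ∃ α ∈ p, Le (α.meet ω) θ} := fun θ hθ =>
    ⟨θ, hθ, meet_le_left _ _⟩
  have h2 := hp.le_of_ge hq hsub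
  exact hω (h2 ⟨topF, hpq.1.top, meet_le_right _ _⟩)

end Pool.ZgCB
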