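import Pool.Agent.Work.MP_d94bda_cb.InterfaceC

/-!
# Block LXB: the filter of Lemma X is irreducible and has the rule
-/

open scoped BigOperators

namespace Pool.ZgCB

universe u

theorem LXB_mono {R : Type u} [Ring R] (Ψ : ℕ → P1 R) (h : ∀ n, Le (Ψ n) (Ψ (n + 1))) {i j : ℕ}
    (hij : i ≤ j) : Le (Ψ i) (Ψ j) := by
  induction j, hij using Nat.le_induction with
  | base => exact Le.refl _
  | succ j _ ih => exact ih.trans (h j)

/-- `ρ(y; x) ∧ α(y)` -/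
def LXB_ra {R : Type u} [Ring R] (ρ : P2 R) (α : P1 R) : P2 R :=
  ρ.meet (α.subst (fun _ => Sum.elim (fun _ => 1) (fun _ => 0)))

theorem LXB_at2 {R : Type u} [Ring R] (ρ : P2 R) (α : P1 R) {M : Type u} [AddCommGroup M]
    [Module R M] (y x : M) : at2 (LXB_ra ρ α) y x ↔ at2 ρ y x ∧ at1 α y := by
  unfold at2 at1 LXB_ra
  rw [PP.ev_meet, PP.ev_subst]
  simp only [Fintype.sum_sum_type, Sum.elim_inl, Sum.elim_inr, Finset.univ_unique,
    Finset.sum_singleton, zero_smul, one_smul, add_zero]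

theorem LXB_dfn {R : Type u} [Ring R] {S : Subring R} {m : ℕ} {ρ' : PP R (Unit ⊕ Fin m)}
    (hρ : ρ'.Over S) {μ : P1 R} (hμ : μ.Over S) :
    ∃ ω : P1 R, ω.Over S ∧ ∀ (M : Type u) [AddCommGroup M] [Module R M] (y : M),
      at1 ω y ↔ ∃ z : Fin m → M, atn ρ' y z ∧ ∀ j, at1 μ (z j) := by
  have h1 : Dfn S (fun M _ _ (x : Unit ⊕ Fin m → M) => ∀ j : Fin m,
      μ.ev M (fun _ => x (Sum.inr j))) :=
    Dfn.all fun j => (Dfn.of hμ).reidx (fun _ => Sum.inr j)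
  have h2 := Dfn.ex (κ := Fin m) ((Dfn.of hρ).and h1)
  obtain ⟨ω, hω, e⟩ := h2
  exact ⟨ω, hω, fun M _ _ y => e M (fun _ => y)⟩

theorem p_LXB (hD : Stmt_DD2.{u}) : Stmt_LXB.{u} := by
  intro R _ C _ _ S hS N _ _ Ψ p' p hΨ hp
  refine ⟨?_, ?_, ?_⟩
  · intro h
    refine hp.avoid _ h (over_bot S) 0 ?_
    intro a ha
    rw [(at1_bot a).1 ha]
    exact at1_zero _
  · intro ω₁ ω₂ h₁ h₂
    obtain ⟨α₁, hα₁, n₁, ν₁, ho₁, hl₁, hc₁⟩ := hp.max ω₁ h₁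
    obtain ⟨α₂, hα₂, n₂, ν₂, ho₂, hl₂, hc₂⟩ := hp.max ω₂ h₂
    refine ⟨α₁.meet α₂, hp.fil.meet _ hα₁ _ hα₂, ?_⟩
    intro hj
    have hle : Le (joinF ((α₁.meet α₂).meet ω₁) ((α₁.meet α₂).meet ω₂)) (joinF ν₁ ν₂) := by
      refine join_le ?_ ?_
      · refine Le.trans ?_ (le_join_left ν₁ ν₂)
        refine Le.trans (le_meet ?_ (meet_le_right _ _)) hl₁
        exact (meet_le_left _ _).trans (meet_le_left _ _)
      · refine Le.trans ?_ (le_join_right ν₁ ν₂)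
        refine Le.trans (le_meet ?_ (meet_le_right _ _)) hl₂
        exact (meet_le_left _ _).trans (meet_le_right _ _)
    refine hp.avoid _ (hp.fil.up _ hj _ hle) (over_join ho₁ ho₂) (max n₁ n₂) ?_
    intro a ha
    obtain ⟨b, c, hb, hc, rfl⟩ := (at1_join ν₁ ν₂ a).1 ha
    exact at1_add _ (LXB_mono Ψ hΨ (le_max_left _ _) N b (hc₁ b hb))
      (LXB_mono Ψ hΨ (le_max_right _ _) N c (hc₂ c hc))
  · intro μ ν hμ hν hcl ρ θ hρ hex
    by_contra hθ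
    obtain ⟨α, hα, n, ν₀, ho, hl, hc₀⟩ := hp.max θ hθ
    have h1 : ∀ (M : Type u) [AddCommGroup M] [Module R M] (y x : M),
        at2 (LXB_ra ρ α) y x → at1 ν x → at1 ν₀ y := by
      intro M _ _ y x h2 h3
      rw [LXB_at2] at h2
      exact hl M y ((at1_meet α θ y).2 ⟨h2.2, hρ M y x h2.1 h3⟩)
    obtain ⟨m, c, ρ', hρ', hf, hs⟩ := hD R C S hS (LXB_ra ρ α) ν ν₀ hν ho h1
    obtain ⟨ω', hω', he⟩ := LXB_dfn hρ' hμ
    have h3 : ω' ∈ p := by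
      refine hp.fil.up _ (hp.fil.meet _ hex _ hα) _ ?_
      intro M _ _ y hy
      rw [at1_meet] at hy
      obtain ⟨x, hx1, hx2⟩ := (at1_exr ρ μ y).1 hy.1
      rw [he M y]
      refine ⟨fun i => algebraMap C R (c i) • x, hf M y x ((LXB_at2 ρ α y x).2 ⟨hx1, hy.2⟩), ?_⟩
      intro j
      exact at1_central μ hx2 _ (fun r => Algebra.commutes (c j) r)
    refine hp.avoid ω' h3 hω' n ?_
    intro y hy
    obtain ⟨z, hz1, hz2⟩ := (he N y).1 hy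
    exact hc₀ y (hs N y z hz1 (fun i => hcl _ (hz2 i)))

end Pool.ZgCB
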