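import Pool.Agent.Work.MP_d94bda_cb.InterfaceC

/-!
# Block LXC (typed by helper63): Lemma X, assembly
-/

open scoped BigOperators

namespace Pool.ZgCB

universe u

theorem p_LXC (hA : Stmt_LXA.{u}) (hB : Stmt_LXB.{u}) (hT : Stmt_THH.{u}) : Stmt_LXC.{u} := by
  intro R _ C _ _ S hDP N _ _ Ψ p' hΨ hne hdir hav
  obtain ⟨p, hp⟩ := hA R S N Ψ p' hne hdir hav
  obtain ⟨h1, h2, h3⟩ := hB R C S hDP N Ψ p' p hΨ hp
  obtain ⟨N₁, i1, i2, a, hN⟩ := hT R p hp.fil h1 h2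
  exact ⟨p, N₁, i1, i2, a, hp, hN, fun μ ν hμ hν hc => hN.closed μ ν (h3 μ ν hμ hν hc)⟩

end Pool.ZgCB
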