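import Pool.Agent.Work.MP_d94bda_cb.InterfaceB

/-!
# Block MDM: m-dimension one
-/

namespace Pool.ZgCB

universe u

/-- Monotonicity of `Long`. -/
theorem MDM_mono {R : Type u} [Ring R] (r : P1 R → P1 R → Prop) :
    ∀ (n : ℕ) (b t b' t' : P1 R), Le b' b → Le t t' → Long r n b t → Long r n b' t'
  | 0, _, _, _, _, h1, h2, h => (h1.trans h).trans h2
  | n + 1, b, t, b', t', h1, h2, h => by
    obtain ⟨c, d, hc, hcd, hd, hr⟩ := h
    exact ⟨c, d, MDM_mono r n b c b' c h1 (Le.refl c) hc, hcd, hd.trans h2, hr⟩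

theorem p_MDM (hLCH : Stmt_LCH.{u}) (hSLE : Stmt_SLE.{u}) (hDER : Stmt_DER.{u}) :
    Stmt_MDM.{u} := by
  intro R _ h0 h1
  have sLe : Serre (Le : P1 R → P1 R → Prop) := hSLE R
  have sR0 : Serre (R0 : P1 R → P1 R → Prop) := hDER R _ sLe
  refine ⟨fun hf => h0 ?_, ?_⟩
  · obtain ⟨n, hn⟩ := hf
    refine ⟨n, fun hl => ?_⟩
    obtain ⟨θ, a1, a2, a3⟩ := (hLCH R _ sLe).1 n _ _ hl
    exact hn θ (bot_le _) a2 a3
  · obtain ⟨n, hn⟩ := h1
    refine ⟨n, fun c hc => hn ?_⟩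
    have key : ∀ i < n, Le (c i) (c (i + 1)) ∧ ¬ R0 (c (i + 1)) (c i) := by
      intro i hi
      obtain ⟨b1, b2⟩ := hc i hi
      refine ⟨b1, fun hr => b2 ?_⟩
      obtain ⟨m, hm⟩ := hr
      refine ⟨m, fun θ e1 e2 e3 => hm ?_⟩
      exact MDM_mono _ m _ _ _ _ ((meet_le_right _ _).trans e1) e2 ((hLCH R _ sLe).2 m θ e3)
    exact MDM_mono _ n _ _ _ _ ((meet_le_right _ _).trans (bot_le _)) (le_top _)
      ((hLCH R _ sR0).2 n c key)

end Pool.ZgCB
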