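import Pool.Agent.Work.MP_d94bda_cb.InterfaceB

/-!
# MP_d94bda_al, block MIN: all points open on a minimal pair are isomorphic
-/

open scoped BigOperators

namespace Pool.ZgCB

universe u

theorem MIN_le {R : Type u} [Ring R] {α β ω c : P1 R} (h : Le (α.meet ω) c) (hb : Le β α) :
    Le (β.meet ω) c := by
  intro M _ _ x hx
  rw [at1_meet] at hx
  exact h M x ((at1_meet α ω x).2 ⟨hb M x hx.1, hx.2⟩)

theorem p_MIN (h1 : Stmt_MN0.{u}) (h2 : Stmt_MXF.{u}) (h3 : Stmt_THH.{u}) (h4 : Stmt_SLE.{u}) :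
    Stmt_MIN.{u} := by
  intro R _ c d hcd N N' _ _ _ _ hN hN' ho ho'
  obtain ⟨p, hp, hdp, hcp, -, hmax⟩ := h2 R Le (h4 R) d c hcd.2.1
  have hbot : (botF : P1 R) ∉ p := fun h => hcp (hp.up _ h _ (bot_le c))
  have hirr : Irr p := by
    intro ω₁ ω₂ hω₁ hω₂
    obtain ⟨α₁, hα₁, hl₁⟩ := hmax ω₁ hω₁
    obtain ⟨α₂, hα₂, hl₂⟩ := hmax ω₂ hω₂
    refine ⟨α₁.meet α₂, hp.meet _ hα₁ _ hα₂, fun h => hcp (hp.up _ h _ ?_)⟩
    exact join_le (MIN_le hl₁ (meet_le_left α₁ α₂)) (MIN_le hl₂ (meet_le_right α₁ α₂))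
  obtain ⟨N0, _, _, a, hH⟩ := h3 R p hp hbot hirr
  obtain ⟨e1⟩ := h1 R c d hcd p N0 a hp hdp hcp hmax hH N hN ho
  obtain ⟨e2⟩ := h1 R c d hcd p N0 a hp hdp hcp hmax hH N' hN' ho'
  exact ⟨e1.symm.trans e2⟩

end Pool.ZgCB
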