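import Pool.Agent.Work.MP_d94bda_cb.InterfaceB

/-!
# MN0: points on a minimal pair
-/

open scoped BigOperators

namespace Pool.ZgCB

universe u

theorem MN0_fin {R : Type u} [Ring R] (p : Set (P1 R)) (hp : IsFil p) {T : Type*} (F : Set T)
    (hF : F.Finite) (g : T → P1 R → Prop) (h : ∀ C ∈ F, ∃ α ∈ p, g C α) :
    ∃ α0 ∈ p, ∀ C ∈ F, ∃ α, g C α ∧ Le α0 α := by
  induction F, hF using Set.Finite.induction_on with
  | empty => exact ⟨topF, hp.top, fun C hC => hC.elim⟩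
  | @insert C F hC hF ih =>
    obtain ⟨α0, h0, h1⟩ := ih fun C hC' => h C (Set.mem_insert_of_mem _ hC')
    obtain ⟨α, hα, hg⟩ := h C (Set.mem_insert _ _)
    refine ⟨PP.meet α α0, hp.meet _ hα _ h0, ?_⟩
    rintro C' (rfl | hC')
    · exact ⟨α, hg, meet_le_left α α0⟩
    · obtain ⟨β, hβ, hle⟩ := h1 C' hC'
      exact ⟨β, hβ, (meet_le_right α α0).trans hle⟩

/-- the formula `c(w_1) ∧ α(w_0 - w_1)` -/
def MN0_g {R : Type u} [Ring R] (c α : P1 R) : PP R (Fin 2) :=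
  (c.subst (fun _ => ![0, 1])).meet (α.subst (fun _ => ![1, -1]))

theorem MN0_ev {R : Type u} [Ring R] (c α : P1 R) (M : Type u) [AddCommGroup M] [Module R M]
    (w : Fin 2 → M) : (MN0_g c α).ev M w ↔ at1 c (w 1) ∧ at1 α (w 0 - w 1) := by
  unfold MN0_g at1
  rw [PP.ev_meet, PP.ev_subst, PP.ev_subst]
  have e1 : (fun _ : Unit => ∑ j, (![0, 1] : Fin 2 → R) j • w j) = fun _ => w 1 := by
    funext _
    rw [Fin.sum_univ_two]
    simp
  have e2 : (fun _ : Unit => ∑ j, (![1, -1] : Fin 2 → R) j • w j) = fun _ => w 0 - w 1 := by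
    funext _
    rw [Fin.sum_univ_two]
    simp [sub_eq_add_neg]
  rw [e1, e2]

theorem p_MN0 (h1 : Stmt_PIA.{u}) (h2 : Stmt_EXT.{u}) : Stmt_MN0.{u} := by
  intro R _ c d hmin p N0 _ _ a hp hd hc hω hull N' _ _ hpt hopn
  obtain ⟨hcd, -, hbetw⟩ := hmin
  obtain ⟨b, hdb, hcb⟩ := hopn
  have hclaim : ∀ α ∈ p, ∃ z : N', at1 c z ∧ at1 α (b - z) := by
    intro α hα
    have hle : Le d (joinF (PP.meet α d) c) := by
      rcases hbetw (joinF (PP.meet α d) c) (le_join_right _ _) (join_le (meet_le_right _ _) hcd) with h | h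
      · exact absurd (hp.up _ (hp.meet _ hα _ hd) _ ((le_join_left _ _).trans h)) hc
      · exact h
    obtain ⟨b1, z, hb1, hz, hb⟩ := (at1_join _ _ b).1 (hle N' b hdb)
    refine ⟨z, hz, ?_⟩
    rw [hb, add_sub_cancel_right]
    exact ((at1_meet _ _ _).1 hb1).1
  have hac : AC R N' := (h1 R N').1 hpt.1
  obtain ⟨x, hx⟩ := hac PUnit.{u+1} {C | ∃ α ∈ p, C = ⟨2, MN0_g c α, ![Sum.inr b, Sum.inl PUnit.unit]⟩} (by
    intro F hFΦ hFfin
    obtain ⟨α0, h0, hF⟩ := MN0_fin p hp F hFfin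
      (fun C α => C = ⟨2, MN0_g c α, ![Sum.inr b, Sum.inl PUnit.unit]⟩) (fun C hC => hFΦ hC)
    obtain ⟨z, hz, hbz⟩ := hclaim α0 h0
    refine ⟨fun _ => z, fun C hC => ?_⟩
    obtain ⟨α, rfl, hle⟩ := hF C hC
    exact (MN0_ev c α N' _).2 ⟨hz, hle N' _ hbz⟩)
  have hx' : ∀ α ∈ p, at1 c (x PUnit.unit) ∧ at1 α (b - x PUnit.unit) := by
    intro α hα
    exact (MN0_ev c α N' _).1 (hx _ ⟨α, hα, rfl⟩)
  obtain ⟨z, hz⟩ : ∃ z, z = x PUnit.unit := ⟨_, rfl⟩
  rw [← hz] at hx'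
  have hcz : at1 c z := (hx' _ hp.top).1
  obtain ⟨f, hf⟩ := h2 R N0 N' hac PUnit.{u+1} (fun _ => a) (fun _ => b - z) (by
    intro n θ v hθ
    have e : ∀ (M : Type u) [AddCommGroup M] [Module R M] (y : M),
        at1 (θ.subst (fun _ _ => 1) : P1 R) y ↔ θ.ev M (fun _ => y) := by
      intro M _ _ y
      unfold at1
      rw [PP.ev_subst]
      have e1 : (fun _ : Fin n => ∑ _j : Unit, (1 : R) • y) = fun _ => y := by
        funext _
        simp
      rw [e1]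
    have h3 : (θ.subst (fun _ _ => 1) : P1 R) ∈ p := (hull.type _).1 ((e N0 a).2 hθ)
    exact (e N' _).1 (hx' _ h3).2)
  have hfa : f a = b - z := hf PUnit.unit
  have hpure : PureEmb f := by
    apply hull.rigid N' f
    intro ω hωa
    by_contra hωp
    obtain ⟨α, hα, hle⟩ := hω ω hωp
    rw [hfa] at hωa
    have h3 : at1 c (b - z) := hle N' _ ((at1_meet _ _ _).2 ⟨(hx' α hα).2, hωa⟩)
    have h4 := at1_add c h3 hcz
    rw [sub_add_cancel] at h4
    exact hcb h4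
  obtain ⟨g, hg⟩ := hull.point.1 N' f hpure
  have hnt : Nontrivial N0 := hull.point.2.1
  have hid : ∀ x, f (g x) = x := by
    rcases hpt.2.2 (f ∘ₗ g) (fun x => by
      rw [LinearMap.comp_apply, LinearMap.comp_apply, hg]) with h | h
    · exfalso
      obtain ⟨y, hy⟩ := exists_ne (0 : N0)
      have h3 := h (f y)
      rw [LinearMap.comp_apply, hg] at h3
      have h4 := hg y
      rw [h3, map_zero] at h4
      exact hy h4.symm
    · exact h
  exact ⟨LinearEquiv.ofLinearMap f g (LinearMap.ext hid) (LinearMap.ext hg)⟩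

end Pool.ZgCB
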