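import Pool.Agent.Work.MP_d94bda_cb.InterfaceC

/-!
# MP_d94bda_al, THEOREM Z: block MNC

A formula all of whose localizations are in `p'` holds at a tuple of realizations of `p'` up to a
tuple of elements of `ψ(N₁)`.
-/

open scoped BigOperators

namespace Pool.ZgCB

universe u

theorem p_MNC : Stmt_MNC.{u} := by
  intro R _ S ψ p' N₁ _ _ n a' hψ ha θ hθ hL
  have key : ∀ i : Fin n, ∃ s : Fin n → N₁,
      (∀ j, j ≠ i → at1 ψ (s j)) ∧ s i = a' i ∧ θ.ev N₁ s := by
    intro i
    have h1 : Dfn (ι := Unit ⊕ Fin n) S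
        (fun M _ _ x => ∀ j : Fin n, j ≠ i → at1 ψ (x (Sum.inr j))) := by
      refine Dfn.all fun j => ?_
      by_cases hj : j = i
      · exact Dfn.tru.congr fun M _ _ x => by simp [hj]
      · refine ((Dfn.of hψ).reidx (fun _ : Unit => (Sum.inr j : Unit ⊕ Fin n))).congr
          fun M _ _ x => ?_
        exact ⟨fun h _ => h, fun h => h hj⟩
    have h2 : Dfn (ι := Unit ⊕ Fin n) S
        (fun M _ _ x => x (Sum.inr i) = x (Sum.inl ())) := by
      refine (Dfn.lin (ι := Unit ⊕ Fin n)
        (Sum.elim (fun _ => (-1 : R)) (fun j => if j = i then (1 : R) else 0)) ?_).congr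
        fun M _ _ x => ?_
      · rintro (j | j)
        · exact S.neg_mem S.one_mem
        · simp only [Sum.elim_inr]
          split_ifs
          exacts [S.one_mem, S.zero_mem]
      · simp only [Fintype.sum_sum_type, Sum.elim_inl, Sum.elim_inr, Finset.univ_unique,
          Finset.sum_singleton, neg_smul, one_smul, ite_smul, zero_smul, Finset.sum_ite_eq',
          Finset.mem_univ, if_true]
        constructor
        · intro h
          have h' : x (Sum.inr i) - x (Sum.inl default) = 0 := by rw [← h]; abel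
          exact sub_eq_zero.1 h'
        · intro h
          rw [h]
          exact neg_add_cancel _
    have h3 : Dfn (ι := Unit ⊕ Fin n) S (fun M _ _ x => θ.ev M (fun j => x (Sum.inr j))) :=
      (Dfn.of hθ).reidx (fun j => (Sum.inr j : Unit ⊕ Fin n))
    have h4 := (h1.and (h2.and h3)).ex
    obtain ⟨χ, hχ, e⟩ := h4
    have hmem : χ ∈ p' := hL i χ hχ (fun M _ _ z => e M (fun _ => z))
    exact (e N₁ (fun _ => a' i)).1 ((ha i χ hχ).2 hmem)
  choose s h1 h2 h3 using key
  refine ⟨fun j => ∑ i ∈ Finset.univ.erase j, s i j, fun j => ?_, ?_⟩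
  · exact at1_sum ψ _ _ fun t ht => h1 t j (Finset.ne_of_mem_erase ht).symm
  · have h5 := θ.ev_sum Finset.univ s fun t _ => h3 t
    have h6 : (fun j => a' j + ∑ i ∈ Finset.univ.erase j, s i j) =
        fun j => ∑ t, s t j := by
      funext j
      rw [← h2 j, Finset.add_sum_erase _ (fun t => s t j) (Finset.mem_univ j)]
    rw [h6]
    exact h5

end Pool.ZgCB
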