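import Pool.Agent.Work.MP_d94bda_cb.InterfaceC

/-! Block MNM. -/

open scoped BigOperators

namespace Pool.ZgCB

universe u

/-- the position of a variable after the removal of the index `i` -/
def mnmF {n : ℕ} (i : Fin n) : Unit ⊕ Fin n → (Unit ⊕ {j : Fin n // j ≠ i}) ⊕ Unit :=
  fun c => match c with
  | Sum.inl _ => Sum.inl (Sum.inl ())
  | Sum.inr j => if h : j ≠ i then Sum.inl (Sum.inr ⟨j, h⟩) else Sum.inr ()

theorem mnmF_elim {n : ℕ} (i : Fin n) {M : Type u} (y z : M) (s' : {j : Fin n // j ≠ i} → M)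
    (s : Fin n → M) (h1 : ∀ j, s j.1 = s' j) (h2 : s i = z) :
    (fun c => Sum.elim (Sum.elim (fun _ => y) s') (fun _ => z) (mnmF i c)) =
      Sum.elim (fun _ => y) s := by
  funext c
  rcases c with c | j
  · rfl
  · by_cases hj : j = i
    · subst hj
      simp only [mnmF]
      rw [dif_neg (by simp)]
      simp only [Sum.elim_inr]
      exact h2.symm
    · simp only [mnmF]
      rw [dif_pos hj]
      simp only [Sum.elim_inl, Sum.elim_inr]
      exact (h1 ⟨j, hj⟩).symm

theorem p_MNM (hTRP : Stmt_TRP.{u}) : Stmt_MNM.{u} := by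
  classical
  intro R _ S N _ _ φ ψ p' N₁ _ _ hψ hmax hcl Ψ b n m ρ' a' hG hmin θ hθ hev i χ hχ hχe
  by_contra hnot
  obtain ⟨κ, hκ, hκψ⟩ := hmax.max χ hχ hnot
  have hκS : κ.Over S := hmax.ovr κ hκ
  have hcl1 : Cl N₁ (PP.meet κ χ) ψ := hcl _ _ (PP.over_meet hκS hχ) hψ hκψ
  -- the new formula
  have hD := ((((Dfn.of hG.ovr).reidx (mnmF i)).and
    (((Dfn.of hθ).reidx (fun j => mnmF i (Sum.inr j))).and
      ((Dfn.of hκS).reidx
        (fun _ : Unit => (Sum.inr () : (Unit ⊕ {j : Fin n // j ≠ i}) ⊕ Unit)))))).exOne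
  obtain ⟨ρ'', hov, hρ⟩ := hD
  have hgood : Good S ψ p' N₁ Ψ b {j : Fin n // j ≠ i} m ρ'' (fun j => a' j.1) := by
    refine ⟨hov, fun j => hG.type j.1, ?_, ?_⟩
    · refine (hρ N₁ _).2 ⟨a' i, ?_, ?_, ?_⟩
      · have e := mnmF_elim i b (a' i) (fun j => a' j.1) a' (fun _ => rfl) rfl
        rw [e]
        exact hG.link
      · have e := mnmF_elim i b (a' i) (fun j => a' j.1) a' (fun _ => rfl) rfl
        have e2 : (fun j => Sum.elim (Sum.elim (fun _ => b) fun j : {j : Fin n // j ≠ i} => a' j.1)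
            (fun _ => a' i) (mnmF i (Sum.inr j))) = a' := by
          funext j
          exact congrFun e (Sum.inr j)
        rw [e2]
        exact hev
      · exact (hG.type i κ hκS).2 hκ
    · intro y s' hs hat
      obtain ⟨z, h1, h2, h3⟩ := (hρ N₁ _).1 hat
      let s : Fin n → N₁ := fun j => if h : j ≠ i then s' ⟨j, h⟩ else z
      have hs1 : ∀ j : {j : Fin n // j ≠ i}, s j.1 = s' j := by
        intro j
        simp only [s]
        rw [dif_pos j.2]
      have hs2 : s i = z := by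
        simp only [s]
        rw [dif_neg (by simp)]
      have e := mnmF_elim i y z s' s hs1 hs2
      have e2 : (fun j => Sum.elim (Sum.elim (fun _ => y) s')
          (fun _ => z) (mnmF i (Sum.inr j))) = s := by
        funext j
        exact congrFun e (Sum.inr j)
      rw [e] at h1
      rw [e2] at h2
      have hχz : at1 χ z := (hχe N₁ z).2 ⟨s, fun j hj => by
        rw [hs1 ⟨j, hj⟩]
        exact hs _, hs2, h2⟩
      have hψz : at1 ψ z := hcl1 z ((at1_meet κ χ z).2 ⟨h3, hχz⟩)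
      refine hG.small y s (fun j => ?_) h1
      by_cases hj : j = i
      · rw [hj, hs2]
        exact hψz
      · rw [hs1 ⟨j, hj⟩]
        exact hs _
  obtain ⟨ρ3, a3, h3⟩ := hTRP R S ψ p' N₁ Ψ b {j : Fin n // j ≠ i} m ρ'' _ hgood
  refine hmin _ ?_ m ρ3 a3 h3
  have := Fintype.card_subtype_lt (p := fun j : Fin n => j ≠ i) (x := i) (by simp)
  rwa [Fintype.card_fin] at this

end Pool.ZgCB
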