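import Pool.Agent.Work.MP_d94bda_cb.InterfaceB

/-!
# Block NIS: a point on which all pairs of finite length are closed is not isolated
-/

open scoped BigOperators

set_option autoImplicit false

namespace Pool.ZgCB

universe u

theorem p_NIS (h1 : Stmt_CL4.{u}) : Stmt_NIS.{u} := by
  intro R _ C _ _ _ _ N _ _ hP hC
  refine ⟨hP, ?_⟩
  rintro ⟨φ, ψ, hO, hI⟩
  obtain ⟨-, hR⟩ := h1 R C N φ ψ hP hO hI
  exact not_opn.2 (hC φ ψ hR) hO

end Pool.ZgCB
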