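import Pool.Agent.Work.MP_d94bda_cb.InterfaceC

open scoped BigOperators

namespace Pool.ZgCB

universe u

theorem p_NPU : Stmt_NPU.{u} := by
  intro R _ p N _ _ a hN b hb
  -- the quotient map
  let f : N →ₗ[R] N ⧸ Submodule.span R {b} := (Submodule.span R {b}).mkQ
  have hfb : f b = 0 := by
    change (Submodule.span R {b}).mkQ b = 0
    rw [Submodule.mkQ_apply, Submodule.Quotient.mk_eq_zero]
    exact Submodule.mem_span_singleton_self b
  have hnp : ¬ PureEmb f := by
    intro hp
    have h1 := hp 1 ⟨1, 0, fun _ _ => 1, fun _ => Fin.elim0⟩ (fun _ => b)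
    rw [PP.ev_mk, PP.ev_mk] at h1
    have h2 := h1 ⟨Fin.elim0, fun i => by simp [hfb]⟩
    obtain ⟨y, hy⟩ := h2
    have := hy 0
    simp at this
    exact hb this
  have hex : ∃ θ : P1 R, at1 θ (f a) ∧ θ ∉ p := by
    by_contra hcon
    push Not at hcon
    exact hnp (hN.rigid _ f hcon)
  obtain ⟨θ, ⟨y, hy⟩, hθp⟩ := hex
  have hlift : ∀ l, ∃ w : N, f w = y l := fun l => Submodule.mkQ_surjective _ (y l)
  choose w hw using hlift
  have hr : ∀ i, ∃ r : R, r • b = θ.A i () • a + ∑ l, θ.B i l • w l := by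
    intro i
    rw [← Submodule.mem_span_singleton, ← Submodule.Quotient.mk_eq_zero, ← Submodule.mkQ_apply]
    change f (θ.A i () • a + ∑ l, θ.B i l • w l) = 0
    have h1 := hy i
    rw [map_add, map_sum, map_smul]
    simp only [map_smul, hw]
    simpa using h1
  choose r hr using hr
  refine ⟨⟨θ.m, θ.k, fun i => Sum.elim (fun _ => θ.A i ()) (fun _ => - r i), θ.B⟩, θ, ?_, ?_, hθp⟩
  · refine ⟨w, fun i => ?_⟩
    simp only [Fintype.sum_sum_type, Sum.elim_inl, Sum.elim_inr, Finset.univ_unique,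
      Finset.sum_singleton, neg_smul]
    rw [hr i]
    abel
  · intro M _ _ z
    constructor
    · rintro ⟨y', hy'⟩
      refine ⟨y', fun i => ?_⟩
      have h1 := hy' i
      simp only [Fintype.sum_sum_type, Sum.elim_inl, Sum.elim_inr, Finset.univ_unique,
        Finset.sum_singleton, smul_zero, add_zero] at h1 ⊢
      exact h1
    · rintro ⟨y', hy'⟩
      refine ⟨y', fun i => ?_⟩
      have h1 := hy' i
      simp only [Fintype.sum_sum_type, Sum.elim_inl, Sum.elim_inr, Finset.univ_unique,
        Finset.sum_singleton, smul_zero, add_zero] at h1 ⊢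
      exact h1

end Pool.ZgCB
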