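import Pool.Agent.Work.MP_d94bda_cb.InterfaceA

/-!
Block PIA of MP_d94bda_cb (helper46): pure-injective means algebraically compact.
-/

namespace Pool.ZgCB

universe u

theorem p_PIA (h1 : Stmt_BPU.{u}) (h2 : Stmt_BAC.{u}) (h3 : Stmt_RET.{u})
    (h4 : Stmt_EXT.{u}) : Stmt_PIA.{u} := by
  intro R _ N _ _
  constructor
  · intro h
    obtain ⟨g, hg⟩ := h (Bid R N) (bidEmb R N) (h1 R N)
    exact h3 R (Bid R N) N (bidEmb R N) g hg (h2 R N)
  · intro h M _ _ f hf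
    obtain ⟨g, hg⟩ := h4 R M N h N f id (fun n θ v hv => hf n θ v hv)
    exact ⟨g, hg⟩

end Pool.ZgCB
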