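import Pool.Agent.Work.MP_d94bda_cb.InterfaceB

/-!
# MP_d94bda_al, THEOREM Z, block PIG: the pigeonhole argument
-/

open scoped BigOperators

namespace Pool.ZgCB

universe u

theorem PIG_chain {R : Type u} [Ring R] (m : ℕ) (θ : ℕ → P1 R)
    (h : ∀ i < m, Le (θ i) (θ (i + 1))) :
    ∀ a b : ℕ, a ≤ b → b ≤ m → Le (θ a) (θ b) := by
  intro a b hab
  induction b, hab using Nat.le_induction with
  | base => intro _; exact Le.refl _
  | succ b hb ih =>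
    intro hbm
    exact Le.trans (ih (by omega)) (h b (by omega))

theorem PIG_cl_of_equiv {R : Type u} [Ring R] {N N' : Type u} [AddCommGroup N] [Module R N]
    [AddCommGroup N'] [Module R N'] (e : N' ≃ₗ[R] N) {μ ν : P1 R} (h : Cl N μ ν) :
    Cl N' μ ν := by
  intro a ha
  have h1 : at1 μ (e a) := at1_map μ e.toLinearMap ha
  have h2 : at1 ν (e.symm (e a)) := at1_map ν e.symm.toLinearMap (h (e a) h1)
  rwa [e.symm_apply_apply] at h2

theorem p_PIG (hTHA : Stmt_THA.{u}) (hSFM : Stmt_SFM.{u}) (hLCH : Stmt_LCH.{u})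
    (hSLE : Stmt_SLE.{u}) (hDER : Stmt_DER.{u}) (hFIN : Stmt_FIN.{u}) (hNIS : Stmt_NIS.{u})
    (hTA0 : Stmt_TA0.{u}) : Stmt_PIG.{u} := by
  intro R _ C _ _ _ _ N _ _ φ ψ hN hR1 m X _ _ hX hne
  have hS0 : Serre (R0 : P1 R → P1 R → Prop) := hDER R Le (hSLE R)
  have hlong : Long R0 m (φ.meet ψ) φ := by
    by_contra hcon
    exact hR1 ⟨m, hcon⟩
  obtain ⟨θ, hb, ht, hθ⟩ := (hLCH R R0 hS0).1 m (φ.meet ψ) φ hlong
  have hmono := PIG_chain m θ (fun i hi => (hθ i hi).1)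
  have hex : ∀ j, ∃ i : Fin m, Cl (X j) (θ (i + 1)) (θ i) := by
    intro j
    by_contra hcon
    refine (hX j).2.2 θ (fun i hi => ⟨fun a ha => (hθ i hi).1 (X j) a ha, ?_⟩)
    by_contra ho
    exact hcon ⟨⟨i, hi⟩, not_opn.1 ho⟩
  choose f hf using hex
  obtain ⟨y, hy⟩ := Finite.exists_infinite_fiber f
  have hJ : (f ⁻¹' {y}).Infinite := Set.infinite_coe_iff.1 hy
  have hne' : (Filter.cofinite ⊓ Filter.principal (f ⁻¹' {y})).NeBot :=
    hJ.cofinite_inf_principal_neBot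
  have hser := hSFM R ℕ (Filter.cofinite ⊓ Filter.principal (f ⁻¹' {y})) X
  have hnr : ¬ (∀ᶠ j in Filter.cofinite ⊓ Filter.principal (f ⁻¹' {y}), Cl (X j) φ ψ) := by
    intro hev
    obtain ⟨j, hj⟩ := hev.exists
    exact not_opn.2 hj (hX j).2.1
  obtain ⟨N₁, hA₁, hM₁, hp₁, ho₁, hc₁⟩ := hTHA R _ hser φ ψ hnr
  have hder₁ : Der1 R N₁ := by
    refine hNIS R C N₁ hp₁ (fun μ ν hμν => hc₁ μ ν ?_)
    have hfin := hFIN R μ ν hμν X (fun j => (hX j).1) hne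
    refine Filter.Eventually.filter_mono inf_le_left ?_
    rw [Filter.eventually_cofinite]
    refine hfin.subset (fun j hj => ?_)
    exact not_cl.1 hj
  obtain ⟨e₁⟩ := hN N₁ hder₁ ho₁
  have hcl₁ : Cl N₁ (θ (y + 1)) (θ y) := by
    refine hc₁ _ _ ?_
    refine Filter.Eventually.filter_mono inf_le_right ?_
    rw [Filter.eventually_principal]
    intro j hj
    have hfy : f j = y := hj
    have := hf j
    rw [hfy] at this
    exact this
  obtain ⟨N₂, hA₂, hM₂, hder₂, ho₂⟩ := hTA0 R C (θ (y + 1)) (θ y) (hθ y y.2).2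
  have ho₂' : Opn N₂ φ ψ := by
    obtain ⟨a, ha, hna⟩ := ho₂
    have hφ : at1 φ a := ht N₂ a (hmono (y + 1) m y.2 le_rfl N₂ a ha)
    refine ⟨a, hφ, fun hψ => hna ?_⟩
    exact hmono 0 y (Nat.zero_le _) y.2.le N₂ a
      (hb N₂ a ((at1_meet φ ψ a).2 ⟨hφ, hψ⟩))
  obtain ⟨e₂⟩ := hN N₂ hder₂ ho₂'
  exact not_opn.2 (PIG_cl_of_equiv (e₂.trans e₁.symm) hcl₁) ho₂

end Pool.ZgCB
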