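import Pool.Agent.Work.MP_d94bda_cb.InterfaceC

/-!
# Block RD1: a linking formula over the subring
-/

open scoped BigOperators

namespace Pool.ZgCB

universe u

theorem RD1_reidx {R : Type u} [Ring R] {κ ι : Type} [Fintype κ] [Fintype ι] (ρ : PP R κ) (f : κ → ι) :
    ∃ ρ' : PP R ι, ∀ (M : Type u) [AddCommGroup M] [Module R M] (x : ι → M),
      ρ'.ev M x ↔ ρ.ev M (fun c => x (f c)) := by
  obtain ⟨θ, _, h⟩ := Dfn.reidx (Dfn.of (PP.over_top ρ)) f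
  exact ⟨θ, h⟩

theorem RD1_swap {R : Type u} [Ring R] (ρ : P2 R) :
    ∃ ρ' : P2 R, ∀ (M : Type u) [AddCommGroup M] [Module R M] (y x : M),
      at2 ρ' y x ↔ at2 ρ x y := by
  obtain ⟨ρ', h⟩ := RD1_reidx ρ (Sum.swap : Unit ⊕ Unit → Unit ⊕ Unit)
  refine ⟨ρ', fun M _ _ y x => ?_⟩
  unfold at2
  rw [h]
  have e : (fun c : Unit ⊕ Unit => Sum.elim (fun _ : Unit => y) (fun _ : Unit => x) (Sum.swap c)) =
      Sum.elim (fun _ => x) (fun _ => y) := by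
    funext c
    rcases c with c | c <;> rfl
  rw [e]

theorem RD1_left {R : Type u} [Ring R] (θ : P1 R) :
    ∃ ρ' : P2 R, ∀ (M : Type u) [AddCommGroup M] [Module R M] (y x : M),
      at2 ρ' y x ↔ at1 θ y := by
  obtain ⟨ρ', h⟩ := RD1_reidx θ (Sum.inl : Unit → Unit ⊕ Unit)
  refine ⟨ρ', fun M _ _ y x => ?_⟩
  unfold at2 at1
  rw [h]
  exact Iff.rfl

theorem RD1_right {R : Type u} [Ring R] (θ : P1 R) :
    ∃ ρ' : P2 R, ∀ (M : Type u) [AddCommGroup M] [Module R M] (y x : M),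
      at2 ρ' y x ↔ at1 θ x := by
  obtain ⟨ρ', h⟩ := RD1_reidx θ (Sum.inr : Unit → Unit ⊕ Unit)
  refine ⟨ρ', fun M _ _ y x => ?_⟩
  unfold at2 at1
  rw [h]
  exact Iff.rfl

theorem RD1_meet {R : Type u} [Ring R] (ρ ρ' : P2 R) (M : Type u) [AddCommGroup M] [Module R M]
    (y x : M) : at2 (PP.meet ρ ρ') y x ↔ at2 ρ y x ∧ at2 ρ' y x :=
  PP.ev_meet ρ ρ' M _

theorem p_RD1 (hNPU : Stmt_NPU.{u}) (hDD2 : Stmt_DD2.{u}) : Stmt_RD1.{u} := by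
  intro R _ C _ _ S N _ _ φ ψ p' p₁ N₁ _ _ a Ψ pb' pb b hc
  have hb : b ≠ 0 := by
    intro h0
    have h1 : (botF : P1 R) ∈ pb := (hc.typeb botF).1 ((at1_bot b).2 h0)
    refine hc.locb.avoid botF h1 (over_bot S) 0 ?_
    intro z hz
    rw [(at1_bot z).1 hz]
    exact at1_zero _
  obtain ⟨ρ₀, χ, hab, hχ, hχp⟩ := hNPU R p₁ N₁ a hc.lhull.hull b hb
  obtain ⟨α, hα, _, ν₁', hν₁', hle, hcl⟩ := hc.lhull.loc.max χ hχp
  have hov : (joinF ν₁' ψ).Over S := over_join hν₁' hc.psi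
  have hcl1 : Cl N (joinF ν₁' ψ) ψ := by
    intro z hz
    obtain ⟨z1, z2, h1, h2, rfl⟩ := (at1_join _ _ z).1 hz
    exact at1_add ψ (hcl z1 h1) h2
  obtain ⟨σ, hσ⟩ := RD1_swap ρ₀
  have hω : ∀ (M : Type u) [AddCommGroup M] [Module R M] (y : M),
      at1 (exr σ (PP.meet (joinF ν₁' ψ) α)) y ↔
        ∃ x : M, at2 ρ₀ x y ∧ at1 (joinF ν₁' ψ) x ∧ at1 α x := by
    intro M _ _ y
    rw [at1_exr]
    refine exists_congr fun x => ?_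
    rw [hσ, at1_meet]
  have hωn : exr σ (PP.meet (joinF ν₁' ψ) α) ∉ pb := by
    intro hmem
    obtain ⟨t, ht1, ht2, ht3⟩ := (hω N₁ b).1 ((hc.typeb _).2 hmem)
    have h1 : at2 ρ₀ (a - t) (b - b) := at2_sub ρ₀ hab ht1
    rw [sub_self] at h1
    have h2 : at1 χ (a - t) := (hχ N₁ (a - t)).2 h1
    have h3 : at1 α (a - t) := at1_sub α ((hc.lhull.hull.type α).2 hα) ht3
    have h4 : at1 ν₁' (a - t) := hle N₁ (a - t) ((at1_meet _ _ _).2 ⟨h3, h2⟩)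
    have h5 : at1 (joinF ν₁' ψ) (a - t) := le_join_left ν₁' ψ N₁ (a - t) h4
    have h6 : at1 (joinF ν₁' ψ) ((a - t) + t) := at1_add _ h5 ht2
    rw [sub_add_cancel] at h6
    exact hc.lhull.loc.avoid _ ((hc.lhull.hull.type _).1 h6) hov 0 hcl1
  obtain ⟨β, hβ, m, ν, hν, hle2, hcl2⟩ := hc.locb.max _ hωn
  obtain ⟨σ1, hσ1⟩ := RD1_right α
  obtain ⟨σ2, hσ2⟩ := RD1_left β
  have hρ₂ : ∀ (M : Type u) [AddCommGroup M] [Module R M] (y x : M),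
      at2 (PP.meet σ (PP.meet σ1 σ2)) y x ↔ at2 ρ₀ x y ∧ at1 α x ∧ at1 β y := by
    intro M _ _ y x
    rw [RD1_meet, RD1_meet, hσ, hσ1, hσ2]
  obtain ⟨n, c, ρ', hρ', h1, h2⟩ := hDD2 R C S hc.dp (PP.meet σ (PP.meet σ1 σ2)) (joinF ν₁' ψ) ν hov hν
    (by
      intro M _ _ y x hyx hx
      obtain ⟨k1, k2, k3⟩ := (hρ₂ M y x).1 hyx
      exact hle2 M y ((at1_meet _ _ _).2 ⟨k3, (hω M y).2 ⟨x, k1, hx, k2⟩⟩))
  refine ⟨n, m, c, ρ', hρ', ?_, ?_⟩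
  · refine h1 N₁ b a ((hρ₂ N₁ b a).2 ⟨hab, (hc.lhull.hull.type α).2 hα, (hc.typeb β).2 hβ⟩)
  · intro y s hs hy
    have h3 : at1 ν y := h2 N₁ y s hy fun i => le_join_right ν₁' ψ N₁ (s i) (hs i)
    exact hc.lhull.closed ν (Ψ m) hν (hc.ovr m) hcl2 y h3

end Pool.ZgCB
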