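import Pool.Agent.Work.MP_d94bda_cb.InterfaceC

/-!
# Block RD2 of MP_d94bda_al: elimination of the small variables (typed by helper84)
-/

open scoped BigOperators

namespace Pool.ZgCB

universe u

open Classical in
/-- the reindexing map -/
noncomputable def RD2_f {n : ℕ} (P : Fin n → Prop) :
    Unit ⊕ Fin n → (Unit ⊕ {i : Fin n // ¬ P i}) ⊕ {i : Fin n // P i} :=
  Sum.elim (fun _ => Sum.inl (Sum.inl ()))
    (fun i => if h : P i then Sum.inr ⟨i, h⟩ else Sum.inl (Sum.inr ⟨i, h⟩))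

open Classical in
theorem RD2_elim {n : ℕ} (P : Fin n → Prop) {M : Type u} (y : M)
    (s : {i : Fin n // ¬ P i} → M) (z : {i : Fin n // P i} → M) :
    (fun j => Sum.elim (Sum.elim (fun _ => y) s) z (RD2_f P j)) =
      Sum.elim (fun _ => y) (fun i => if h : P i then z ⟨i, h⟩ else s ⟨i, h⟩) := by
  funext j
  rcases j with j | i
  · rfl
  · by_cases h : P i
    · simp [RD2_f, h]
    · simp [RD2_f, h]

theorem RD2_aux {R : Type u} [Ring R] (S : Subring R) {n : ℕ} (ρ' : PP R (Unit ⊕ Fin n))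
    (hρ : ρ'.Over S) (ψ : P1 R) (hψ : ψ.Over S) (P : Fin n → Prop)
    [Fintype {i : Fin n // ¬ P i}] [Fintype {i : Fin n // P i}] :
    ∃ ρ'' : PP R (Unit ⊕ {i : Fin n // ¬ P i}), ρ''.Over S ∧
      ∀ (M : Type u) [AddCommGroup M] [Module R M] (y : M) (s : {i : Fin n // ¬ P i} → M),
        atn ρ'' y s ↔ ∃ z : {i : Fin n // P i} → M,
          ρ'.ev M (fun j => Sum.elim (Sum.elim (fun _ => y) s) z (RD2_f P j)) ∧
          ∀ j, at1 ψ (z j) := by
  obtain ⟨ρ'', h1, h2⟩ := Dfn.ex (ι := Unit ⊕ {i : Fin n // ¬ P i}) (κ := {i : Fin n // P i})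
    (Dfn.and (Dfn.reidx (Dfn.of hρ) (RD2_f P))
      (Dfn.all (T := {i : Fin n // P i}) (fun j => Dfn.reidx (Dfn.of hψ)
        (fun _ : Unit => (Sum.inr j : (Unit ⊕ {i : Fin n // ¬ P i}) ⊕ {i : Fin n // P i})))))
  exact ⟨ρ'', h1, fun M _ _ y s => h2 M _⟩

theorem p_RD2 (h1 : Stmt_RD1.{u}) (h2 : Stmt_SML.{u}) (h3 : Stmt_TRP.{u}) : Stmt_RD2.{u} := by
  classical
  intro R _ C _ _ S N _ _ φ ψ p' p₁ N₁ _ _ a Ψ pb' pb b hC
  obtain ⟨n, m, c, ρ', hov, hlink, hsmall⟩ := h1 R C S N φ ψ p' p₁ N₁ a Ψ pb' pb b hC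
  have hp : ∀ i, ∀ θ ∈ p', at1 θ (algebraMap C R (c i) • a) := by
    intro i θ hθ
    have ha : at1 θ a := (hC.lhull.hull.type θ).2 (hC.lhull.loc.sub hθ)
    exact at1_central θ ha _ (fun r => Algebra.commutes (c i) r)
  have hs : ∀ i, at1 ψ (algebraMap C R (c i) • a) ∨
      ∀ ω : P1 R, ω.Over S → (at1 ω (algebraMap C R (c i) • a) ↔ ω ∈ p') := by
    intro i
    exact h2 R S N φ ψ p' hC.psi hC.smax N₁ hC.lhull.closed _ (hp i)
  obtain ⟨ρ'', hov'', hρ''⟩ := RD2_aux S ρ' hov ψ hC.psi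
    (fun i => at1 ψ (algebraMap C R (c i) • a))
  have hgood : Good S ψ p' N₁ Ψ b {i : Fin n // ¬ at1 ψ (algebraMap C R (c i) • a)} m ρ''
      (fun i => algebraMap C R (c i.1) • a) := by
    refine ⟨hov'', ?_, ?_, ?_⟩
    · intro i
      exact (hs i.1).resolve_left i.2
    · refine (hρ'' N₁ b _).2 ⟨fun j => algebraMap C R (c j.1) • a, ?_, fun j => j.2⟩
      rw [RD2_elim]
      have : (fun i => if h : at1 ψ (algebraMap C R (c i) • a) then algebraMap C R (c i) • a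
          else algebraMap C R (c i) • a) = fun i => algebraMap C R (c i) • a := by
        funext i
        split_ifs <;> rfl
      rw [this]
      exact hlink
    · intro y s hsψ hy
      obtain ⟨z, hz1, hz2⟩ := (hρ'' N₁ y s).1 hy
      rw [RD2_elim] at hz1
      refine hsmall y _ ?_ hz1
      intro i
      by_cases h : at1 ψ (algebraMap C R (c i) • a)
      · simp only [h, dite_true]
        exact hz2 ⟨i, h⟩
      · simp only [h, dite_false]
        exact hsψ ⟨i, h⟩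
  obtain ⟨ρ3, a3, hg⟩ := h3 R S ψ p' N₁ Ψ b _ m ρ'' _ hgood
  exact ⟨_, m, ρ3, a3, hg⟩

end Pool.ZgCB
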