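import Pool.Agent.Work.MP_d94bda_cb.InterfaceC

/-! # Block ROO: the element `a` -/

open scoped BigOperators

namespace Pool.ZgCB

universe u

theorem p_ROO (hLXC : Stmt_LXC.{u}) : Stmt_ROO.{u} := by
  intro R _ C _ _ S hDP N _ _ φ ψ p' hψ hm
  obtain ⟨p, N₁, i1, i2, a, hL⟩ := hLXC R C S hDP N (fun _ => ψ) p' (fun _ => Le.refl _)
    ⟨φ, hm.mem⟩
    (fun α hα β hβ => ⟨α.meet β, hm.meet α hα β hβ, meet_le_left α β, meet_le_right α β⟩)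
    (fun α hα ν hν hle _ => hm.avoid ν (hm.up α hα ν hν hle))
  refine ⟨p, N₁, i1, i2, a, hL, ?_, ?_⟩
  · refine ⟨a, (hL.hull.type φ).2 (hL.loc.sub hm.mem), fun h => ?_⟩
    exact hL.loc.avoid ψ ((hL.hull.type ψ).1 h) hψ 0 (fun _ hx => hx)
  · intro ω hω
    refine ⟨fun h => ?_, fun h => hL.loc.sub h⟩
    by_contra hn
    obtain ⟨κ, hκ, hcl⟩ := hm.max ω hω hn
    exact hL.loc.avoid (κ.meet ω) (hL.loc.fil.meet κ (hL.loc.sub hκ) ω h)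
      (PP.over_meet (hm.ovr κ hκ) hω) 0 hcl

end Pool.ZgCB
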