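import Pool.Agent.Work.MP_d94bda_cb.InterfaceB

/-!
# Block SEQ (helper79): the sequence of isolated points
-/

set_option autoImplicit false

namespace Pool.ZgCB

universe u

/-- A finite set of pairs which are closed on `N`. -/
structure SEQ_S (R : Type u) [Ring R] (N : Type u) [AddCommGroup N] [Module R N] where
  T : Set (P1 R × P1 R)
  fin : T.Finite
  cl : ∀ q ∈ T, Cl N q.1 q.2

/-- One step. -/
def SEQ_S.next {R : Type u} [Ring R] {N : Type u} [AddCommGroup N] [Module R N] (D : SEQ_S R N)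
    (q : P1 R × P1 R) (hq : Cl N q.1 q.2) : SEQ_S R N where
  T := insert q D.T
  fin := D.fin.insert q
  cl := by
    intro q' hq'
    rcases Set.mem_insert_iff.1 hq' with h | h
    · rw [h]
      exact hq
    · exact D.cl q' h

theorem SEQ_opn {R : Type u} [Ring R] {M N : Type u} [AddCommGroup M] [Module R M]
    [AddCommGroup N] [Module R N] (e : M ≃ₗ[R] N) {φ ψ : P1 R} (h : Opn M φ ψ) : Opn N φ ψ := by
  obtain ⟨a, h1, h2⟩ := h
  refine ⟨e a, at1_map φ e.toLinearMap h1, fun h3 => h2 ?_⟩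
  have h4 : at1 ψ (e.symm.toLinearMap (e a)) := at1_map ψ e.symm.toLinearMap h3
  have h5 : e.symm.toLinearMap (e a) = a := e.symm_apply_apply a
  rw [h5] at h4
  exact h4

theorem p_SEQ : Stmt_SEQ.{u} := by
  intro R _ N _ _ hN φ ψ m hyp
  have key : ∀ D : SEQ_S R N, ∃ (X : Type u) (_ : AddCommGroup X) (_ : Module R X) (q : P1 R × P1 R),
      (Point R X ∧ Opn X φ ψ ∧ PLen (R := R) m X) ∧ (∀ q' ∈ D.T, Cl X q'.1 q'.2) ∧ Opn X q.1 q.2 ∧
        Cl N q.1 q.2 := by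
    intro D
    obtain ⟨X, i1, i2, h1, ⟨a, b, h2, h3⟩, h4, h5, h6⟩ := hyp D.T D.fin D.cl
    refine ⟨X, i1, i2, (a, b), ⟨h1, h4, h5⟩, h6, h2, ?_⟩
    by_contra hcl
    have hopn : Opn N a b := not_cl.1 hcl
    obtain ⟨e⟩ := h3 N hN.1 hopn
    exact hN.2 ⟨a, b, hopn, fun M _ _ hM hMo => by
      obtain ⟨e'⟩ := h3 M hM hMo
      exact ⟨e'.trans e.symm⟩⟩
  choose X i1 i2 q h1 h2 h3 h4 using key
  obtain ⟨D, hD⟩ : ∃ D : ℕ → SEQ_S R N, ∀ n, D (n + 1) = (D n).next (q (D n)) (h4 (D n)) :=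
    ⟨fun n => Nat.rec ⟨∅, Set.finite_empty, fun _ h => absurd h (Set.notMem_empty _)⟩
      (fun _ D => D.next (q D) (h4 D)) n, fun _ => rfl⟩
  have hsub : ∀ i j, i ≤ j → (D i).T ⊆ (D j).T := by
    intro i j hij
    induction j, hij using Nat.le_induction with
    | base => exact subset_rfl
    | succ j _ ih =>
      rw [hD]
      exact ih.trans (Set.subset_insert _ _)
  have hmem : ∀ i j, i < j → q (D i) ∈ (D j).T := by
    intro i j hij
    refine hsub (i + 1) j hij ?_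
    rw [hD]
    exact Set.mem_insert _ _
  have hlt : ∀ i j, i < j → ¬ Nonempty (X (D i) ≃ₗ[R] X (D j)) := by
    rintro i j hij ⟨e⟩
    exact not_opn.2 (h2 (D j) _ (hmem i j hij)) (SEQ_opn e (h3 (D i)))
  refine ⟨fun j => X (D j), fun j => i1 (D j), fun j => i2 (D j), fun j => h1 (D j), ?_⟩
  rintro i j hij ⟨e⟩
  rcases lt_or_gt_of_ne hij with h | h
  · exact hlt i j h ⟨e⟩
  · exact hlt j i h ⟨e.symm⟩

end Pool.ZgCB
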