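import Pool.Agent.Work.MP_d94bda_cb.InterfaceC

open scoped BigOperators

namespace Pool.ZgCB

universe u

/-- the first five properties -/
structure SFI_Pre {R : Type u} [Ring R] (S : Subring R) (N : Type u) [AddCommGroup N] [Module R N]
    (φ ψ : P1 R) (p' : Set (P1 R)) : Prop where
  ovr : ∀ α ∈ p', α.Over S
  mem : φ ∈ p'
  meet : ∀ α ∈ p', ∀ β ∈ p', PP.meet α β ∈ p'
  up : ∀ α ∈ p', ∀ ν : P1 R, ν.Over S → Le α ν → ν ∈ p'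
  avoid : ∀ ν ∈ p', ¬ Cl N ν ψ

theorem p_SFI : Stmt_SFI.{u} := by
  classical
  intro R _ S N _ _ φ ψ hφ hop
  have h0 : SFI_Pre S N φ ψ {θ | θ.Over S ∧ Le φ θ} := by
    refine ⟨fun α h => h.1, ⟨hφ, Le.refl φ⟩, ?_, ?_, ?_⟩
    · intro α hα β hβ
      exact ⟨PP.over_meet hα.1 hβ.1, le_meet hα.2 hβ.2⟩
    · intro α hα ν hν hle
      exact ⟨hν, hα.2.trans hle⟩
    · intro ν hν hcl
      obtain ⟨a, ha, hna⟩ := hop
      exact hna (hcl a (hν.2 N a ha))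
  obtain ⟨p', hsub, hmax⟩ := zorn_subset_nonempty {p : Set (P1 R) | SFI_Pre S N φ ψ p} (by
    intro c hc hch hne
    refine ⟨⋃₀ c, ?_, fun s hs => Set.subset_sUnion_of_mem hs⟩
    refine ⟨?_, ?_, ?_, ?_, ?_⟩
    · rintro α ⟨t, ht, hα⟩
      exact (hc ht).ovr α hα
    · obtain ⟨t, ht⟩ := hne
      exact ⟨t, ht, (hc ht).mem⟩
    · rintro α ⟨t, ht, hα⟩ β ⟨t', ht', hβ⟩
      rcases hch.total ht ht' with h | h
      · exact ⟨t', ht', (hc ht').meet α (h hα) β hβ⟩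
      · exact ⟨t, ht, (hc ht).meet α hα β (h hβ)⟩
    · rintro α ⟨t, ht, hα⟩ ν hν hle
      exact ⟨t, ht, (hc ht).up α hα ν hν hle⟩
    · rintro ν ⟨t, ht, hν⟩
      exact (hc ht).avoid ν hν) _ h0
  have hp : SFI_Pre S N φ ψ p' := hmax.prop
  refine ⟨p', hp.ovr, hp.mem, hp.meet, hp.up, hp.avoid, ?_⟩
  intro ω hω hn
  by_contra hcon
  push Not at hcon
  let q : Set (P1 R) := {ν | ν.Over S ∧ ∃ κ ∈ p', Le (PP.meet κ ω) ν}
  have hpq : p' ⊆ q := fun ν hν => ⟨hp.ovr ν hν, ν, hν, meet_le_left ν ω⟩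
  have hωq : ω ∈ q := ⟨hω, φ, hp.mem, meet_le_right φ ω⟩
  have hq : SFI_Pre S N φ ψ q := by
    refine ⟨fun α h => h.1, hpq hp.mem, ?_, ?_, ?_⟩
    · rintro α ⟨hα, κ, hκ, h⟩ β ⟨hβ, κ', hκ', h'⟩
      refine ⟨PP.over_meet hα hβ, PP.meet κ κ', hp.meet κ hκ κ' hκ', ?_⟩
      intro M _ _ a ha
      rw [at1_meet, at1_meet] at ha
      rw [at1_meet]
      exact ⟨h M a ((at1_meet _ _ _).2 ⟨ha.1.1, ha.2⟩),
        h' M a ((at1_meet _ _ _).2 ⟨ha.1.2, ha.2⟩)⟩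
    · rintro α ⟨hα, κ, hκ, h⟩ ν hν hle
      exact ⟨hν, κ, hκ, h.trans hle⟩
    · rintro ν ⟨hν, κ, hκ, h⟩ hcl
      exact hcon κ hκ (fun a ha => hcl a (h N a ha))
  exact hn (hmax.le_of_ge hq hpq hωq)

end Pool.ZgCB
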