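import Pool.Agent.Work.MP_d94bda_cb.InterfaceA

/-!
# Block SFM (MP_d94bda_al, helper10)
-/

open scoped BigOperators

namespace Pool.ZgCB

universe u

theorem p_SFM : Stmt_SFM.{u} := by
  intro R _ J F X _ _
  refine ⟨fun φ ψ h => ?_, fun φ ψ χ h h' => ?_, fun α θ₁ θ₂ h h' => ?_,
    fun β₁ β₂ ψ h h' => ?_, fun μ ν θ ρ h h' => ?_⟩
  · exact Filter.Eventually.of_forall fun j a ha => h (X j) a ha
  · filter_upwards [h, h'] with j h1 h2 a ha
    exact h2 a (h1 a ha)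
  · filter_upwards [h, h'] with j h1 h2 a ha
    exact (at1_meet θ₁ θ₂ a).2 ⟨h1 a ha, h2 a ha⟩
  · filter_upwards [h, h'] with j h1 h2 a ha
    obtain ⟨b, c, hb, hc, rfl⟩ := (at1_join β₁ β₂ a).1 ha
    exact at1_add ψ (h1 b hb) (h2 c hc)
  · filter_upwards [h] with j h1 a ha
    obtain ⟨x, hx, hm⟩ := (at1_exr ρ μ a).1 ha
    exact h' (X j) a x hx (h1 x hm)

end Pool.ZgCB
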