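import Pool.Agent.Work.MP_d94bda_cb.InterfaceB

/-!
# Block SIG: a countable set of pairs isolates the point
-/

namespace Pool.ZgCB

universe u

theorem p_SIG (h1 : Stmt_SEQ.{u}) (h2 : Stmt_PIG.{u}) (h3 : Stmt_FGL.{u}) (h4 : Stmt_CL4.{u}) :
    Stmt_SIG.{u} := by
  intro R _ C _ _ _ _ N _ _ hN φ ψ hiso hR1
  have key : ∀ m : ℕ, ∃ T : Set (P1 R × P1 R), T.Finite ∧ (∀ q ∈ T, Cl N q.1 q.2) ∧
      ¬ ∃ (X : Type u) (_ : AddCommGroup X) (_ : Module R X), Point R X ∧ Isol R X ∧ Opn X φ ψ ∧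
        PLen (R := R) m X ∧ ∀ q ∈ T, Cl X q.1 q.2 := by
    intro m
    by_contra hcon
    push Not at hcon
    obtain ⟨X, iA, iM, hX, hne⟩ := h1 R N hN φ ψ m (by
      intro T hT hTN
      obtain ⟨X, iA, iM, hX1, hX2, hX3, hX4, hX5⟩ := hcon T hT hTN
      exact ⟨X, iA, iM, hX1, hX2, hX3, hX4, hX5⟩)
    exact @h2 R _ C _ _ _ _ N _ _ φ ψ hiso hR1 m X iA iM hX hne
  choose T hT hTN hTX using key
  refine ⟨⋃ m, T m, Set.countable_iUnion fun m => (hT m).countable, ?_, ?_⟩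
  · intro q hq
    obtain ⟨m, hm⟩ := Set.mem_iUnion.1 hq
    exact hTN m q hm
  · intro M iA iM hM hO hcl
    by_cases hI : Isol R M
    · exfalso
      obtain ⟨φ', ψ', hO', hu⟩ := hI
      have hfin : Module.Finite R M := (h4 R C M φ' ψ' hM hO' hu).1
      obtain ⟨n, hn⟩ := h3 R C M hfin
      exact hTX n ⟨M, iA, iM, hM, ⟨φ', ψ', hO', hu⟩, hO, hn,
        fun q hq => hcl q (Set.mem_iUnion.2 ⟨n, hq⟩)⟩
    · exact hiso M ⟨hM, hI⟩ hO

end Pool.ZgCB
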