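import Pool.Agent.Work.MP_d94bda_cb.InterfaceC

/-!
# MP_d94bda_al, THEOREM Z, block SML
-/

open scoped BigOperators

namespace Pool.ZgCB

universe u

theorem p_SML : Stmt_SML.{u} := by
  intro R _ S N _ _ φ ψ p' _ hmax N₁ _ _ htr z hz
  by_cases hall : ∀ ω : P1 R, ω.Over S → (at1 ω z ↔ ω ∈ p')
  · exact Or.inr hall
  · left
    obtain ⟨ω, hω⟩ := not_forall.1 hall
    obtain ⟨hS, hiff⟩ := Classical.not_imp.1 hω
    have hnm : ω ∉ p' := fun hmem => hiff ⟨fun _ => hmem, fun _ => hz ω hmem⟩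
    have hat : at1 ω z := by
      by_contra hcon
      exact hiff ⟨fun h => absurd h hcon, fun h => absurd h hnm⟩
    obtain ⟨κ, hκ, hcl⟩ := hmax.max ω hS hnm
    exact htr _ _ (PP.over_meet (hmax.ovr κ hκ) hS) (by assumption) hcl z
      ((at1_meet κ ω z).2 ⟨hz κ hκ, hat⟩)

end Pool.ZgCB
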