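import Pool.Agent.Work.MP_d94bda_cb.InterfaceC

open scoped BigOperators

namespace Pool.ZgCB

universe u

theorem p_SOL : Stmt_SOL.{u} := by
  classical
  intro R _ C _ _ _ _ r k s l G G₂
  let W : Submodule C ((Fin s → Fin r → R) × (Fin l → Fin k → R)) :=
    { carrier := {p | ∀ i j, ∑ e, G₂ i e * p.2 e j = ∑ e, p.1 i e * G e j}
      zero_mem' := by
        intro i j
        simp
      add_mem' := by
        intro p q hp hq i j
        have h1 := hp i j
        have h2 := hq i j
        simp only [Prod.snd_add, Prod.fst_add, Pi.add_apply, mul_add, add_mul,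
          Finset.sum_add_distrib]
        rw [h1, h2]
      smul_mem' := by
        intro c p hp i j
        have h1 := hp i j
        simp only [Prod.smul_snd, Prod.smul_fst, Pi.smul_apply, mul_smul_comm,
          smul_mul_assoc, ← Finset.smul_sum]
        rw [h1] }
  obtain ⟨T, hT⟩ := (IsNoetherian.noetherian W)
  have hTW : ∀ p ∈ T, p ∈ W := by
    intro p hp
    rw [← hT]
    exact Submodule.subset_span hp
  refine ⟨(⋃ p ∈ (T : Set ((Fin s → Fin r → R) × (Fin l → Fin k → R))),
    (Set.range (fun q : Fin s × Fin r => p.1 q.1 q.2) ∪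
      Set.range (fun q : Fin l × Fin k => p.2 q.1 q.2))), ?_, ?_⟩
  · exact T.countable_toSet.biUnion
      (fun p _ => (Set.countable_range _).union (Set.countable_range _))
  · intro H V hHV
    have hm : ((H, V) : (Fin s → Fin r → R) × (Fin l → Fin k → R)) ∈
        Submodule.span C (T : Set ((Fin s → Fin r → R) × (Fin l → Fin k → R))) := by
      rw [hT]
      exact hHV
    rw [Submodule.mem_span_finset] at hm
    obtain ⟨f, _, hf⟩ := hm
    let e := T.equivFin
    have hsum : ∑ t : Fin T.card, f (e.symm t).1 • (e.symm t).1 = (H, V) := by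
      rw [← hf, ← Finset.sum_coe_sort T (fun a => f a • a)]
      exact Equiv.sum_comp e.symm (fun a : T => f a.1 • a.1)
    refine ⟨T.card, fun t => f (e.symm t).1, fun t => (e.symm t).1.1, fun t => (e.symm t).1.2,
      ?_, ?_, ?_, ?_, ?_⟩
    · intro t i j
      exact Set.mem_biUnion (e.symm t).2 (Or.inl ⟨(i, j), rfl⟩)
    · intro t i j
      exact Set.mem_biUnion (e.symm t).2 (Or.inr ⟨(i, j), rfl⟩)
    · intro t i j
      exact hTW _ (e.symm t).2 i j
    · intro i j
      have h1 := congrArg (fun p => p.1 i j) hsum
      simp only [Prod.fst_sum, Finset.sum_apply, Prod.smul_fst, Pi.smul_apply] at h1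
      exact h1.symm
    · intro i j
      have h1 := congrArg (fun p => p.2 i j) hsum
      simp only [Prod.snd_sum, Finset.sum_apply, Prod.smul_snd, Pi.smul_apply] at h1
      exact h1.symm

end Pool.ZgCB
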