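import Pool.Agent.Work.MP_d94bda_cb.InterfaceB

/-!
# Block TA0: Theorem A for `R0`
-/

open scoped BigOperators

set_option autoImplicit false

namespace Pool.ZgCB

universe u

theorem p_TA0 (h1 : Stmt_THA.{u}) (h2 : Stmt_SLE.{u}) (h3 : Stmt_DER.{u}) (h4 : Stmt_NIS.{u}) : Stmt_TA0.{u} := by
  intro R _ C _ _ _ _ φ ψ h
  obtain ⟨N, iA, iM, hP, hO, hC⟩ := h1 R (R0 : P1 R → P1 R → Prop) (h3 R Le (h2 R)) φ ψ h
  exact ⟨N, iA, iM, h4 R C N hP hC, hO⟩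

end Pool.ZgCB
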