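import Pool.Agent.Work.MP_d94bda_cb.InterfaceA

set_option autoImplicit false

namespace Pool.ZgCB

universe u

theorem p_THA (hMXF : Stmt_MXF.{u}) (hTHH : Stmt_THH.{u}) : Stmt_THA.{u} := by
  intro R _ r hr φ ψ hn
  obtain ⟨p, hp, hφ, hψ, hcl, hmax⟩ := hMXF R r hr φ ψ hn
  have hbot : (botF : P1 R) ∉ p := fun h => hψ (hp.up _ h _ (bot_le ψ))
  have hirr : Irr p := by
    intro ω₁ ω₂ h1 h2
    obtain ⟨α₁, hα₁, hr1⟩ := hmax ω₁ h1
    obtain ⟨α₂, hα₂, hr2⟩ := hmax ω₂ h2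
    refine ⟨PP.meet α₁ α₂, hp.meet _ hα₁ _ hα₂, fun hj => hψ ?_⟩
    have h3 : r (PP.meet (PP.meet α₁ α₂) ω₁) ψ :=
      hr.trans _ _ _ (hr.le _ _ (le_meet ((meet_le_left _ _).trans (meet_le_left _ _))
        (meet_le_right _ _))) hr1
    have h4 : r (PP.meet (PP.meet α₁ α₂) ω₂) ψ :=
      hr.trans _ _ _ (hr.le _ _ (le_meet ((meet_le_left _ _).trans (meet_le_right _ _))
        (meet_le_right _ _))) hr2
    exact hcl _ hj _ (hr.join _ _ _ h3 h4)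
  obtain ⟨N, i1, i2, a, hull⟩ := hTHH R p hp hbot hirr
  refine ⟨N, i1, i2, hull.point, ⟨a, (hull.type φ).2 hφ, fun h => hψ ((hull.type ψ).1 h)⟩, ?_⟩
  intro μ ν hμν
  exact hull.closed μ ν (fun ρ θ h hex => hcl _ hex _ (hr.exr μ ν θ ρ hμν h))

end Pool.ZgCB
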