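import Pool.Agent.Work.MP_d94bda_cb.InterfaceC

/-! # Block THT: Theorem T -/

set_option autoImplicit false

namespace Pool.ZgCB

universe u

/-- the coefficients of a formula -/
def THT_coef {R : Type u} (θ : P1 R) : Set R :=
  Set.range (fun p : Fin θ.m × Unit => θ.A p.1 p.2) ∪
    Set.range (fun p : Fin θ.m × Fin θ.k => θ.B p.1 p.2)

theorem THT_countable {R : Type u} (θ : P1 R) : (THT_coef θ).Countable :=
  (Set.countable_range _).union (Set.countable_range _)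

theorem THT_over {R : Type u} [Ring R] {S : Subring R} (θ : P1 R)
    (h : THT_coef θ ⊆ (S : Set R)) : θ.Over S :=
  ⟨fun i j => h (Or.inl ⟨(i, j), rfl⟩), fun i l => h (Or.inr ⟨(i, l), rfl⟩)⟩

theorem p_THT (hDPC : Stmt_DPC.{u}) (hTRE : Stmt_TRE.{u}) (hSFI : Stmt_SFI.{u})
    (hBRA : Stmt_BRA.{u}) (hROO : Stmt_ROO.{u}) (hKEY : Stmt_KEY.{u}) (hCNT : Stmt_CNT.{u}) :
    Stmt_THT.{u} := by
  classical
  intro R _ C _ _ _ _ N _ _ φ ψ hopn hNM T hT hTcl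
  by_contra hcon
  obtain ⟨nm, hnm⟩ : ∃ nm : P1 R → P1 R → P1 R, ∀ θ θ',
      (∃ η, Le θ η ∧ Le η θ' ∧ Opn N η θ ∧ Opn N θ' η) →
      (Le θ (nm θ θ') ∧ Le (nm θ θ') θ' ∧ Opn N (nm θ θ') θ ∧ Opn N θ' (nm θ θ')) := by
    refine ⟨fun θ θ' => if h : ∃ η, Le θ η ∧ Le η θ' ∧ Opn N η θ ∧ Opn N θ' η then h.choose
      else θ, fun θ θ' h => ?_⟩
    have e : (fun θ θ' => if h : ∃ η, Le θ η ∧ Le η θ' ∧ Opn N η θ ∧ Opn N θ' η then h.choose
      else θ) θ θ' = h.choose := dif_pos h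
    rw [e]
    exact h.choose_spec
  obtain ⟨T0, hT0⟩ : ∃ T0 : Set R, T0 = (THT_coef φ ∪ THT_coef ψ) ∪
      ⋃ q ∈ T, (THT_coef q.1 ∪ THT_coef q.2) := ⟨_, rfl⟩
  have hT0c : T0.Countable := by
    rw [hT0]
    refine ((THT_countable φ).union (THT_countable ψ)).union ?_
    exact hT.biUnion fun q _ => (THT_countable q.1).union (THT_countable q.2)
  obtain ⟨S, hSc, hTS, hDP, hSnm⟩ := hDPC R C T0 hT0c nm
  have hφ : φ.Over S := THT_over φ fun r hr => hTS (by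
    rw [hT0]
    exact Or.inl (Or.inl hr))
  have hψ : ψ.Over S := THT_over ψ fun r hr => hTS (by
    rw [hT0]
    exact Or.inl (Or.inr hr))
  have hq : ∀ q ∈ T, q.1.Over S ∧ q.2.Over S := by
    intro q hq
    constructor
    · refine THT_over q.1 fun r hr => hTS ?_
      rw [hT0]
      exact Or.inr (Set.mem_biUnion hq (Or.inl hr))
    · refine THT_over q.2 fun r hr => hTS ?_
      rw [hT0]
      exact Or.inr (Set.mem_biUnion hq (Or.inr hr))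
  obtain ⟨Φ, Ψ, η, hTree⟩ := hTRE R S N φ ψ hφ hψ hopn (by
    intro θ θ' hθ hθ' h1 h2 h3 h4
    obtain ⟨g1, g2, g3, g4⟩ := hnm θ θ' (hNM θ θ' h1 h2 h3 h4)
    exact ⟨nm θ θ', hSnm θ θ' hθ hθ', g1, g2, g3, g4⟩)
  obtain ⟨p', hp'⟩ := hSFI R S N φ ψ hφ hopn
  obtain ⟨p₁, N₁, _, _, a, hL1, hO1, _⟩ := hROO R C S hDP N φ ψ p' hψ hp'
  have key : ∀ x : ℕ → Bool, ∃ P : Set (P1 R), (∀ n, Φ (pre x n) ∈ P) ∧
      (∀ n, Ψ (pre x n) ∉ P) ∧ ∃ (n m : ℕ) (ρ : PP R (Unit ⊕ Fin n)), ρ.Over S ∧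
        ∀ κ : P1 R, κ.Over S → Le (Ψ (pre x m)) κ → (κ ∈ P ↔ QQ S ψ p' n ρ κ) := by
    intro x
    obtain ⟨p, Nx, _, _, b, hLx, hOx⟩ := hBRA R C S hDP N φ ψ Φ Ψ η hTree x
    have hiso : Nonempty (N₁ ≃ₗ[R] Nx) := by
      by_contra hno
      refine hcon ⟨N₁, inferInstance, inferInstance, Nx, inferInstance, inferInstance,
        hL1.hull.point, hLx.hull.point, hO1, hOx, fun q hqT => ?_, fun q hqT => ?_, hno⟩
      · exact hL1.closed q.1 q.2 (hq q hqT).1 (hq q hqT).2 (hTcl q hqT)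
      · exact hLx.closed q.1 q.2 (hq q hqT).1 (hq q hqT).2 (hTcl q hqT)
    obtain ⟨e⟩ := hiso
    have htype : ∀ θ : P1 R, at1 θ (e.symm b) ↔ θ ∈ p := by
      intro θ
      rw [← hLx.hull.type θ]
      constructor
      · intro h
        have h1 := at1_map θ e.toLinearMap h
        have h2 : e.toLinearMap (e.symm b) = b := e.apply_symm_apply b
        rwa [h2] at h1
      · intro h
        exact at1_map θ e.symm.toLinearMap h
    refine ⟨p, fun n => hLx.loc.sub ⟨n, rfl⟩, fun n hn => ?_, ?_⟩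
    · exact hLx.loc.avoid _ hn (hTree.ovr _).2.1 n fun _ h => h
    · exact hKEY R C S N φ ψ p' p₁ N₁ a (fun n => Ψ (pre x n)) {θ | ∃ n, θ = Φ (pre x n)} p
        (e.symm b) ⟨hDP, hφ, hψ, hp', hL1, fun n => (hTree.ovr _).2.1, hLx.loc, htype⟩
  choose P hP1 hP2 hP3 using key
  exact hCNT R S hSc N φ ψ Φ Ψ η hTree P hP1 hP2 (fun n ρ κ => QQ S ψ p' n ρ κ) hP3

end Pool.ZgCB
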