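import Pool.Agent.Work.MP_d94bda_cb.InterfaceC

/-!
# MP_d94bda_al, block TRE: the binary tree of intervals
-/

open scoped BigOperators

namespace Pool.ZgCB

universe u

/-- the property of an interval `[q.2, q.1]` of the tree -/
structure TRE_ok {R : Type u} [Ring R] (S : Subring R) (N : Type u) [AddCommGroup N]
    [Module R N] (φ ψ : P1 R) (q : P1 R × P1 R) : Prop where
  o1 : q.1.Over S
  o2 : q.2.Over S
  lo : Le (φ.meet ψ) q.2
  mi : Le q.2 q.1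
  hi : Le q.1 φ
  op : Opn N q.1 q.2

section
variable {R : Type u} [Ring R] {S : Subring R} {N : Type u} [AddCommGroup N]
  [Module R N] {φ ψ : P1 R}

/-- one step down the tree -/
noncomputable def TRE_step
    (f : {q : P1 R × P1 R // TRE_ok S N φ ψ q} → P1 R)
    (hf : ∀ q, (f q).Over S ∧ Le q.1.2 (f q) ∧ Le (f q) q.1.1 ∧ Opn N (f q) q.1.2 ∧
      Opn N q.1.1 (f q)) (b : Bool) (q : {q : P1 R × P1 R // TRE_ok S N φ ψ q}) :
    {q : P1 R × P1 R // TRE_ok S N φ ψ q} :=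
  match b with
  | false => ⟨(f q, q.1.2), (hf q).1, q.2.o2, q.2.lo, (hf q).2.1, (hf q).2.2.1.trans q.2.hi,
      (hf q).2.2.2.1⟩
  | true => ⟨(q.1.1, f q), q.2.o1, (hf q).1, q.2.lo.trans (hf q).2.1, (hf q).2.2.1, q.2.hi,
      (hf q).2.2.2.2⟩

/-- the tree as a function on lists -/
noncomputable def TRE_tree
    (f : {q : P1 R × P1 R // TRE_ok S N φ ψ q} → P1 R)
    (hf : ∀ q, (f q).Over S ∧ Le q.1.2 (f q) ∧ Le (f q) q.1.1 ∧ Opn N (f q) q.1.2 ∧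
      Opn N q.1.1 (f q)) (q0 : {q : P1 R × P1 R // TRE_ok S N φ ψ q}) :
    List Bool → {q : P1 R × P1 R // TRE_ok S N φ ψ q}
  | [] => q0
  | b :: s => TRE_step f hf b (TRE_tree f hf q0 s)

end

theorem p_TRE : Stmt_TRE.{u} := by
  intro R _ S N _ _ φ ψ hφ hψ ho H
  have hex : ∀ q : {q : P1 R × P1 R // TRE_ok S N φ ψ q}, ∃ η : P1 R, η.Over S ∧
      Le q.1.2 η ∧ Le η q.1.1 ∧ Opn N η q.1.2 ∧ Opn N q.1.1 η := fun q =>
    H q.1.2 q.1.1 q.2.o2 q.2.o1 q.2.lo q.2.mi q.2.hi q.2.op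
  choose f hf using hex
  have h0 : TRE_ok S N φ ψ (φ, PP.meet φ ψ) := by
    refine ⟨hφ, PP.over_meet hφ hψ, Le.refl _, meet_le_left φ ψ, Le.refl _, ?_⟩
    obtain ⟨a, h1, h2⟩ := ho
    exact ⟨a, h1, fun h => h2 ((at1_meet φ ψ a).1 h).2⟩
  let T := TRE_tree f hf ⟨(φ, PP.meet φ ψ), h0⟩
  refine ⟨fun s => (T s).1.1, fun s => (T s).1.2, fun s => f (T s), ?_⟩
  exact
    { ovr := fun s => ⟨(T s).2.o1, (T s).2.o2, (hf (T s)).1⟩
      root := ⟨rfl, rfl⟩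
      opn := fun s => (T s).2.op
      le := fun s => ⟨(hf (T s)).2.1, (hf (T s)).2.2.1⟩
      child0 := fun s => ⟨rfl, rfl⟩
      child1 := fun s => ⟨rfl, rfl⟩ }

end Pool.ZgCB
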