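import Pool.Agent.Work.MP_d94bda_cb.InterfaceC

set_option autoImplicit false

open scoped BigOperators

namespace Pool.ZgCB

universe u

theorem p_TRP : Stmt_TRP.{u} := by
  intro R _ S ψ p' N₁ _ _ Ψ b I _ m ρ' a' hG
  classical
  obtain ⟨ρ'', hρ, hev⟩ := (Dfn.of hG.ovr).reidx
    (Sum.map id (Fintype.equivFin I) : Unit ⊕ I → Unit ⊕ Fin (Fintype.card I))
  have key : ∀ (y : N₁) (s : Fin (Fintype.card I) → N₁),
      atn ρ'' y s ↔ atn ρ' y (fun i => s (Fintype.equivFin I i)) := by
    intro y s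
    unfold atn
    rw [hev]
    have e : (fun c : Unit ⊕ I => (Sum.elim (fun _ => y) s : Unit ⊕ Fin (Fintype.card I) → N₁)
        (Sum.map id (Fintype.equivFin I) c)) =
        Sum.elim (fun _ => y) (fun i => s (Fintype.equivFin I i)) := by
      funext c
      rcases c with c | c <;> rfl
    show ρ'.ev N₁ (fun c => (Sum.elim (fun _ => y) s : Unit ⊕ Fin (Fintype.card I) → N₁)
        (Sum.map id (Fintype.equivFin I) c)) ↔ _
    rw [e]
  refine ⟨ρ'', fun j => a' ((Fintype.equivFin I).symm j), hρ, ?_, ?_, ?_⟩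
  · intro j ω hω
    exact hG.type _ ω hω
  · rw [key]
    simpa only [Equiv.symm_apply_apply] using hG.link
  · intro y s hs h
    exact hG.small y _ (fun i => hs _) ((key y s).1 h)

end Pool.ZgCB
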